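import Pool.Agent.H47.Trop.Defs

set_option autoImplicit false

/-!
Job TS-7: lattice simplices of volume `1/24` in four-space (helper38).
-/

namespace Pool.Agent.H47.Trop

open MeasureTheory

/-- An integer point as a real point. -/
def realPt (x : Fin 4 → ℤ) : Fin 4 → ℝ := fun i => (x i : ℝ)

/-- volume of the corner simplex -/
theorem vol_corner (n : ℕ) {t : ℝ} (ht : 0 ≤ t) :
    volume {x : Fin n → ℝ | (∀ i, 0 ≤ x i) ∧ ∑ i, x i ≤ t} =
      ENNReal.ofReal (t ^ n / n.factorial) := by
  induction n generalizing t with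
  | zero =>
    have : {x : Fin 0 → ℝ | (∀ i, 0 ≤ x i) ∧ ∑ i, x i ≤ t} = Set.univ := by
      ext x
      simp [ht]
    rw [this, volume_pi, Measure.pi_univ]
    simp
  | succ n ih =>
    have hmeas : ∀ m : ℕ, ∀ s : ℝ, MeasurableSet {x : Fin m → ℝ | (∀ i, 0 ≤ x i) ∧ ∑ i, x i ≤ s} := by
      intro m s
      refine MeasurableSet.inter ?_ ?_
      · have : {x : Fin m → ℝ | ∀ i, 0 ≤ x i} = ⋂ i, {x : Fin m → ℝ | 0 ≤ x i} := by
          ext x; simp
        change MeasurableSet {x : Fin m → ℝ | ∀ i, 0 ≤ x i}
        rw [this]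
        exact MeasurableSet.iInter fun i => measurableSet_le measurable_const (measurable_pi_apply i)
      · exact measurableSet_le (Finset.measurable_fun_sum _ fun i _ => measurable_pi_apply i)
          measurable_const
    let e := MeasurableEquiv.piFinSuccAbove (fun _ : Fin (n + 1) => ℝ) 0
    have he : MeasurePreserving e volume (volume.prod volume) :=
      volume_preserving_piFinSuccAbove (fun _ : Fin (n + 1) => ℝ) 0
    have h1 : {x : Fin (n + 1) → ℝ | (∀ i, 0 ≤ x i) ∧ ∑ i, x i ≤ t} =
        e ⁻¹' {p : ℝ × (Fin n → ℝ) | 0 ≤ p.1 ∧ (∀ i, 0 ≤ p.2 i) ∧ ∑ i, p.2 i ≤ t - p.1} := by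
      ext x
      simp only [Set.mem_setOf_eq, Set.mem_preimage]
      have e1 : (e x).1 = x 0 := rfl
      have e2 : ∀ i, (e x).2 i = x i.succ := fun i => rfl
      rw [e1, Fin.sum_univ_succ, Fin.forall_fin_succ]
      simp only [e2]
      constructor
      · rintro ⟨⟨h0, h⟩, h'⟩
        exact ⟨h0, h, by linarith⟩
      · rintro ⟨h0, h, h'⟩
        exact ⟨⟨h0, h⟩, by linarith⟩
    have hms : MeasurableSet {p : ℝ × (Fin n → ℝ) | 0 ≤ p.1 ∧ (∀ i, 0 ≤ p.2 i) ∧
        ∑ i, p.2 i ≤ t - p.1} := by
      have h2 : {p : ℝ × (Fin n → ℝ) | 0 ≤ p.1 ∧ (∀ i, 0 ≤ p.2 i) ∧ ∑ i, p.2 i ≤ t - p.1} =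
          e.symm ⁻¹' {x : Fin (n + 1) → ℝ | (∀ i, 0 ≤ x i) ∧ ∑ i, x i ≤ t} := by
        rw [h1, ← Set.preimage_comp]
        simp
      rw [h2]
      exact e.symm.measurable (hmeas (n + 1) t)
    rw [h1, he.measure_preimage hms.nullMeasurableSet, Measure.prod_apply hms]
    have h3 : ∀ s : ℝ, volume (Prod.mk s ⁻¹' {p : ℝ × (Fin n → ℝ) | 0 ≤ p.1 ∧ (∀ i, 0 ≤ p.2 i) ∧
        ∑ i, p.2 i ≤ t - p.1}) = (Set.Icc 0 t).indicator
          (fun s => ENNReal.ofReal ((t - s) ^ n / n.factorial)) s := by
      intro s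
      by_cases hs : s ∈ Set.Icc 0 t
      · rw [Set.indicator_of_mem hs, ← ih (by linarith [hs.2] : 0 ≤ t - s)]
        congr 1
        ext y
        simp only [Set.mem_preimage, Set.mem_setOf_eq]
        exact ⟨fun h => h.2, fun h => ⟨hs.1, h⟩⟩
      · rw [Set.indicator_of_notMem hs]
        have : Prod.mk s ⁻¹' {p : ℝ × (Fin n → ℝ) | 0 ≤ p.1 ∧ (∀ i, 0 ≤ p.2 i) ∧
            ∑ i, p.2 i ≤ t - p.1} = ∅ := by
          ext y
          simp only [Set.mem_preimage, Set.mem_setOf_eq, Set.mem_empty_iff_false, iff_false]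
          rintro ⟨h4, h5, h6⟩
          apply hs
          have : 0 ≤ ∑ i, y i := Finset.sum_nonneg fun i _ => h5 i
          exact ⟨h4, by linarith⟩
        rw [this, measure_empty]
    simp_rw [h3]
    rw [lintegral_indicator measurableSet_Icc]
    have hint : IntegrableOn (fun s => (t - s) ^ n / (n.factorial : ℝ)) (Set.Icc 0 t) :=
      Continuous.integrableOn_Icc (by fun_prop)
    rw [← ofReal_integral_eq_lintegral_ofReal hint]
    · congr 1
      rw [integral_Icc_eq_integral_Ioc, ← intervalIntegral.integral_of_le ht,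
        intervalIntegral.integral_div, intervalIntegral.integral_comp_sub_left (fun x => x ^ n) t]
      rw [integral_pow]
      rw [Nat.factorial_succ]
      have : (n.factorial : ℝ) ≠ 0 := by positivity
      push_cast
      field_simp
      simp
    · refine (ae_restrict_iff' measurableSet_Icc).2 (Filter.Eventually.of_forall fun s hs => ?_)
      have : 0 ≤ t - s := by linarith [hs.2]
      exact div_nonneg (pow_nonneg this n) (by positivity)

/-- the corner simplex is the convex hull of the origin and the unit vectors -/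
theorem corner_eq : convexHull ℝ (Set.range (Fin.cons 0 fun i : Fin 4 => (Pi.single i (1 : ℝ)) :
      Fin 5 → Fin 4 → ℝ)) = {x : Fin 4 → ℝ | (∀ i, 0 ≤ x i) ∧ ∑ i, x i ≤ 1} := by
  apply Set.Subset.antisymm
  · apply convexHull_min
    · rintro _ ⟨k, rfl⟩
      refine Fin.cases ?_ (fun i => ?_) k
      · simp
      · simp only [Fin.cons_succ, Set.mem_setOf_eq]
        constructor
        · intro j
          by_cases h : j = i
          · subst h; simp
          · simp [Pi.single_eq_of_ne h]
        · simp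
    · intro x hx y hy a b ha hb hab
      simp only [Set.mem_setOf_eq, Pi.add_apply, Pi.smul_apply, smul_eq_mul] at hx hy ⊢
      constructor
      · intro i
        have := hx.1 i
        have := hy.1 i
        positivity
      · rw [Finset.sum_add_distrib, ← Finset.mul_sum, ← Finset.mul_sum]
        nlinarith [hx.2, hy.2]
  · intro x hx
    obtain ⟨h0, h1⟩ := hx
    have hmem : ∀ k : Fin 5, (Fin.cons 0 fun i : Fin 4 => (Pi.single i (1 : ℝ)) :
        Fin 5 → Fin 4 → ℝ) k ∈ convexHull ℝ (Set.range (Fin.cons 0 fun i : Fin 4 =>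
          (Pi.single i (1 : ℝ)) : Fin 5 → Fin 4 → ℝ)) :=
      fun k => subset_convexHull ℝ _ ⟨k, rfl⟩
    have h2 := (convex_convexHull ℝ (Set.range (Fin.cons 0 fun i : Fin 4 =>
          (Pi.single i (1 : ℝ)) : Fin 5 → Fin 4 → ℝ))).sum_mem (t := Finset.univ)
      (w := (Fin.cons (1 - ∑ i, x i) x : Fin 5 → ℝ))
      (z := (Fin.cons 0 fun i : Fin 4 => (Pi.single i (1 : ℝ)) : Fin 5 → Fin 4 → ℝ))
      (fun k _ => by
        refine Fin.cases ?_ (fun i => ?_) k
        · simpa using h1
        · simpa using h0 i)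
      (by rw [Fin.sum_univ_succ]; simp) (fun k _ => hmem k)
    rw [Fin.sum_univ_succ] at h2
    simp only [Fin.cons_zero, smul_zero, Fin.cons_succ, zero_add] at h2
    have h3 : ∑ i : Fin 4, x i • (Pi.single i (1 : ℝ) : Fin 4 → ℝ) = x := by
      funext j
      simp [Finset.sum_apply, Pi.single_apply]
    rwa [h3] at h2

/-- volume of a simplex with integer vertices -/
theorem volume_simplex (v : Fin 5 → Fin 4 → ℤ) :
    volume (convexHull ℝ (Set.range fun k => realPt (v k))) =
      ENNReal.ofReal (|((Matrix.of fun i j : Fin 4 => v i.succ j - v 0 j).det : ℝ)|) *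
        ENNReal.ofReal (1 / 24) := by
  set M : Matrix (Fin 4) (Fin 4) ℤ := Matrix.of fun i j : Fin 4 => v i.succ j - v 0 j with hM
  let Mr : Matrix (Fin 4) (Fin 4) ℝ := M.map (Int.cast : ℤ → ℝ)
  let L : (Fin 4 → ℝ) →ₗ[ℝ] (Fin 4 → ℝ) := Matrix.toLin' Mr.transpose
  have hL : ∀ x j, L x j = ∑ i, x i * ((v i.succ j : ℝ) - (v 0 j : ℝ)) := by
    intro x j
    simp only [L, Matrix.toLin'_apply, Matrix.mulVec, dotProduct, Mr, Matrix.transpose_apply,
      Matrix.map_apply, hM, Matrix.of_apply]
    refine Finset.sum_congr rfl fun i _ => ?_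
    push_cast
    ring
  let g : (Fin 4 → ℝ) →ᵃ[ℝ] (Fin 4 → ℝ) := L.toAffineMap + AffineMap.const ℝ _ (realPt (v 0))
  have hg : ∀ x, g x = L x + realPt (v 0) := fun x => rfl
  have h1 : (Set.range fun k => realPt (v k)) = g '' (Set.range (Fin.cons 0 fun i : Fin 4 =>
      (Pi.single i (1 : ℝ)) : Fin 5 → Fin 4 → ℝ)) := by
    rw [← Set.range_comp]
    congr 1
    funext k
    rw [Function.comp_apply, hg]
    refine Fin.cases ?_ (fun i => ?_) k
    · simp
    · funext j
      rw [Fin.cons_succ, Pi.add_apply, hL]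
      simp [realPt, Pi.single_apply]
  rw [h1, ← AffineMap.image_convexHull, corner_eq]
  have h2 : g '' {x : Fin 4 → ℝ | (∀ i, 0 ≤ x i) ∧ ∑ i, x i ≤ 1} =
      (fun y => y + realPt (v 0)) '' (L '' {x : Fin 4 → ℝ | (∀ i, 0 ≤ x i) ∧ ∑ i, x i ≤ 1}) := by
    rw [← Set.image_comp]
    rfl
  rw [h2, Set.image_add_right, measure_preimage_add_right, Measure.addHaar_image_linearMap,
    vol_corner 4 zero_le_one]
  congr 2
  · congr 1
    rw [LinearMap.det_toLin', Matrix.det_transpose]
    have : Mr.det = ((M.det : ℤ) : ℝ) := by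
      have := (Int.castRingHom ℝ).map_det M
      rw [← eq_intCast (Int.castRingHom ℝ), this]
      rfl
    rw [this]
  · norm_num [Nat.factorial]

/-- A lattice simplex with determinant `±1` has volume `1/24`. -/
theorem volume_of_det (v : Fin 5 → Fin 4 → ℤ)
    (h : (Matrix.of fun i j : Fin 4 => v i.succ j - v 0 j).det = 1 ∨
      (Matrix.of fun i j : Fin 4 => v i.succ j - v 0 j).det = -1) :
    volume (convexHull ℝ (Set.range fun k => realPt (v k))) = 1 / 24 := by
  rw [volume_simplex]
  have h24 : ENNReal.ofReal (1 / 24) = 1 / 24 := by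
    rw [ENNReal.ofReal_div_of_pos (by norm_num), ENNReal.ofReal_one]
    congr 1
    exact ENNReal.ofReal_ofNat 24
  rcases h with h | h <;> rw [h, h24] <;> simp

theorem realPt_injective : Function.Injective realPt := by
  intro x y h
  funext i
  have := congrFun h i
  simpa [realPt] using this

/-- five affinely independent points span everything, and conversely full span gives nonzero
determinant -/
theorem det_ne_zero_of_affineIndependent (v : Fin 5 → Fin 4 → ℤ)
    (h : AffineIndependent ℝ fun k => realPt (v k)) :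
    (Matrix.of fun i j : Fin 4 => v i.succ j - v 0 j).det ≠ 0 := by
  intro hdet
  obtain ⟨c, hc, hc0⟩ := Matrix.exists_vecMul_eq_zero_iff.2 hdet
  have h1 : AffineIndependent ℝ fun k => realPt (v k) := h
  rw [affineIndependent_iff] at h1
  have h2 := h1 Finset.univ (Fin.cons (-∑ i, (c i : ℝ)) fun i => (c i : ℝ)) (by
    rw [Fin.sum_univ_succ]; simp) (by
    rw [Fin.sum_univ_succ]
    simp only [Fin.cons_zero, Fin.cons_succ]
    funext j
    have h3 := congrFun hc0 j
    simp only [Matrix.vecMul, dotProduct, Matrix.of_apply, Pi.zero_apply] at h3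
    have h4 : ∑ i, (c i : ℝ) * ((v i.succ j : ℝ) - (v 0 j : ℝ)) = 0 := by
      exact_mod_cast h3
    simp only [Pi.add_apply, Pi.smul_apply, smul_eq_mul, Finset.sum_apply, realPt, Pi.zero_apply]
    have h5 : ∑ i, (c i : ℝ) * ((v i.succ j : ℝ) - (v 0 j : ℝ)) =
        ∑ i, (c i : ℝ) * (v i.succ j : ℝ) - (∑ i, (c i : ℝ)) * (v 0 j : ℝ) := by
      rw [Finset.sum_mul, ← Finset.sum_sub_distrib]
      exact Finset.sum_congr rfl fun i _ => by ring
    linarith)
  apply hc
  funext i
  have := h2 i.succ (Finset.mem_univ _)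
  simpa using this

/-- A finite set of integer points whose convex hull is full-dimensional of volume `1/24`
consists of the five vertices of a unimodular simplex: for every point `x` of it there is an integral
affine function with value `1` at `x` and `0` at the other points. -/
theorem unimodular_of_volume (X : Finset (Fin 4 → ℤ))
    (hspan : affineSpan ℝ (realPt '' (X : Set (Fin 4 → ℤ))) = ⊤)
    (hvol : volume (convexHull ℝ (realPt '' (X : Set (Fin 4 → ℤ)))) = 1 / 24) :
    X.card = 5 ∧ ∀ x ∈ X, ∃ (d : Fin 4 → ℤ) (c : ℤ), ∀ y ∈ X,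
      ∑ i, d i * y i + c = if y = x then 1 else 0 := by
  classical
  -- five affinely independent points
  obtain ⟨T, hTX, hTspan, hTind⟩ := exists_affineIndependent ℝ (Fin 4 → ℝ)
    (realPt '' (X : Set (Fin 4 → ℤ)))
  rw [hspan] at hTspan
  have hTfin : T.Finite := Set.Finite.subset (X.finite_toSet.image realPt) hTX
  have : Fintype T := hTfin.fintype
  have hcard : Fintype.card T = 5 := by
    have h1 := (hTind.affineSpan_eq_top_iff_card_eq_finrank_add_one).1 (by
      rw [Subtype.range_coe]; exact hTspan)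
    rw [h1]
    simp
  let eT : Fin 5 ≃ T := (Fintype.equivFinOfCardEq hcard).symm
  have hpre : ∀ k : Fin 5, ∃ y ∈ X, realPt y = (eT k : Fin 4 → ℝ) := by
    intro k
    obtain ⟨y, hy, h⟩ := hTX (eT k).2
    exact ⟨y, hy, h⟩
  choose v hvX hv using hpre
  have hvind : AffineIndependent ℝ fun k => realPt (v k) := by
    have h1 := hTind.comp_embedding eT.toEmbedding
    have h2 : (fun k => realPt (v k)) = (fun p : T => (p : Fin 4 → ℝ)) ∘ eT.toEmbedding := by
      funext k
      exact hv k
    rw [h2]
    exact h1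
  set M : Matrix (Fin 4) (Fin 4) ℤ := Matrix.of fun i j : Fin 4 => v i.succ j - v 0 j with hM
  have hdet0 : M.det ≠ 0 := det_ne_zero_of_affineIndependent v hvind
  have hsub : (Set.range fun k => realPt (v k)) ⊆ realPt '' (X : Set (Fin 4 → ℤ)) := by
    rintro _ ⟨k, rfl⟩
    exact ⟨v k, hvX k, rfl⟩
  have hC : convexHull ℝ (Set.range fun k => realPt (v k)) ⊆
      convexHull ℝ (realPt '' (X : Set (Fin 4 → ℤ))) := convexHull_mono hsub
  have h24 : ENNReal.ofReal (1 / 24) = 1 / 24 := by
    rw [ENNReal.ofReal_div_of_pos (by norm_num), ENNReal.ofReal_one]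
    congr 1
    exact ENNReal.ofReal_ofNat 24
  have hdet1 : |M.det| = 1 := by
    have h1 := measure_mono (μ := volume) hC
    rw [hvol, volume_simplex, ← h24, ← ENNReal.ofReal_mul (abs_nonneg _),
      ENNReal.ofReal_le_ofReal_iff (by norm_num)] at h1
    have h2 : |(M.det : ℝ)| ≤ 1 := by
      have : |(M.det : ℝ)| * (1 / 24) ≤ 1 / 24 := h1
      linarith
    have h3 : |M.det| ≤ 1 := by exact_mod_cast h2
    have h4 : 0 < |M.det| := abs_pos.2 hdet0
    omega
  have hunit : M.det = 1 ∨ M.det = -1 := by
    rcases abs_eq (by norm_num : (0 : ℤ) ≤ 1) |>.1 hdet1 with h | h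
    · exact Or.inl h
    · exact Or.inr h
  have hsq : M.det * M.det = 1 := by
    rcases hunit with h | h <;> rw [h] <;> norm_num
  -- integral inverse
  let N : Matrix (Fin 4) (Fin 4) ℤ := M.det • M.adjugate
  have hMN : M * N = 1 := by
    rw [Matrix.mul_smul, Matrix.mul_adjugate, smul_smul, hsq, one_smul]
  have hNM : N * M = 1 := by
    rw [Matrix.smul_mul, Matrix.adjugate_mul, smul_smul, hsq, one_smul]
  -- barycentric coordinates
  let lam : (Fin 4 → ℤ) → Fin 4 → ℤ := fun y => Matrix.vecMul (y - v 0) N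
  let bar : (Fin 4 → ℤ) → Fin 5 → ℤ := fun y => Fin.cons (1 - ∑ i, lam y i) (lam y)
  have hlam_v : ∀ k : Fin 4, lam (v k.succ) = Pi.single k 1 := by
    intro k
    have h1 : v k.succ - v 0 = Matrix.vecMul (Pi.single k 1) M := by
      rw [Matrix.single_one_vecMul]
      rfl
    show Matrix.vecMul (v k.succ - v 0) N = _
    rw [h1, Matrix.vecMul_vecMul, hMN, Matrix.vecMul_one]
  have hlam_0 : lam (v 0) = 0 := by
    show Matrix.vecMul (v 0 - v 0) N = _
    rw [sub_self, Matrix.zero_vecMul]
  have hbar_v : ∀ k l : Fin 5, bar (v k) l = if k = l then 1 else 0 := by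
    intro k
    refine Fin.cases ?_ (fun k => ?_) k
    · intro l
      refine Fin.cases ?_ (fun l => ?_) l
      · simp [bar, hlam_0]
      · simp only [bar, Fin.cons_succ, hlam_0, Pi.zero_apply]
        rw [if_neg (Fin.succ_ne_zero l).symm]
    · intro l
      refine Fin.cases ?_ (fun l => ?_) l
      · simp only [bar, Fin.cons_zero, hlam_v]
        rw [if_neg (Fin.succ_ne_zero k)]
        simp
      · simp only [bar, Fin.cons_succ, hlam_v, Pi.single_apply, Fin.succ_inj]
        simp only [eq_comm]
  have hbar_sum : ∀ y, ∑ k, bar y k = 1 := by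
    intro y
    rw [Fin.sum_univ_succ]
    simp [bar]
  -- reconstruction
  have hrec : ∀ y, y = ∑ k, bar y k • v k := by
    intro y
    have h1 : Matrix.vecMul (lam y) M = y - v 0 := by
      show Matrix.vecMul (Matrix.vecMul (y - v 0) N) M = _
      rw [Matrix.vecMul_vecMul, hNM, Matrix.vecMul_one]
    funext j
    have h2 := congrFun h1 j
    simp only [Matrix.vecMul, dotProduct, hM, Matrix.of_apply, Pi.sub_apply] at h2
    rw [Fin.sum_univ_succ]
    simp only [Pi.add_apply, Finset.sum_apply, Pi.smul_apply, smul_eq_mul, bar, Fin.cons_zero,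
      Fin.cons_succ]
    have h3 : ∑ i, lam y i * (v i.succ j - v 0 j) =
        ∑ i, lam y i * v i.succ j - (∑ i, lam y i) * v 0 j := by
      rw [Finset.sum_mul, ← Finset.sum_sub_distrib]
      exact Finset.sum_congr rfl fun i _ => by ring
    have h4 : ∑ i, lam y i * (v i.succ j - v 0 j) = y j - v 0 j := h2
    linarith
  -- affine form of the coordinates
  have haff : ∀ k : Fin 5, ∃ (d : Fin 4 → ℤ) (c : ℤ), ∀ y, ∑ i, d i * y i + c = bar y k := by
    have hform : ∀ y : Fin 4 → ℤ, ∀ k : Fin 4, lam y k =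
        ∑ i, N i k * y i + (-∑ i, N i k * v 0 i) := by
      intro y k
      show ∑ i, (y i - v 0 i) * N i k = _
      rw [← sub_eq_add_neg, ← Finset.sum_sub_distrib]
      exact Finset.sum_congr rfl fun i _ => by ring
    intro k
    refine Fin.cases ?_ (fun k => ?_) k
    · refine ⟨fun i => -∑ k, N i k, 1 + ∑ k, ∑ i, N i k * v 0 i, fun y => ?_⟩
      show _ = 1 - ∑ k, lam y k
      have h1 : ∑ k, lam y k = ∑ i, (∑ k, N i k) * y i - ∑ k, ∑ i, N i k * v 0 i := by
        simp_rw [hform y]
        rw [Finset.sum_add_distrib, Finset.sum_comm, Finset.sum_neg_distrib, ← sub_eq_add_neg]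
        congr 1
        exact Finset.sum_congr rfl fun i _ => by rw [Finset.sum_mul]
      rw [h1]
      have h2 : ∑ i, (-∑ k, N i k) * y i = -∑ i, (∑ k, N i k) * y i := by
        rw [← Finset.sum_neg_distrib]
        exact Finset.sum_congr rfl fun i _ => by ring
      rw [h2]
      ring
    · exact ⟨fun i => N i k, -∑ i, N i k * v 0 i, fun y => (hform y k).symm⟩
  -- every point of `X` is one of the five points
  have hX : ∀ x ∈ X, ∃ k, x = v k := by
    intro x hx
    by_contra hne
    push Not at hne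
    -- some coordinate is negative
    have hneg : ∃ k, bar x k < 0 := by
      by_contra hcon
      push Not at hcon
      have h1 : ∃ k, bar x k ≠ 0 := by
        by_contra h0
        push Not at h0
        have := hbar_sum x
        simp [h0] at this
      obtain ⟨k, hk⟩ := h1
      have h2 : 1 ≤ bar x k := by
        have := hcon k
        omega
      have h3 : ∀ l, l ≠ k → bar x l = 0 := by
        intro l hl
        have h4 := hbar_sum x
        have h5 : bar x k + bar x l ≤ ∑ m, bar x m := by
          rw [← Finset.sum_pair (Ne.symm hl)]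
          exact Finset.sum_le_sum_of_subset_of_nonneg (Finset.subset_univ _) fun m _ _ => hcon m
        have := hcon l
        omega
      have h6 : bar x k = 1 := by
        have h4 := hbar_sum x
        rw [Finset.sum_eq_single k (fun l _ hl => h3 l hl) (fun h => absurd (Finset.mem_univ _) h)]
          at h4
        exact h4
      apply hne k
      conv_lhs => rw [hrec x]
      rw [Finset.sum_eq_single k (fun l _ hl => by rw [h3 l hl, zero_smul])
        (fun h => absurd (Finset.mem_univ _) h), h6, one_smul]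
    obtain ⟨k, hk⟩ := hneg
    obtain ⟨d, c, hdc⟩ := haff k
    -- real affine function
    let F : (Fin 4 → ℝ) → ℝ := fun z => ∑ i, (d i : ℝ) * z i + c
    have hF : ∀ y : Fin 4 → ℤ, F (realPt y) = (bar y k : ℝ) := by
      intro y
      show ∑ i, (d i : ℝ) * (y i : ℝ) + c = _
      rw [← hdc y]
      push_cast
      rfl
    have hFcont : Continuous F := by
      show Continuous fun z : Fin 4 → ℝ => ∑ i, (d i : ℝ) * z i + c
      fun_prop
    have hFaff : ∀ (z z' : Fin 4 → ℝ) (a b : ℝ), a + b = 1 →
        F (a • z + b • z') = a * F z + b * F z' := by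
      intro z z' a b hab
      show ∑ i, (d i : ℝ) * (a * z i + b * z' i) + c = a * (∑ i, (d i : ℝ) * z i + c) +
        b * (∑ i, (d i : ℝ) * z' i + c)
      have h1 : ∑ i, (d i : ℝ) * (a * z i + b * z' i) =
          a * ∑ i, (d i : ℝ) * z i + b * ∑ i, (d i : ℝ) * z' i := by
        rw [Finset.mul_sum, Finset.mul_sum, ← Finset.sum_add_distrib]
        exact Finset.sum_congr rfl fun i _ => by ring
      rw [h1]
      have : (c : ℝ) = a * c + b * c := by rw [← add_mul, hab, one_mul]
      linarith
    set C := convexHull ℝ (realPt '' (X : Set (Fin 4 → ℤ))) with hCdef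
    set D := convexHull ℝ (Set.range fun k => realPt (v k)) with hDdef
    have hDpos : D ⊆ {z | 0 ≤ F z} := by
      apply convexHull_min
      · rintro _ ⟨l, rfl⟩
        show 0 ≤ F (realPt (v l))
        rw [hF, hbar_v]
        split_ifs <;> simp
      · intro z hz z' hz' a b ha hb hab
        show 0 ≤ F (a • z + b • z')
        rw [hFaff z z' a b hab]
        have h1 : 0 ≤ F z := hz
        have h2 : 0 ≤ F z' := hz'
        positivity
    have hxC : realPt x ∈ C := subset_convexHull ℝ _ ⟨x, hx, rfl⟩
    have hFx : F (realPt x) < 0 := by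
      rw [hF]
      exact_mod_cast hk
    have hint : (interior C).Nonempty := by
      rw [hCdef, interior_convexHull_nonempty_iff_affineSpan_eq_top]
      exact hspan
    obtain ⟨p, hp⟩ := hint
    have hU : (interior C ∩ {z | F z < 0}).Nonempty := by
      -- move from x towards p
      have hseg : ∀ t : ℝ, 0 < t → t < 1 → (1 - t) • realPt x + t • p ∈ interior C := by
        intro t ht0 ht1
        have h1 := (convex_convexHull ℝ (realPt '' (X : Set (Fin 4 → ℤ)))).combo_self_interior_mem_interior
          hxC hp (by linarith : 0 ≤ 1 - t) ht0 (by ring)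
        exact h1
      have hFt : Filter.Tendsto (fun t : ℝ => F ((1 - t) • realPt x + t • p)) (nhdsWithin 0 (Set.Ioi 0))
          (nhds (F (realPt x))) := by
        have h1 : Continuous (fun t : ℝ => F ((1 - t) • realPt x + t • p)) :=
          hFcont.comp (by fun_prop)
        have h2 := (h1.tendsto 0).mono_left (nhdsWithin_le_nhds (s := Set.Ioi 0))
        simpa using h2
      have h1 := hFt.eventually (gt_mem_nhds hFx)
      have h2 : ∀ᶠ t : ℝ in nhdsWithin 0 (Set.Ioi 0), t < 1 :=
        nhdsWithin_le_nhds (gt_mem_nhds one_pos)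
      have h3 : ∀ᶠ t : ℝ in nhdsWithin 0 (Set.Ioi 0), 0 < t := self_mem_nhdsWithin
      obtain ⟨t, ht1, ht2, ht3⟩ := (h1.and (h2.and h3)).exists
      exact ⟨_, hseg t ht3 ht2, ht1⟩
    have hUopen : IsOpen (interior C ∩ {z | F z < 0}) :=
      isOpen_interior.inter (isOpen_lt hFcont continuous_const)
    have hUpos : 0 < volume (interior C ∩ {z | F z < 0}) := hUopen.measure_pos volume hU
    have hdisj : Disjoint D (interior C ∩ {z | F z < 0}) := by
      rw [Set.disjoint_left]
      intro z hz hz'
      have h1 : 0 ≤ F z := hDpos hz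
      have h2 : F z < 0 := hz'.2
      linarith
    have hunion : D ∪ (interior C ∩ {z | F z < 0}) ⊆ C := by
      rintro z (hz | hz)
      · exact hC hz
      · exact interior_subset hz.1
    have h1 := measure_mono (μ := volume) hunion
    rw [measure_union hdisj hUopen.measurableSet, hvol, volume_of_det v hunit] at h1
    have h2 : (1 / 24 : ENNReal) < 1 / 24 + volume (interior C ∩ {z | F z < 0}) := by
      apply ENNReal.lt_add_right
      · simp
      · exact hUpos.ne'
    exact absurd h1 (not_le.2 h2)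
  have hvinj : Function.Injective v := by
    intro k l hkl
    have h1 := hbar_v k l
    rw [hkl, hbar_v l l] at h1
    by_contra hne
    rw [if_neg hne] at h1
    simp at h1
  have hXeq : X = Finset.univ.image v := by
    ext x
    simp only [Finset.mem_image, Finset.mem_univ, true_and]
    constructor
    · intro hx
      obtain ⟨k, hk⟩ := hX x hx
      exact ⟨k, hk.symm⟩
    · rintro ⟨k, rfl⟩
      exact hvX k
  refine ⟨?_, ?_⟩
  · rw [hXeq, Finset.card_image_of_injective _ hvinj]
    simp
  · intro x hx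
    obtain ⟨k, rfl⟩ := hX x hx
    obtain ⟨d, c, hdc⟩ := haff k
    refine ⟨d, c, fun y hy => ?_⟩
    obtain ⟨l, rfl⟩ := hX y hy
    rw [hdc, hbar_v]
    simp only [hvinj.eq_iff]

end Pool.Agent.H47.Trop
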