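import Pool.Agent.H47.Trop.CheckDefs

set_option autoImplicit false

/-!
Job TS-11, part 2: evaluation of the checker (helper19).
-/

namespace Pool.Agent.H47.Trop

theorem check_ex0 : check ex0 = true := by decide +kernel

theorem check_ex1 : check ex1 = true := by decide +kernel

theorem check_ex2 : check ex2 = true := by decide +kernel

theorem check_ex3 : check ex3 = true := by decide +kernel

theorem check_ex4 : check ex4 = true := by decide +kernel

theorem check_ex5 : check ex5 = true := by decide +kernel

theorem check_ex6 : check ex6 = true := by decide +kernel

theorem check_ex7 : check ex7 = true := by decide +kernel

theorem check_ex8 : check ex8 = true := by decide +kernel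

theorem check_ex9 : check ex9 = true := by decide +kernel

theorem check_ex10 : check ex10 = true := by decide +kernel

theorem check_ex11 : check ex11 = true := by decide +kernel

theorem check_ex12 : check ex12 = true := by decide +kernel

theorem check_ex13 : check ex13 = true := by decide +kernel

/-- All examples pass the check. -/
theorem check_exs (i : Fin 14) : check (exs i) = true := by
  fin_cases i
  · exact check_ex0
  · exact check_ex1
  · exact check_ex2
  · exact check_ex3
  · exact check_ex4
  · exact check_ex5
  · exact check_ex6
  · exact check_ex7
  · exact check_ex8
  · exact check_ex9
  · exact check_ex10
  · exact check_ex11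
  · exact check_ex12
  · exact check_ex13

end Pool.Agent.H47.Trop
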