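import Pool.Agent.H47.Trop.Facts

set_option autoImplicit false

namespace Pool.Agent.H47.Trop

lemma comp_mem_dom (p : TPoly) (u : Pt) (a : Mon) :
    a ∈ p.dom u ↔ a ∈ p.supp ∧ ∀ b ∈ p.supp, p.term b u ≤ p.term a u := by
  unfold TPoly.dom
  classical
  rw [Finset.mem_filter]

open Classical in
/-- the maximal value, defined through the dominating monomials. -/
noncomputable def compMx (p : TPoly) (u : Pt) : ℝ :=
  if h : (p.dom u).Nonempty then p.term h.choose u else 0

lemma comp_le_mx (p : TPoly) (u : Pt) (h : (p.dom u).Nonempty) (b : Mon) (hb : b ∈ p.supp) :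
    p.term b u ≤ compMx p u := by
  unfold compMx
  rw [dif_pos h]
  exact ((comp_mem_dom p u _).1 h.choose_spec).2 b hb

lemma comp_eq_mx (p : TPoly) (u : Pt) (b : Mon) (hb : b ∈ p.dom u) :
    p.term b u = compMx p u := by
  have h : (p.dom u).Nonempty := ⟨b, hb⟩
  have hb' := (comp_mem_dom p u b).1 hb
  apply le_antisymm (comp_le_mx p u h b hb'.1)
  unfold compMx
  rw [dif_pos h]
  exact hb'.2 _ ((comp_mem_dom p u _).1 h.choose_spec).1

lemma comp_mem_of_eq (p : TPoly) (u : Pt) (h : (p.dom u).Nonempty) (b : Mon) (hb : b ∈ p.supp)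
    (he : p.term b u = compMx p u) : b ∈ p.dom u := by
  rw [comp_mem_dom]
  refine ⟨hb, fun c hc => ?_⟩
  rw [he]
  exact comp_le_mx p u h c hc

/-- data of an affine function on the Cayley configuration. -/
abbrev CompM : Type := Pt × ℝ × ℝ

/-- evaluation at a monomial of the first polynomial. -/
noncomputable def compEv1 (y : Mon) : CompM →ₗ[ℝ] ℝ where
  toFun m := ∑ i, (y i : ℝ) * m.1 i + m.2.1
  map_add' m m' := by
    simp only [Prod.fst_add, Prod.snd_add, Pi.add_apply, mul_add, Finset.sum_add_distrib]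
    ring
  map_smul' c m := by
    simp only [Prod.smul_fst, Prod.smul_snd, Pi.smul_apply, smul_eq_mul, RingHom.id_apply,
      mul_add, Finset.mul_sum]
    congr 1
    exact Finset.sum_congr rfl fun i _ => by ring

/-- evaluation at a monomial of the second polynomial. -/
noncomputable def compEv2 (y : Mon) : CompM →ₗ[ℝ] ℝ where
  toFun m := ∑ i, (y i : ℝ) * m.1 i + m.2.2
  map_add' m m' := by
    simp only [Prod.fst_add, Prod.snd_add, Pi.add_apply, mul_add, Finset.sum_add_distrib]
    ring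
  map_smul' c m := by
    simp only [Prod.smul_fst, Prod.smul_snd, Pi.smul_apply, smul_eq_mul, RingHom.id_apply,
      mul_add, Finset.mul_sum]
    congr 1
    exact Finset.sum_congr rfl fun i _ => by ring

lemma compEv1_apply (y : Mon) (m : CompM) : compEv1 y m = ∑ i, (y i : ℝ) * m.1 i + m.2.1 := rfl

lemma compEv2_apply (y : Mon) (m : CompM) : compEv2 y m = ∑ i, (y i : ℝ) * m.1 i + m.2.2 := rfl

/-- evaluation at the points of the cell. -/
noncomputable def compE (σ : Cell) : CompM →ₗ[ℝ] (σ.1 ⊕ σ.2 → ℝ) :=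
  LinearMap.pi fun i => Sum.elim (fun x : σ.1 => compEv1 x.1) (fun x : σ.2 => compEv2 x.1) i

lemma compE_injective (σ : Cell) (hcard : σ.1.card + σ.2.card = 5)
    (f : σ.1 ⊕ σ.2 → CompM)
    (hf : ∀ i j, compE σ (f i) j = if j = i then 1 else 0) : Function.Injective (compE σ) := by
  have hsurj : Function.Surjective (compE σ) := by
    intro g
    refine ⟨∑ i, g i • f i, ?_⟩
    rw [map_sum]
    funext j
    rw [Finset.sum_apply, Finset.sum_eq_single j]
    · rw [map_smul, Pi.smul_apply, hf, if_pos rfl, smul_eq_mul, mul_one]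
    · intro i _ hij
      rw [map_smul, Pi.smul_apply, hf, if_neg (Ne.symm hij), smul_zero]
    · intro h
      exact absurd (Finset.mem_univ j) h
  have hdim : Module.finrank ℝ CompM = Module.finrank ℝ (σ.1 ⊕ σ.2 → ℝ) := by
    rw [Module.finrank_pi, Fintype.card_sum, Fintype.card_coe, Fintype.card_coe, hcard]
    simp [CompM]
  exact (LinearMap.injective_iff_surjective_of_finrank_eq_finrank hdim).2 hsurj

lemma comp_expand (σ : Cell) (hcard : σ.1.card + σ.2.card = 5)
    (f : σ.1 ⊕ σ.2 → CompM)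
    (hf : ∀ i j, compE σ (f i) j = if j = i then 1 else 0) (m : CompM) :
    m = ∑ i, compE σ m i • f i := by
  apply compE_injective σ hcard f hf
  rw [map_sum]
  funext j
  rw [Finset.sum_apply, Finset.sum_eq_single j]
  · rw [map_smul, Pi.smul_apply, hf, if_pos rfl, smul_eq_mul, mul_one]
  · intro i _ hij
    rw [map_smul, Pi.smul_apply, hf, if_neg (Ne.symm hij), smul_zero]
  · intro h
    exact absurd (Finset.mem_univ j) h

/-- The affine function comparing the positions `u` and `v`. -/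
noncomputable def compG (p q : TPoly) (u v : Pt) : CompM :=
  (v - u, compMx p u - compMx p v, compMx q u - compMx q v)

lemma compG_ev1 (p q : TPoly) (u v : Pt) (y : Mon) :
    compEv1 y (compG p q u v) = (p.term y v - compMx p v) - (p.term y u - compMx p u) := by
  rw [compEv1_apply]
  unfold compG TPoly.term
  simp only [Pi.sub_apply, mul_sub, Finset.sum_sub_distrib]
  ring

lemma compG_ev2 (p q : TPoly) (u v : Pt) (y : Mon) :
    compEv2 y (compG p q u v) = (q.term y v - compMx q v) - (q.term y u - compMx q u) := by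
  rw [compEv2_apply]
  unfold compG TPoly.term
  simp only [Pi.sub_apply, mul_sub, Finset.sum_sub_distrib]
  ring

/-- The total defect. -/
noncomputable def compL (p q : TPoly) (P Q : Finset Mon) (u : Pt) : ℝ :=
  ∑ y ∈ P, (compMx p u - p.term y u) + ∑ y ∈ Q, (compMx q u - q.term y u)

/-- Sum of the values at the points of the cell `(P, Q)`. -/
noncomputable def compLam (P Q : Finset Mon) : CompM →ₗ[ℝ] ℝ :=
  ∑ y ∈ P, compEv1 y + ∑ y ∈ Q, compEv2 y

lemma compLam_apply (P Q : Finset Mon) (m : CompM) :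
    compLam P Q m = ∑ y ∈ P, compEv1 y m + ∑ y ∈ Q, compEv2 y m := by
  unfold compLam
  rw [LinearMap.add_apply, LinearMap.sum_apply, LinearMap.sum_apply]

lemma compLam_G (p q : TPoly) (P Q : Finset Mon) (u v : Pt) :
    compLam P Q (compG p q u v) = compL p q P Q u - compL p q P Q v := by
  rw [compLam_apply]
  simp only [compG_ev1, compG_ev2]
  unfold compL
  simp only [Finset.sum_sub_distrib]
  ring

/-- Completeness of a list of maximal cells, closed under passing to the neighbour across a facet.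

`S` is a finite set of cells, `pos σ` the point where exactly the monomials of `σ` dominate. For every
`σ ∈ S` and every point `x` of it there is an affine function with value `1` at `x` and `0` at
the other points of `σ`, and either it is nonnegative on all monomials, or `S` contains a cell
with the other points of `σ`, but without `x`. Then `S` contains every full-dimensional cell. -/
theorem complete (p q : TPoly) (S : Finset Cell) (pos : Cell → Pt) (hne : S.Nonempty)
    (hdom : ∀ σ ∈ S, p.dom (pos σ) = σ.1 ∧ q.dom (pos σ) = σ.2)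
    (hne1 : ∀ σ ∈ S, σ.1.Nonempty ∧ σ.2.Nonempty) (hcard : ∀ σ ∈ S, σ.1.card + σ.2.card = 5)
    (hA : ∀ σ ∈ S, ∀ x ∈ σ.1, ∃ (d : Pt) (α β : ℝ),
      (∀ y ∈ σ.1, ∑ i, (y i : ℝ) * d i + α = if y = x then 1 else 0) ∧
      (∀ y ∈ σ.2, ∑ i, (y i : ℝ) * d i + β = 0) ∧
      (((∀ y ∈ p.supp, 0 ≤ ∑ i, (y i : ℝ) * d i + α) ∧
        (∀ y ∈ q.supp, 0 ≤ ∑ i, (y i : ℝ) * d i + β)) ∨
        ∃ τ ∈ S, σ.1.erase x ⊆ τ.1 ∧ σ.2 ⊆ τ.2 ∧ x ∉ τ.1))
    (hB : ∀ σ ∈ S, ∀ x ∈ σ.2, ∃ (d : Pt) (α β : ℝ),
      (∀ y ∈ σ.1, ∑ i, (y i : ℝ) * d i + α = 0) ∧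
      (∀ y ∈ σ.2, ∑ i, (y i : ℝ) * d i + β = if y = x then 1 else 0) ∧
      (((∀ y ∈ p.supp, 0 ≤ ∑ i, (y i : ℝ) * d i + α) ∧
        (∀ y ∈ q.supp, 0 ≤ ∑ i, (y i : ℝ) * d i + β)) ∨
        ∃ τ ∈ S, σ.1 ⊆ τ.1 ∧ σ.2.erase x ⊆ τ.2 ∧ x ∉ τ.2))
    (w : Pt) (hw : Spans (p.dom w) (q.dom w)) (hP : (p.dom w).Nonempty)
    (hQ : (q.dom w).Nonempty) :
    ∃ σ ∈ S, p.dom w = σ.1 ∧ q.dom w = σ.2 ∧ w = pos σ := by
  set P := p.dom w with hPdef
  set Q := q.dom w with hQdef
  obtain ⟨σ, hσ, hmin⟩ := Finset.exists_min_image S (fun σ => compL p q P Q (pos σ)) hne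
  have hsub1 : ∀ τ ∈ S, τ.1 ⊆ p.supp := by
    intro τ hτ y hy
    rw [← (hdom τ hτ).1] at hy
    exact ((comp_mem_dom p _ y).1 hy).1
  have hsub2 : ∀ τ ∈ S, τ.2 ⊆ q.supp := by
    intro τ hτ y hy
    rw [← (hdom τ hτ).2] at hy
    exact ((comp_mem_dom q _ y).1 hy).1
  have hn1 : ∀ τ ∈ S, (p.dom (pos τ)).Nonempty := fun τ hτ => by
    rw [(hdom τ hτ).1]; exact (hne1 τ hτ).1
  have hn2 : ∀ τ ∈ S, (q.dom (pos τ)).Nonempty := fun τ hτ => by
    rw [(hdom τ hτ).2]; exact (hne1 τ hτ).2
  have hz1 : ∀ τ ∈ S, ∀ y ∈ τ.1, p.term y (pos τ) - compMx p (pos τ) = 0 := by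
    intro τ hτ y hy
    rw [← (hdom τ hτ).1] at hy
    rw [comp_eq_mx p _ y hy, sub_self]
  have hz2 : ∀ τ ∈ S, ∀ y ∈ τ.2, q.term y (pos τ) - compMx q (pos τ) = 0 := by
    intro τ hτ y hy
    rw [← (hdom τ hτ).2] at hy
    rw [comp_eq_mx q _ y hy, sub_self]
  have hl1 : ∀ τ ∈ S, ∀ y ∈ p.supp, y ∉ τ.1 → p.term y (pos τ) - compMx p (pos τ) < 0 := by
    intro τ hτ y hy hy2
    have h1 := comp_le_mx p (pos τ) (hn1 τ hτ) y hy
    have h2 : p.term y (pos τ) ≠ compMx p (pos τ) := by
      intro h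
      apply hy2
      rw [← (hdom τ hτ).1]
      exact comp_mem_of_eq p _ (hn1 τ hτ) y hy h
    have := lt_of_le_of_ne h1 h2
    linarith
  have hl2 : ∀ τ ∈ S, ∀ y ∈ q.supp, y ∉ τ.2 → q.term y (pos τ) - compMx q (pos τ) < 0 := by
    intro τ hτ y hy hy2
    have h1 := comp_le_mx q (pos τ) (hn2 τ hτ) y hy
    have h2 : q.term y (pos τ) ≠ compMx q (pos τ) := by
      intro h
      apply hy2
      rw [← (hdom τ hτ).2]
      exact comp_mem_of_eq q _ (hn2 τ hτ) y hy h
    have := lt_of_le_of_ne h1 h2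
    linarith
  -- the dual functions
  have hex : ∀ i : σ.1 ⊕ σ.2, ∃ m : CompM, (∀ j, compE σ m j = if j = i then 1 else 0) ∧
      (0 ≤ compLam P Q m ∨ ∃ τ ∈ S,
        (∀ j, j ≠ i → compE σ (compG p q (pos σ) (pos τ)) j = 0) ∧
        compE σ (compG p q (pos σ) (pos τ)) i < 0) := by
    rintro (⟨x, hx⟩ | ⟨x, hx⟩)
    · obtain ⟨d, α, β, h1, h2, h3⟩ := hA σ hσ x hx
      refine ⟨(d, α, β), ?_, ?_⟩
      · rintro (⟨y, hy⟩ | ⟨y, hy⟩)
        · have h4 := h1 y hy
          have h5 : compE σ (d, α, β) (Sum.inl ⟨y, hy⟩) = ∑ i, (y i : ℝ) * d i + α := rfl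
          rw [h5, h4]
          by_cases hyx : y = x
          · subst hyx
            simp
          · rw [if_neg hyx, if_neg]
            intro h
            have h6 := Sum.inl_injective h
            exact hyx (Subtype.ext_iff.1 h6)
        · have h4 := h2 y hy
          have h5 : compE σ (d, α, β) (Sum.inr ⟨y, hy⟩) = ∑ i, (y i : ℝ) * d i + β := rfl
          rw [h5, h4, if_neg (by simp)]
      · rcases h3 with h3 | ⟨τ, hτ, t1, t2, t3⟩
        · left
          rw [compLam_apply]
          refine add_nonneg (Finset.sum_nonneg fun y hy => ?_) (Finset.sum_nonneg fun y hy => ?_)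
          · exact h3.1 y ((comp_mem_dom p w y).1 hy).1
          · exact h3.2 y ((comp_mem_dom q w y).1 hy).1
        · right
          refine ⟨τ, hτ, ?_, ?_⟩
          · rintro (⟨y, hy⟩ | ⟨y, hy⟩) hj
            · have h5 : compE σ (compG p q (pos σ) (pos τ)) (Sum.inl ⟨y, hy⟩) =
                  compEv1 y (compG p q (pos σ) (pos τ)) := rfl
              have hyx : y ≠ x := by
                rintro rfl
                exact hj rfl
              rw [h5, compG_ev1, hz1 σ hσ y hy,
                hz1 τ hτ y (t1 (Finset.mem_erase.2 ⟨hyx, hy⟩)), sub_self]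
            · have h5 : compE σ (compG p q (pos σ) (pos τ)) (Sum.inr ⟨y, hy⟩) =
                  compEv2 y (compG p q (pos σ) (pos τ)) := rfl
              rw [h5, compG_ev2, hz2 σ hσ y hy, hz2 τ hτ y (t2 hy), sub_self]
          · have h5 : compE σ (compG p q (pos σ) (pos τ)) (Sum.inl ⟨x, hx⟩) =
                compEv1 x (compG p q (pos σ) (pos τ)) := rfl
            rw [h5, compG_ev1, hz1 σ hσ x hx, sub_zero]
            exact hl1 τ hτ x (hsub1 σ hσ hx) t3
    · obtain ⟨d, α, β, h1, h2, h3⟩ := hB σ hσ x hx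
      refine ⟨(d, α, β), ?_, ?_⟩
      · rintro (⟨y, hy⟩ | ⟨y, hy⟩)
        · have h4 := h1 y hy
          have h5 : compE σ (d, α, β) (Sum.inl ⟨y, hy⟩) = ∑ i, (y i : ℝ) * d i + α := rfl
          rw [h5, h4, if_neg (by simp)]
        · have h4 := h2 y hy
          have h5 : compE σ (d, α, β) (Sum.inr ⟨y, hy⟩) = ∑ i, (y i : ℝ) * d i + β := rfl
          rw [h5, h4]
          by_cases hyx : y = x
          · subst hyx
            simp
          · rw [if_neg hyx, if_neg]
            intro h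
            have h6 := Sum.inr_injective h
            exact hyx (Subtype.ext_iff.1 h6)
      · rcases h3 with h3 | ⟨τ, hτ, t1, t2, t3⟩
        · left
          rw [compLam_apply]
          refine add_nonneg (Finset.sum_nonneg fun y hy => ?_) (Finset.sum_nonneg fun y hy => ?_)
          · exact h3.1 y ((comp_mem_dom p w y).1 hy).1
          · exact h3.2 y ((comp_mem_dom q w y).1 hy).1
        · right
          refine ⟨τ, hτ, ?_, ?_⟩
          · rintro (⟨y, hy⟩ | ⟨y, hy⟩) hj
            · have h5 : compE σ (compG p q (pos σ) (pos τ)) (Sum.inl ⟨y, hy⟩) =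
                  compEv1 y (compG p q (pos σ) (pos τ)) := rfl
              rw [h5, compG_ev1, hz1 σ hσ y hy, hz1 τ hτ y (t1 hy), sub_self]
            · have h5 : compE σ (compG p q (pos σ) (pos τ)) (Sum.inr ⟨y, hy⟩) =
                  compEv2 y (compG p q (pos σ) (pos τ)) := rfl
              have hyx : y ≠ x := by
                rintro rfl
                exact hj rfl
              rw [h5, compG_ev2, hz2 σ hσ y hy,
                hz2 τ hτ y (t2 (Finset.mem_erase.2 ⟨hyx, hy⟩)), sub_self]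
          · have h5 : compE σ (compG p q (pos σ) (pos τ)) (Sum.inr ⟨x, hx⟩) =
                compEv2 x (compG p q (pos σ) (pos τ)) := rfl
            rw [h5, compG_ev2, hz2 σ hσ x hx, sub_zero]
            exact hl2 τ hτ x (hsub2 σ hσ hx) t3
  choose f hf hf2 using hex
  have hexp := comp_expand σ (hcard σ hσ) f hf
  have hLam : ∀ m, compLam P Q m = ∑ i, compE σ m i * compLam P Q (f i) := by
    intro m
    conv_lhs => rw [hexp m]
    rw [map_sum]
    exact Finset.sum_congr rfl fun i _ => by rw [map_smul, smul_eq_mul]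
  have hnn : ∀ i, 0 ≤ compLam P Q (f i) := by
    intro i
    rcases hf2 i with h | ⟨τ, hτ, t1, t2⟩
    · exact h
    · by_contra hneg
      push Not at hneg
      have h1 := hLam (compG p q (pos σ) (pos τ))
      rw [Finset.sum_eq_single i (fun j _ hj => by rw [t1 j hj, zero_mul])
        (fun h => absurd (Finset.mem_univ i) h), compLam_G] at h1
      have h2 := hmin τ hτ
      have h3 := mul_pos_of_neg_of_neg t2 hneg
      linarith
  -- comparison with w
  have hPw : ∀ y ∈ P, p.term y w - compMx p w = 0 := fun y hy => by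
    rw [comp_eq_mx p w y hy, sub_self]
  have hQw : ∀ y ∈ Q, q.term y w - compMx q w = 0 := fun y hy => by
    rw [comp_eq_mx q w y hy, sub_self]
  have hLw : compL p q P Q w = 0 := by
    unfold compL
    rw [Finset.sum_eq_zero fun y hy => by have := hPw y hy; linarith,
      Finset.sum_eq_zero fun y hy => by have := hQw y hy; linarith, add_zero]
  have hle : compL p q P Q (pos σ) ≤ 0 := by
    have h1 := hLam (compG p q (pos σ) w)
    rw [compLam_G, hLw, sub_zero] at h1
    rw [h1]
    refine Finset.sum_nonpos fun i _ => mul_nonpos_of_nonpos_of_nonneg ?_ (hnn i)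
    rcases i with ⟨y, hy⟩ | ⟨y, hy⟩
    · have h5 : compE σ (compG p q (pos σ) w) (Sum.inl ⟨y, hy⟩) =
          compEv1 y (compG p q (pos σ) w) := rfl
      rw [h5, compG_ev1, hz1 σ hσ y hy, sub_zero]
      have := comp_le_mx p w hP y (hsub1 σ hσ hy)
      linarith
    · have h5 : compE σ (compG p q (pos σ) w) (Sum.inr ⟨y, hy⟩) =
          compEv2 y (compG p q (pos σ) w) := rfl
      rw [h5, compG_ev2, hz2 σ hσ y hy, sub_zero]
      have := comp_le_mx q w hQ y (hsub2 σ hσ hy)
      linarith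
  have ht1 : ∀ y ∈ P, 0 ≤ compMx p (pos σ) - p.term y (pos σ) := fun y hy => by
    have := comp_le_mx p (pos σ) (hn1 σ hσ) y ((comp_mem_dom p w y).1 hy).1
    linarith
  have ht2 : ∀ y ∈ Q, 0 ≤ compMx q (pos σ) - q.term y (pos σ) := fun y hy => by
    have := comp_le_mx q (pos σ) (hn2 σ hσ) y ((comp_mem_dom q w y).1 hy).1
    linarith
  have hs1 := Finset.sum_nonneg ht1
  have hs2 := Finset.sum_nonneg ht2
  unfold compL at hle
  have he1 := (Finset.sum_eq_zero_iff_of_nonneg ht1).1 (by linarith)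
  have he2 := (Finset.sum_eq_zero_iff_of_nonneg ht2).1 (by linarith)
  have hpos : pos σ - w = 0 := by
    refine hw (pos σ - w) ⟨compMx p (pos σ) - compMx p w, fun y hy => ?_⟩
      ⟨compMx q (pos σ) - compMx q w, fun y hy => ?_⟩
    · have h1 := he1 y hy
      have h2 := hPw y hy
      unfold TPoly.term at h1 h2
      simp only [Pi.sub_apply, mul_sub, Finset.sum_sub_distrib]
      linarith
    · have h1 := he2 y hy
      have h2 := hQw y hy
      unfold TPoly.term at h1 h2
      simp only [Pi.sub_apply, mul_sub, Finset.sum_sub_distrib]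
      linarith
  have hweq : w = pos σ := (sub_eq_zero.1 hpos).symm
  refine ⟨σ, hσ, ?_, ?_, hweq⟩
  · rw [hPdef, hweq]
    exact (hdom σ hσ).1
  · rw [hQdef, hweq]
    exact (hdom σ hσ).2

end Pool.Agent.H47.Trop
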