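import Pool.Agent.H47.Trop.Facts

set_option autoImplicit false

namespace Pool.Agent.H47.Trop

theorem maxl_mem_dom {p : TPoly} {w : Pt} {a : Mon} :
    a ∈ p.dom w ↔ a ∈ p.supp ∧ ∀ b ∈ p.supp, p.term b w ≤ p.term a w := by
  simp [TPoly.dom]

theorem maxl_term_add_smul (p : TPoly) (a : Mon) (w d : Pt) (s : ℝ) :
    p.term a (w + s • d) = p.term a w + s * ∑ i, (a i : ℝ) * d i := by
  unfold TPoly.term
  rw [Finset.mul_sum, add_assoc, ← Finset.sum_add_distrib]
  congr 1
  refine Finset.sum_congr rfl fun i _ => ?_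
  simp only [Pi.add_apply, Pi.smul_apply, smul_eq_mul]
  ring

theorem maxl_dom_nonempty {p : TPoly} (h : p.supp.Nonempty) (w : Pt) : (p.dom w).Nonempty := by
  obtain ⟨a, ha, hmax⟩ := Finset.exists_max_image p.supp (fun a => p.term a w) h
  exact ⟨a, maxl_mem_dom.mpr ⟨ha, hmax⟩⟩

/-- moving in a direction which is constant on the dominating terms. -/
theorem maxl_dom_move {p : TPoly} {w d : Pt} {c s : ℝ} (hs : 0 ≤ s) {x0 : Mon} (hx0 : x0 ∈ p.dom w)
    (hc : ∀ y ∈ p.dom w, ∑ i, (y i : ℝ) * d i = c)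
    (hall : ∀ a ∈ p.supp, c < ∑ i, (a i : ℝ) * d i →
      s * ((∑ i, (a i : ℝ) * d i) - c) ≤ p.term x0 w - p.term a w) :
    p.dom w ⊆ p.dom (w + s • d) ∧
      ∀ a ∈ p.supp, s * ((∑ i, (a i : ℝ) * d i) - c) = p.term x0 w - p.term a w →
        a ∈ p.dom (w + s • d) := by
  have hle : ∀ b ∈ p.supp, p.term b (w + s • d) ≤ p.term x0 w + s * c := by
    intro b hb
    rw [maxl_term_add_smul]
    rcases le_or_gt (∑ i, (b i : ℝ) * d i) c with h | h
    · have h1 := (maxl_mem_dom.mp hx0).2 b hb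
      have h2 := mul_le_mul_of_nonneg_left h hs
      linarith
    · have := hall b hb h
      linarith
  have key : ∀ a ∈ p.supp, s * ((∑ i, (a i : ℝ) * d i) - c) = p.term x0 w - p.term a w →
        a ∈ p.dom (w + s • d) := by
    intro a ha heq
    refine maxl_mem_dom.mpr ⟨ha, fun b hb => (hle b hb).trans ?_⟩
    rw [maxl_term_add_smul]
    linarith
  refine ⟨fun a ha => key a (maxl_mem_dom.mp ha).1 ?_, key⟩
  rw [hc a ha]
  have h1 := (maxl_mem_dom.mp hx0).2 a (maxl_mem_dom.mp ha).1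
  have h2 := (maxl_mem_dom.mp ha).2 x0 (maxl_mem_dom.mp hx0).1
  linarith

theorem maxl_exists_bigger {p q : TPoly}
    (hp : ∀ d : Pt, (∃ c, ∀ y ∈ p.supp, ∑ i, (y i : ℝ) * d i = c) → d = 0)
    (hq : q.supp.Nonempty) (w : Pt) (hns : ¬ Spans (p.dom w) (q.dom w)) :
    ∃ w', p.dom w ⊆ p.dom w' ∧ q.dom w ⊆ q.dom w' ∧
      (p.dom w).card + (q.dom w).card < (p.dom w').card + (q.dom w').card := by
  classical
  unfold Spans at hns
  push Not at hns
  obtain ⟨d0, ⟨cA0, hA0⟩, ⟨cB0, hB0⟩, hd0⟩ := hns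
  have hps : p.supp.Nonempty := by
    rw [Finset.nonempty_iff_ne_empty]
    intro h
    exact hd0 (hp d0 ⟨0, by simp [h]⟩)
  obtain ⟨d, cA, cB, hA, hB, y, hy, hyd⟩ : ∃ (d : Pt) (cA cB : ℝ),
      (∀ y ∈ p.dom w, ∑ i, (y i : ℝ) * d i = cA) ∧ (∀ y ∈ q.dom w, ∑ i, (y i : ℝ) * d i = cB) ∧
      ∃ y ∈ p.supp, cA < ∑ i, (y i : ℝ) * d i := by
    have : ∃ y ∈ p.supp, ∑ i, (y i : ℝ) * d0 i ≠ cA0 := by
      by_contra hcon
      push Not at hcon
      exact hd0 (hp d0 ⟨cA0, hcon⟩)
    obtain ⟨y, hy, hne⟩ := this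
    rcases lt_or_gt_of_ne hne with h | h
    · have hneg : ∀ z : Mon, ∑ i, (z i : ℝ) * (-d0) i = -∑ i, (z i : ℝ) * d0 i := by
        intro z
        simp [Finset.sum_neg_distrib]
      refine ⟨-d0, -cA0, -cB0, ?_, ?_, y, hy, ?_⟩
      · intro z hz
        rw [hneg, hA0 z hz]
      · intro z hz
        rw [hneg, hB0 z hz]
      · rw [hneg]
        linarith
    · exact ⟨d0, cA0, cB0, hA0, hB0, y, hy, h⟩
  obtain ⟨x0, hx0⟩ := maxl_dom_nonempty hps w
  obtain ⟨z0, hz0⟩ := maxl_dom_nonempty hq w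
  let fA : Mon → ℝ := fun a => (p.term x0 w - p.term a w) / ((∑ i, (a i : ℝ) * d i) - cA)
  let fB : Mon → ℝ := fun b => (q.term z0 w - q.term b w) / ((∑ i, (b i : ℝ) * d i) - cB)
  let U : Finset ℝ := ((p.supp.filter fun a => cA < ∑ i, (a i : ℝ) * d i).image fA) ∪
    ((q.supp.filter fun b => cB < ∑ i, (b i : ℝ) * d i).image fB)
  have hU : U.Nonempty := ⟨fA y, Finset.mem_union_left _
    (Finset.mem_image_of_mem _ (Finset.mem_filter.mpr ⟨hy, hyd⟩))⟩
  obtain ⟨s, hsdef⟩ : ∃ s, s = U.min' hU := ⟨_, rfl⟩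
  have hsU : s ∈ U := hsdef ▸ Finset.min'_mem U hU
  have hmin : ∀ t ∈ U, s ≤ t := fun t ht => hsdef ▸ Finset.min'_le U t ht
  have hnd : ∀ (r : TPoly) (c : ℝ), (∀ y ∈ r.dom w, ∑ i, (y i : ℝ) * d i = c) →
      ∀ a ∈ r.supp, c < ∑ i, (a i : ℝ) * d i → a ∉ r.dom w := by
    intro r c hr a _ hca had
    rw [hr a had] at hca
    exact lt_irrefl _ hca
  have hslack : ∀ (r : TPoly) (c : ℝ) (x : Mon), x ∈ r.dom w →
      (∀ y ∈ r.dom w, ∑ i, (y i : ℝ) * d i = c) →
      ∀ a ∈ r.supp, c < ∑ i, (a i : ℝ) * d i → 0 < r.term x w - r.term a w := by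
    intro r c x hx hr a ha hca
    have h1 := (maxl_mem_dom.mp hx).2 a ha
    rcases h1.lt_or_eq with h2 | h2
    · linarith
    · exfalso
      refine hnd r c hr a ha hca (maxl_mem_dom.mpr ⟨ha, ?_⟩)
      rw [h2]
      exact (maxl_mem_dom.mp hx).2
  have hs0 : 0 < s := by
    rcases Finset.mem_union.mp hsU with h | h
    · obtain ⟨a, ha, hfa⟩ := Finset.mem_image.mp h
      obtain ⟨ha1, ha2⟩ := Finset.mem_filter.mp ha
      rw [← hfa]
      exact div_pos (hslack p cA x0 hx0 hA a ha1 ha2) (by linarith)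
    · obtain ⟨a, ha, hfa⟩ := Finset.mem_image.mp h
      obtain ⟨ha1, ha2⟩ := Finset.mem_filter.mp ha
      rw [← hfa]
      exact div_pos (hslack q cB z0 hz0 hB a ha1 ha2) (by linarith)
  have mA := maxl_dom_move (p := p) hs0.le hx0 hA (by
    intro a ha hca
    have : s ≤ fA a := hmin _ (Finset.mem_union_left _
      (Finset.mem_image_of_mem _ (Finset.mem_filter.mpr ⟨ha, hca⟩)))
    rwa [le_div_iff₀ (by linarith)] at this)
  have mB := maxl_dom_move (p := q) hs0.le hz0 hB (by
    intro a ha hca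
    have : s ≤ fB a := hmin _ (Finset.mem_union_right _
      (Finset.mem_image_of_mem _ (Finset.mem_filter.mpr ⟨ha, hca⟩)))
    rwa [le_div_iff₀ (by linarith)] at this)
  refine ⟨w + s • d, mA.1, mB.1, ?_⟩
  rcases Finset.mem_union.mp hsU with h | h
  · obtain ⟨a, ha, hfa⟩ := Finset.mem_image.mp h
    obtain ⟨ha1, ha2⟩ := Finset.mem_filter.mp ha
    have hmem : a ∈ p.dom (w + s • d) := by
      apply mA.2 a ha1
      rw [← hfa]
      exact div_mul_cancel₀ _ (by linarith [sub_pos.mpr ha2] : (∑ i, (a i : ℝ) * d i) - cA ≠ 0)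
    have hlt : (p.dom w).card < (p.dom (w + s • d)).card := by
      apply Finset.card_lt_card
      rw [Finset.ssubset_iff_of_subset mA.1]
      exact ⟨a, hmem, hnd p cA hA a ha1 ha2⟩
    have hle := Finset.card_le_card mB.1
    omega
  · obtain ⟨a, ha, hfa⟩ := Finset.mem_image.mp h
    obtain ⟨ha1, ha2⟩ := Finset.mem_filter.mp ha
    have hmem : a ∈ q.dom (w + s • d) := by
      apply mB.2 a ha1
      rw [← hfa]
      exact div_mul_cancel₀ _ (by linarith [sub_pos.mpr ha2] : (∑ i, (a i : ℝ) * d i) - cB ≠ 0)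
    have hlt : (q.dom w).card < (q.dom (w + s • d)).card := by
      apply Finset.card_lt_card
      rw [Finset.ssubset_iff_of_subset mB.1]
      exact ⟨a, hmem, hnd q cB hB a ha1 ha2⟩
    have hle := Finset.card_le_card mA.1
    omega

/-- Every cell is contained in a full-dimensional cell. -/
theorem exists_spans {p q : TPoly}
    (hp : ∀ d : Pt, (∃ c, ∀ y ∈ p.supp, ∑ i, (y i : ℝ) * d i = c) → d = 0)
    (hq : q.supp.Nonempty) (w : Pt) :
    ∃ w', p.dom w ⊆ p.dom w' ∧ q.dom w ⊆ q.dom w' ∧ Spans (p.dom w') (q.dom w') := by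
  have hbound : ∀ (r : TPoly) (v : Pt), (r.dom v).card ≤ r.supp.card := by
    intro r v
    exact Finset.card_le_card fun a ha => (maxl_mem_dom.mp ha).1
  have main : ∀ n : ℕ, ∀ v : Pt,
      p.supp.card + q.supp.card ≤ (p.dom v).card + (q.dom v).card + n →
      ∃ w', p.dom v ⊆ p.dom w' ∧ q.dom v ⊆ q.dom w' ∧ Spans (p.dom w') (q.dom w') := by
    intro n
    induction n with
    | zero =>
      intro v hv
      by_cases hs : Spans (p.dom v) (q.dom v)
      · exact ⟨v, subset_rfl, subset_rfl, hs⟩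
      · obtain ⟨w', _, _, h3⟩ := maxl_exists_bigger hp hq v hs
        have h4 := hbound p w'
        have h5 := hbound q w'
        omega
    | succ n ih =>
      intro v hv
      by_cases hs : Spans (p.dom v) (q.dom v)
      · exact ⟨v, subset_rfl, subset_rfl, hs⟩
      · obtain ⟨w', h1, h2, h3⟩ := maxl_exists_bigger hp hq v hs
        obtain ⟨w'', h4, h5, h6⟩ := ih w' (by omega)
        exact ⟨w'', h1.trans h4, h2.trans h5, h6⟩
  exact main (p.supp.card + q.supp.card) w (by omega)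

/-- The points of degree-`D` polynomials. -/
theorem hasDegree_props {p : TPoly} {D : ℕ} (hD : 1 ≤ D) (h : p.HasDegree D) :
    (∀ a ∈ p.supp, ∑ i, a i ≤ D) ∧ (0 : Mon) ∈ p.supp ∧
      (∀ i : Fin 3, (Pi.single i D : Mon) ∈ p.supp) ∧
      ∀ d : Pt, (∃ c, ∀ y ∈ p.supp, ∑ i, (y i : ℝ) * d i = c) → d = 0 := by
  unfold TPoly.HasDegree at h
  have hD0 : (0 : ℝ) ≤ D := Nat.cast_nonneg D
  have h1 : ∀ a ∈ p.supp, ∑ i, a i ≤ D := by
    intro a ha
    have hmem : (fun i => (a i : ℝ)) ∈ convexHull ℝ (insert 0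
        (Set.range fun i : Fin 3 => (Pi.single i (D : ℝ) : Pt))) := by
      rw [← h]
      exact subset_convexHull ℝ _ (Set.mem_image_of_mem _ ha)
    have hconv : Convex ℝ {x : Pt | ∑ i, x i ≤ (D : ℝ)} := by
      have hlin : IsLinearMap ℝ (fun x : Pt => ∑ i, x i) := by
        constructor
        · intro x y
          simp [Finset.sum_add_distrib]
        · intro c x
          simp [Finset.mul_sum]
      exact convex_halfSpace_le hlin _
    have hsub : insert 0 (Set.range fun i : Fin 3 => (Pi.single i (D : ℝ) : Pt)) ⊆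
        {x : Pt | ∑ i, x i ≤ (D : ℝ)} := by
      rintro x (rfl | ⟨i, rfl⟩)
      · simp
      · simp
    have := convexHull_min hsub hconv hmem
    simp only [Set.mem_ofPred_eq] at this
    exact_mod_cast this
  have h2 : (0 : Mon) ∈ p.supp := by
    by_contra hcon
    have hmem : (0 : Pt) ∈ convexHull ℝ
        ((fun (a : Mon) (i : Fin 3) => (a i : ℝ)) '' (p.supp : Set Mon)) := by
      rw [h]
      exact subset_convexHull ℝ _ (Set.mem_insert _ _)
    have hconv : Convex ℝ {x : Pt | (1 : ℝ) ≤ ∑ i, x i} := by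
      have hlin : IsLinearMap ℝ (fun x : Pt => ∑ i, x i) := by
        constructor
        · intro x y
          simp [Finset.sum_add_distrib]
        · intro c x
          simp [Finset.mul_sum]
      exact convex_halfSpace_ge hlin _
    have hsub : ((fun (a : Mon) (i : Fin 3) => (a i : ℝ)) '' (p.supp : Set Mon)) ⊆
        {x : Pt | (1 : ℝ) ≤ ∑ i, x i} := by
      rintro x ⟨a, ha, rfl⟩
      simp only [Set.mem_ofPred_eq]
      have ha0 : a ≠ 0 := fun h0 => hcon (h0 ▸ ha)
      have : 1 ≤ ∑ i, a i := by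
        rw [Nat.one_le_iff_ne_zero]
        intro hz
        apply ha0
        funext i
        exact (Finset.sum_eq_zero_iff.mp hz) i (Finset.mem_univ i)
      exact_mod_cast this
    have := convexHull_min hsub hconv hmem
    simp only [Set.mem_ofPred_eq, Pi.zero_apply, Finset.sum_const_zero] at this
    linarith
  have h3 : ∀ i : Fin 3, (Pi.single i D : Mon) ∈ p.supp := by
    intro i
    by_contra hcon
    have hmem : (Pi.single i (D : ℝ) : Pt) ∈ convexHull ℝ
        ((fun (a : Mon) (i : Fin 3) => (a i : ℝ)) '' (p.supp : Set Mon)) := by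
      rw [h]
      exact subset_convexHull ℝ _ (Set.mem_insert_of_mem _ ⟨i, rfl⟩)
    have hconv : Convex ℝ {x : Pt | x i ≤ (D : ℝ) - 1} := by
      have hlin : IsLinearMap ℝ (fun x : Pt => x i) := by
        constructor
        · intro x y
          simp
        · intro c x
          simp
      exact convex_halfSpace_le hlin _
    have hsub : ((fun (a : Mon) (i : Fin 3) => (a i : ℝ)) '' (p.supp : Set Mon)) ⊆
        {x : Pt | x i ≤ (D : ℝ) - 1} := by
      rintro x ⟨a, ha, rfl⟩
      simp only [Set.mem_ofPred_eq]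
      have hsum := h1 a ha
      have hle : a i ≤ ∑ j, a j := Finset.single_le_sum (fun j _ => Nat.zero_le _)
        (Finset.mem_univ i)
      have hne : a i ≠ D := by
        intro hD'
        apply hcon
        have haeq : a = Pi.single i D := by
          funext j
          by_cases hj : j = i
          · subst hj
            simp [hD']
          · rw [Pi.single_eq_of_ne hj]
            have h2sum : a i + a j ≤ ∑ k, a k := by
              have : ({i, j} : Finset (Fin 3)) ⊆ Finset.univ := Finset.subset_univ _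
              calc a i + a j = ∑ k ∈ ({i, j} : Finset (Fin 3)), a k := by
                    rw [Finset.sum_pair (Ne.symm hj)]
                _ ≤ ∑ k, a k := Finset.sum_le_sum_of_subset this
            omega
        rw [← haeq]
        exact ha
      have : a i + 1 ≤ D := by omega
      have : (a i : ℝ) + 1 ≤ D := by exact_mod_cast this
      linarith
    have := convexHull_min hsub hconv hmem
    simp only [Set.mem_ofPred_eq, Pi.single_eq_same] at this
    linarith
  refine ⟨h1, h2, h3, ?_⟩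
  rintro d ⟨c, hc⟩
  have hc0 : c = 0 := by
    have := hc 0 h2
    simpa using this.symm
  funext i
  have := hc _ (h3 i)
  rw [hc0] at this
  have hsum : ∑ j, (((Pi.single i D : Mon) j : ℕ) : ℝ) * d j = D * d i := by
    rw [Finset.sum_eq_single i]
    · simp
    · intro j _ hj
      rw [Pi.single_eq_of_ne hj]
      simp
    · simp
  rw [hsum] at this
  have hDne : (D : ℝ) ≠ 0 := by
    have : (1 : ℝ) ≤ D := by exact_mod_cast hD
    linarith
  simpa [hDne] using this

end Pool.Agent.H47.Trop
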