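import Pool.Agent.H47.Trop.CheckDefs
import Pool.Agent.H47.Trop.CheckEval
import Pool.Agent.H47.Trop.Comp
import Pool.Agent.H47.Trop.Max
import Pool.Agent.H47.Trop.Vol

set_option autoImplicit false

namespace Pool.Agent.H47.Trop

open MeasureTheory

/-- A triple as an exponent vector. -/
def toMon (t : ℕ × ℕ × ℕ) : Mon := ![t.1, t.2.1, t.2.2]

/-- The monomial with number `k` (`0..9`: of `p`, `10..29`: of `q`). -/
def monOf (k : ℕ) : Mon := toMon ((monP ++ monQ).getD k (0, 0, 0))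

/-- A triple of integers as a point. -/
def toPt (t : ℤ × ℤ × ℤ) : Pt := ![(t.1 : ℝ), (t.2.1 : ℝ), (t.2.2 : ℝ)]

open Classical in
/-- The polynomial `p` of an example. -/
noncomputable def Ex.p (x : Ex) : TPoly where
  supp := (monP.map toMon).toFinset
  coeff a := (((monP.zip (x.coeffs.take 10)).find? fun t => toMon t.1 = a).elim 0 fun t => (t.2 : ℝ))

open Classical in
/-- The polynomial `q` of an example. -/
noncomputable def Ex.q (x : Ex) : TPoly where
  supp := (monQ.map toMon).toFinset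
  coeff a := (((monQ.zip (x.coeffs.drop 10)).find? fun t => toMon t.1 = a).elim 0 fun t => (t.2 : ℝ))

/-- Position of the vertex number `j`. -/
def Ex.pos (x : Ex) (j : ℕ) : Pt := toPt ((x.mixed.map Prod.fst).getD j (0, 0, 0))

/-! ### Monomials -/

theorem toMon_inj {s t : ℕ × ℕ × ℕ} (h : toMon s = toMon t) : s = t := by
  obtain ⟨a, b, c⟩ := s
  obtain ⟨a', b', c'⟩ := t
  have h0 : a = a' := congrFun h 0
  have h1 : b = b' := congrFun h 1
  have h2 : c = c' := congrFun h 2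
  rw [h0, h1, h2]

theorem toPt_inj {s t : Z3} (h : toPt s = toPt t) : s = t := by
  obtain ⟨a, b, c⟩ := s
  obtain ⟨a', b', c'⟩ := t
  have h0 : (a : ℝ) = a' := congrFun h 0
  have h1 : (b : ℝ) = b' := congrFun h 1
  have h2 : (c : ℝ) = c' := congrFun h 2
  rw [Int.cast_injective h0, Int.cast_injective h1, Int.cast_injective h2]

theorem monOf_eq (k : ℕ) : monOf k = toMon (tri k) := rfl

theorem tri_injP : ∀ j < 10, ∀ k < 10, tri j = tri k → j = k := by decide +kernel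

theorem tri_injQ' : ∀ j < 20, ∀ k < 20, tri (10 + j) = tri (10 + k) → j = k := by
  decide +kernel

theorem tri_injQ (j : ℕ) (hj : j < 30) (k : ℕ) (hk : k < 30) (hj' : 10 ≤ j) (hk' : 10 ≤ k)
    (h : tri j = tri k) : j = k := by
  have h1 := tri_injQ' (j - 10) (by omega) (k - 10) (by omega)
    (by rw [Nat.add_sub_cancel' hj', Nat.add_sub_cancel' hk']; exact h)
  omega

theorem tri_degP : ∀ k < 10, (tri k).1 + (tri k).2.1 + (tri k).2.2 ≤ 2 := by decide +kernel

theorem tri_degQ : ∀ k < 30, (tri k).1 + (tri k).2.1 + (tri k).2.2 ≤ 3 := by decide +kernel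

theorem monOf_injP {j k : ℕ} (hj : j < 10) (hk : k < 10) (h : monOf j = monOf k) : j = k :=
  tri_injP j hj k hk (toMon_inj h)

theorem monOf_injQ {j k : ℕ} (hj : j < 30) (hk : k < 30) (hj' : 10 ≤ j) (hk' : 10 ≤ k)
    (h : monOf j = monOf k) : j = k :=
  tri_injQ j hj k hk hj' hk' (toMon_inj h)

theorem monP_eq : monP = (List.range 10).map tri := by decide +kernel

theorem monQ_eq : monQ = (List.range' 10 20).map tri := by decide +kernel

theorem mem_suppP (x : Ex) (a : Mon) : a ∈ x.p.supp ↔ ∃ k ∈ List.range 10, a = monOf k := by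
  show a ∈ (monP.map toMon).toFinset ↔ _
  rw [monP_eq]
  simp only [List.mem_toFinset, List.mem_map]
  constructor
  · rintro ⟨t, ⟨k, hk, rfl⟩, rfl⟩
    exact ⟨k, hk, rfl⟩
  · rintro ⟨k, hk, rfl⟩
    exact ⟨tri k, ⟨k, hk, rfl⟩, rfl⟩

theorem mem_suppQ (x : Ex) (a : Mon) : a ∈ x.q.supp ↔ ∃ k ∈ List.range' 10 20, a = monOf k := by
  show a ∈ (monQ.map toMon).toFinset ↔ _
  rw [monQ_eq]
  simp only [List.mem_toFinset, List.mem_map]
  constructor
  · rintro ⟨t, ⟨k, hk, rfl⟩, rfl⟩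
    exact ⟨k, hk, rfl⟩
  · rintro ⟨k, hk, rfl⟩
    exact ⟨tri k, ⟨k, hk, rfl⟩, rfl⟩

theorem find_zip (f : (ℕ × ℕ × ℕ) × ℤ → Bool) : ∀ (ts : List (ℕ × ℕ × ℕ)) (cs : List ℤ)
    (k : ℕ) (t : ℕ × ℕ × ℕ) (c : ℤ), ts.Nodup → ts[k]? = some t → cs[k]? = some c →
    (∀ s, f s = true ↔ s.1 = t) → (ts.zip cs).find? f = some (t, c) := by
  intro ts
  induction ts with
  | nil =>
    intro cs k t c _ h
    simp at h
  | cons t0 ts ih =>
    intro cs k t c hnd ht hc hf
    cases cs with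
    | nil => simp at hc
    | cons c0 cs =>
      rw [List.zip_cons_cons]
      cases k with
      | zero =>
        simp only [List.getElem?_cons_zero, Option.some.injEq] at ht hc
        rw [List.find?_cons_of_pos ((hf _).mpr ht), ht, hc]
      | succ k =>
        simp only [List.getElem?_cons_succ] at ht hc
        have hne : ¬ (f (t0, c0) = true) := by
          intro h
          have h1 : t0 = t := (hf _).mp h
          rw [List.nodup_cons] at hnd
          exact hnd.1 (h1 ▸ List.mem_of_getElem? ht)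
        rw [List.find?_cons_of_neg hne]
        exact ih cs k t c (List.nodup_cons.mp hnd).2 ht hc hf

theorem coeffP {x : Ex} (hx : x.coeffs.length = 30) {k : ℕ} (hk : k < 10) :
    x.p.coeff (monOf k) = (x.coeffs.getD k 0 : ℝ) := by
  show ((List.find? (fun t => decide (toMon t.1 = monOf k)) (monP.zip (x.coeffs.take 10))).elim 0
    fun t => (t.2 : ℝ)) = _
  have h1 : monP[k]? = some (tri k) := by
    rw [monP_eq, List.getElem?_map, List.getElem?_range hk]
    rfl
  have h2 : (x.coeffs.take 10)[k]? = some (x.coeffs.getD k 0) := by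
    rw [List.getElem?_take_of_lt hk, List.getD_eq_getElem?_getD, List.getElem?_eq_getElem (by omega)]
    rfl
  rw [find_zip _ monP (x.coeffs.take 10) k (tri k) (x.coeffs.getD k 0) (by decide +kernel) h1 h2]
  · rfl
  · intro s
    rw [decide_eq_true_iff, monOf_eq]
    exact ⟨toMon_inj, fun h => by rw [h]⟩

theorem coeffQ {x : Ex} (hx : x.coeffs.length = 30) {k : ℕ} (hk : 10 ≤ k) (hk' : k < 30) :
    x.q.coeff (monOf k) = (x.coeffs.getD k 0 : ℝ) := by
  show ((List.find? (fun t => decide (toMon t.1 = monOf k)) (monQ.zip (x.coeffs.drop 10))).elim 0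
    fun t => (t.2 : ℝ)) = _
  have h1 : monQ[k - 10]? = some (tri k) := by
    rw [monQ_eq, List.getElem?_map, List.getElem?_range' (by omega)]
    have : 10 + 1 * (k - 10) = k := by omega
    rw [this]
    rfl
  have h2 : (x.coeffs.drop 10)[k - 10]? = some (x.coeffs.getD k 0) := by
    rw [List.getElem?_drop, List.getD_eq_getElem?_getD]
    have : 10 + (k - 10) = k := by omega
    rw [this, List.getElem?_eq_getElem (by omega)]
    rfl
  rw [find_zip _ monQ (x.coeffs.drop 10) (k - 10) (tri k) (x.coeffs.getD k 0) (by decide +kernel)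
    h1 h2]
  · rfl
  · intro s
    rw [decide_eq_true_iff, monOf_eq]
    exact ⟨toMon_inj, fun h => by rw [h]⟩

/-- The affine form of an integer triple, at a monomial. -/
theorem sum_monOf (k : ℕ) (d : Fin 3 → ℝ) :
    ∑ i, (monOf k i : ℝ) * d i =
      ((tri k).1 : ℝ) * d 0 + ((tri k).2.1 : ℝ) * d 1 + ((tri k).2.2 : ℝ) * d 2 := by
  rw [Fin.sum_univ_three]
  rfl

theorem termP {x : Ex} (hx : x.coeffs.length = 30) (P : Z3) {k : ℕ} (hk : k < 10) :
    x.p.term (monOf k) (toPt P) = (termZ x P k : ℝ) := by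
  unfold TPoly.term
  rw [coeffP hx hk, sum_monOf]
  unfold termZ dotZ mz toPt
  push_cast
  rfl

theorem termQ {x : Ex} (hx : x.coeffs.length = 30) (P : Z3) {k : ℕ} (hk : 10 ≤ k) (hk' : k < 30) :
    x.q.term (monOf k) (toPt P) = (termZ x P k : ℝ) := by
  unfold TPoly.term
  rw [coeffQ hx hk hk', sum_monOf]
  unfold termZ dotZ mz toPt
  push_cast
  rfl

/-! ### Dominating monomials -/

theorem mem_dom_of {T : TPoly} {w : Pt} {R l : List ℕ} {v : ℕ → ℤ} {M : ℤ}
    (hs : ∀ a, a ∈ T.supp ↔ ∃ k ∈ R, a = monOf k) (hT : ∀ k ∈ R, T.term (monOf k) w = (v k : ℝ))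
    (h1 : ∀ k ∈ R, k ∈ l → v k = M) (h2 : ∀ k ∈ R, k ∉ l → v k < M) (hne : ∃ k ∈ R, k ∈ l)
    (a : Mon) : a ∈ T.dom w ↔ ∃ k ∈ R, k ∈ l ∧ a = monOf k := by
  unfold TPoly.dom
  rw [Finset.mem_filter]
  constructor
  · rintro ⟨ha, hmax⟩
    obtain ⟨k, hk, rfl⟩ := (hs a).mp ha
    refine ⟨k, hk, ?_, rfl⟩
    by_contra hkl
    obtain ⟨j, hj, hjl⟩ := hne
    have h3 := hmax _ ((hs _).mpr ⟨j, hj, rfl⟩)
    rw [hT j hj, hT k hk, h1 j hj hjl] at h3
    have h4 : M ≤ v k := by exact_mod_cast h3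
    exact absurd (h2 k hk hkl) (not_lt.mpr h4)
  · rintro ⟨k, hk, hkl, rfl⟩
    refine ⟨(hs _).mpr ⟨k, hk, rfl⟩, ?_⟩
    intro b hb
    obtain ⟨j, hj, rfl⟩ := (hs b).mp hb
    rw [hT j hj, hT k hk, h1 k hk hkl]
    have : v j ≤ M := by
      by_cases hjl : j ∈ l
      · exact (h1 j hj hjl).le
      · exact (h2 j hj hjl).le
    exact_mod_cast this

theorem domOK_spec {x : Ex} {P : Z3} {l : List ℕ} {M : ℤ} {R : List ℕ}
    (h : domOK x P l M R = true) :
    (∀ k ∈ R, k ∈ l → termZ x P k = M) ∧ (∀ k ∈ R, k ∉ l → termZ x P k < M) := by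
  unfold domOK at h
  rw [List.all_eq_true] at h
  constructor
  · intro k hk hkl
    have := h k hk
    rw [if_pos (List.contains_iff_mem.mpr hkl)] at this
    exact eq_of_beq this
  · intro k hk hkl
    have := h k hk
    rw [if_neg (fun h' => hkl (List.contains_iff_mem.mp h'))] at this
    exact of_decide_eq_true this

theorem mem_partA {l : List ℕ} {k : ℕ} : k ∈ partA l ↔ k ∈ l ∧ k < 10 := by
  unfold partA
  rw [List.mem_filter, decide_eq_true_iff]

theorem mem_partB {l : List ℕ} {k : ℕ} : k ∈ partB l ↔ k ∈ l ∧ 10 ≤ k := by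
  unfold partB
  rw [List.mem_filter, decide_eq_true_iff]

open Classical in
/-- The monomials of a list of numbers. -/
noncomputable def mons (l : List ℕ) : Finset Mon := (l.map monOf).toFinset

theorem mem_mons {l : List ℕ} {a : Mon} : a ∈ mons l ↔ ∃ k ∈ l, a = monOf k := by
  unfold mons
  simp only [List.mem_toFinset, List.mem_map]
  constructor
  · rintro ⟨k, hk, rfl⟩
    exact ⟨k, hk, rfl⟩
  · rintro ⟨k, hk, rfl⟩
    exact ⟨k, hk, rfl⟩

theorem card_mons {l : List ℕ} (hnd : l.Nodup)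
    (hinj : ∀ j ∈ l, ∀ k ∈ l, monOf j = monOf k → j = k) : (mons l).card = l.length := by
  unfold mons
  rw [List.toFinset_card_of_nodup, List.length_map]
  exact hnd.map_on hinj

theorem card_monsA {l : List ℕ} (hnd : l.Nodup) (hl : ∀ k ∈ l, k < 10) :
    (mons l).card = l.length :=
  card_mons hnd fun j hj k hk h => monOf_injP (hl j hj) (hl k hk) h

theorem card_monsB {l : List ℕ} (hnd : l.Nodup) (hl : ∀ k ∈ l, 10 ≤ k ∧ k < 30) :
    (mons l).card = l.length :=
  card_mons hnd fun j hj k hk h => monOf_injQ (hl j hj).2 (hl k hk).2 (hl j hj).1 (hl k hk).1 h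

theorem length_parts (l : List ℕ) : (partA l).length + (partB l).length = l.length := by
  unfold partA partB
  induction l with
  | nil => rfl
  | cons a l ih =>
    rw [List.filter_cons, List.filter_cons, List.length_cons]
    by_cases h : a < 10
    · have h' : ¬ 10 ≤ a := by omega
      simp only [h, h', decide_true, decide_false, if_true, List.length_cons]
      simp only [Bool.false_eq_true, if_false]
      omega
    · have h' : 10 ≤ a := by omega
      simp only [h, h', decide_true, decide_false, if_true, List.length_cons]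
      simp only [Bool.false_eq_true, if_false]
      omega

/-! ### Cells -/

/-- What the checker says about a cell. -/
structure CellFacts (x : Ex) (c : Z3 × List ℕ) : Prop where
  lt : ∀ k ∈ c.2, k < 30
  len : c.2.length = 5
  nd : c.2.Nodup
  domA : x.p.dom (toPt c.1) = mons (partA c.2)
  domB : x.q.dom (toPt c.1) = mons (partB c.2)
  neA : partA c.2 ≠ []
  neB : partB c.2 ≠ []
  ev : ∀ k ∈ c.2, ∀ y ∈ c.2, evF (dualF c.2 k) y = if y = k then 1 else 0
  nb : ∀ k ∈ c.2, bdOK (dualF c.2 k) = true ∨ ∃ τ ∈ x.mixed ++ x.other, k ∉ τ.2 ∧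
    ∀ y ∈ c.2, y ≠ k → y ∈ τ.2

theorem cellFacts {x : Ex} (hx : x.coeffs.length = 30) {c : Z3 × List ℕ}
    (h : cellOK x (x.mixed ++ x.other) c = true) : CellFacts x c := by
  unfold cellOK at h
  simp only [Bool.and_eq_true, decide_eq_true_iff, List.all_eq_true] at h
  obtain ⟨⟨hA, hB⟩, ⟨⟨⟨⟨h30, hlen⟩, hnd⟩, hneA⟩, hneB⟩, hfac⟩ := h
  have hneA' : partA c.2 ≠ [] := fun h => hneA (by rw [h]; rfl)
  have hneB' : partB c.2 ≠ [] := fun h => hneB (by rw [h]; rfl)
  obtain ⟨hA1, hA2⟩ := domOK_spec hA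
  obtain ⟨hB1, hB2⟩ := domOK_spec hB
  refine ⟨h30, hlen, hnd, ?_, ?_, hneA', hneB', ?_, ?_⟩
  · ext a
    rw [mem_dom_of (mem_suppP x) (fun k hk => termP hx c.1 (List.mem_range.mp hk)) hA1 hA2, mem_mons]
    · constructor
      · rintro ⟨k, hk, hkl, rfl⟩
        exact ⟨k, mem_partA.mpr ⟨hkl, List.mem_range.mp hk⟩, rfl⟩
      · rintro ⟨k, hk, rfl⟩
        exact ⟨k, List.mem_range.mpr (mem_partA.mp hk).2, (mem_partA.mp hk).1, rfl⟩
    · obtain ⟨k, hk⟩ := List.exists_mem_of_ne_nil _ hneA'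
      exact ⟨k, List.mem_range.mpr (mem_partA.mp hk).2, (mem_partA.mp hk).1⟩
  · ext a
    rw [mem_dom_of (mem_suppQ x) (fun k hk => termQ hx c.1 (List.mem_range'_1.mp hk).1
      (List.mem_range'_1.mp hk).2) hB1 hB2, mem_mons]
    · constructor
      · rintro ⟨k, hk, hkl, rfl⟩
        exact ⟨k, mem_partB.mpr ⟨hkl, (List.mem_range'_1.mp hk).1⟩, rfl⟩
      · rintro ⟨k, hk, rfl⟩
        have h1 := mem_partB.mp hk
        exact ⟨k, List.mem_range'_1.mpr ⟨h1.2, h30 k h1.1⟩, h1.1, rfl⟩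
    · obtain ⟨k, hk⟩ := List.exists_mem_of_ne_nil _ hneB'
      have h1 := mem_partB.mp hk
      exact ⟨k, List.mem_range'_1.mpr ⟨h1.2, h30 k h1.1⟩, h1.1⟩
  · intro k hk y hy
    have h1 := hfac k hk
    unfold facetOK at h1
    rw [Bool.and_eq_true, List.all_eq_true] at h1
    exact eq_of_beq (h1.1 y hy)
  · intro k hk
    have h1 := hfac k hk
    unfold facetOK at h1
    rw [Bool.and_eq_true, Bool.or_eq_true, List.any_eq_true] at h1
    rcases h1.2 with h2 | ⟨τ, hτ, h2⟩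
    · exact Or.inl h2
    · right
      refine ⟨τ, hτ, ?_⟩
      unfold nbOK at h2
      rw [Bool.and_eq_true, Bool.and_eq_true, List.all_eq_true] at h2
      obtain ⟨-, h3, h4⟩ := h2
      constructor
      · intro hk'
        rw [List.contains_iff_mem.mpr hk'] at h3
        exact absurd h3 (by decide)
      · intro y hy hyk
        have h5 := h4 y hy
        rw [Bool.or_eq_true] at h5
        rcases h5 with h6 | h6
        · exact absurd (eq_of_beq h6) hyk
        · exact List.contains_iff_mem.mp h6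

/-- What the checker says about an example. -/
structure ExFacts (x : Ex) : Prop where
  len : x.coeffs.length = 30
  mlen : x.mixed.length = 30
  cell : ∀ c ∈ x.mixed ++ x.other, CellFacts x c
  mix : ∀ c ∈ x.mixed, 2 ≤ (partA c.2).length ∧ 2 ≤ (partB c.2).length
  oth : ∀ c ∈ x.other, ¬ (2 ≤ (partA c.2).length ∧ 2 ≤ (partB c.2).length)
  pnd : (x.mixed.map Prod.fst).Nodup
  edge : edgesOK x = true

theorem exFacts {x : Ex} (h : check x = true) : ExFacts x := by
  unfold check at h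
  rw [Bool.and_eq_true, Bool.and_eq_true, Bool.and_eq_true, Bool.and_eq_true, Bool.and_eq_true,
    Bool.and_eq_true, decide_eq_true_iff, decide_eq_true_iff, decide_eq_true_iff,
    List.all_eq_true, List.all_eq_true, List.all_eq_true] at h
  obtain ⟨⟨h1, h2⟩, h3, ⟨h4, h5⟩, h6, h7⟩ := h
  refine ⟨h1, h2, fun c hc => cellFacts h1 (h3 c hc), ?_, ?_, h6, h7⟩
  · intro c hc
    have := h4 c hc
    unfold mixedOK at this
    rw [Bool.and_eq_true, decide_eq_true_iff, decide_eq_true_iff] at this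
    exact this
  · intro c hc hcon
    have := h5 c hc
    unfold mixedOK at this
    rw [Bool.not_eq_true', Bool.and_eq_false_iff, decide_eq_false_iff_not,
      decide_eq_false_iff_not] at this
    rcases this with h | h
    · exact h hcon.1
    · exact h hcon.2

/-! ### Facets -/

theorem evF_realA (F : Z3 × ℤ × ℤ) {k : ℕ} (hk : k < 10) :
    ∑ i, (monOf k i : ℝ) * toPt F.1 i + (F.2.1 : ℝ) = (evF F k : ℝ) := by
  rw [sum_monOf]
  unfold evF dotZ mz toPt
  rw [if_pos hk]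
  push_cast
  rfl

theorem evF_realB (F : Z3 × ℤ × ℤ) {k : ℕ} (hk : 10 ≤ k) :
    ∑ i, (monOf k i : ℝ) * toPt F.1 i + (F.2.2 : ℝ) = (evF F k : ℝ) := by
  rw [sum_monOf]
  unfold evF dotZ mz toPt
  rw [if_neg (by omega)]
  push_cast
  rfl

theorem nonneg_aux {a b c n : ℕ} {d0 d1 d2 α : ℤ} (hn : 0 < n) (h : a + b + c ≤ n) (h0 : 0 ≤ α)
    (h1 : 0 ≤ α + n * d0) (h2 : 0 ≤ α + n * d1) (h3 : 0 ≤ α + n * d2) :
    0 ≤ (a : ℤ) * d0 + b * d1 + c * d2 + α := by
  have h4 : (n : ℤ) * ((a : ℤ) * d0 + b * d1 + c * d2 + α) =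
      a * (α + n * d0) + b * (α + n * d1) + c * (α + n * d2) + (n - a - b - c) * α := by ring
  have h5 : (0 : ℤ) ≤ n - a - b - c := by
    have : (a : ℤ) + b + c ≤ n := by exact_mod_cast h
    linarith
  have h6 : 0 ≤ (n : ℤ) * ((a : ℤ) * d0 + b * d1 + c * d2 + α) := by
    rw [h4]
    have := mul_nonneg (Int.natCast_nonneg a) h1
    have := mul_nonneg (Int.natCast_nonneg b) h2
    have := mul_nonneg (Int.natCast_nonneg c) h3
    have := mul_nonneg h5 h0
    linarith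
  have hn' : (0 : ℤ) < n := by exact_mod_cast hn
  exact nonneg_of_mul_nonneg_right h6 hn'

theorem bdOK_spec {F : Z3 × ℤ × ℤ} (h : bdOK F = true) :
    (∀ k < 10, 0 ≤ evF F k) ∧ ∀ k < 30, 10 ≤ k → 0 ≤ evF F k := by
  unfold bdOK at h
  simp only [Bool.and_eq_true, decide_eq_true_iff] at h
  obtain ⟨⟨⟨⟨⟨⟨⟨h1, h2⟩, h3⟩, h4⟩, h5⟩, h6⟩, h7⟩, h8⟩ := h
  constructor
  · intro k hk
    unfold evF dotZ mz
    rw [if_pos hk]
    exact nonneg_aux (n := 2) (by norm_num) (tri_degP k hk) h1 (by exact_mod_cast h3)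
      (by exact_mod_cast h4) (by exact_mod_cast h5)
  · intro k hk hk'
    unfold evF dotZ mz
    rw [if_neg (by omega)]
    exact nonneg_aux (n := 3) (by norm_num) (tri_degQ k hk) h2 (by exact_mod_cast h6)
      (by exact_mod_cast h7) (by exact_mod_cast h8)

theorem facet {x : Ex} {c : Z3 × List ℕ} (hc : CellFacts x c) {k : ℕ} (hk : k ∈ c.2) :
    ∃ (d : Pt) (α β : ℝ),
      (∀ y ∈ partA c.2, ∑ i, (monOf y i : ℝ) * d i + α = if y = k then 1 else 0) ∧
      (∀ y ∈ partB c.2, ∑ i, (monOf y i : ℝ) * d i + β = if y = k then 1 else 0) ∧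
      (((∀ y ∈ x.p.supp, 0 ≤ ∑ i, (y i : ℝ) * d i + α) ∧
        (∀ y ∈ x.q.supp, 0 ≤ ∑ i, (y i : ℝ) * d i + β)) ∨
        ∃ τ ∈ x.mixed ++ x.other, k ∉ τ.2 ∧ ∀ y ∈ c.2, y ≠ k → y ∈ τ.2) := by
  refine ⟨toPt (dualF c.2 k).1, ((dualF c.2 k).2.1 : ℝ), ((dualF c.2 k).2.2 : ℝ), ?_, ?_, ?_⟩
  · intro y hy
    obtain ⟨hy1, hy2⟩ := mem_partA.mp hy
    rw [evF_realA _ hy2, hc.ev k hk y hy1]
    push_cast
    rfl
  · intro y hy
    obtain ⟨hy1, hy2⟩ := mem_partB.mp hy
    rw [evF_realB _ hy2, hc.ev k hk y hy1]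
    push_cast
    rfl
  · rcases hc.nb k hk with h | h
    · left
      obtain ⟨h1, h2⟩ := bdOK_spec h
      constructor
      · intro y hy
        obtain ⟨j, hj, rfl⟩ := (mem_suppP x y).mp hy
        have hj' := List.mem_range.mp hj
        rw [evF_realA _ hj']
        exact_mod_cast h1 j hj'
      · intro y hy
        obtain ⟨j, hj, rfl⟩ := (mem_suppQ x y).mp hy
        have hj' := List.mem_range'_1.mp hj
        rw [evF_realB _ hj'.1]
        exact_mod_cast h2 j hj'.2 hj'.1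
    · right
      exact h

/-- The cell as a pair of sets of monomials. -/
noncomputable def cellOf (c : Z3 × List ℕ) : Cell := (mons (partA c.2), mons (partB c.2))

open Classical in
/-- The cells of an example. -/
noncomputable def cellSet (x : Ex) : Finset Cell := ((x.mixed ++ x.other).map cellOf).toFinset

open Classical in
/-- The position of a cell. -/
noncomputable def posOf (x : Ex) (σ : Cell) : Pt :=
  if h : ∃ c ∈ x.mixed ++ x.other, cellOf c = σ then toPt h.choose.1 else 0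

theorem mem_cellSet {x : Ex} {σ : Cell} :
    σ ∈ cellSet x ↔ ∃ c ∈ x.mixed ++ x.other, cellOf c = σ := by
  unfold cellSet
  rw [List.mem_toFinset, List.mem_map]

theorem posOf_spec {x : Ex} {σ : Cell} (h : σ ∈ cellSet x) :
    ∃ c ∈ x.mixed ++ x.other, cellOf c = σ ∧ posOf x σ = toPt c.1 := by
  have h' := mem_cellSet.mp h
  refine ⟨h'.choose, h'.choose_spec.1, h'.choose_spec.2, ?_⟩
  unfold posOf
  rw [dif_pos h']

theorem hA_ex {x : Ex} (hx : ExFacts x) : ∀ σ ∈ cellSet x, ∀ a ∈ σ.1, ∃ (d : Pt) (α β : ℝ),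
      (∀ y ∈ σ.1, ∑ i, (y i : ℝ) * d i + α = if y = a then 1 else 0) ∧
      (∀ y ∈ σ.2, ∑ i, (y i : ℝ) * d i + β = 0) ∧
      (((∀ y ∈ x.p.supp, 0 ≤ ∑ i, (y i : ℝ) * d i + α) ∧
        (∀ y ∈ x.q.supp, 0 ≤ ∑ i, (y i : ℝ) * d i + β)) ∨
        ∃ τ ∈ cellSet x, σ.1.erase a ⊆ τ.1 ∧ σ.2 ⊆ τ.2 ∧ a ∉ τ.1) := by
  intro σ hσ a ha
  obtain ⟨c, hc, rfl⟩ := mem_cellSet.mp hσ
  have hcf := hx.cell c hc
  obtain ⟨k, hk, rfl⟩ := mem_mons.mp ha
  obtain ⟨hk1, hk2⟩ := mem_partA.mp hk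
  obtain ⟨d, α, β, h1, h2, h3⟩ := facet hcf hk1
  refine ⟨d, α, β, ?_, ?_, ?_⟩
  · intro y hy
    obtain ⟨j, hj, rfl⟩ := mem_mons.mp hy
    rw [h1 j hj]
    by_cases hjk : j = k
    · rw [if_pos hjk, if_pos (by rw [hjk])]
    · rw [if_neg hjk, if_neg (fun h => hjk (monOf_injP (mem_partA.mp hj).2 hk2 h))]
  · intro y hy
    obtain ⟨j, hj, rfl⟩ := mem_mons.mp hy
    rw [h2 j hj, if_neg]
    intro h
    have := (mem_partB.mp hj).2
    omega
  · rcases h3 with h3 | ⟨τ, hτ, hkτ, h4⟩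
    · exact Or.inl h3
    · right
      refine ⟨cellOf τ, mem_cellSet.mpr ⟨τ, hτ, rfl⟩, ?_, ?_, ?_⟩
      · intro y hy
        rw [Finset.mem_erase] at hy
        obtain ⟨j, hj, rfl⟩ := mem_mons.mp hy.2
        obtain ⟨hj1, hj2⟩ := mem_partA.mp hj
        exact mem_mons.mpr ⟨j, mem_partA.mpr ⟨h4 j hj1 (fun h => hy.1 (by rw [h])), hj2⟩, rfl⟩
      · intro y hy
        obtain ⟨j, hj, rfl⟩ := mem_mons.mp hy
        obtain ⟨hj1, hj2⟩ := mem_partB.mp hj
        exact mem_mons.mpr ⟨j, mem_partB.mpr ⟨h4 j hj1 (by omega), hj2⟩, rfl⟩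
      · intro h
        obtain ⟨j, hj, hjk⟩ := mem_mons.mp h
        obtain ⟨hj1, hj2⟩ := mem_partA.mp hj
        have := monOf_injP hk2 hj2 hjk
        exact hkτ (this ▸ hj1)

theorem hB_ex {x : Ex} (hx : ExFacts x) : ∀ σ ∈ cellSet x, ∀ a ∈ σ.2, ∃ (d : Pt) (α β : ℝ),
      (∀ y ∈ σ.1, ∑ i, (y i : ℝ) * d i + α = 0) ∧
      (∀ y ∈ σ.2, ∑ i, (y i : ℝ) * d i + β = if y = a then 1 else 0) ∧
      (((∀ y ∈ x.p.supp, 0 ≤ ∑ i, (y i : ℝ) * d i + α) ∧
        (∀ y ∈ x.q.supp, 0 ≤ ∑ i, (y i : ℝ) * d i + β)) ∨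
        ∃ τ ∈ cellSet x, σ.1 ⊆ τ.1 ∧ σ.2.erase a ⊆ τ.2 ∧ a ∉ τ.2) := by
  intro σ hσ a ha
  obtain ⟨c, hc, rfl⟩ := mem_cellSet.mp hσ
  have hcf := hx.cell c hc
  obtain ⟨k, hk, rfl⟩ := mem_mons.mp ha
  obtain ⟨hk1, hk2⟩ := mem_partB.mp hk
  obtain ⟨d, α, β, h1, h2, h3⟩ := facet hcf hk1
  refine ⟨d, α, β, ?_, ?_, ?_⟩
  · intro y hy
    obtain ⟨j, hj, rfl⟩ := mem_mons.mp hy
    rw [h1 j hj, if_neg]
    intro h
    have := (mem_partA.mp hj).2
    omega
  · intro y hy
    obtain ⟨j, hj, rfl⟩ := mem_mons.mp hy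
    have hj' := mem_partB.mp hj
    rw [h2 j hj]
    by_cases hjk : j = k
    · rw [if_pos hjk, if_pos (by rw [hjk])]
    · rw [if_neg hjk, if_neg (fun h => hjk (monOf_injQ (hcf.lt j hj'.1) (hcf.lt k hk1) hj'.2 hk2 h))]
  · rcases h3 with h3 | ⟨τ, hτ, hkτ, h4⟩
    · exact Or.inl h3
    · right
      refine ⟨cellOf τ, mem_cellSet.mpr ⟨τ, hτ, rfl⟩, ?_, ?_, ?_⟩
      · intro y hy
        obtain ⟨j, hj, rfl⟩ := mem_mons.mp hy
        obtain ⟨hj1, hj2⟩ := mem_partA.mp hj
        exact mem_mons.mpr ⟨j, mem_partA.mpr ⟨h4 j hj1 (by omega), hj2⟩, rfl⟩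
      · intro y hy
        rw [Finset.mem_erase] at hy
        obtain ⟨j, hj, rfl⟩ := mem_mons.mp hy.2
        obtain ⟨hj1, hj2⟩ := mem_partB.mp hj
        exact mem_mons.mpr ⟨j, mem_partB.mpr ⟨h4 j hj1 (fun h => hy.1 (by rw [h])), hj2⟩, rfl⟩
      · intro h
        obtain ⟨j, hj, hjk⟩ := mem_mons.mp h
        obtain ⟨hj1, hj2⟩ := mem_partB.mp hj
        have := monOf_injQ (hcf.lt k hk1) ((hx.cell τ hτ).lt j hj1) hk2 hj2 hjk
        exact hkτ (this ▸ hj1)

theorem cardA {x : Ex} {c : Z3 × List ℕ} (hc : CellFacts x c) :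
    (mons (partA c.2)).card = (partA c.2).length :=
  card_monsA (hc.nd.filter _) fun _ hk => (mem_partA.mp hk).2

theorem cardB {x : Ex} {c : Z3 × List ℕ} (hc : CellFacts x c) :
    (mons (partB c.2)).card = (partB c.2).length :=
  card_monsB (hc.nd.filter _) fun k hk => ⟨(mem_partB.mp hk).2, hc.lt k (mem_partB.mp hk).1⟩

theorem mons_nonempty {l : List ℕ} (h : l ≠ []) : (mons l).Nonempty := by
  obtain ⟨k, hk⟩ := List.exists_mem_of_ne_nil _ h
  exact ⟨monOf k, mem_mons.mpr ⟨k, hk, rfl⟩⟩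

theorem complete_ex {x : Ex} (hx : ExFacts x) {w : Pt} (hw : Spans (x.p.dom w) (x.q.dom w))
    (hP : (x.p.dom w).Nonempty) (hQ : (x.q.dom w).Nonempty) :
    ∃ c ∈ x.mixed ++ x.other, x.p.dom w = mons (partA c.2) ∧ x.q.dom w = mons (partB c.2) ∧
      w = toPt c.1 := by
  have hne : (cellSet x).Nonempty := by
    have hm : x.mixed ≠ [] := by
      intro h
      have := hx.mlen
      rw [h] at this
      exact absurd this (by decide)
    obtain ⟨c, hc⟩ := List.exists_mem_of_ne_nil _ hm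
    exact ⟨cellOf c, mem_cellSet.mpr ⟨c, List.mem_append_left _ hc, rfl⟩⟩
  have k1 : ∀ σ ∈ cellSet x, x.p.dom (posOf x σ) = σ.1 ∧ x.q.dom (posOf x σ) = σ.2 := by
    intro σ hσ
    obtain ⟨c, hc, rfl, hc2⟩ := posOf_spec hσ
    rw [hc2]
    exact ⟨(hx.cell c hc).domA, (hx.cell c hc).domB⟩
  have k2 : ∀ σ ∈ cellSet x, σ.1.Nonempty ∧ σ.2.Nonempty := by
    intro σ hσ
    obtain ⟨c, hc, rfl⟩ := mem_cellSet.mp hσ
    exact ⟨mons_nonempty (hx.cell c hc).neA, mons_nonempty (hx.cell c hc).neB⟩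
  have k3 : ∀ σ ∈ cellSet x, σ.1.card + σ.2.card = 5 := by
    intro σ hσ
    obtain ⟨c, hc, rfl⟩ := mem_cellSet.mp hσ
    show (mons (partA c.2)).card + (mons (partB c.2)).card = 5
    rw [cardA (hx.cell c hc), cardB (hx.cell c hc), length_parts, (hx.cell c hc).len]
  obtain ⟨σ, hσ, h1, h2, h3⟩ := complete x.p x.q (cellSet x) (posOf x) hne k1 k2 k3 (hA_ex hx)
    (hB_ex hx) w hw hP hQ
  obtain ⟨c, hc, hc1, hc2⟩ := posOf_spec hσ
  subst hc1
  exact ⟨c, hc, h1, h2, h3.trans hc2⟩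

/-! ### Degrees -/

theorem mem_simplex {D : ℕ} (hD : 0 < D) {a b c : ℕ} (h : a + b + c ≤ D) :
    (![(a : ℝ), (b : ℝ), (c : ℝ)] : Pt) ∈
      convexHull ℝ (insert 0 (Set.range fun i : Fin 3 => (Pi.single i (D : ℝ) : Pt))) := by
  have hD' : (0 : ℝ) < D := by exact_mod_cast hD
  have hs : ((a : ℝ) + b + c) ≤ D := by exact_mod_cast h
  have hc : Convex ℝ (convexHull ℝ (insert 0 (Set.range fun i : Fin 3 =>
    (Pi.single i (D : ℝ) : Pt)))) := convex_convexHull ℝ _
  let v : Fin 4 → Pt := ![0, Pi.single 0 (D : ℝ), Pi.single 1 (D : ℝ), Pi.single 2 (D : ℝ)]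
  let u : Fin 4 → ℝ := ![1 - (a + b + c) / D, a / D, b / D, c / D]
  have hv : ∀ i ∈ (Finset.univ : Finset (Fin 4)), v i ∈ convexHull ℝ (insert 0
      (Set.range fun i : Fin 3 => (Pi.single i (D : ℝ) : Pt))) := by
    intro i _
    apply subset_convexHull
    fin_cases i
    · exact Set.mem_insert _ _
    · exact Set.mem_insert_of_mem _ ⟨0, rfl⟩
    · exact Set.mem_insert_of_mem _ ⟨1, rfl⟩
    · exact Set.mem_insert_of_mem _ ⟨2, rfl⟩
  have hu : ∀ i ∈ (Finset.univ : Finset (Fin 4)), 0 ≤ u i := by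
    intro i _
    fin_cases i
    · show 0 ≤ 1 - ((a : ℝ) + b + c) / D
      rw [sub_nonneg, div_le_one hD']
      exact hs
    · show 0 ≤ (a : ℝ) / D
      positivity
    · show 0 ≤ (b : ℝ) / D
      positivity
    · show 0 ≤ (c : ℝ) / D
      positivity
  have hu1 : ∑ i ∈ (Finset.univ : Finset (Fin 4)), u i = 1 := by
    rw [Fin.sum_univ_four]
    show 1 - ((a : ℝ) + b + c) / D + (a : ℝ) / D + (b : ℝ) / D + (c : ℝ) / D = 1
    ring
  have := hc.sum_mem hu hu1 hv
  have heq : ∑ i ∈ (Finset.univ : Finset (Fin 4)), u i • v i = ![(a : ℝ), (b : ℝ), (c : ℝ)] := by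
    rw [Fin.sum_univ_four]
    show (1 - ((a : ℝ) + b + c) / D) • (0 : Pt) + ((a : ℝ) / D) • (Pi.single 0 (D : ℝ) : Pt) +
      ((b : ℝ) / D) • (Pi.single 1 (D : ℝ) : Pt) + ((c : ℝ) / D) • (Pi.single 2 (D : ℝ) : Pt) = _
    ext i
    fin_cases i
    · simp [hD'.ne']
    · simp [hD'.ne']
    · simp [hD'.ne']
  rw [← heq]
  exact this

theorem hasDegree_of {T : TPoly} {D : ℕ} (hD : 0 < D) {R : List ℕ}
    (hs : ∀ a, a ∈ T.supp ↔ ∃ k ∈ R, a = monOf k)
    (hdeg : ∀ k ∈ R, (tri k).1 + (tri k).2.1 + (tri k).2.2 ≤ D)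
    (h0 : ∃ k ∈ R, tri k = (0, 0, 0)) (h1 : ∃ k ∈ R, tri k = (D, 0, 0))
    (h2 : ∃ k ∈ R, tri k = (0, D, 0)) (h3 : ∃ k ∈ R, tri k = (0, 0, D)) : T.HasDegree D := by
  unfold TPoly.HasDegree
  apply subset_antisymm
  · apply convexHull_min _ (convex_convexHull ℝ _)
    rintro _ ⟨a, ha, rfl⟩
    obtain ⟨k, hk, rfl⟩ := (hs a).mp ha
    have h4 := mem_simplex hD (hdeg k hk)
    have h5 : (fun i => (monOf k i : ℝ)) =
        (![((tri k).1 : ℝ), ((tri k).2.1 : ℝ), ((tri k).2.2 : ℝ)] : Pt) := by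
      ext i
      fin_cases i <;> rfl
    show (fun i => (monOf k i : ℝ)) ∈ _
    rw [h5]
    exact h4
  · apply convexHull_mono
    intro z hz
    rcases hz with hz | ⟨i, hi⟩
    · obtain ⟨k, hk, hk'⟩ := h0
      refine ⟨monOf k, (hs _).mpr ⟨k, hk, rfl⟩, ?_⟩
      rw [hz]
      ext i
      rw [monOf_eq, hk']
      fin_cases i <;> simp [toMon]
    · rw [← hi]
      fin_cases i
      · obtain ⟨k, hk, hk'⟩ := h1
        refine ⟨monOf k, (hs _).mpr ⟨k, hk, rfl⟩, ?_⟩
        ext i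
        rw [monOf_eq, hk']
        fin_cases i <;> simp [toMon]
      · obtain ⟨k, hk, hk'⟩ := h2
        refine ⟨monOf k, (hs _).mpr ⟨k, hk, rfl⟩, ?_⟩
        ext i
        rw [monOf_eq, hk']
        fin_cases i <;> simp [toMon]
      · obtain ⟨k, hk, hk'⟩ := h3
        refine ⟨monOf k, (hs _).mpr ⟨k, hk, rfl⟩, ?_⟩
        ext i
        rw [monOf_eq, hk']
        fin_cases i <;> simp [toMon]

theorem degree_p (x : Ex) : x.p.HasDegree 2 :=
  hasDegree_of (by norm_num) (mem_suppP x) (fun k hk => tri_degP k (List.mem_range.mp hk))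
    ⟨0, by decide +kernel, by decide +kernel⟩ ⟨9, by decide +kernel, by decide +kernel⟩
    ⟨5, by decide +kernel, by decide +kernel⟩ ⟨2, by decide +kernel, by decide +kernel⟩

theorem degree_q (x : Ex) : x.q.HasDegree 3 :=
  hasDegree_of (by norm_num) (mem_suppQ x)
    (fun k hk => tri_degQ k (List.mem_range'_1.mp hk).2)
    ⟨10, by decide +kernel, by decide +kernel⟩ ⟨29, by decide +kernel, by decide +kernel⟩
    ⟨19, by decide +kernel, by decide +kernel⟩ ⟨13, by decide +kernel, by decide +kernel⟩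

theorem ex_degree (i : Fin 14) : (exs i).p.HasDegree 2 ∧ (exs i).q.HasDegree 3 :=
  ⟨degree_p _, degree_q _⟩

/-! ### Vertices -/

theorem constP {x : Ex} (d : Pt) (h : ∃ c, ∀ y ∈ x.p.supp, ∑ i, (y i : ℝ) * d i = c) : d = 0 := by
  obtain ⟨c, hc⟩ := h
  have key : ∀ k < 10, ((tri k).1 : ℝ) * d 0 + ((tri k).2.1 : ℝ) * d 1 + ((tri k).2.2 : ℝ) * d 2
      = c := by
    intro k hk
    rw [← sum_monOf]
    exact hc _ ((mem_suppP x _).mpr ⟨k, List.mem_range.mpr hk, rfl⟩)
  have e0 : tri 0 = (0, 0, 0) := by decide +kernel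
  have e1 : tri 6 = (1, 0, 0) := by decide +kernel
  have e2 : tri 3 = (0, 1, 0) := by decide +kernel
  have e3 : tri 1 = (0, 0, 1) := by decide +kernel
  have k0 := key 0 (by norm_num)
  have k1 := key 6 (by norm_num)
  have k2 := key 3 (by norm_num)
  have k3 := key 1 (by norm_num)
  rw [e0] at k0
  rw [e1] at k1
  rw [e2] at k2
  rw [e3] at k3
  push_cast at k0 k1 k2 k3
  ext i
  fin_cases i
  · show d 0 = 0
    linarith
  · show d 1 = 0
    linarith
  · show d 2 = 0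
    linarith

theorem getD_mem {α : Type*} {l : List α} {j : ℕ} (hj : j < l.length) (d : α) :
    l.getD j d ∈ l := by
  rw [List.getD_eq_getElem _ _ hj]
  exact List.getElem_mem hj

theorem pos_eq {x : Ex} {j : ℕ} (hj : j < x.mixed.length) :
    x.pos j = toPt (x.mixed[j]).1 := by
  unfold Ex.pos
  rw [List.getD_eq_getElem _ _ (by rw [List.length_map]; exact hj), List.getElem_map]

theorem vertex_of {x : Ex} (hx : ExFacts x) (w : Pt) :
    (2 ≤ (x.p.dom w).card ∧ 2 ≤ (x.q.dom w).card ∧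
      5 ≤ (x.p.dom w).card + (x.q.dom w).card) ↔ ∃ j < 30, w = x.pos j := by
  constructor
  · rintro ⟨h1, h2, h3⟩
    have hq : x.q.supp.Nonempty :=
      ⟨monOf 10, (mem_suppQ x _).mpr ⟨10, by decide, rfl⟩⟩
    obtain ⟨w', hA, hB, hS⟩ := exists_spans (p := x.p) (q := x.q) (fun d hd => constP d hd) hq w
    have hAne : (x.p.dom w).Nonempty := Finset.card_pos.mp (by omega)
    have hBne : (x.q.dom w).Nonempty := Finset.card_pos.mp (by omega)
    obtain ⟨c, hc, hc1, hc2, -⟩ := complete_ex hx hS (hAne.mono hA) (hBne.mono hB)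
    have hcf := hx.cell c hc
    have hlen : (x.p.dom w').card + (x.q.dom w').card = 5 := by
      rw [hc1, hc2, cardA hcf, cardB hcf, length_parts, hcf.len]
    have hA1 := Finset.card_le_card hA
    have hB1 := Finset.card_le_card hB
    have hA2 : x.p.dom w = x.p.dom w' := Finset.eq_of_subset_of_card_le hA (by omega)
    have hB2 : x.q.dom w = x.q.dom w' := Finset.eq_of_subset_of_card_le hB (by omega)
    have hS' : Spans (x.p.dom w) (x.q.dom w) := by
      rw [hA2, hB2]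
      exact hS
    obtain ⟨c', hc', hc1', hc2', hw⟩ := complete_ex hx hS' hAne hBne
    have hcf' := hx.cell c' hc'
    have hlA : 2 ≤ (partA c'.2).length := by
      rw [← cardA hcf', ← hc1']
      exact h1
    have hlB : 2 ≤ (partB c'.2).length := by
      rw [← cardB hcf', ← hc2']
      exact h2
    rcases List.mem_append.mp hc' with hm | hm
    · obtain ⟨j, hj, hjc⟩ := List.mem_iff_getElem.mp hm
      refine ⟨j, by rw [← hx.mlen]; exact hj, ?_⟩
      rw [pos_eq hj, hjc]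
      exact hw
    · exact absurd ⟨hlA, hlB⟩ (hx.oth c' hm)
  · rintro ⟨j, hj, rfl⟩
    have hj' : j < x.mixed.length := by
      rw [hx.mlen]
      exact hj
    have hm : x.mixed[j] ∈ x.mixed := List.getElem_mem hj'
    have hcf := hx.cell _ (List.mem_append_left _ hm)
    have hmix := hx.mix _ hm
    rw [pos_eq hj', hcf.domA, hcf.domB, cardA hcf, cardB hcf]
    exact ⟨hmix.1, hmix.2, by rw [length_parts, hcf.len]⟩

theorem inj_of {x : Ex} (hx : ExFacts x) : ∀ j < 30, ∀ k < 30, x.pos j = x.pos k → j = k := by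
  intro j hj k hk h
  have hj' : j < x.mixed.length := by rw [hx.mlen]; exact hj
  have hk' : k < x.mixed.length := by rw [hx.mlen]; exact hk
  rw [pos_eq hj', pos_eq hk'] at h
  have h2 := toPt_inj h
  have h3 := hx.pnd
  refine (List.nodup_iff_injective_get.mp h3) (a₁ := ⟨j, by rw [List.length_map]; exact hj'⟩)
    (a₂ := ⟨k, by rw [List.length_map]; exact hk'⟩) ?_ |> fun h => congrArg Fin.val h
  simp only [List.get_eq_getElem, List.getElem_map]
  exact h2

/-! ### Edges -/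

theorem lst_eq {x : Ex} {j : ℕ} (hj : j < x.mixed.length) : lst x j = (x.mixed[j]).2 := by
  unfold lst
  rw [List.getD_eq_getElem _ _ (by rw [List.length_map]; exact hj), List.getElem_map]

open Classical in
theorem interA {l l' : List ℕ} :
    mons (partA l) ∩ mons (partA l') = mons ((partA l).filter fun a => l'.contains a) := by
  ext y
  rw [Finset.mem_inter, mem_mons, mem_mons, mem_mons]
  constructor
  · rintro ⟨⟨j, hj, rfl⟩, k, hk, hjk⟩
    have := monOf_injP (mem_partA.mp hj).2 (mem_partA.mp hk).2 hjk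
    subst this
    exact ⟨j, List.mem_filter.mpr ⟨hj, List.contains_iff_mem.mpr (mem_partA.mp hk).1⟩, rfl⟩
  · rintro ⟨j, hj, rfl⟩
    obtain ⟨h1, h2⟩ := List.mem_filter.mp hj
    exact ⟨⟨j, h1, rfl⟩, j, mem_partA.mpr ⟨List.contains_iff_mem.mp h2, (mem_partA.mp h1).2⟩, rfl⟩

open Classical in
theorem interB {l l' : List ℕ} (hl : ∀ k ∈ l, k < 30) (hl' : ∀ k ∈ l', k < 30) :
    mons (partB l) ∩ mons (partB l') = mons ((partB l).filter fun a => l'.contains a) := by
  ext y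
  rw [Finset.mem_inter, mem_mons, mem_mons, mem_mons]
  constructor
  · rintro ⟨⟨j, hj, rfl⟩, k, hk, hjk⟩
    have h1 := mem_partB.mp hj
    have h2 := mem_partB.mp hk
    have := monOf_injQ (hl j h1.1) (hl' k h2.1) h1.2 h2.2 hjk
    subst this
    exact ⟨j, List.mem_filter.mpr ⟨hj, List.contains_iff_mem.mpr h2.1⟩, rfl⟩
  · rintro ⟨j, hj, rfl⟩
    obtain ⟨h1, h2⟩ := List.mem_filter.mp hj
    exact ⟨⟨j, h1, rfl⟩, j, mem_partB.mpr ⟨List.contains_iff_mem.mp h2, (mem_partB.mp h1).2⟩, rfl⟩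

open Classical in
theorem edgeB_iff {x : Ex} (hx : ExFacts x) {j k : ℕ} (hj : j < 30) (hk : k < 30) :
    edgeB x j k = true ↔ 2 ≤ (x.p.dom (x.pos j) ∩ x.p.dom (x.pos k)).card ∧
      2 ≤ (x.q.dom (x.pos j) ∩ x.q.dom (x.pos k)).card := by
  have hj' : j < x.mixed.length := by rw [hx.mlen]; exact hj
  have hk' : k < x.mixed.length := by rw [hx.mlen]; exact hk
  have cj := hx.cell _ (List.mem_append_left _ (List.getElem_mem hj'))
  have ck := hx.cell _ (List.mem_append_left _ (List.getElem_mem hk'))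
  unfold edgeB
  rw [Bool.and_eq_true, decide_eq_true_iff, decide_eq_true_iff, pos_eq hj', pos_eq hk', cj.domA,
    ck.domA, cj.domB, ck.domB, interA, interB cj.lt ck.lt, lst_eq hj', lst_eq hk',
    card_monsA, card_monsB]
  · exact (cj.nd.filter _).filter _
  · intro a ha
    have h1 := mem_partB.mp (List.mem_filter.mp ha).1
    exact ⟨h1.2, cj.lt a h1.1⟩
  · exact (cj.nd.filter _).filter _
  · intro a ha
    exact (mem_partA.mp (List.mem_filter.mp ha).1).2

theorem edge_of {x : Ex} (hx : ExFacts x) : ∀ j < 30, ∀ k < 30,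
    ((j ≠ k ∧ 2 ≤ (x.p.dom (x.pos j) ∩ x.p.dom (x.pos k)).card ∧
      2 ≤ (x.q.dom (x.pos j) ∩ x.q.dom (x.pos k)).card) ↔
      ((j, k) ∈ x.edges ∨ (k, j) ∈ x.edges)) := by
  have he := hx.edge
  unfold edgesOK at he
  rw [Bool.and_eq_true, List.all_eq_true, List.all_eq_true] at he
  obtain ⟨he1, he2⟩ := he
  have key : ∀ j < 30, ∀ k < 30, j < k → edgeB x j k = true → (j, k) ∈ x.edges := by
    intro j hj k hk hjk hB
    have h1 := he2 j (List.mem_range.mpr hj)
    rw [List.all_eq_true] at h1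
    have h2 := h1 k (List.mem_range.mpr hk)
    rw [Bool.or_eq_true, Bool.or_eq_true, decide_eq_true_iff, hB] at h2
    rcases h2 with h2 | h2 | h2
    · omega
    · exact absurd h2 (by decide)
    · exact List.contains_iff_mem.mp h2
  have key2 : ∀ j k, (j, k) ∈ x.edges → edgeB x j k = true ∧ j ≠ k := by
    intro j k hjk
    have h1 := he1 (j, k) hjk
    rw [Bool.and_eq_true, decide_eq_true_iff] at h1
    exact h1
  intro j hj k hk
  constructor
  · rintro ⟨hne, h⟩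
    rcases lt_or_gt_of_ne hne with hlt | hlt
    · exact Or.inl (key j hj k hk hlt ((edgeB_iff hx hj hk).mpr (by convert h)))
    · right
      apply key k hk j hj hlt
      rw [edgeB_iff hx hk hj, Finset.inter_comm, Finset.inter_comm (x.q.dom (x.pos k))]
      convert h
  · rintro (h | h)
    · obtain ⟨h1, h2⟩ := key2 j k h
      refine ⟨h2, ?_⟩
      have := (edgeB_iff hx hj hk).mp h1
      convert this
    · obtain ⟨h1, h2⟩ := key2 k j h
      refine ⟨h2.symm, ?_⟩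
      have := (edgeB_iff hx hk hj).mp h1
      rw [Finset.inter_comm, Finset.inter_comm (x.q.dom (x.pos k))] at this
      convert this

/-! ### Volumes -/

/-- The Cayley point of the monomial number `k`. -/
def zpt (k : ℕ) : Fin 4 → ℤ := ![(mz k).1, (mz k).2.1, (mz k).2.2, if k < 10 then 0 else 1]

/-- The five Cayley points of a cell. -/
def vpt (l : List ℕ) (i : Fin 5) : Fin 4 → ℤ := zpt (l.getD i 0)

/-- The linear part of an affine function, in four-space. -/
def lin (F : Z3 × ℤ × ℤ) : Fin 4 → ℤ := ![F.1.1, F.1.2.1, F.1.2.2, F.2.2 - F.2.1]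

theorem lin_zpt (F : Z3 × ℤ × ℤ) (k : ℕ) : ∑ i, lin F i * zpt k i = evF F k - F.2.1 := by
  rw [Fin.sum_univ_four]
  unfold lin zpt evF dotZ
  by_cases h : k < 10
  · rw [if_pos h, if_pos h]
    show F.1.1 * (mz k).1 + F.1.2.1 * (mz k).2.1 + F.1.2.2 * (mz k).2.2 + (F.2.2 - F.2.1) * 0 = _
    ring
  · rw [if_neg h, if_neg h]
    show F.1.1 * (mz k).1 + F.1.2.1 * (mz k).2.1 + F.1.2.2 * (mz k).2.2 + (F.2.2 - F.2.1) * 1 = _
    ring

theorem det_of {x : Ex} {c : Z3 × List ℕ} (hc : CellFacts x c) :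
    (Matrix.of fun i j : Fin 4 => vpt c.2 i.succ j - vpt c.2 0 j).det = 1 ∨
      (Matrix.of fun i j : Fin 4 => vpt c.2 i.succ j - vpt c.2 0 j).det = -1 := by
  have hmem : ∀ i : Fin 5, c.2.getD i 0 ∈ c.2 := fun i =>
    getD_mem (by rw [hc.len]; exact i.isLt) 0
  have hinj : ∀ i j : Fin 5, c.2.getD i 0 = c.2.getD j 0 → i = j := by
    intro i j h
    have hi : (i : ℕ) < c.2.length := by rw [hc.len]; exact i.isLt
    have hj : (j : ℕ) < c.2.length := by rw [hc.len]; exact j.isLt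
    rw [List.getD_eq_getElem _ _ hi, List.getD_eq_getElem _ _ hj] at h
    exact Fin.ext ((List.Nodup.getElem_inj_iff hc.nd).mp h)
  set M : Matrix (Fin 4) (Fin 4) ℤ := Matrix.of fun i j : Fin 4 => vpt c.2 i.succ j - vpt c.2 0 j
    with hM
  let N : Matrix (Fin 4) (Fin 4) ℤ := Matrix.of fun i j => lin (dualF c.2 (c.2.getD i.succ 0)) j
  have hNM : N * M.transpose = 1 := by
    ext i j
    rw [Matrix.mul_apply, Matrix.one_apply]
    have h1 : ∀ k : Fin 4, N i k * M.transpose k j =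
        lin (dualF c.2 (c.2.getD i.succ 0)) k * zpt (c.2.getD j.succ 0) k -
        lin (dualF c.2 (c.2.getD i.succ 0)) k * zpt (c.2.getD (0 : Fin 5) 0) k := by
      intro k
      show lin (dualF c.2 (c.2.getD i.succ 0)) k *
        (zpt (c.2.getD j.succ 0) k - zpt (c.2.getD (0 : Fin 5) 0) k) = _
      ring
    rw [Finset.sum_congr rfl fun k _ => h1 k, Finset.sum_sub_distrib, lin_zpt, lin_zpt,
      hc.ev _ (hmem i.succ) _ (hmem j.succ), hc.ev _ (hmem i.succ) _ (hmem 0)]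
    have h2 : c.2.getD (0 : Fin 5) 0 ≠ c.2.getD i.succ 0 := by
      intro h
      exact absurd (hinj _ _ h) (Fin.succ_ne_zero i).symm
    rw [if_neg h2]
    by_cases hij : i = j
    · rw [if_pos hij, if_pos (by rw [hij])]
      ring
    · rw [if_neg hij, if_neg]
      · ring
      · intro h
        exact hij (Fin.succ_injective _ (hinj _ _ h)).symm
  have hdet : N.det * M.det = 1 := by
    have := congrArg Matrix.det hNM
    rwa [Matrix.det_mul, Matrix.det_transpose, Matrix.det_one] at this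
  exact Int.isUnit_iff.mp (IsUnit.of_mul_eq_one_right _ hdet)

theorem zero_of_const {U : Set (Fin 4 → ℝ)} (hU : affineSpan ℝ U = ⊤) (v : Fin 4 → ℝ) (c : ℝ)
    (h : ∀ x ∈ U, ∑ i, v i * x i = c) : v = 0 := by
  have hv : vectorSpan ℝ U = ⊤ := AffineSubspace.vectorSpan_eq_top_of_affineSpan_eq_top ℝ _ _ hU
  have h1 : ∀ z : Fin 4 → ℝ, ∑ i, v i * z i = 0 := by
    intro z
    have hz : z ∈ vectorSpan ℝ U := by
      rw [hv]
      trivial
    unfold vectorSpan at hz
    refine Submodule.span_induction (p := fun z _ => ∑ i, v i * z i = 0) ?_ ?_ ?_ ?_ hz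
    · rintro _ ⟨a, ha, b, hb, rfl⟩
      show ∑ i, v i * (a i - b i) = 0
      have h2 : ∀ i, v i * (a i - b i) = v i * a i - v i * b i := fun i => by ring
      rw [Finset.sum_congr rfl fun i _ => h2 i, Finset.sum_sub_distrib, h a ha, h b hb, sub_self]
    · simp
    · intro a b _ _ ha hb
      have h2 : ∀ i, v i * (a + b) i = v i * a i + v i * b i := fun i => by
        rw [Pi.add_apply]
        ring
      rw [Finset.sum_congr rfl fun i _ => h2 i, Finset.sum_add_distrib, ha, hb, add_zero]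
    · intro t a _ ha
      have h2 : ∀ i, v i * (t • a) i = t * (v i * a i) := fun i => by
        rw [Pi.smul_apply, smul_eq_mul]
        ring
      rw [Finset.sum_congr rfl fun i _ => h2 i, ← Finset.mul_sum, ha, mul_zero]
  ext i
  have h2 := h1 (Pi.single i 1)
  rw [Finset.sum_eq_single i] at h2
  · simpa using h2
  · intro j _ hj
    rw [Pi.single_eq_of_ne hj, mul_zero]
  · intro hi
    exact absurd (Finset.mem_univ i) hi

theorem sum_cay (v : Fin 4 → ℝ) (a : Mon) (t : ℝ) :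
    ∑ i, v i * cay a t i = ∑ i : Fin 3, (a i : ℝ) * v i.castSucc + v 3 * t := by
  rw [Fin.sum_univ_four, Fin.sum_univ_three]
  show v 0 * (a 0 : ℝ) + v 1 * (a 1 : ℝ) + v 2 * (a 2 : ℝ) + v 3 * t =
    (a 0 : ℝ) * v 0 + (a 1 : ℝ) * v 1 + (a 2 : ℝ) * v 2 + v 3 * t
  ring

theorem realPt_zptA {k : ℕ} (hk : k < 10) : realPt (zpt k) = cay (monOf k) 0 := by
  ext i
  unfold realPt zpt cay
  rw [if_pos hk]
  fin_cases i
  · show (((tri k).1 : ℤ) : ℝ) = ((tri k).1 : ℝ)
    push_cast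
    rfl
  · show (((tri k).2.1 : ℤ) : ℝ) = ((tri k).2.1 : ℝ)
    push_cast
    rfl
  · show (((tri k).2.2 : ℤ) : ℝ) = ((tri k).2.2 : ℝ)
    push_cast
    rfl
  · show ((0 : ℤ) : ℝ) = 0
    push_cast
    rfl

theorem realPt_zptB {k : ℕ} (hk : 10 ≤ k) : realPt (zpt k) = cay (monOf k) 1 := by
  ext i
  unfold realPt zpt cay
  rw [if_neg (by omega)]
  fin_cases i
  · show (((tri k).1 : ℤ) : ℝ) = ((tri k).1 : ℝ)
    push_cast
    rfl
  · show (((tri k).2.1 : ℤ) : ℝ) = ((tri k).2.1 : ℝ)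
    push_cast
    rfl
  · show (((tri k).2.2 : ℤ) : ℝ) = ((tri k).2.2 : ℝ)
    push_cast
    rfl
  · show ((1 : ℤ) : ℝ) = 1
    push_cast
    rfl

theorem mem_dom {T : TPoly} {w : Pt} {a : Mon} :
    a ∈ T.dom w ↔ a ∈ T.supp ∧ ∀ b ∈ T.supp, T.term b w ≤ T.term a w := by
  unfold TPoly.dom
  rw [Finset.mem_filter]

theorem smooth_of {x : Ex} (hx : ExFacts x) : Smooth x.p x.q := by
  intro w s hspan
  set U := upperCell x.p x.q w s with hU
  -- both kinds of points occur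
  have hexA : ∃ a ∈ x.p.supp, (∀ a' ∈ x.p.supp, x.p.term a' w ≤ x.p.term a w) ∧
      ∀ b ∈ x.q.supp, x.q.term b w + s ≤ x.p.term a w := by
    by_contra hcon
    have h1 : ∀ z ∈ U, ∑ i, (Pi.single 3 1 : Fin 4 → ℝ) i * z i = 1 := by
      intro z hz
      rcases hz with ⟨a, ha, -, h2, h3⟩ | ⟨b, hb, rfl, h2, h3⟩
      · exact absurd ⟨a, ha, h2, h3⟩ hcon
      · rw [Fin.sum_univ_four]
        simp [cay]
    have h2 := congrFun (zero_of_const hspan _ _ h1) 3
    simp at h2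
  have hexB : ∃ b ∈ x.q.supp, (∀ a ∈ x.p.supp, x.p.term a w ≤ x.q.term b w + s) ∧
      ∀ b' ∈ x.q.supp, x.q.term b' w ≤ x.q.term b w := by
    by_contra hcon
    have h1 : ∀ z ∈ U, ∑ i, (Pi.single 3 1 : Fin 4 → ℝ) i * z i = 0 := by
      intro z hz
      rcases hz with ⟨a, ha, rfl, h2, h3⟩ | ⟨b, hb, -, h2, h3⟩
      · rw [Fin.sum_univ_four]
        simp [cay]
      · exact absurd ⟨b, hb, h2, h3⟩ hcon
    have h2 := congrFun (zero_of_const hspan _ _ h1) 3
    simp at h2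
  obtain ⟨a0, ha0, ha1, ha2⟩ := hexA
  obtain ⟨b0, hb0, hb1, hb2⟩ := hexB
  have hM : x.q.term b0 w + s = x.p.term a0 w := le_antisymm (ha2 b0 hb0) (hb1 a0 ha0)
  have hmemA : ∀ a ∈ x.p.dom w, cay a 0 ∈ U := by
    intro a ha
    rw [mem_dom] at ha
    left
    refine ⟨a, ha.1, rfl, ha.2, ?_⟩
    intro b hb
    have h1 := ha2 b hb
    have h2 := ha.2 a0 ha0
    linarith
  have hmemB : ∀ b ∈ x.q.dom w, cay b 1 ∈ U := by
    intro b hb
    rw [mem_dom] at hb
    right
    refine ⟨b, hb.1, rfl, ?_, hb.2⟩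
    intro a ha
    have h1 := ha1 a ha
    have h2 := hb.2 b0 hb0
    linarith
  have hS : Spans (x.p.dom w) (x.q.dom w) := by
    rintro d ⟨cA, hcA⟩ ⟨cB, hcB⟩
    let v : Fin 4 → ℝ := ![d 0, d 1, d 2, cA - cB]
    have h1 : ∀ z ∈ U, ∑ i, v i * z i = cA := by
      intro z hz
      rcases hz with ⟨a, ha, rfl, h2, h3⟩ | ⟨b, hb, rfl, h2, h3⟩
      · have h4 := hcA a (mem_dom.mpr ⟨ha, h2⟩)
        rw [sum_cay, mul_zero, add_zero, ← h4, Fin.sum_univ_three, Fin.sum_univ_three]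
        rfl
      · have h4 := hcB b (mem_dom.mpr ⟨hb, h3⟩)
        rw [sum_cay, mul_one]
        rw [Fin.sum_univ_three] at h4 ⊢
        show (b 0 : ℝ) * d 0 + (b 1 : ℝ) * d 1 + (b 2 : ℝ) * d 2 + (cA - cB) = cA
        linarith
    have h2 := zero_of_const hspan v cA h1
    ext i
    fin_cases i
    · exact congrFun h2 0
    · exact congrFun h2 1
    · exact congrFun h2 2
  obtain ⟨c, hc, hcA, hcB, -⟩ := complete_ex hx hS ⟨a0, mem_dom.mpr ⟨ha0, ha1⟩⟩
    ⟨b0, mem_dom.mpr ⟨hb0, hb2⟩⟩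
  have hcf := hx.cell c hc
  have hUeq : U = Set.range fun k : Fin 5 => realPt (vpt c.2 k) := by
    ext z
    constructor
    · intro hz
      have hfind : ∀ k ∈ c.2, realPt (zpt k) ∈ Set.range fun k : Fin 5 => realPt (vpt c.2 k) := by
        intro k hk
        obtain ⟨i, hi, hik⟩ := List.mem_iff_getElem.mp hk
        refine ⟨⟨i, by rw [← hcf.len]; exact hi⟩, ?_⟩
        show realPt (zpt (c.2.getD i 0)) = _
        rw [List.getD_eq_getElem _ _ hi, hik]
      rcases hz with ⟨a, ha, rfl, h2, h3⟩ | ⟨b, hb, rfl, h2, h3⟩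
      · have h4 : a ∈ x.p.dom w := mem_dom.mpr ⟨ha, h2⟩
        rw [hcA] at h4
        obtain ⟨k, hk, rfl⟩ := mem_mons.mp h4
        rw [← realPt_zptA (mem_partA.mp hk).2]
        exact hfind k (mem_partA.mp hk).1
      · have h4 : b ∈ x.q.dom w := mem_dom.mpr ⟨hb, h3⟩
        rw [hcB] at h4
        obtain ⟨k, hk, rfl⟩ := mem_mons.mp h4
        rw [← realPt_zptB (mem_partB.mp hk).2]
        exact hfind k (mem_partB.mp hk).1
    · rintro ⟨i, rfl⟩
      have hk : c.2.getD i 0 ∈ c.2 := getD_mem (by rw [hcf.len]; exact i.isLt) 0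
      show realPt (zpt (c.2.getD i 0)) ∈ U
      by_cases hlt : c.2.getD i 0 < 10
      · rw [realPt_zptA hlt]
        apply hmemA
        rw [hcA]
        exact mem_mons.mpr ⟨_, mem_partA.mpr ⟨hk, hlt⟩, rfl⟩
      · rw [realPt_zptB (by omega)]
        apply hmemB
        rw [hcB]
        exact mem_mons.mpr ⟨_, mem_partB.mpr ⟨hk, by omega⟩, rfl⟩
  rw [hUeq]
  exact volume_of_det (vpt c.2) (det_of hcf)

/-! ### The 14 examples -/

theorem ex_facts (i : Fin 14) : ExFacts (exs i) := exFacts (check_exs i)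

theorem ex_smooth (i : Fin 14) : Smooth (exs i).p (exs i).q := smooth_of (ex_facts i)

/-- The vertices of the curve of example `i`. -/
theorem ex_vertex (i : Fin 14) (w : Pt) :
    (2 ≤ ((exs i).p.dom w).card ∧ 2 ≤ ((exs i).q.dom w).card ∧
      5 ≤ ((exs i).p.dom w).card + ((exs i).q.dom w).card) ↔ ∃ j < 30, w = (exs i).pos j :=
  vertex_of (ex_facts i) w

/-- The positions are pairwise different. -/
theorem ex_inj (i : Fin 14) : ∀ j < 30, ∀ k < 30, (exs i).pos j = (exs i).pos k → j = k :=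
  inj_of (ex_facts i)

/-- The bounded edges of the curve of example `i`. -/
theorem ex_edge (i : Fin 14) : ∀ j < 30, ∀ k < 30,
    ((j ≠ k ∧ 2 ≤ ((exs i).p.dom ((exs i).pos j) ∩ (exs i).p.dom ((exs i).pos k)).card ∧
      2 ≤ ((exs i).q.dom ((exs i).pos j) ∩ (exs i).q.dom ((exs i).pos k)).card) ↔
      ((j, k) ∈ (exs i).edges ∨ (k, j) ∈ (exs i).edges)) :=
  edge_of (ex_facts i)

end Pool.Agent.H47.Trop
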