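import Pool.Agent.H47.Trop.Defs

set_option autoImplicit false

/-!
# Combinatorial facts about smooth tropical curves of degrees (2, 3)

`CurveFacts V A B δ` collects what the geometry gives: `V` is the set of vertices of the curve,
`A w`, `B w` the dominating monomials of the two polynomials at `w`, a dart at `w` is a pair `E` of a
2-subset of `A w` and a 2-subset of `B w`, and `δ w E` is the primitive integer direction in which
the edge `E` leaves `w`.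
-/

namespace Pool.Agent.H47.Trop

/-- The four ray directions `(1,1,1), -e₁, -e₂, -e₃`. -/
def rdir : Fin 4 → (Fin 3 → ℤ) := ![![1, 1, 1], ![-1, 0, 0], ![0, -1, 0], ![0, 0, -1]]

/-- Scalar product of an exponent vector and an integer vector. -/
def pair (a : Mon) (d : Fin 3 → ℤ) : ℤ := ∑ i, (a i : ℤ) * d i

/-- Maximal value of `pair · (rdir k)` on the exponents of a polynomial of degree `D`. -/
def topv (D : ℕ) (k : Fin 4) : ℤ := if k = 0 then (D : ℤ) else 0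

/-- All exponents of `S` lie on the facet `k` of the simplex of size `D`. -/
def OnFacet (D : ℕ) (k : Fin 4) (S : Finset Mon) : Prop := ∀ y ∈ S, pair y (rdir k) = topv D k

/-- The exponents `A` of the first and `B` of the second polynomial span four-space affinely (when
both are nonempty): only `0` is constant on `A` and constant on `B`. -/
def Spans (A B : Finset Mon) : Prop :=
  ∀ d : Pt, (∃ c, ∀ y ∈ A, ∑ i, (y i : ℝ) * d i = c) → (∃ c, ∀ y ∈ B, ∑ i, (y i : ℝ) * d i = c) →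
    d = 0

/-- A cell: dominating monomials of `p` and of `q`. -/
abbrev Cell := Finset Mon × Finset Mon

/-- Edge cells contained in the cell `(A, B)`. -/
def darts (A B : Finset Mon) : Finset Cell := A.powersetCard 2 ×ˢ B.powersetCard 2

/-- The facts about a smooth curve used in the counting arguments. -/
structure CurveFacts (V : Finset Pt) (A B : Pt → Finset Mon) (δ : Pt → Cell → (Fin 3 → ℤ)) :
    Prop where
  card : ∀ w ∈ V, ((A w).card = 3 ∧ (B w).card = 2) ∨ ((A w).card = 2 ∧ (B w).card = 3)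
  degA : ∀ w ∈ V, ∀ a ∈ A w, ∑ i, a i ≤ 2
  degB : ∀ w ∈ V, ∀ b ∈ B w, ∑ i, b i ≤ 3
  inj : ∀ v ∈ V, ∀ w ∈ V, A v = A w → B v = B w → v = w
  two : ∀ u ∈ V, ∀ v ∈ V, ∀ w ∈ V, ∀ E, E ∈ darts (A u) (B u) → E ∈ darts (A v) (B v) →
    E ∈ darts (A w) (B w) → u = v ∨ u = w ∨ v = w
  eqA : ∀ w ∈ V, ∀ E ∈ darts (A w) (B w), ∀ y ∈ E.1, ∀ z ∈ E.1, pair y (δ w E) = pair z (δ w E)
  eqB : ∀ w ∈ V, ∀ E ∈ darts (A w) (B w), ∀ y ∈ E.2, ∀ z ∈ E.2, pair y (δ w E) = pair z (δ w E)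
  dropA : ∀ w ∈ V, ∀ E ∈ darts (A w) (B w), ∀ x ∈ A w, x ∉ E.1 → ∀ y ∈ E.1,
    pair x (δ w E) = pair y (δ w E) - 1
  dropB : ∀ w ∈ V, ∀ E ∈ darts (A w) (B w), ∀ x ∈ B w, x ∉ E.2 → ∀ y ∈ E.2,
    pair x (δ w E) = pair y (δ w E) - 1
  uniA : ∀ w ∈ V, ∀ x ∈ A w, ∃ e : Fin 3 → ℤ,
    (∀ y ∈ B w, ∀ z ∈ B w, pair y e = pair z e) ∧ ∀ y ∈ A w, y ≠ x → pair x e = pair y e + 1
  uniB : ∀ w ∈ V, ∀ x ∈ B w, ∃ e : Fin 3 → ℤ,
    (∀ y ∈ A w, ∀ z ∈ A w, pair y e = pair z e) ∧ ∀ y ∈ B w, y ≠ x → pair x e = pair y e + 1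
  bal : ∀ w ∈ V, ∑ E ∈ darts (A w) (B w), δ w E = 0
  indep : ∀ w ∈ V, ∀ E ∈ darts (A w) (B w), ∀ F ∈ darts (A w) (B w), E ≠ F → ∀ s t : ℤ,
    s • δ w E + t • δ w F = 0 → s = 0 ∧ t = 0
  opp : ∀ v ∈ V, ∀ w ∈ V, v ≠ w → ∀ E, E ∈ darts (A v) (B v) → E ∈ darts (A w) (B w) →
    δ w E = - δ v E
  pos : ∀ v ∈ V, ∀ w ∈ V, v ≠ w → ∀ E, E ∈ darts (A v) (B v) → E ∈ darts (A w) (B w) →
    ∃ s : ℝ, 0 < s ∧ ∀ i, w i = v i + s * (δ v E i : ℝ)
  ray : ∀ w ∈ V, ∀ E ∈ darts (A w) (B w), (∀ v ∈ V, v ≠ w → E ∉ darts (A v) (B v)) →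
    ∃ k, δ w E = rdir k ∧ OnFacet 2 k E.1 ∧ OnFacet 3 k E.2
  nofacet : ∀ v ∈ V, ∀ w ∈ V, v ≠ w → ∀ E, E ∈ darts (A v) (B v) → E ∈ darts (A w) (B w) →
    ∀ k, ¬ (OnFacet 2 k E.1 ∧ OnFacet 3 k E.2)

open Classical in
/-- The rays with direction `rdir k` whose vertex lies in `K`. -/
noncomputable def raySet (V : Finset Pt) (A B : Pt → Finset Mon) (δ : Pt → Cell → (Fin 3 → ℤ))
    (K : Finset Pt) (k : Fin 4) : Finset ((_ : Pt) × Cell) :=
  (K.sigma fun w => darts (A w) (B w)).filter fun x =>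
    (∀ v ∈ V, v ≠ x.1 → x.2 ∉ darts (A v) (B v)) ∧ δ x.1 x.2 = rdir k

/-- The number of rays with direction `rdir k` whose vertex lies in `K`. -/
noncomputable def nray (V : Finset Pt) (A B : Pt → Finset Mon) (δ : Pt → Cell → (Fin 3 → ℤ))
    (K : Finset Pt) (k : Fin 4) : ℕ := (raySet V A B δ K k).card

open Classical in
/-- The bounded edges with both end points in `K`. -/
noncomputable def innerSet (A B : Pt → Finset Mon) (K : Finset Pt) : Finset Cell :=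
  (K.biUnion fun w => darts (A w) (B w)).filter fun E =>
    ∃ v ∈ K, ∃ w ∈ K, v ≠ w ∧ E ∈ darts (A v) (B v) ∧ E ∈ darts (A w) (B w)

/-- `K` is a side of the vertex `v`: a set of vertices of the curve, not containing `v`, and the only
bounded edge leaving `K` is the edge `E₀` from `x ∈ K` to `v`. -/
structure IsSide (V : Finset Pt) (A B : Pt → Finset Mon) (K : Finset Pt) (v x : Pt) (E₀ : Cell) :
    Prop where
  sub : K ⊆ V
  vmem : v ∈ V
  vnot : v ∉ K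
  xmem : x ∈ K
  dx : E₀ ∈ darts (A x) (B x)
  dv : E₀ ∈ darts (A v) (B v)
  out : ∀ w ∈ K, ∀ u ∈ V, u ∉ K → ∀ E, E ∈ darts (A w) (B w) → E ∈ darts (A u) (B u) → E = E₀

end Pool.Agent.H47.Trop
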