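import Pool.Agent.H47.Trop.Data
import Pool.Agent.H47.Trop.Facts

set_option autoImplicit false

/-!
Job TS-11, part 1: the Bool checker for the 14 examples (helper19).
-/

namespace Pool.Agent.H47.Trop

/-- Integer triples. -/
abbrev Z3 := ℤ × ℤ × ℤ

/-- Scalar product of integer triples. -/
def dotZ (u v : Z3) : ℤ := u.1 * v.1 + u.2.1 * v.2.1 + u.2.2 * v.2.2

/-- Difference of integer triples. -/
def subZ (u v : Z3) : Z3 := (u.1 - v.1, u.2.1 - v.2.1, u.2.2 - v.2.2)

/-- Cross product of integer triples. -/
def crossZ (u v : Z3) : Z3 :=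
  (u.2.1 * v.2.2 - u.2.2 * v.2.1, u.2.2 * v.1 - u.1 * v.2.2, u.1 * v.2.1 - u.2.1 * v.1)

/-- The exponents of the monomial number `k`. -/
def tri (k : ℕ) : ℕ × ℕ × ℕ := (monP ++ monQ).getD k (0, 0, 0)

/-- The exponents of the monomial number `k`, as integers. -/
def mz (k : ℕ) : Z3 := (((tri k).1 : ℤ), ((tri k).2.1 : ℤ), ((tri k).2.2 : ℤ))

/-- The value of the term number `k` at the integer point `P`. -/
def termZ (x : Ex) (P : Z3) (k : ℕ) : ℤ := x.coeffs.getD k 0 + dotZ (mz k) P

/-- The monomials of `p` in a list of numbers. -/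
def partA (l : List ℕ) : List ℕ := l.filter fun k => k < 10

/-- The monomials of `q` in a list of numbers. -/
def partB (l : List ℕ) : List ℕ := l.filter fun k => 10 ≤ k

/-- Among the monomials in `R`, exactly those in `l` have the value `M`, the others a smaller one. -/
def domOK (x : Ex) (P : Z3) (l : List ℕ) (M : ℤ) (R : List ℕ) : Bool :=
  R.all fun k => if l.contains k then termZ x P k == M else decide (termZ x P k < M)

/-- The affine function with value `1` at `k` and `0` at the other elements of the cell `l`: linear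
part, constant on `p`, constant on `q`. -/
def dualF (l : List ℕ) (k : ℕ) : Z3 × ℤ × ℤ :=
  match ((partA l).erase k).map mz, ((partB l).erase k).map mz with
  | [], _ => ((0, 0, 0), 1, 0)
  | _, [] => ((0, 0, 0), 0, 1)
  | a :: A', b :: B' =>
    match A'.map (subZ · a) ++ B'.map (subZ · b) with
    | [u, v] =>
      let d := crossZ u v
      let α := - dotZ d a
      let β := - dotZ d b
      let s := dotZ d (mz k) + (if k < 10 then α else β)
      ((s * d.1, s * d.2.1, s * d.2.2), s * α, s * β)
    | _ => ((0, 0, 0), 0, 0)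

/-- Value of an affine function at the monomial `y`. -/
def evF (F : Z3 × ℤ × ℤ) (y : ℕ) : ℤ := dotZ (mz y) F.1 + if y < 10 then F.2.1 else F.2.2

/-- The affine function is nonnegative on both simplices. -/
def bdOK (F : Z3 × ℤ × ℤ) : Bool :=
  decide (0 ≤ F.2.1) && decide (0 ≤ F.2.2) && decide (0 ≤ F.2.1 + 2 * F.1.1) &&
  decide (0 ≤ F.2.1 + 2 * F.1.2.1) && decide (0 ≤ F.2.1 + 2 * F.1.2.2) &&
  decide (0 ≤ F.2.2 + 3 * F.1.1) &&
  decide (0 ≤ F.2.2 + 3 * F.1.2.1) && decide (0 ≤ F.2.2 + 3 * F.1.2.2)

/-- Bit mask, only used to find the neighbour quickly. -/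
def mask : List ℕ → ℕ
  | [] => 0
  | k :: l => Nat.add (Nat.pow 2 k) (mask l)

/-- `τ` contains the elements of `l` except `k`. -/
def nbOK (l : List ℕ) (k : ℕ) (τ : List ℕ) : Bool :=
  Nat.beq (Nat.land (mask τ) (mask l)) (Nat.sub (mask l) (Nat.pow 2 k)) &&
    (!(τ.contains k) && l.all fun y => y == k || τ.contains y)

/-- Check of the facet opposite to `k`. -/
def facetOK (cells : List (Z3 × List ℕ)) (l : List ℕ) (k : ℕ) : Bool :=
  (l.all fun y => evF (dualF l k) y == (if y = k then 1 else 0)) &&
  (bdOK (dualF l k) || cells.any fun τ => nbOK l k τ.2)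

/-- Check of one cell. -/
def cellOK (x : Ex) (cells : List (Z3 × List ℕ)) (c : Z3 × List ℕ) : Bool :=
  (domOK x c.1 c.2 (termZ x c.1 ((partA c.2).headD 0)) (List.range 10) &&
    domOK x c.1 c.2 (termZ x c.1 ((partB c.2).headD 0)) (List.range' 10 20)) &&
  ((c.2.all (fun k => decide (k < 30)) && decide (c.2.length = 5) && decide c.2.Nodup &&
    decide ((partA c.2).length ≠ 0) && decide ((partB c.2).length ≠ 0)) &&
  c.2.all (facetOK cells c.2))

/-- The cell of a vertex of the curve. -/
def mixedOK (l : List ℕ) : Bool := decide (2 ≤ (partA l).length) && decide (2 ≤ (partB l).length)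

/-- The monomials of the vertex number `j`. -/
def lst (x : Ex) (j : ℕ) : List ℕ := (x.mixed.map Prod.snd).getD j []

/-- The cells of the vertices `j`, `k` share an edge. -/
def edgeB (x : Ex) (j k : ℕ) : Bool :=
  decide (2 ≤ ((partA (lst x j)).filter fun a => (lst x k).contains a).length) &&
  decide (2 ≤ ((partB (lst x j)).filter fun a => (lst x k).contains a).length)

/-- Check of the bounded edges. -/
def edgesOK (x : Ex) : Bool :=
  (x.edges.all fun e => edgeB x e.1 e.2 && decide (e.1 ≠ e.2)) &&
  ((List.range 30).all fun j => (List.range 30).all fun k =>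
    decide (k ≤ j) || (!(edgeB x j k) || x.edges.contains (j, k)))

/-- The full check of an example. -/
def check (x : Ex) : Bool :=
  (decide (x.coeffs.length = 30) && decide (x.mixed.length = 30)) &&
  ((x.mixed ++ x.other).all (cellOK x (x.mixed ++ x.other)) &&
  ((x.mixed.all fun c => mixedOK c.2) && (x.other.all fun c => !(mixedOK c.2)) &&
  (decide (x.mixed.map Prod.fst).Nodup && edgesOK x)))

end Pool.Agent.H47.Trop
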