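import Pool.Agent.H47.Trop.Data

set_option autoImplicit false
set_option linter.unusedSimpArgs false

/-!
# Classification of the connected trivalent graphs of genus 4

Every such graph has 6 vertices and 9 edges. We list the symmetric matrices of multiplicities that no
transposition of two vertices makes larger (in the lexicographic order of the upper triangle): there
are 20 connected ones and 19 disconnected ones.
-/

namespace Pool.Agent.H47.Trop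
namespace ClassAux

/-- `p x` for `x = 0, 1`. -/
def all2 (p : ℕ → Bool) : Bool := p 0 && p 1

/-- `p x` for `x = 0, 1, 2, 3`. -/
def all4 (p : ℕ → Bool) : Bool := p 0 && (p 1 && (p 2 && p 3))

/-- Lazy implication. -/
def imp : Bool → Bool → Bool
  | true, p => p
  | false, _ => true

theorem all2_spec {p : ℕ → Bool} (h : all2 p = true) (x : ℕ) (hx : x ≤ 1) : p x = true := by
  simp only [all2, Bool.and_eq_true] at h
  interval_cases x
  · exact h.1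
  · exact h.2

theorem all4_spec {p : ℕ → Bool} (h : all4 p = true) (x : ℕ) (hx : x ≤ 3) : p x = true := by
  simp only [all4, Bool.and_eq_true] at h
  interval_cases x
  · exact h.1
  · exact h.2.1
  · exact h.2.2.1
  · exact h.2.2.2

theorem imp_spec {m n : ℕ} {p : Bool} (h : imp (Nat.ble m n) p = true) (hmn : m ≤ n) :
    p = true := by
  rw [Nat.ble_eq_true_of_le hmn] at h
  exact h

theorem imp_eq {m n : ℕ} {p : Bool} (h : imp (Nat.beq m n) p = true) (hmn : m = n) :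
    p = true := by
  subst hmn
  rw [Nat.beq_refl] at h
  exact h

/-- The upper triangles of the matrices that no transposition improves. -/
def tbl : List (List ℕ) := [
  [0, 1, 1, 1, 0, 0, 0, 0, 0, 1, 1, 0, 0, 1, 1, 0, 1, 1, 0, 0, 0],
  [0, 1, 1, 1, 0, 0, 0, 1, 0, 1, 0, 0, 0, 0, 1, 0, 1, 1, 0, 1, 0],
  [0, 1, 1, 1, 0, 0, 0, 1, 0, 1, 0, 0, 0, 1, 0, 0, 0, 2, 0, 1, 0],
  [0, 1, 1, 1, 0, 0, 0, 1, 1, 0, 0, 0, 0, 1, 0, 0, 0, 1, 0, 2, 0],
  [0, 2, 1, 0, 0, 0, 0, 0, 1, 0, 0, 0, 0, 1, 1, 0, 1, 1, 0, 1, 0],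
  [0, 2, 1, 0, 0, 0, 0, 0, 1, 0, 0, 0, 0, 2, 0, 0, 0, 2, 0, 1, 0],
  [0, 2, 1, 0, 0, 0, 0, 0, 1, 0, 0, 0, 1, 1, 0, 0, 0, 1, 0, 2, 0],
  [0, 2, 1, 0, 0, 0, 0, 1, 0, 0, 0, 0, 1, 0, 0, 0, 1, 1, 0, 2, 0],
  [1, 1, 0, 0, 0, 0, 0, 1, 1, 0, 0, 0, 0, 1, 1, 0, 1, 1, 0, 1, 0],
  [1, 1, 0, 0, 0, 0, 0, 1, 1, 0, 0, 0, 0, 2, 0, 0, 0, 2, 0, 1, 0],
  [1, 1, 0, 0, 0, 0, 0, 1, 1, 0, 0, 0, 0, 2, 0, 0, 1, 1, 0, 0, 1],
  [1, 1, 0, 0, 0, 0, 0, 1, 1, 0, 0, 0, 1, 1, 0, 0, 0, 1, 0, 2, 0],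
  [1, 1, 0, 0, 0, 0, 0, 1, 1, 0, 0, 0, 1, 1, 0, 0, 0, 1, 1, 0, 1],
  [1, 1, 0, 0, 0, 0, 0, 1, 1, 0, 0, 0, 1, 1, 0, 0, 1, 0, 0, 1, 1],
  [1, 1, 0, 0, 0, 0, 0, 1, 1, 0, 0, 1, 0, 0, 0, 0, 1, 1, 0, 2, 0],
  [1, 1, 0, 0, 0, 0, 0, 1, 1, 0, 0, 1, 0, 0, 0, 0, 1, 1, 1, 0, 1],
  [1, 1, 0, 0, 0, 0, 0, 1, 1, 0, 0, 1, 0, 0, 0, 0, 2, 0, 0, 1, 1],
  [1, 1, 0, 0, 0, 0, 0, 2, 0, 0, 0, 0, 1, 0, 0, 0, 1, 1, 0, 2, 0],
  [1, 1, 0, 0, 0, 0, 0, 2, 0, 0, 0, 0, 1, 0, 0, 0, 1, 1, 1, 0, 1],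
  [1, 1, 0, 0, 0, 0, 0, 2, 0, 0, 0, 0, 1, 0, 0, 0, 2, 0, 0, 1, 1],
  [0, 1, 1, 1, 0, 0, 0, 1, 1, 0, 0, 0, 1, 0, 0, 0, 0, 0, 0, 3, 0],
  [0, 2, 1, 0, 0, 0, 0, 0, 1, 0, 0, 0, 2, 0, 0, 0, 0, 0, 0, 3, 0],
  [0, 3, 0, 0, 0, 0, 0, 0, 0, 0, 0, 0, 1, 1, 1, 0, 1, 1, 0, 1, 0],
  [0, 3, 0, 0, 0, 0, 0, 0, 0, 0, 0, 0, 2, 1, 0, 0, 0, 1, 0, 2, 0],
  [0, 3, 0, 0, 0, 0, 0, 0, 0, 0, 0, 0, 3, 0, 0, 0, 0, 0, 0, 3, 0],
  [1, 1, 0, 0, 0, 0, 0, 1, 1, 0, 0, 0, 2, 0, 0, 0, 0, 0, 0, 3, 0],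
  [1, 1, 0, 0, 0, 0, 0, 1, 1, 0, 0, 0, 2, 0, 0, 0, 0, 0, 1, 1, 1],
  [1, 1, 0, 0, 0, 0, 0, 1, 1, 0, 0, 1, 0, 0, 0, 1, 0, 0, 0, 3, 0],
  [1, 1, 0, 0, 0, 0, 0, 1, 1, 0, 0, 1, 0, 0, 0, 1, 0, 0, 1, 1, 1],
  [1, 1, 0, 0, 0, 0, 0, 2, 0, 0, 0, 0, 1, 0, 0, 1, 0, 0, 0, 3, 0],
  [1, 1, 0, 0, 0, 0, 0, 2, 0, 0, 0, 0, 1, 0, 0, 1, 0, 0, 1, 1, 1],
  [1, 1, 0, 0, 0, 0, 1, 0, 0, 0, 0, 0, 1, 1, 1, 0, 1, 1, 0, 1, 0],
  [1, 1, 0, 0, 0, 0, 1, 0, 0, 0, 0, 0, 2, 1, 0, 0, 0, 1, 0, 2, 0],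
  [1, 1, 0, 0, 0, 0, 1, 0, 0, 0, 0, 0, 3, 0, 0, 0, 0, 0, 0, 3, 0],
  [1, 1, 0, 0, 0, 0, 1, 0, 0, 0, 0, 1, 1, 0, 0, 0, 1, 1, 0, 2, 0],
  [1, 1, 0, 0, 0, 0, 1, 0, 0, 0, 0, 1, 1, 0, 0, 0, 1, 1, 1, 0, 1],
  [1, 1, 0, 0, 0, 0, 1, 0, 0, 0, 0, 1, 1, 0, 0, 0, 2, 0, 0, 1, 1],
  [1, 1, 0, 0, 0, 0, 1, 0, 0, 0, 0, 1, 1, 0, 0, 1, 0, 0, 0, 3, 0],
  [1, 1, 0, 0, 0, 0, 1, 0, 0, 0, 0, 1, 1, 0, 0, 1, 0, 0, 1, 1, 1]]

/-- Equality of lists of numbers. -/
def leq : List ℕ → List ℕ → Bool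
  | [], [] => true
  | x :: l, y :: m => Nat.beq x y && leq l m
  | _, _ => false

theorem leq_spec : ∀ {l m : List ℕ}, leq l m = true → l = m
  | [], [], _ => rfl
  | x :: l, y :: m, h => by
      simp only [leq, Bool.and_eq_true] at h
      rw [Nat.eq_of_beq_eq_true h.1, leq_spec h.2]
  | [], _ :: _, h => by simp [leq] at h
  | _ :: _, [], h => by simp [leq] at h

/-- Membership. -/
def lmem (v : List ℕ) : List (List ℕ) → Bool
  | [] => false
  | w :: L => leq v w || lmem v L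

theorem lmem_spec {v : List ℕ} : ∀ {L : List (List ℕ)}, lmem v L = true → v ∈ L
  | [], h => by simp [lmem] at h
  | w :: L, h => by
      simp only [lmem, Bool.or_eq_true] at h
      rcases h with h | h
      · rw [leq_spec h]; exact List.mem_cons_self
      · exact List.mem_cons_of_mem _ (lmem_spec h)

/-- The finite check. -/
def check : Bool :=
  all2 fun a00 =>
  imp (Nat.ble (a00 + a00) 3) <|
  all4 fun a01 =>
  imp (Nat.ble (a00 + a00 + a01) 3) <|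
  all4 fun a02 =>
  imp (Nat.ble (a00 + a00 + a01 + a02) 3) <|
  all4 fun a03 =>
  imp (Nat.ble (a00 + a00 + a01 + a02 + a03) 3) <|
  all4 fun a04 =>
  imp (Nat.ble (a00 + a00 + a01 + a02 + a03 + a04) 3) <|
  all4 fun a05 =>
  imp (Nat.beq (a00 + a00 + a01 + a02 + a03 + a04 + a05) 3) <|
  all2 fun a11 =>
  imp (Nat.ble (a01 + a11 + a11) 3) <|
  all4 fun a12 =>
  imp (Nat.ble (a01 + a11 + a11 + a12) 3) <|
  imp (Nat.ble (a02 + a12) 3) <|
  all4 fun a13 =>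
  imp (Nat.ble (a01 + a11 + a11 + a12 + a13) 3) <|
  imp (Nat.ble (a03 + a13) 3) <|
  all4 fun a14 =>
  imp (Nat.ble (a01 + a11 + a11 + a12 + a13 + a14) 3) <|
  imp (Nat.ble (a04 + a14) 3) <|
  all4 fun a15 =>
  imp (Nat.beq (a01 + a11 + a11 + a12 + a13 + a14 + a15) 3) <|
  imp (Nat.ble (a05 + a15) 3) <|
  all2 fun a22 =>
  imp (Nat.ble (a02 + a12 + a22 + a22) 3) <|
  all4 fun a23 =>
  imp (Nat.ble (a02 + a12 + a22 + a22 + a23) 3) <|
  imp (Nat.ble (a03 + a13 + a23) 3) <|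
  all4 fun a24 =>
  imp (Nat.ble (a02 + a12 + a22 + a22 + a23 + a24) 3) <|
  imp (Nat.ble (a04 + a14 + a24) 3) <|
  all4 fun a25 =>
  imp (Nat.beq (a02 + a12 + a22 + a22 + a23 + a24 + a25) 3) <|
  imp (Nat.ble (a05 + a15 + a25) 3) <|
  all2 fun a33 =>
  imp (Nat.ble (a03 + a13 + a23 + a33 + a33) 3) <|
  all4 fun a34 =>
  imp (Nat.ble (a03 + a13 + a23 + a33 + a33 + a34) 3) <|
  imp (Nat.ble (a04 + a14 + a24 + a34) 3) <|
  all4 fun a35 =>
  imp (Nat.beq (a03 + a13 + a23 + a33 + a33 + a34 + a35) 3) <|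
  imp (Nat.ble (a05 + a15 + a25 + a35) 3) <|
  all2 fun a44 =>
  imp (Nat.ble (a04 + a14 + a24 + a34 + a44 + a44) 3) <|
  all4 fun a45 =>
  imp (Nat.beq (a04 + a14 + a24 + a34 + a44 + a44 + a45) 3) <|
  imp (Nat.ble (a05 + a15 + a25 + a35 + a45) 3) <|
  all2 fun a55 =>
  imp (Nat.beq (a05 + a15 + a25 + a35 + a45 + a55 + a55) 3) <|
  imp (Nat.ble ((((((((((((((((((((a11 * 4 + a01) * 4 + a12) * 4 + a13) * 4 + a14) * 4 + a15) * 4 + a00) * 4 + a02) * 4 + a03) * 4 + a04) * 4 + a05) * 4 + a22) * 4 + a23) * 4 + a24) * 4 + a25) * 4 + a33) * 4 + a34) * 4 + a35) * 4 + a44) * 4 + a45) * 4 + a55) ((((((((((((((((((((a00 * 4 + a01) * 4 + a02) * 4 + a03) * 4 + a04) * 4 + a05) * 4 + a11) * 4 + a12) * 4 + a13) * 4 + a14) * 4 + a15) * 4 + a22) * 4 + a23) * 4 + a24) * 4 + a25) * 4 + a33) * 4 + a34) * 4 + a35) * 4 + a44) * 4 + a45) * 4 + a55)) <|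
  imp (Nat.ble ((((((((((((((((((((a22 * 4 + a12) * 4 + a02) * 4 + a23) * 4 + a24) * 4 + a25) * 4 + a11) * 4 + a01) * 4 + a13) * 4 + a14) * 4 + a15) * 4 + a00) * 4 + a03) * 4 + a04) * 4 + a05) * 4 + a33) * 4 + a34) * 4 + a35) * 4 + a44) * 4 + a45) * 4 + a55) ((((((((((((((((((((a00 * 4 + a01) * 4 + a02) * 4 + a03) * 4 + a04) * 4 + a05) * 4 + a11) * 4 + a12) * 4 + a13) * 4 + a14) * 4 + a15) * 4 + a22) * 4 + a23) * 4 + a24) * 4 + a25) * 4 + a33) * 4 + a34) * 4 + a35) * 4 + a44) * 4 + a45) * 4 + a55)) <|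
  imp (Nat.ble ((((((((((((((((((((a33 * 4 + a13) * 4 + a23) * 4 + a03) * 4 + a34) * 4 + a35) * 4 + a11) * 4 + a12) * 4 + a01) * 4 + a14) * 4 + a15) * 4 + a22) * 4 + a02) * 4 + a24) * 4 + a25) * 4 + a00) * 4 + a04) * 4 + a05) * 4 + a44) * 4 + a45) * 4 + a55) ((((((((((((((((((((a00 * 4 + a01) * 4 + a02) * 4 + a03) * 4 + a04) * 4 + a05) * 4 + a11) * 4 + a12) * 4 + a13) * 4 + a14) * 4 + a15) * 4 + a22) * 4 + a23) * 4 + a24) * 4 + a25) * 4 + a33) * 4 + a34) * 4 + a35) * 4 + a44) * 4 + a45) * 4 + a55)) <|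
  imp (Nat.ble ((((((((((((((((((((a44 * 4 + a14) * 4 + a24) * 4 + a34) * 4 + a04) * 4 + a45) * 4 + a11) * 4 + a12) * 4 + a13) * 4 + a01) * 4 + a15) * 4 + a22) * 4 + a23) * 4 + a02) * 4 + a25) * 4 + a33) * 4 + a03) * 4 + a35) * 4 + a00) * 4 + a05) * 4 + a55) ((((((((((((((((((((a00 * 4 + a01) * 4 + a02) * 4 + a03) * 4 + a04) * 4 + a05) * 4 + a11) * 4 + a12) * 4 + a13) * 4 + a14) * 4 + a15) * 4 + a22) * 4 + a23) * 4 + a24) * 4 + a25) * 4 + a33) * 4 + a34) * 4 + a35) * 4 + a44) * 4 + a45) * 4 + a55)) <|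
  imp (Nat.ble ((((((((((((((((((((a55 * 4 + a15) * 4 + a25) * 4 + a35) * 4 + a45) * 4 + a05) * 4 + a11) * 4 + a12) * 4 + a13) * 4 + a14) * 4 + a01) * 4 + a22) * 4 + a23) * 4 + a24) * 4 + a02) * 4 + a33) * 4 + a34) * 4 + a03) * 4 + a44) * 4 + a04) * 4 + a00) ((((((((((((((((((((a00 * 4 + a01) * 4 + a02) * 4 + a03) * 4 + a04) * 4 + a05) * 4 + a11) * 4 + a12) * 4 + a13) * 4 + a14) * 4 + a15) * 4 + a22) * 4 + a23) * 4 + a24) * 4 + a25) * 4 + a33) * 4 + a34) * 4 + a35) * 4 + a44) * 4 + a45) * 4 + a55)) <|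
  imp (Nat.ble ((((((((((((((((((((a00 * 4 + a02) * 4 + a01) * 4 + a03) * 4 + a04) * 4 + a05) * 4 + a22) * 4 + a12) * 4 + a23) * 4 + a24) * 4 + a25) * 4 + a11) * 4 + a13) * 4 + a14) * 4 + a15) * 4 + a33) * 4 + a34) * 4 + a35) * 4 + a44) * 4 + a45) * 4 + a55) ((((((((((((((((((((a00 * 4 + a01) * 4 + a02) * 4 + a03) * 4 + a04) * 4 + a05) * 4 + a11) * 4 + a12) * 4 + a13) * 4 + a14) * 4 + a15) * 4 + a22) * 4 + a23) * 4 + a24) * 4 + a25) * 4 + a33) * 4 + a34) * 4 + a35) * 4 + a44) * 4 + a45) * 4 + a55)) <|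
  imp (Nat.ble ((((((((((((((((((((a00 * 4 + a03) * 4 + a02) * 4 + a01) * 4 + a04) * 4 + a05) * 4 + a33) * 4 + a23) * 4 + a13) * 4 + a34) * 4 + a35) * 4 + a22) * 4 + a12) * 4 + a24) * 4 + a25) * 4 + a11) * 4 + a14) * 4 + a15) * 4 + a44) * 4 + a45) * 4 + a55) ((((((((((((((((((((a00 * 4 + a01) * 4 + a02) * 4 + a03) * 4 + a04) * 4 + a05) * 4 + a11) * 4 + a12) * 4 + a13) * 4 + a14) * 4 + a15) * 4 + a22) * 4 + a23) * 4 + a24) * 4 + a25) * 4 + a33) * 4 + a34) * 4 + a35) * 4 + a44) * 4 + a45) * 4 + a55)) <|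
  imp (Nat.ble ((((((((((((((((((((a00 * 4 + a04) * 4 + a02) * 4 + a03) * 4 + a01) * 4 + a05) * 4 + a44) * 4 + a24) * 4 + a34) * 4 + a14) * 4 + a45) * 4 + a22) * 4 + a23) * 4 + a12) * 4 + a25) * 4 + a33) * 4 + a13) * 4 + a35) * 4 + a11) * 4 + a15) * 4 + a55) ((((((((((((((((((((a00 * 4 + a01) * 4 + a02) * 4 + a03) * 4 + a04) * 4 + a05) * 4 + a11) * 4 + a12) * 4 + a13) * 4 + a14) * 4 + a15) * 4 + a22) * 4 + a23) * 4 + a24) * 4 + a25) * 4 + a33) * 4 + a34) * 4 + a35) * 4 + a44) * 4 + a45) * 4 + a55)) <|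
  imp (Nat.ble ((((((((((((((((((((a00 * 4 + a05) * 4 + a02) * 4 + a03) * 4 + a04) * 4 + a01) * 4 + a55) * 4 + a25) * 4 + a35) * 4 + a45) * 4 + a15) * 4 + a22) * 4 + a23) * 4 + a24) * 4 + a12) * 4 + a33) * 4 + a34) * 4 + a13) * 4 + a44) * 4 + a14) * 4 + a11) ((((((((((((((((((((a00 * 4 + a01) * 4 + a02) * 4 + a03) * 4 + a04) * 4 + a05) * 4 + a11) * 4 + a12) * 4 + a13) * 4 + a14) * 4 + a15) * 4 + a22) * 4 + a23) * 4 + a24) * 4 + a25) * 4 + a33) * 4 + a34) * 4 + a35) * 4 + a44) * 4 + a45) * 4 + a55)) <|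
  imp (Nat.ble ((((((((((((((((((((a00 * 4 + a01) * 4 + a03) * 4 + a02) * 4 + a04) * 4 + a05) * 4 + a11) * 4 + a13) * 4 + a12) * 4 + a14) * 4 + a15) * 4 + a33) * 4 + a23) * 4 + a34) * 4 + a35) * 4 + a22) * 4 + a24) * 4 + a25) * 4 + a44) * 4 + a45) * 4 + a55) ((((((((((((((((((((a00 * 4 + a01) * 4 + a02) * 4 + a03) * 4 + a04) * 4 + a05) * 4 + a11) * 4 + a12) * 4 + a13) * 4 + a14) * 4 + a15) * 4 + a22) * 4 + a23) * 4 + a24) * 4 + a25) * 4 + a33) * 4 + a34) * 4 + a35) * 4 + a44) * 4 + a45) * 4 + a55)) <|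
  imp (Nat.ble ((((((((((((((((((((a00 * 4 + a01) * 4 + a04) * 4 + a03) * 4 + a02) * 4 + a05) * 4 + a11) * 4 + a14) * 4 + a13) * 4 + a12) * 4 + a15) * 4 + a44) * 4 + a34) * 4 + a24) * 4 + a45) * 4 + a33) * 4 + a23) * 4 + a35) * 4 + a22) * 4 + a25) * 4 + a55) ((((((((((((((((((((a00 * 4 + a01) * 4 + a02) * 4 + a03) * 4 + a04) * 4 + a05) * 4 + a11) * 4 + a12) * 4 + a13) * 4 + a14) * 4 + a15) * 4 + a22) * 4 + a23) * 4 + a24) * 4 + a25) * 4 + a33) * 4 + a34) * 4 + a35) * 4 + a44) * 4 + a45) * 4 + a55)) <|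
  imp (Nat.ble ((((((((((((((((((((a00 * 4 + a01) * 4 + a05) * 4 + a03) * 4 + a04) * 4 + a02) * 4 + a11) * 4 + a15) * 4 + a13) * 4 + a14) * 4 + a12) * 4 + a55) * 4 + a35) * 4 + a45) * 4 + a25) * 4 + a33) * 4 + a34) * 4 + a23) * 4 + a44) * 4 + a24) * 4 + a22) ((((((((((((((((((((a00 * 4 + a01) * 4 + a02) * 4 + a03) * 4 + a04) * 4 + a05) * 4 + a11) * 4 + a12) * 4 + a13) * 4 + a14) * 4 + a15) * 4 + a22) * 4 + a23) * 4 + a24) * 4 + a25) * 4 + a33) * 4 + a34) * 4 + a35) * 4 + a44) * 4 + a45) * 4 + a55)) <|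
  imp (Nat.ble ((((((((((((((((((((a00 * 4 + a01) * 4 + a02) * 4 + a04) * 4 + a03) * 4 + a05) * 4 + a11) * 4 + a12) * 4 + a14) * 4 + a13) * 4 + a15) * 4 + a22) * 4 + a24) * 4 + a23) * 4 + a25) * 4 + a44) * 4 + a34) * 4 + a45) * 4 + a33) * 4 + a35) * 4 + a55) ((((((((((((((((((((a00 * 4 + a01) * 4 + a02) * 4 + a03) * 4 + a04) * 4 + a05) * 4 + a11) * 4 + a12) * 4 + a13) * 4 + a14) * 4 + a15) * 4 + a22) * 4 + a23) * 4 + a24) * 4 + a25) * 4 + a33) * 4 + a34) * 4 + a35) * 4 + a44) * 4 + a45) * 4 + a55)) <|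
  imp (Nat.ble ((((((((((((((((((((a00 * 4 + a01) * 4 + a02) * 4 + a05) * 4 + a04) * 4 + a03) * 4 + a11) * 4 + a12) * 4 + a15) * 4 + a14) * 4 + a13) * 4 + a22) * 4 + a25) * 4 + a24) * 4 + a23) * 4 + a55) * 4 + a45) * 4 + a35) * 4 + a44) * 4 + a34) * 4 + a33) ((((((((((((((((((((a00 * 4 + a01) * 4 + a02) * 4 + a03) * 4 + a04) * 4 + a05) * 4 + a11) * 4 + a12) * 4 + a13) * 4 + a14) * 4 + a15) * 4 + a22) * 4 + a23) * 4 + a24) * 4 + a25) * 4 + a33) * 4 + a34) * 4 + a35) * 4 + a44) * 4 + a45) * 4 + a55)) <|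
  imp (Nat.ble ((((((((((((((((((((a00 * 4 + a01) * 4 + a02) * 4 + a03) * 4 + a05) * 4 + a04) * 4 + a11) * 4 + a12) * 4 + a13) * 4 + a15) * 4 + a14) * 4 + a22) * 4 + a23) * 4 + a25) * 4 + a24) * 4 + a33) * 4 + a35) * 4 + a34) * 4 + a55) * 4 + a45) * 4 + a44) ((((((((((((((((((((a00 * 4 + a01) * 4 + a02) * 4 + a03) * 4 + a04) * 4 + a05) * 4 + a11) * 4 + a12) * 4 + a13) * 4 + a14) * 4 + a15) * 4 + a22) * 4 + a23) * 4 + a24) * 4 + a25) * 4 + a33) * 4 + a34) * 4 + a35) * 4 + a44) * 4 + a45) * 4 + a55)) <|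
  lmem [a00, a01, a02, a03, a04, a05, a11, a12, a13, a14, a15, a22, a23, a24, a25, a33, a34, a35, a44, a45, a55] tbl

theorem check_true : check = true := by decide +kernel

theorem check_spec (a00 a01 a02 a03 a04 a05 a11 a12 a13 a14 a15 a22 a23 a24 a25 a33 a34 a35 a44 a45 a55 : ℕ)
    (r0 : a00 + a00 + a01 + a02 + a03 + a04 + a05 = 3)
    (r1 : a01 + a11 + a11 + a12 + a13 + a14 + a15 = 3)
    (r2 : a02 + a12 + a22 + a22 + a23 + a24 + a25 = 3)
    (r3 : a03 + a13 + a23 + a33 + a33 + a34 + a35 = 3)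
    (r4 : a04 + a14 + a24 + a34 + a44 + a44 + a45 = 3)
    (r5 : a05 + a15 + a25 + a35 + a45 + a55 + a55 = 3)
    : ((((((((((((((((((((a11 * 4 + a01) * 4 + a12) * 4 + a13) * 4 + a14) * 4 + a15) * 4 + a00) * 4 + a02) * 4 + a03) * 4 + a04) * 4 + a05) * 4 + a22) * 4 + a23) * 4 + a24) * 4 + a25) * 4 + a33) * 4 + a34) * 4 + a35) * 4 + a44) * 4 + a45) * 4 + a55) ≤ ((((((((((((((((((((a00 * 4 + a01) * 4 + a02) * 4 + a03) * 4 + a04) * 4 + a05) * 4 + a11) * 4 + a12) * 4 + a13) * 4 + a14) * 4 + a15) * 4 + a22) * 4 + a23) * 4 + a24) * 4 + a25) * 4 + a33) * 4 + a34) * 4 + a35) * 4 + a44) * 4 + a45) * 4 + a55) →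
      ((((((((((((((((((((a22 * 4 + a12) * 4 + a02) * 4 + a23) * 4 + a24) * 4 + a25) * 4 + a11) * 4 + a01) * 4 + a13) * 4 + a14) * 4 + a15) * 4 + a00) * 4 + a03) * 4 + a04) * 4 + a05) * 4 + a33) * 4 + a34) * 4 + a35) * 4 + a44) * 4 + a45) * 4 + a55) ≤ ((((((((((((((((((((a00 * 4 + a01) * 4 + a02) * 4 + a03) * 4 + a04) * 4 + a05) * 4 + a11) * 4 + a12) * 4 + a13) * 4 + a14) * 4 + a15) * 4 + a22) * 4 + a23) * 4 + a24) * 4 + a25) * 4 + a33) * 4 + a34) * 4 + a35) * 4 + a44) * 4 + a45) * 4 + a55) →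
      ((((((((((((((((((((a33 * 4 + a13) * 4 + a23) * 4 + a03) * 4 + a34) * 4 + a35) * 4 + a11) * 4 + a12) * 4 + a01) * 4 + a14) * 4 + a15) * 4 + a22) * 4 + a02) * 4 + a24) * 4 + a25) * 4 + a00) * 4 + a04) * 4 + a05) * 4 + a44) * 4 + a45) * 4 + a55) ≤ ((((((((((((((((((((a00 * 4 + a01) * 4 + a02) * 4 + a03) * 4 + a04) * 4 + a05) * 4 + a11) * 4 + a12) * 4 + a13) * 4 + a14) * 4 + a15) * 4 + a22) * 4 + a23) * 4 + a24) * 4 + a25) * 4 + a33) * 4 + a34) * 4 + a35) * 4 + a44) * 4 + a45) * 4 + a55) →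
      ((((((((((((((((((((a44 * 4 + a14) * 4 + a24) * 4 + a34) * 4 + a04) * 4 + a45) * 4 + a11) * 4 + a12) * 4 + a13) * 4 + a01) * 4 + a15) * 4 + a22) * 4 + a23) * 4 + a02) * 4 + a25) * 4 + a33) * 4 + a03) * 4 + a35) * 4 + a00) * 4 + a05) * 4 + a55) ≤ ((((((((((((((((((((a00 * 4 + a01) * 4 + a02) * 4 + a03) * 4 + a04) * 4 + a05) * 4 + a11) * 4 + a12) * 4 + a13) * 4 + a14) * 4 + a15) * 4 + a22) * 4 + a23) * 4 + a24) * 4 + a25) * 4 + a33) * 4 + a34) * 4 + a35) * 4 + a44) * 4 + a45) * 4 + a55) →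
      ((((((((((((((((((((a55 * 4 + a15) * 4 + a25) * 4 + a35) * 4 + a45) * 4 + a05) * 4 + a11) * 4 + a12) * 4 + a13) * 4 + a14) * 4 + a01) * 4 + a22) * 4 + a23) * 4 + a24) * 4 + a02) * 4 + a33) * 4 + a34) * 4 + a03) * 4 + a44) * 4 + a04) * 4 + a00) ≤ ((((((((((((((((((((a00 * 4 + a01) * 4 + a02) * 4 + a03) * 4 + a04) * 4 + a05) * 4 + a11) * 4 + a12) * 4 + a13) * 4 + a14) * 4 + a15) * 4 + a22) * 4 + a23) * 4 + a24) * 4 + a25) * 4 + a33) * 4 + a34) * 4 + a35) * 4 + a44) * 4 + a45) * 4 + a55) →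
      ((((((((((((((((((((a00 * 4 + a02) * 4 + a01) * 4 + a03) * 4 + a04) * 4 + a05) * 4 + a22) * 4 + a12) * 4 + a23) * 4 + a24) * 4 + a25) * 4 + a11) * 4 + a13) * 4 + a14) * 4 + a15) * 4 + a33) * 4 + a34) * 4 + a35) * 4 + a44) * 4 + a45) * 4 + a55) ≤ ((((((((((((((((((((a00 * 4 + a01) * 4 + a02) * 4 + a03) * 4 + a04) * 4 + a05) * 4 + a11) * 4 + a12) * 4 + a13) * 4 + a14) * 4 + a15) * 4 + a22) * 4 + a23) * 4 + a24) * 4 + a25) * 4 + a33) * 4 + a34) * 4 + a35) * 4 + a44) * 4 + a45) * 4 + a55) →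
      ((((((((((((((((((((a00 * 4 + a03) * 4 + a02) * 4 + a01) * 4 + a04) * 4 + a05) * 4 + a33) * 4 + a23) * 4 + a13) * 4 + a34) * 4 + a35) * 4 + a22) * 4 + a12) * 4 + a24) * 4 + a25) * 4 + a11) * 4 + a14) * 4 + a15) * 4 + a44) * 4 + a45) * 4 + a55) ≤ ((((((((((((((((((((a00 * 4 + a01) * 4 + a02) * 4 + a03) * 4 + a04) * 4 + a05) * 4 + a11) * 4 + a12) * 4 + a13) * 4 + a14) * 4 + a15) * 4 + a22) * 4 + a23) * 4 + a24) * 4 + a25) * 4 + a33) * 4 + a34) * 4 + a35) * 4 + a44) * 4 + a45) * 4 + a55) →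
      ((((((((((((((((((((a00 * 4 + a04) * 4 + a02) * 4 + a03) * 4 + a01) * 4 + a05) * 4 + a44) * 4 + a24) * 4 + a34) * 4 + a14) * 4 + a45) * 4 + a22) * 4 + a23) * 4 + a12) * 4 + a25) * 4 + a33) * 4 + a13) * 4 + a35) * 4 + a11) * 4 + a15) * 4 + a55) ≤ ((((((((((((((((((((a00 * 4 + a01) * 4 + a02) * 4 + a03) * 4 + a04) * 4 + a05) * 4 + a11) * 4 + a12) * 4 + a13) * 4 + a14) * 4 + a15) * 4 + a22) * 4 + a23) * 4 + a24) * 4 + a25) * 4 + a33) * 4 + a34) * 4 + a35) * 4 + a44) * 4 + a45) * 4 + a55) →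
      ((((((((((((((((((((a00 * 4 + a05) * 4 + a02) * 4 + a03) * 4 + a04) * 4 + a01) * 4 + a55) * 4 + a25) * 4 + a35) * 4 + a45) * 4 + a15) * 4 + a22) * 4 + a23) * 4 + a24) * 4 + a12) * 4 + a33) * 4 + a34) * 4 + a13) * 4 + a44) * 4 + a14) * 4 + a11) ≤ ((((((((((((((((((((a00 * 4 + a01) * 4 + a02) * 4 + a03) * 4 + a04) * 4 + a05) * 4 + a11) * 4 + a12) * 4 + a13) * 4 + a14) * 4 + a15) * 4 + a22) * 4 + a23) * 4 + a24) * 4 + a25) * 4 + a33) * 4 + a34) * 4 + a35) * 4 + a44) * 4 + a45) * 4 + a55) →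
      ((((((((((((((((((((a00 * 4 + a01) * 4 + a03) * 4 + a02) * 4 + a04) * 4 + a05) * 4 + a11) * 4 + a13) * 4 + a12) * 4 + a14) * 4 + a15) * 4 + a33) * 4 + a23) * 4 + a34) * 4 + a35) * 4 + a22) * 4 + a24) * 4 + a25) * 4 + a44) * 4 + a45) * 4 + a55) ≤ ((((((((((((((((((((a00 * 4 + a01) * 4 + a02) * 4 + a03) * 4 + a04) * 4 + a05) * 4 + a11) * 4 + a12) * 4 + a13) * 4 + a14) * 4 + a15) * 4 + a22) * 4 + a23) * 4 + a24) * 4 + a25) * 4 + a33) * 4 + a34) * 4 + a35) * 4 + a44) * 4 + a45) * 4 + a55) →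
      ((((((((((((((((((((a00 * 4 + a01) * 4 + a04) * 4 + a03) * 4 + a02) * 4 + a05) * 4 + a11) * 4 + a14) * 4 + a13) * 4 + a12) * 4 + a15) * 4 + a44) * 4 + a34) * 4 + a24) * 4 + a45) * 4 + a33) * 4 + a23) * 4 + a35) * 4 + a22) * 4 + a25) * 4 + a55) ≤ ((((((((((((((((((((a00 * 4 + a01) * 4 + a02) * 4 + a03) * 4 + a04) * 4 + a05) * 4 + a11) * 4 + a12) * 4 + a13) * 4 + a14) * 4 + a15) * 4 + a22) * 4 + a23) * 4 + a24) * 4 + a25) * 4 + a33) * 4 + a34) * 4 + a35) * 4 + a44) * 4 + a45) * 4 + a55) →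
      ((((((((((((((((((((a00 * 4 + a01) * 4 + a05) * 4 + a03) * 4 + a04) * 4 + a02) * 4 + a11) * 4 + a15) * 4 + a13) * 4 + a14) * 4 + a12) * 4 + a55) * 4 + a35) * 4 + a45) * 4 + a25) * 4 + a33) * 4 + a34) * 4 + a23) * 4 + a44) * 4 + a24) * 4 + a22) ≤ ((((((((((((((((((((a00 * 4 + a01) * 4 + a02) * 4 + a03) * 4 + a04) * 4 + a05) * 4 + a11) * 4 + a12) * 4 + a13) * 4 + a14) * 4 + a15) * 4 + a22) * 4 + a23) * 4 + a24) * 4 + a25) * 4 + a33) * 4 + a34) * 4 + a35) * 4 + a44) * 4 + a45) * 4 + a55) →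
      ((((((((((((((((((((a00 * 4 + a01) * 4 + a02) * 4 + a04) * 4 + a03) * 4 + a05) * 4 + a11) * 4 + a12) * 4 + a14) * 4 + a13) * 4 + a15) * 4 + a22) * 4 + a24) * 4 + a23) * 4 + a25) * 4 + a44) * 4 + a34) * 4 + a45) * 4 + a33) * 4 + a35) * 4 + a55) ≤ ((((((((((((((((((((a00 * 4 + a01) * 4 + a02) * 4 + a03) * 4 + a04) * 4 + a05) * 4 + a11) * 4 + a12) * 4 + a13) * 4 + a14) * 4 + a15) * 4 + a22) * 4 + a23) * 4 + a24) * 4 + a25) * 4 + a33) * 4 + a34) * 4 + a35) * 4 + a44) * 4 + a45) * 4 + a55) →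
      ((((((((((((((((((((a00 * 4 + a01) * 4 + a02) * 4 + a05) * 4 + a04) * 4 + a03) * 4 + a11) * 4 + a12) * 4 + a15) * 4 + a14) * 4 + a13) * 4 + a22) * 4 + a25) * 4 + a24) * 4 + a23) * 4 + a55) * 4 + a45) * 4 + a35) * 4 + a44) * 4 + a34) * 4 + a33) ≤ ((((((((((((((((((((a00 * 4 + a01) * 4 + a02) * 4 + a03) * 4 + a04) * 4 + a05) * 4 + a11) * 4 + a12) * 4 + a13) * 4 + a14) * 4 + a15) * 4 + a22) * 4 + a23) * 4 + a24) * 4 + a25) * 4 + a33) * 4 + a34) * 4 + a35) * 4 + a44) * 4 + a45) * 4 + a55) →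
      ((((((((((((((((((((a00 * 4 + a01) * 4 + a02) * 4 + a03) * 4 + a05) * 4 + a04) * 4 + a11) * 4 + a12) * 4 + a13) * 4 + a15) * 4 + a14) * 4 + a22) * 4 + a23) * 4 + a25) * 4 + a24) * 4 + a33) * 4 + a35) * 4 + a34) * 4 + a55) * 4 + a45) * 4 + a44) ≤ ((((((((((((((((((((a00 * 4 + a01) * 4 + a02) * 4 + a03) * 4 + a04) * 4 + a05) * 4 + a11) * 4 + a12) * 4 + a13) * 4 + a14) * 4 + a15) * 4 + a22) * 4 + a23) * 4 + a24) * 4 + a25) * 4 + a33) * 4 + a34) * 4 + a35) * 4 + a44) * 4 + a45) * 4 + a55) →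
      [a00, a01, a02, a03, a04, a05, a11, a12, a13, a14, a15, a22, a23, a24, a25, a33, a34, a35, a44, a45, a55] ∈ tbl  := by
  have h := check_true
  unfold check at h
  replace h := all2_spec h a00 (by omega)
  replace h := imp_spec h (by omega)
  replace h := all4_spec h a01 (by omega)
  replace h := imp_spec h (by omega)
  replace h := all4_spec h a02 (by omega)
  replace h := imp_spec h (by omega)
  replace h := all4_spec h a03 (by omega)
  replace h := imp_spec h (by omega)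
  replace h := all4_spec h a04 (by omega)
  replace h := imp_spec h (by omega)
  replace h := all4_spec h a05 (by omega)
  replace h := imp_eq h (by omega)
  replace h := all2_spec h a11 (by omega)
  replace h := imp_spec h (by omega)
  replace h := all4_spec h a12 (by omega)
  replace h := imp_spec h (by omega)
  replace h := imp_spec h (by omega)
  replace h := all4_spec h a13 (by omega)
  replace h := imp_spec h (by omega)
  replace h := imp_spec h (by omega)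
  replace h := all4_spec h a14 (by omega)
  replace h := imp_spec h (by omega)
  replace h := imp_spec h (by omega)
  replace h := all4_spec h a15 (by omega)
  replace h := imp_eq h (by omega)
  replace h := imp_spec h (by omega)
  replace h := all2_spec h a22 (by omega)
  replace h := imp_spec h (by omega)
  replace h := all4_spec h a23 (by omega)
  replace h := imp_spec h (by omega)
  replace h := imp_spec h (by omega)
  replace h := all4_spec h a24 (by omega)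
  replace h := imp_spec h (by omega)
  replace h := imp_spec h (by omega)
  replace h := all4_spec h a25 (by omega)
  replace h := imp_eq h (by omega)
  replace h := imp_spec h (by omega)
  replace h := all2_spec h a33 (by omega)
  replace h := imp_spec h (by omega)
  replace h := all4_spec h a34 (by omega)
  replace h := imp_spec h (by omega)
  replace h := imp_spec h (by omega)
  replace h := all4_spec h a35 (by omega)
  replace h := imp_eq h (by omega)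
  replace h := imp_spec h (by omega)
  replace h := all2_spec h a44 (by omega)
  replace h := imp_spec h (by omega)
  replace h := all4_spec h a45 (by omega)
  replace h := imp_eq h (by omega)
  replace h := imp_spec h (by omega)
  replace h := all2_spec h a55 (by omega)
  replace h := imp_eq h (by omega)
  intro t01 t02 t03 t04 t05 t12 t13 t14 t15 t23 t24 t25 t34 t35 t45
  replace h := imp_spec h t01
  replace h := imp_spec h t02
  replace h := imp_spec h t03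
  replace h := imp_spec h t04
  replace h := imp_spec h t05
  replace h := imp_spec h t12
  replace h := imp_spec h t13
  replace h := imp_spec h t14
  replace h := imp_spec h t15
  replace h := imp_spec h t23
  replace h := imp_spec h t24
  replace h := imp_spec h t25
  replace h := imp_spec h t34
  replace h := imp_spec h t35
  replace h := imp_spec h t45
  exact lmem_spec h


/-! ### From graphs on `Fin 6` to matrices -/

/-- The upper triangle of a symmetric matrix, as a number in base 4. -/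
def code (a : Fin 6 → Fin 6 → ℕ) : ℕ :=
  ((((((((((((((((((((a 0 0 * 4 + a 0 1) * 4 + a 0 2) * 4 + a 0 3) * 4 + a 0 4) * 4 + a 0 5) * 4 + a 1 1) * 4 + a 1 2) * 4 + a 1 3) * 4 + a 1 4) * 4 + a 1 5) * 4 + a 2 2) * 4 + a 2 3) * 4 + a 2 4) * 4 + a 2 5) * 4 + a 3 3) * 4 + a 3 4) * 4 + a 3 5) * 4 + a 4 4) * 4 + a 4 5) * 4 + a 5 5)

/-- Position of the entry `i j` in the list of the upper triangle. -/
def pos (i j : Fin 6) : ℕ := (min i.val j.val * (11 - min i.val j.val)) / 2 + max i.val j.val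

/-- The symmetric matrix with a given upper triangle. -/
def mat (v : List ℕ) (i j : Fin 6) : ℕ := v.getD (pos i j) 0

/-- The three sprawling graphs. -/
def sg : Fin 3 → MGraph (Fin 6) := ![
  {s(0, 0), s(0, 1), s(1, 2), s(1, 3), s(2, 2), s(3, 4), s(3, 5), s(4, 5), s(4, 5)},
  {s(0, 0), s(0, 1), s(1, 2), s(1, 3), s(2, 2), s(3, 4), s(3, 5), s(4, 4), s(5, 5)},
  {s(0, 0), s(0, 1), s(1, 2), s(1, 2), s(2, 3), s(3, 4), s(3, 5), s(4, 4), s(5, 5)}]

/-- The permutations needed. -/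
def pl : Fin 4 → Fin 6 → Fin 6 :=
  ![![0, 1, 2, 3, 4, 5], ![3, 5, 0, 4, 1, 2], ![4, 5, 2, 3, 0, 1], ![5, 4, 3, 1, 0, 2]]

theorem pl_inj : ∀ t, Function.Injective (pl t) := by decide

/-- What we know about every matrix in the table. -/
def Good (v : List ℕ) : Prop :=
  (∀ i : Fin 6, i.val < 2 → ∀ j : Fin 6, 2 ≤ j.val → mat v i j = 0) ∨
  (∀ i : Fin 6, i.val < 4 → ∀ j : Fin 6, 4 ≤ j.val → mat v i j = 0) ∨
  (∃ k : Fin 14, ∃ t : Fin 4, ∀ i j : Fin 6,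
    ((graphs k).map (Sym2.map (pl t))).count s(i, j) = mat v i j) ∨
  (∃ k : Fin 3, ∃ t : Fin 4, ∀ i j : Fin 6,
    ((sg k).map (Sym2.map (pl t))).count s(i, j) = mat v i j)

instance (v : List ℕ) : Decidable (Good v) := by unfold Good; infer_instance

theorem tbl_good : ∀ v ∈ tbl, Good v := by decide +kernel

theorem mat_list (b : Fin 6 → Fin 6 → ℕ) (hs : ∀ i j, b i j = b j i) (i j : Fin 6) :
    b i j = mat [b 0 0, b 0 1, b 0 2, b 0 3, b 0 4, b 0 5, b 1 1, b 1 2, b 1 3, b 1 4, b 1 5, b 2 2, b 2 3, b 2 4, b 2 5, b 3 3, b 3 4, b 3 5, b 4 4, b 4 5, b 5 5] i j := by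
  fin_cases i <;> fin_cases j <;> first | rfl | exact hs _ _

theorem mem_tbl (b : Fin 6 → Fin 6 → ℕ) (hs : ∀ i j, b i j = b j i)
    (hr : ∀ i, ∑ j, b i j + b i i = 3)
    (ht : ∀ x y : Fin 6, code (fun i j => b (Equiv.swap x y i) (Equiv.swap x y j)) ≤ code b) :
    [b 0 0, b 0 1, b 0 2, b 0 3, b 0 4, b 0 5, b 1 1, b 1 2, b 1 3, b 1 4, b 1 5, b 2 2, b 2 3, b 2 4, b 2 5, b 3 3, b 3 4, b 3 5, b 4 4, b 4 5, b 5 5] ∈ tbl := by
  have e10 : b 1 0 = b 0 1 := hs _ _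
  have e20 : b 2 0 = b 0 2 := hs _ _
  have e30 : b 3 0 = b 0 3 := hs _ _
  have e40 : b 4 0 = b 0 4 := hs _ _
  have e50 : b 5 0 = b 0 5 := hs _ _
  have e21 : b 2 1 = b 1 2 := hs _ _
  have e31 : b 3 1 = b 1 3 := hs _ _
  have e41 : b 4 1 = b 1 4 := hs _ _
  have e51 : b 5 1 = b 1 5 := hs _ _
  have e32 : b 3 2 = b 2 3 := hs _ _
  have e42 : b 4 2 = b 2 4 := hs _ _
  have e52 : b 5 2 = b 2 5 := hs _ _
  have e43 : b 4 3 = b 3 4 := hs _ _
  have e53 : b 5 3 = b 3 5 := hs _ _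
  have e54 : b 5 4 = b 4 5 := hs _ _
  have r0 := hr 0
  simp only [Fin.sum_univ_six, e10, e20, e30, e40, e50, e21, e31, e41, e51, e32, e42, e52, e43, e53, e54] at r0
  have r1 := hr 1
  simp only [Fin.sum_univ_six, e10, e20, e30, e40, e50, e21, e31, e41, e51, e32, e42, e52, e43, e53, e54] at r1
  have r2 := hr 2
  simp only [Fin.sum_univ_six, e10, e20, e30, e40, e50, e21, e31, e41, e51, e32, e42, e52, e43, e53, e54] at r2
  have r3 := hr 3
  simp only [Fin.sum_univ_six, e10, e20, e30, e40, e50, e21, e31, e41, e51, e32, e42, e52, e43, e53, e54] at r3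
  have r4 := hr 4
  simp only [Fin.sum_univ_six, e10, e20, e30, e40, e50, e21, e31, e41, e51, e32, e42, e52, e43, e53, e54] at r4
  have r5 := hr 5
  simp only [Fin.sum_univ_six, e10, e20, e30, e40, e50, e21, e31, e41, e51, e32, e42, e52, e43, e53, e54] at r5
  refine check_spec (b 0 0) (b 0 1) (b 0 2) (b 0 3) (b 0 4) (b 0 5) (b 1 1) (b 1 2) (b 1 3) (b 1 4) (b 1 5) (b 2 2) (b 2 3) (b 2 4) (b 2 5) (b 3 3) (b 3 4) (b 3 5) (b 4 4) (b 4 5) (b 5 5) (by omega) (by omega) (by omega)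
    (by omega) (by omega) (by omega) ?_ ?_ ?_ ?_ ?_ ?_ ?_ ?_ ?_ ?_ ?_ ?_ ?_ ?_ ?_
  · have h := ht 0 1
    simpa [code, Equiv.swap_apply_def, e10, e20, e30, e40, e50, e21, e31, e41, e51, e32, e42, e52, e43, e53, e54] using h
  · have h := ht 0 2
    simpa [code, Equiv.swap_apply_def, e10, e20, e30, e40, e50, e21, e31, e41, e51, e32, e42, e52, e43, e53, e54] using h
  · have h := ht 0 3
    simpa [code, Equiv.swap_apply_def, e10, e20, e30, e40, e50, e21, e31, e41, e51, e32, e42, e52, e43, e53, e54] using h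
  · have h := ht 0 4
    simpa [code, Equiv.swap_apply_def, e10, e20, e30, e40, e50, e21, e31, e41, e51, e32, e42, e52, e43, e53, e54] using h
  · have h := ht 0 5
    simpa [code, Equiv.swap_apply_def, e10, e20, e30, e40, e50, e21, e31, e41, e51, e32, e42, e52, e43, e53, e54] using h
  · have h := ht 1 2
    simpa [code, Equiv.swap_apply_def, e10, e20, e30, e40, e50, e21, e31, e41, e51, e32, e42, e52, e43, e53, e54] using h
  · have h := ht 1 3
    simpa [code, Equiv.swap_apply_def, e10, e20, e30, e40, e50, e21, e31, e41, e51, e32, e42, e52, e43, e53, e54] using h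
  · have h := ht 1 4
    simpa [code, Equiv.swap_apply_def, e10, e20, e30, e40, e50, e21, e31, e41, e51, e32, e42, e52, e43, e53, e54] using h
  · have h := ht 1 5
    simpa [code, Equiv.swap_apply_def, e10, e20, e30, e40, e50, e21, e31, e41, e51, e32, e42, e52, e43, e53, e54] using h
  · have h := ht 2 3
    simpa [code, Equiv.swap_apply_def, e10, e20, e30, e40, e50, e21, e31, e41, e51, e32, e42, e52, e43, e53, e54] using h
  · have h := ht 2 4
    simpa [code, Equiv.swap_apply_def, e10, e20, e30, e40, e50, e21, e31, e41, e51, e32, e42, e52, e43, e53, e54] using h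
  · have h := ht 2 5
    simpa [code, Equiv.swap_apply_def, e10, e20, e30, e40, e50, e21, e31, e41, e51, e32, e42, e52, e43, e53, e54] using h
  · have h := ht 3 4
    simpa [code, Equiv.swap_apply_def, e10, e20, e30, e40, e50, e21, e31, e41, e51, e32, e42, e52, e43, e53, e54] using h
  · have h := ht 3 5
    simpa [code, Equiv.swap_apply_def, e10, e20, e30, e40, e50, e21, e31, e41, e51, e32, e42, e52, e43, e53, e54] using h
  · have h := ht 4 5
    simpa [code, Equiv.swap_apply_def, e10, e20, e30, e40, e50, e21, e31, e41, e51, e32, e42, e52, e43, e53, e54] using h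

/-- Every symmetric matrix with the right row sums is, up to a permutation, in the table. -/
theorem exists_perm (a : Fin 6 → Fin 6 → ℕ) (hs : ∀ i j, a i j = a j i)
    (hr : ∀ i, ∑ j, a i j + a i i = 3) :
    ∃ π : Equiv.Perm (Fin 6), ∃ v ∈ tbl, ∀ i j, a (π i) (π j) = mat v i j := by
  obtain ⟨π, hπ⟩ :=
    Finite.exists_max (fun σ : Equiv.Perm (Fin 6) => code (fun i j => a (σ i) (σ j)))
  refine ⟨π, _, mem_tbl (fun i j => a (π i) (π j)) (fun i j => hs _ _) (fun i => ?_)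
    (fun x y => ?_), fun i j => mat_list (fun i j => a (π i) (π j)) (fun i j => hs _ _) i j⟩
  · rw [← hr (π i)]
    congr 1
    exact Equiv.sum_comp π (fun j => a (π i) j)
  · exact hπ (π * Equiv.swap x y)

/-! ### Valences and multiplicities -/

theorem valence_cons {V : Type*} [inst : DecidableEq V] (e : Sym2 V) (G : MGraph V) (v : V) :
    valence (e ::ₘ G) v = e.toMultiset.count v + valence G v := by
  obtain rfl : inst = Classical.decEq V := Subsingleton.elim _ _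
  simp [valence, Multiset.cons_bind, Multiset.count_add]

theorem count_edge : ∀ (i a b : Fin 6), ((s(a, b) : Sym2 (Fin 6)).toMultiset).count i =
    ∑ j, (if s(i, j) = s(a, b) then 1 else 0) + (if s(i, i) = s(a, b) then 1 else 0) := by
  decide +kernel

theorem valence_eq (H : MGraph (Fin 6)) (i : Fin 6) :
    valence H i = ∑ j, H.count s(i, j) + H.count s(i, i) := by
  induction H using Multiset.induction_on with
  | empty => simp [valence]
  | cons e H ih =>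
    induction e using Sym2.ind with
    | _ a b =>
      rw [valence_cons, ih]
      simp only [Multiset.count_cons]
      have h := count_edge i a b
      rw [Finset.sum_add_distrib]
      rw [h]
      omega

/-- Relabelling: multiplicities determine the graph. -/
theorem map_eq {H M : MGraph (Fin 6)} (π : Equiv.Perm (Fin 6))
    (h : ∀ i j, H.count s(π i, π j) = M.count s(i, j)) : H = M.map (Sym2.map π) := by
  ext e
  induction e using Sym2.ind with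
  | _ x y =>
    have h1 := h (π.symm x) (π.symm y)
    simp only [Equiv.apply_symm_apply] at h1
    rw [h1]
    have h2 := Multiset.count_map_eq_count' (Sym2.map π) M (Sym2.map.injective π.injective)
      s(π.symm x, π.symm y)
    rw [Sym2.map_mk] at h2
    simpa using h2.symm

/-- Cut condition for a matrix. -/
theorem classify6 (H : MGraph (Fin 6)) (ht : ∀ i, valence H i = 3)
    (hc : ∀ S : Set (Fin 6), S.Nonempty → Sᶜ.Nonempty → ∃ i ∈ S, ∃ j ∉ S, s(i, j) ∈ H) :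
    (∃ (k : Fin 3) (f : Fin 6 → Fin 6), Function.Injective f ∧ H = (sg k).map (Sym2.map f)) ∨
    (∃ (k : Fin 14) (f : Fin 6 → Fin 6), Function.Injective f ∧
      H = (graphs k).map (Sym2.map f)) := by
  obtain ⟨π, v, hv, hπ⟩ := exists_perm (fun i j => H.count s(i, j))
    (fun i j => by rw [Sym2.eq_swap]) (fun i => by rw [← valence_eq]; exact ht i)
  have key : ∀ m : ℕ, 0 < m → m < 6 →
      ¬ ∀ i : Fin 6, i.val < m → ∀ j : Fin 6, m ≤ j.val → mat v i j = 0 := by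
    intro m hm0 hm6 h0
    obtain ⟨x, hx, y, hy, hxy⟩ := hc (π '' {i | i.val < m}) ⟨π ⟨0, by omega⟩, ⟨_, hm0, rfl⟩⟩
      ⟨π ⟨m, hm6⟩, by
        rintro ⟨i, hi, hi2⟩
        rw [π.injective hi2] at hi
        simp at hi⟩
    obtain ⟨i, hi, rfl⟩ := hx
    have hj : ¬ (π.symm y).val < m := fun hj => hy ⟨_, hj, by simp⟩
    have h1 := hπ i (π.symm y)
    rw [h0 i hi _ (by omega)] at h1
    simp only [Equiv.apply_symm_apply] at h1
    rw [Multiset.count_eq_zero] at h1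
    exact h1 hxy
  rcases tbl_good v hv with h | h | ⟨k, t, h⟩ | ⟨k, t, h⟩
  · exact absurd h (key 2 (by norm_num) (by norm_num))
  · exact absurd h (key 4 (by norm_num) (by norm_num))
  · right
    refine ⟨k, π ∘ pl t, π.injective.comp (pl_inj t), ?_⟩
    have h1 := map_eq (H := H) (M := (graphs k).map (Sym2.map (pl t))) π
      (fun i j => by rw [h i j]; exact hπ i j)
    rw [h1, Multiset.map_map, Sym2.map_comp]
  · left
    refine ⟨k, π ∘ pl t, π.injective.comp (pl_inj t), ?_⟩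
    have h1 := map_eq (H := H) (M := (sg k).map (Sym2.map (pl t))) π
      (fun i j => by rw [h i j]; exact hπ i j)
    rw [h1, Multiset.map_map, Sym2.map_comp]

/-! ### Images of graphs -/

theorem verts_map {V W : Type*} (H : MGraph V) (f : V → W) :
    verts (H.map (Sym2.map f)) = f '' verts H := by
  ext w
  simp only [verts, Multiset.mem_map, Set.mem_ofPred_eq, Set.mem_image]
  constructor
  · rintro ⟨e, ⟨e', he', rfl⟩, hw⟩
    rw [Sym2.mem_map] at hw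
    obtain ⟨x, hx, rfl⟩ := hw
    exact ⟨x, ⟨e', he', hx⟩, rfl⟩
  · rintro ⟨x, ⟨e', he', hx⟩, rfl⟩
    exact ⟨_, ⟨e', he', rfl⟩, Sym2.mem_map.2 ⟨x, hx, rfl⟩⟩

theorem valence_map {V W : Type*} {f : V → W} (hf : Function.Injective f) (H : MGraph V) (v : V) :
    valence (H.map (Sym2.map f)) (f v) = valence H v := by
  classical
  induction H using Multiset.induction_on with
  | empty => simp [valence]
  | cons e H ih =>
    rw [Multiset.map_cons, valence_cons, valence_cons, ih]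
    congr 1
    have : (Sym2.map f e).toMultiset = e.toMultiset.map f := by
      induction e using Sym2.ind with
      | _ a b => rfl
    rw [this, Multiset.count_map_eq_count' f _ hf]

theorem mem_map_edge {V W : Type*} {f : V → W} (hf : Function.Injective f) (H : MGraph V)
    (a b : V) : s(f a, f b) ∈ H.map (Sym2.map f) ↔ s(a, b) ∈ H := by
  rw [← Sym2.map_mk]
  exact Multiset.mem_map_of_injective (Sym2.map.injective hf)

theorem sprawling_map {V W : Type*} {H : MGraph V} (h : Sprawling H) {f : V → W}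
    (hf : Function.Injective f) : Sprawling (H.map (Sym2.map f)) := by
  obtain ⟨v, hv, K, h1, h2, h3, h4, h5⟩ := h
  refine ⟨f v, ?_, fun i => f '' K i, fun i => (h1 i).image f, fun i j hij => ?_, ?_, ?_, ?_⟩
  · rw [verts_map]
    exact ⟨v, hv, rfl⟩
  · exact (Set.disjoint_image_iff hf).2 (h2 hij)
  · rw [← Set.image_iUnion, h3, verts_map, Set.image_sdiff hf, Set.image_singleton]
  · intro e he hve
    rw [Multiset.mem_map] at he
    obtain ⟨e', he', rfl⟩ := he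
    obtain ⟨i, hi⟩ := h4 e' he' (fun hv' => hve (Sym2.mem_map.2 ⟨v, hv', rfl⟩))
    refine ⟨i, fun x hx => ?_⟩
    obtain ⟨y, hy, rfl⟩ := Sym2.mem_map.1 hx
    exact ⟨y, hi y hy, rfl⟩
  · rintro i _ ⟨x, hx, rfl⟩ _ ⟨y, hy, rfl⟩
    refine Relation.ReflTransGen.lift f (fun a b hab => ?_) _ _ (h5 i x hx y hy)
    obtain ⟨ha, hav, hbv⟩ := hab
    exact ⟨(mem_map_edge hf H a b).2 ha, fun h => hav (hf h), fun h => hbv (hf h)⟩

/-! ### The three sprawling graphs -/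

/-- The components. -/
def cmp : Fin 3 → Fin 6 → ℕ := ![![0, 3, 1, 2, 2, 2], ![0, 3, 1, 2, 2, 2], ![2, 2, 2, 3, 0, 1]]

/-- The centres of the components. -/
def ctr : Fin 3 → Fin 3 → Fin 6 := ![![0, 2, 3], ![0, 2, 3], ![4, 5, 1]]

/-- The vertex to be deleted. -/
def vtx : Fin 3 → Fin 6 := ![1, 1, 3]

theorem sg1 : ∀ (k : Fin 3) (x : Fin 6), ∃ e ∈ sg k, x ∈ e := by decide +kernel
theorem sg2 : ∀ (k i : Fin 3), cmp k (ctr k i) = i.val := by decide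
theorem sg3 : ∀ (k : Fin 3) (x : Fin 6), x ≠ vtx k → cmp k x < 3 := by decide
theorem sg3' : ∀ (k : Fin 3), cmp k (vtx k) = 3 := by decide
theorem sg4 : ∀ (k : Fin 3), ∀ e ∈ sg k, vtx k ∉ e → ∃ i : Fin 3, ∀ x ∈ e, cmp k x = i.val := by
  decide +kernel
theorem sg5 : ∀ (k i : Fin 3) (x : Fin 6), cmp k x = i.val → x ≠ ctr k i →
    s(x, ctr k i) ∈ sg k := by decide +kernel

theorem sg_sprawling (k : Fin 3) : Sprawling (sg k) := by
  have hne : ∀ (i : Fin 3) (x : Fin 6), cmp k x = i.val → x ≠ vtx k := by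
    rintro i x hx rfl
    rw [sg3'] at hx
    omega
  refine ⟨vtx k, sg1 k _, fun i => {x | cmp k x = i.val}, fun i => ⟨ctr k i, sg2 k i⟩, ?_, ?_, ?_, ?_⟩
  · intro i j hij
    rw [Set.disjoint_left]
    intro x hx hx'
    exact hij (Fin.ext (hx.symm.trans hx'))
  · ext x
    simp only [Set.mem_iUnion, Set.mem_ofPred_eq, Set.mem_sdiff, Set.mem_singleton_iff]
    constructor
    · rintro ⟨i, hi⟩
      exact ⟨sg1 k x, hne i x hi⟩
    · rintro ⟨-, hx⟩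
      exact ⟨⟨cmp k x, sg3 k x hx⟩, rfl⟩
  · intro e he hv
    exact sg4 k e he hv
  · intro i x hx y hy
    have hc : ctr k i ≠ vtx k := hne i _ (sg2 k i)
    have h1 : Relation.ReflTransGen (fun a b => s(a, b) ∈ sg k ∧ a ≠ vtx k ∧ b ≠ vtx k) x
        (ctr k i) := by
      by_cases h : x = ctr k i
      · rw [h]
      · exact Relation.ReflTransGen.single ⟨sg5 k i x hx h, hne i x hx, hc⟩
    have h2 : Relation.ReflTransGen (fun a b => s(a, b) ∈ sg k ∧ a ≠ vtx k ∧ b ≠ vtx k)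
        (ctr k i) y := by
      by_cases h : y = ctr k i
      · rw [h]
      · exact Relation.ReflTransGen.single
          ⟨by rw [Sym2.eq_swap]; exact sg5 k i y hy h, hc, hne i y hy⟩
    exact h1.trans h2

/-! ### Transport to `Fin 6` -/

theorem exists_cross {α : Type*} {r : α → α → Prop} {P : α → Prop} {x y : α}
    (h : Relation.ReflTransGen r x y) (hx : P x) (hy : ¬ P y) : ∃ a b, r a b ∧ P a ∧ ¬ P b := by
  induction h with
  | refl => exact absurd hx hy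
  | @tail b c hab hbc ih =>
    by_cases hb : P b
    · exact ⟨b, c, hbc, hb, hy⟩
    · exact ih hb

theorem verts_eq {W : Type*} [DecidableEq W] (G : MGraph W) :
    verts G = ((G.bind Sym2.toMultiset).toFinset : Set W) := by
  ext w
  simp [verts]

/-- A connected trivalent graph of genus 4 has 6 vertices. -/
theorem exists_param {W : Type*} {G : MGraph W} (ht : Trivalent G) (hg : HasGenus G 4) :
    ∃ f : Fin 6 → W, Function.Injective f ∧ Set.range f = verts G := by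
  classical
  have hV := verts_eq G
  set F : Finset W := (G.bind Sym2.toMultiset).toFinset with hF
  have hsum : F.card * 3 = 2 * Multiset.card G := by
    have h1 : ∑ a ∈ F, (G.bind Sym2.toMultiset).count a = Multiset.card (G.bind Sym2.toMultiset) :=
      Multiset.toFinset_sum_count_eq _
    rw [Finset.sum_const_nat (m := 3)] at h1
    · rw [h1, Multiset.card_bind]
      have : Multiset.map (Multiset.card ∘ Sym2.toMultiset) G = Multiset.map (fun _ => 2) G :=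
        Multiset.map_congr rfl (fun e _ => Sym2.card_toMultiset e)
      rw [this]
      simp [mul_comm]
    · intro v hv
      have h2 := ht v (by rw [hV]; exact hv)
      unfold valence at h2
      convert h2
  have hcard : (verts G).ncard = F.card := by
    rw [hV, Set.ncard_coe_finset]
  have h6 : F.card = 6 := by
    unfold HasGenus at hg
    omega
  let e := Finset.equivFinOfCardEq h6
  refine ⟨fun i => (e.symm i : W), ?_, ?_⟩
  · intro i j hij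
    exact e.symm.injective (Subtype.ext hij)
  · rw [hV]
    ext w
    constructor
    · rintro ⟨i, rfl⟩
      exact (e.symm i).2
    · intro hw
      exact ⟨e ⟨w, hw⟩, by simp⟩

end ClassAux

open ClassAux in
/-- Classification: every connected trivalent graph of genus 4 is sprawling or one of the 14. -/
theorem classify {W : Type*} {G : MGraph W} (hc : Connected G) (ht : Trivalent G)
    (hg : HasGenus G 4) :
    Sprawling G ∨ ∃ (i : Fin 14) (f : Fin 6 → W), Function.Injective f ∧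
      G = (graphs i).map (Sym2.map f) := by
  classical
  obtain ⟨f, hf, hr⟩ := exists_param ht hg
  obtain ⟨g, hgf⟩ := hf.hasLeftInverse
  have hfg : ∀ w ∈ verts G, f (g w) = w := by
    intro w hw
    rw [← hr] at hw
    obtain ⟨i, rfl⟩ := hw
    rw [hgf]
  have hG : (G.map (Sym2.map g)).map (Sym2.map f) = G := by
    rw [Multiset.map_map]
    conv_rhs => rw [← Multiset.map_id G]
    refine Multiset.map_congr rfl (fun e he => ?_)
    rw [Function.comp_apply, Sym2.map_map, id]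
    have h1 : Sym2.map (f ∘ g) e = Sym2.map id e :=
      Sym2.map_congr (fun x hx => hfg x ⟨e, he, hx⟩)
    rw [h1, Sym2.map_id, id]
  set H : MGraph (Fin 6) := G.map (Sym2.map g) with hH
  have hvert : ∀ i, f i ∈ verts G := fun i => hr ▸ ⟨i, rfl⟩
  have htH : ∀ i, valence H i = 3 := by
    intro i
    rw [← valence_map hf, hG]
    exact ht _ (hvert i)
  have hcH : ∀ S : Set (Fin 6), S.Nonempty → Sᶜ.Nonempty → ∃ i ∈ S, ∃ j ∉ S, s(i, j) ∈ H := by
    rintro S ⟨x, hx⟩ ⟨y, hy⟩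
    obtain ⟨a, b, hab, ha, hb⟩ := exists_cross (P := fun w => w ∈ f '' S)
      (hc.2 (f x) (hvert x) (f y) (hvert y)) ⟨x, hx, rfl⟩
      (by rintro ⟨z, hz, hzy⟩; exact hy (hf hzy ▸ hz))
    obtain ⟨i, hi, rfl⟩ := ha
    have hb' : b ∈ verts G := ⟨_, hab, Sym2.mem_mk_right _ _⟩
    rw [← hr] at hb'
    obtain ⟨j, rfl⟩ := hb'
    refine ⟨i, hi, j, fun hj => hb ⟨j, hj, rfl⟩, ?_⟩
    rw [← hG] at hab
    exact (mem_map_edge hf H i j).1 hab
  rcases classify6 H htH hcH with ⟨k, p, hp, hk⟩ | ⟨k, p, hp, hk⟩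
  · left
    rw [← hG, hk]
    exact sprawling_map (sprawling_map (sg_sprawling k) hp) hf
  · right
    refine ⟨k, f ∘ p, hf.comp hp, ?_⟩
    rw [← hG, hk, Multiset.map_map, Sym2.map_comp]

end Pool.Agent.H47.Trop
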