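import Pool.Agent.H47.Trop.Facts

set_option autoImplicit false

namespace Pool.Agent.H47.Trop

section aux

variable {V : Finset Pt} {A B : Pt → Finset Mon} {δ : Pt → Cell → (Fin 3 → ℤ)}

theorem c1_pair_neg (a : Mon) (d : Fin 3 → ℤ) : pair a (-d) = - pair a d := by
  simp [pair, Finset.sum_neg_distrib]

theorem pair_sum {ι : Type*} (a : Mon) (s : Finset ι) (d : ι → Fin 3 → ℤ) :
    pair a (∑ i ∈ s, d i) = ∑ i ∈ s, pair a (d i) := by
  simp only [pair, Finset.sum_apply, Finset.mul_sum]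
  exact Finset.sum_comm

theorem c1_rdir_inj : Function.Injective rdir := by
  intro i j h
  revert h
  fin_cases i <;> fin_cases j <;> simp [rdir]

open Classical in
/-- pairs of `K` without another end point in `V`. -/
noncomputable def rays (V : Finset Pt) (A B : Pt → Finset Mon) (K : Finset Pt) :
    Finset ((_ : Pt) × Cell) :=
  (K.sigma fun w => darts (A w) (B w)).filter fun x =>
    ∀ v ∈ V, v ≠ x.1 → x.2 ∉ darts (A v) (B v)

open Classical in
/-- pairs of `K` with another end point in `K`. -/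
noncomputable def inPairs (A B : Pt → Finset Mon) (K : Finset Pt) :
    Finset ((_ : Pt) × Cell) :=
  (K.sigma fun w => darts (A w) (B w)).filter fun x =>
    ∃ u ∈ K, u ≠ x.1 ∧ x.2 ∈ darts (A u) (B u)

open Classical in
theorem split_pairs (h : CurveFacts V A B δ) {K : Finset Pt} {v x : Pt} {E₀ : Cell}
    (hK : IsSide V A B K v x E₀) :
    (K.sigma fun w => darts (A w) (B w)) =
      (inPairs A B K ∪ rays V A B K) ∪ {(⟨x, E₀⟩ : (_ : Pt) × Cell)} := by
  ext ⟨w, E⟩
  simp only [Finset.mem_sigma, Finset.mem_union, inPairs, rays, Finset.mem_filter,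
    Finset.mem_singleton]
  constructor
  · rintro ⟨hw, hE⟩
    by_cases h1 : ∀ u ∈ V, u ≠ w → E ∉ darts (A u) (B u)
    · exact Or.inl (Or.inr ⟨⟨hw, hE⟩, h1⟩)
    · push Not at h1
      obtain ⟨u, hu, huw, hEu⟩ := h1
      by_cases huK : u ∈ K
      · exact Or.inl (Or.inl ⟨⟨hw, hE⟩, u, huK, huw, hEu⟩)
      · right
        have e := hK.out w hw u hu huK E hE hEu
        subst e
        rcases h.two w (hK.sub hw) x (hK.sub hK.xmem) v hK.vmem E hE hK.dx hK.dv with h2 | h2 | h2
        · subst h2; rfl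
        · exact absurd (h2 ▸ hw) hK.vnot
        · exact absurd (h2 ▸ hK.xmem) hK.vnot
  · rintro ((⟨h1, -⟩ | ⟨h1, -⟩) | h1)
    · exact h1
    · exact h1
    · cases h1
      exact ⟨hK.xmem, hK.dx⟩

theorem disj1 {K : Finset Pt} (hs : K ⊆ V) : Disjoint (inPairs A B K) (rays V A B K) := by
  classical
  rw [Finset.disjoint_left]
  rintro ⟨w, E⟩ h1 h2
  simp only [inPairs, rays, Finset.mem_filter] at h1 h2
  obtain ⟨-, u, hu, huw, hE⟩ := h1
  exact h2.2 u (hs hu) huw hE

theorem disj2 (h : CurveFacts V A B δ) {K : Finset Pt} {v x : Pt} {E₀ : Cell}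
    (hK : IsSide V A B K v x E₀) :
    Disjoint (inPairs A B K ∪ rays V A B K) {(⟨x, E₀⟩ : (_ : Pt) × Cell)} := by
  classical
  rw [Finset.disjoint_singleton_right, Finset.mem_union]
  rintro (h1 | h1)
  · simp only [inPairs, Finset.mem_filter] at h1
    obtain ⟨-, u, hu, hux, hE⟩ := h1
    rcases h.two u (hK.sub hu) x (hK.sub hK.xmem) v hK.vmem E₀ hE hK.dx hK.dv with h2 | h2 | h2
    · exact hux h2
    · exact hK.vnot (h2 ▸ hu)
    · exact hK.vnot (h2 ▸ hK.xmem)
  · simp only [rays, Finset.mem_filter] at h1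
    have hvx : v ≠ x := fun e => hK.vnot (e ▸ hK.xmem)
    exact h1.2 v hK.vmem hvx hK.dv

theorem sum_split (h : CurveFacts V A B δ) {K : Finset Pt} {v x : Pt} {E₀ : Cell}
    (hK : IsSide V A B K v x E₀) {M : Type*} [AddCommMonoid M] (F : Pt → Cell → M) :
    ∑ w ∈ K, ∑ E ∈ darts (A w) (B w), F w E =
      ∑ p ∈ inPairs A B K, F p.1 p.2 + ∑ p ∈ rays V A B K, F p.1 p.2 + F x E₀ := by
  classical
  have e : ∑ w ∈ K, ∑ E ∈ darts (A w) (B w), F w E =
      ∑ p ∈ K.sigma (fun w => darts (A w) (B w)), F p.1 p.2 := by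
    rw [Finset.sum_sigma]
  rw [e, split_pairs h hK, Finset.sum_union (disj2 h hK), Finset.sum_union (disj1 hK.sub),
    Finset.sum_singleton]

theorem sum_inPairs (h : CurveFacts V A B δ) {K : Finset Pt} (hs : K ⊆ V)
    (F : Pt → Cell → ℤ)
    (hF : ∀ u ∈ V, ∀ w ∈ V, u ≠ w → ∀ E, E ∈ darts (A u) (B u) → E ∈ darts (A w) (B w) →
      F u E + F w E = 0) :
    ∑ p ∈ inPairs A B K, F p.1 p.2 = 0 := by
  classical
  have key : ∀ p ∈ inPairs A B K, ∃ u ∈ K, u ≠ p.1 ∧ p.2 ∈ darts (A u) (B u) := by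
    intro p hp
    simp only [inPairs, Finset.mem_filter] at hp
    exact hp.2
  have mem : ∀ p ∈ inPairs A B K, p.1 ∈ K ∧ p.2 ∈ darts (A p.1) (B p.1) := by
    intro p hp
    simp only [inPairs, Finset.mem_filter, Finset.mem_sigma] at hp
    exact hp.1
  choose! g hg1 hg2 hg3 using key
  refine Finset.sum_involution (fun p _ => (⟨g p, p.2⟩ : (_ : Pt) × Cell)) ?_ ?_ ?_ ?_
  · intro p hp
    exact hF p.1 (hs (mem p hp).1) (g p) (hs (hg1 p hp)) (Ne.symm (hg2 p hp)) p.2 (mem p hp).2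
      (hg3 p hp)
  · intro p hp _ he
    apply hg2 p hp
    exact congrArg Sigma.fst he
  · intro p hp
    simp only [inPairs, Finset.mem_filter, Finset.mem_sigma]
    exact ⟨⟨hg1 p hp, hg3 p hp⟩, p.1, (mem p hp).1, Ne.symm (hg2 p hp), (mem p hp).2⟩
  · rintro ⟨w, E⟩ hp
    have hq : (⟨g ⟨w, E⟩, E⟩ : (_ : Pt) × Cell) ∈ inPairs A B K := by
      simp only [inPairs, Finset.mem_filter, Finset.mem_sigma]
      exact ⟨⟨hg1 _ hp, hg3 _ hp⟩, w, (mem _ hp).1, Ne.symm (hg2 _ hp), (mem _ hp).2⟩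
    have h1 := hg1 _ hq
    have h2 := hg2 _ hq
    have h3 := hg3 _ hq
    have h4 := h.two w (hs (mem _ hp).1) (g ⟨w, E⟩) (hs (hg1 _ hp)) (g ⟨g ⟨w, E⟩, E⟩) (hs h1) E
      (mem _ hp).2 (hg3 _ hp) h3
    rcases h4 with h4 | h4 | h4
    · exact absurd h4.symm (hg2 _ hp)
    · simp only [← h4]
    · exact absurd h4.symm h2

theorem sum_rays (h : CurveFacts V A B δ) {K : Finset Pt} (hs : K ⊆ V)
    {M : Type*} [AddCommMonoid M] (G : (_ : Pt) × Cell → M) :
    ∑ p ∈ rays V A B K, G p = ∑ k, ∑ p ∈ raySet V A B δ K k, G p := by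
  classical
  have hr : ∀ k, raySet V A B δ K k = (rays V A B K).filter (fun p => δ p.1 p.2 = rdir k) := by
    intro k
    ext p
    simp only [raySet, rays, Finset.mem_filter]
    tauto
  simp only [hr, Finset.sum_filter]
  rw [Finset.sum_comm]
  refine Finset.sum_congr rfl ?_
  intro p hp
  simp only [rays, Finset.mem_filter, Finset.mem_sigma] at hp
  obtain ⟨k, hk, -⟩ := h.ray p.1 (hs hp.1.1) p.2 hp.1.2 hp.2
  rw [Finset.sum_eq_single k]
  · rw [if_pos hk]
  · intro b _ hb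
    rw [if_neg]
    intro e
    exact hb (c1_rdir_inj (e.symm.trans hk))
  · intro h1
    exact absurd (Finset.mem_univ k) h1

theorem main_sum (h : CurveFacts V A B δ) {K : Finset Pt} {v x : Pt} {E₀ : Cell}
    (hK : IsSide V A B K v x E₀) (F : Pt → Cell → ℤ)
    (hF : ∀ u ∈ V, ∀ w ∈ V, u ≠ w → ∀ E, E ∈ darts (A u) (B u) → E ∈ darts (A w) (B w) →
      F u E + F w E = 0) :
    ∑ w ∈ K, ∑ E ∈ darts (A w) (B w), F w E =
      ∑ k, ∑ p ∈ raySet V A B δ K k, F p.1 p.2 + F x E₀ := by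
  rw [sum_split h hK F, sum_inPairs h hK.sub F hF, zero_add, sum_rays h hK.sub (fun p => F p.1 p.2)]

theorem mem_raySet {K : Finset Pt} {k : Fin 4} {p : (_ : Pt) × Cell}
    (hp : p ∈ raySet V A B δ K k) : p.1 ∈ K ∧ p.2 ∈ darts (A p.1) (B p.1) ∧
      (∀ v ∈ V, v ≠ p.1 → p.2 ∉ darts (A v) (B v)) ∧ δ p.1 p.2 = rdir k := by
  classical
  simp only [raySet, Finset.mem_filter, Finset.mem_sigma] at hp
  exact ⟨hp.1.1, hp.1.2, hp.2.1, hp.2.2⟩

theorem c1_mem_darts {A B : Finset Mon} {E : Cell} :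
    E ∈ darts A B ↔ (E.1 ⊆ A ∧ E.1.card = 2) ∧ (E.2 ⊆ B ∧ E.2.card = 2) := by
  simp [darts, Finset.mem_product, Finset.mem_powersetCard]

/-- Value of `pair` at an element of a finite set. -/
noncomputable def pv (S : Finset Mon) (d : Fin 3 → ℤ) : ℤ :=
  open Classical in if h : S.Nonempty then pair h.choose d else 0

theorem pv_eq {S : Finset Mon} {d : Fin 3 → ℤ}
    (hS : ∀ y ∈ S, ∀ z ∈ S, pair y d = pair z d) {y : Mon} (hy : y ∈ S) :
    pv S d = pair y d := by
  have hn : S.Nonempty := ⟨y, hy⟩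
  unfold pv
  rw [dif_pos hn]
  exact hS _ hn.choose_spec _ hy

theorem pv_neg (S : Finset Mon) (d : Fin 3 → ℤ) : pv S (-d) = - pv S d := by
  unfold pv
  split_ifs with h
  · exact c1_pair_neg _ _
  · simp

open Classical in
theorem card_not_mem (A B : Finset Mon) (a : Mon) :
    ((darts A B).filter (fun E => a ∉ E.1)).card =
      ((A.erase a).card.choose 2) * (B.card.choose 2) := by
  have : (darts A B).filter (fun E => a ∉ E.1) =
      ((A.erase a).powersetCard 2) ×ˢ (B.powersetCard 2) := by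
    ext E
    simp only [darts, Finset.mem_filter, Finset.mem_product, Finset.mem_powersetCard]
    constructor
    · rintro ⟨⟨⟨h1, h2⟩, h3⟩, h4⟩
      refine ⟨⟨?_, h2⟩, h3⟩
      intro y hy
      exact Finset.mem_erase.2 ⟨fun e => h4 (e ▸ hy), h1 hy⟩
    · rintro ⟨⟨h1, h2⟩, h3⟩
      refine ⟨⟨⟨fun y hy => Finset.mem_of_mem_erase (h1 hy), h2⟩, h3⟩, fun h => ?_⟩
      exact absurd (h1 h) (by simp)
  rw [this, Finset.card_product, Finset.card_powersetCard, Finset.card_powersetCard]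

open Classical in
theorem card_not_mem' (A B : Finset Mon) (a : Mon) :
    ((darts A B).filter (fun E => a ∉ E.2)).card =
      (A.card.choose 2) * ((B.erase a).card.choose 2) := by
  have : (darts A B).filter (fun E => a ∉ E.2) =
      (A.powersetCard 2) ×ˢ ((B.erase a).powersetCard 2) := by
    ext E
    simp only [darts, Finset.mem_filter, Finset.mem_product, Finset.mem_powersetCard]
    constructor
    · rintro ⟨⟨h3, h1, h2⟩, h4⟩
      refine ⟨h3, ?_, h2⟩
      intro y hy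
      exact Finset.mem_erase.2 ⟨fun e => h4 (e ▸ hy), h1 hy⟩
    · rintro ⟨h3, h1, h2⟩
      refine ⟨⟨h3, fun y hy => Finset.mem_of_mem_erase (h1 hy), h2⟩, fun h => ?_⟩
      exact absurd (h1 h) (by simp)
  rw [this, Finset.card_product, Finset.card_powersetCard, Finset.card_powersetCard]

theorem vertexA (h : CurveFacts V A B δ) {w : Pt} (hw : w ∈ V) :
    ∑ E ∈ darts (A w) (B w), pv E.1 (δ w E) = if (A w).card = 3 then 1 else 0 := by
  classical
  have hne : (A w).Nonempty := by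
    rcases h.card w hw with h1 | h1
    · exact Finset.card_pos.1 (by omega)
    · exact Finset.card_pos.1 (by omega)
  obtain ⟨a, ha⟩ := hne
  have e1 : ∀ E ∈ darts (A w) (B w), pv E.1 (δ w E) =
      pair a (δ w E) + if a ∉ E.1 then 1 else 0 := by
    intro E hE
    by_cases haE : a ∈ E.1
    · rw [pv_eq (h.eqA w hw E hE) haE, if_neg (by simpa using haE), add_zero]
    · obtain ⟨y, hy⟩ : E.1.Nonempty := Finset.card_pos.1 (by rw [(c1_mem_darts.1 hE).1.2]; norm_num)
      rw [pv_eq (h.eqA w hw E hE) hy, if_pos haE]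
      have := h.dropA w hw E hE a ha haE y hy
      omega
  rw [Finset.sum_congr rfl e1, Finset.sum_add_distrib, ← pair_sum, h.bal w hw]
  have e0 : pair a (0 : Fin 3 → ℤ) = 0 := by simp [pair]
  rw [e0, zero_add, ← Finset.sum_filter, Finset.sum_const, card_not_mem,
    Finset.card_erase_of_mem ha]
  rcases h.card w hw with ⟨h1, h2⟩ | ⟨h1, h2⟩
  · rw [h1, h2]; decide
  · rw [h1, h2]; decide

theorem vertexB (h : CurveFacts V A B δ) {w : Pt} (hw : w ∈ V) :
    ∑ E ∈ darts (A w) (B w), pv E.2 (δ w E) = if (B w).card = 3 then 1 else 0 := by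
  classical
  have hne : (B w).Nonempty := by
    rcases h.card w hw with h1 | h1
    · exact Finset.card_pos.1 (by omega)
    · exact Finset.card_pos.1 (by omega)
  obtain ⟨a, ha⟩ := hne
  have e1 : ∀ E ∈ darts (A w) (B w), pv E.2 (δ w E) =
      pair a (δ w E) + if a ∉ E.2 then 1 else 0 := by
    intro E hE
    by_cases haE : a ∈ E.2
    · rw [pv_eq (h.eqB w hw E hE) haE, if_neg (by simpa using haE), add_zero]
    · obtain ⟨y, hy⟩ : E.2.Nonempty := Finset.card_pos.1 (by rw [(c1_mem_darts.1 hE).2.2]; norm_num)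
      rw [pv_eq (h.eqB w hw E hE) hy, if_pos haE]
      have := h.dropB w hw E hE a ha haE y hy
      omega
  rw [Finset.sum_congr rfl e1, Finset.sum_add_distrib, ← pair_sum, h.bal w hw]
  have e0 : pair a (0 : Fin 3 → ℤ) = 0 := by simp [pair]
  rw [e0, zero_add, ← Finset.sum_filter, Finset.sum_const, card_not_mem',
    Finset.card_erase_of_mem ha]
  rcases h.card w hw with ⟨h1, h2⟩ | ⟨h1, h2⟩
  · rw [h1, h2]; decide
  · rw [h1, h2]; decide

theorem inPairs_card (h : CurveFacts V A B δ) {K : Finset Pt} (hs : K ⊆ V) :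
    (inPairs A B K).card = 2 * (innerSet A B K).card := by
  classical
  have hm : ∀ p ∈ inPairs A B K, p.2 ∈ innerSet A B K := by
    intro p hp
    simp only [inPairs, Finset.mem_filter, Finset.mem_sigma] at hp
    obtain ⟨⟨h1, h2⟩, u, hu, hup, hE⟩ := hp
    simp only [innerSet, Finset.mem_filter, Finset.mem_biUnion]
    exact ⟨⟨p.1, h1, h2⟩, p.1, h1, u, hu, Ne.symm hup, h2, hE⟩
  rw [Finset.card_eq_sum_card_fiberwise hm, mul_comm, ← smul_eq_mul, ← Finset.sum_const]
  refine Finset.sum_congr rfl ?_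
  intro E hE
  simp only [innerSet, Finset.mem_filter, Finset.mem_biUnion] at hE
  obtain ⟨-, a, ha, b, hb, hab, h1, h2⟩ := hE
  rw [Finset.card_eq_two]
  refine ⟨⟨a, E⟩, ⟨b, E⟩, ?_, ?_⟩
  · intro e
    exact hab (congrArg Sigma.fst e)
  · ext ⟨w, E'⟩
    simp only [inPairs, Finset.mem_filter, Finset.mem_sigma, Finset.mem_insert,
      Finset.mem_singleton]
    constructor
    · rintro ⟨⟨⟨hw, hE'⟩, -⟩, rfl⟩
      rcases h.two a (hs ha) b (hs hb) w (hs hw) E' h1 h2 hE' with h3 | h3 | h3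
      · exact absurd h3 hab
      · left; rw [h3]
      · right; rw [h3]
    · rintro (h3 | h3)
      · cases h3
        exact ⟨⟨⟨ha, h1⟩, b, hb, Ne.symm hab, h2⟩, rfl⟩
      · cases h3
        exact ⟨⟨⟨hb, h2⟩, a, ha, hab, h1⟩, rfl⟩

end aux

/-- Balancing, slopes of the two polynomials, and counting of darts on a side `K` of `v`. -/
theorem count1 {V : Finset Pt} {A B : Pt → Finset Mon} {δ : Pt → Cell → (Fin 3 → ℤ)}
    (h : CurveFacts V A B δ) {K : Finset Pt} {v x : Pt} {E₀ : Cell} (hK : IsSide V A B K v x E₀) :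
    (∀ i : Fin 3, (nray V A B δ K i.succ : ℤ) = nray V A B δ K 0 - δ v E₀ i) ∧
    (∀ a ∈ E₀.1, ∀ m ∈ E₀.2,
      (K.card : ℤ) = 5 * nray V A B δ K 0 - pair a (δ v E₀) - pair m (δ v E₀)) ∧
    2 * (innerSet A B K).card + ∑ k, nray V A B δ K k + 1 = 3 * K.card := by
  classical
  have hvx : v ≠ x := fun e => hK.vnot (e ▸ hK.xmem)
  have hop : δ x E₀ = - δ v E₀ := h.opp v hK.vmem x (hK.sub hK.xmem) hvx E₀ hK.dv hK.dx
  refine ⟨?_, ?_, ?_⟩
  · intro i
    have hF : ∀ u ∈ V, ∀ w ∈ V, u ≠ w → ∀ E, E ∈ darts (A u) (B u) → E ∈ darts (A w) (B w) →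
        δ u E i + δ w E i = 0 := by
      intro u hu w hw huw E hE hE'
      rw [h.opp u hu w hw huw E hE hE']
      simp
    have := main_sum h hK (fun w E => δ w E i) hF
    have e1 : ∑ w ∈ K, ∑ E ∈ darts (A w) (B w), δ w E i = 0 := by
      refine Finset.sum_eq_zero ?_
      intro w hw
      have := congrFun (h.bal w (hK.sub hw)) i
      simpa [Finset.sum_apply] using this
    have e2 : ∀ k : Fin 4, ∑ p ∈ raySet V A B δ K k, δ p.1 p.2 i =
        (nray V A B δ K k : ℤ) * rdir k i := by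
      intro k
      rw [Finset.sum_congr rfl (fun p hp => by rw [(mem_raySet hp).2.2.2])]
      rw [Finset.sum_const, nsmul_eq_mul]
      rfl
    rw [e1, Finset.sum_congr rfl (fun k _ => e2 k), hop, Fin.sum_univ_four] at this
    simp only [Pi.neg_apply] at this
    fin_cases i
    · simp [rdir] at this ⊢
      linarith
    · simp [rdir] at this ⊢
      linarith
    · simp [rdir] at this ⊢
      linarith
  · intro a ha m hm
    have key : ∀ (S : Cell → Finset Mon) (D : ℕ) (N : Pt → ℤ) (y : Mon) (hy : y ∈ S E₀)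
        (hS : ∀ w ∈ V, ∀ E ∈ darts (A w) (B w), ∀ y ∈ S E, ∀ z ∈ S E,
          pair y (δ w E) = pair z (δ w E))
        (hne : ∀ w ∈ V, ∀ E ∈ darts (A w) (B w), (S E).Nonempty)
        (hv : ∀ w ∈ V, ∑ E ∈ darts (A w) (B w), pv (S E) (δ w E) = N w)
        (hr : ∀ w ∈ V, ∀ E ∈ darts (A w) (B w), (∀ v ∈ V, v ≠ w → E ∉ darts (A v) (B v)) →
          ∀ k, δ w E = rdir k → OnFacet D k (S E)),
        ∑ w ∈ K, N w = D * nray V A B δ K 0 - pair y (δ v E₀) := by
      intro S D N y hy hS hne hv hr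
      have hF : ∀ u ∈ V, ∀ w ∈ V, u ≠ w → ∀ E, E ∈ darts (A u) (B u) → E ∈ darts (A w) (B w) →
          pv (S E) (δ u E) + pv (S E) (δ w E) = 0 := by
        intro u hu w hw huw E hE hE'
        rw [h.opp u hu w hw huw E hE hE', pv_neg]
        simp
      have := main_sum h hK (fun w E => pv (S E) (δ w E)) hF
      rw [Finset.sum_congr rfl (fun w hw => hv w (hK.sub hw))] at this
      have e2 : ∀ k : Fin 4, ∑ p ∈ raySet V A B δ K k, pv (S p.2) (δ p.1 p.2) =
          (nray V A B δ K k : ℤ) * topv D k := by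
        intro k
        have e3 : ∀ p ∈ raySet V A B δ K k, pv (S p.2) (δ p.1 p.2) = topv D k := by
          intro p hp
          obtain ⟨h1, h2, h3, h4⟩ := mem_raySet hp
          obtain ⟨z, hz⟩ := hne p.1 (hK.sub h1) p.2 h2
          rw [pv_eq (hS p.1 (hK.sub h1) p.2 h2) hz]
          have := hr p.1 (hK.sub h1) p.2 h2 h3 k h4 z hz
          rw [h4]
          exact this
        rw [Finset.sum_congr rfl e3, Finset.sum_const, nsmul_eq_mul]
        rfl
      rw [Finset.sum_congr rfl (fun k _ => e2 k), hop, pv_neg,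
        pv_eq (hS v hK.vmem E₀ hK.dv) hy, Fin.sum_univ_four] at this
      rw [this]
      simp [topv]
      ring
    have hrk : ∀ w ∈ V, ∀ E ∈ darts (A w) (B w),
        (∀ v ∈ V, v ≠ w → E ∉ darts (A v) (B v)) → ∀ k, δ w E = rdir k →
          OnFacet 2 k E.1 ∧ OnFacet 3 k E.2 := by
      intro w hw E hE h1 k hk
      obtain ⟨k', hk', h2, h3⟩ := h.ray w hw E hE h1
      have : k' = k := c1_rdir_inj (hk'.symm.trans hk)
      subst this
      exact ⟨h2, h3⟩
    have kA := key (fun E => E.1) 2 (fun w => if (A w).card = 3 then 1 else 0) a ha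
      (fun w hw E hE => h.eqA w hw E hE)
      (fun w hw E hE => Finset.card_pos.1 (by rw [(c1_mem_darts.1 hE).1.2]; norm_num))
      (fun w hw => vertexA h hw)
      (fun w hw E hE h1 k hk => (hrk w hw E hE h1 k hk).1)
    have kB := key (fun E => E.2) 3 (fun w => if (B w).card = 3 then 1 else 0) m hm
      (fun w hw E hE => h.eqB w hw E hE)
      (fun w hw E hE => Finset.card_pos.1 (by rw [(c1_mem_darts.1 hE).2.2]; norm_num))
      (fun w hw => vertexB h hw)
      (fun w hw E hE h1 k hk => (hrk w hw E hE h1 k hk).2)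
    have hc : (K.card : ℤ) = ∑ w ∈ K, ((if (A w).card = 3 then (1 : ℤ) else 0) +
        (if (B w).card = 3 then (1 : ℤ) else 0)) := by
      have : ∀ w ∈ K, ((if (A w).card = 3 then (1 : ℤ) else 0) +
        (if (B w).card = 3 then (1 : ℤ) else 0)) = 1 := by
        intro w hw
        rcases h.card w (hK.sub hw) with ⟨h1, h2⟩ | ⟨h1, h2⟩
        · rw [h1, h2]; norm_num
        · rw [h1, h2]; norm_num
      rw [Finset.sum_congr rfl this]
      simp
    rw [hc, Finset.sum_add_distrib, kA, kB]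
    push_cast
    ring
  · have hs := sum_split h hK (fun _ _ => (1 : ℕ))
    have e1 : ∑ w ∈ K, ∑ _E ∈ darts (A w) (B w), (1 : ℕ) = 3 * K.card := by
      have : ∀ w ∈ K, ∑ _E ∈ darts (A w) (B w), (1 : ℕ) = 3 := by
        intro w hw
        rw [Finset.sum_const, smul_eq_mul, mul_one, darts, Finset.card_product,
          Finset.card_powersetCard, Finset.card_powersetCard]
        rcases h.card w (hK.sub hw) with ⟨h1, h2⟩ | ⟨h1, h2⟩
        · rw [h1, h2]; decide
        · rw [h1, h2]; decide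
      rw [Finset.sum_congr rfl this, Finset.sum_const, smul_eq_mul, mul_comm]
    have e2 := sum_rays h hK.sub (fun _ => (1 : ℕ))
    rw [e1, e2] at hs
    simp only [Finset.sum_const, smul_eq_mul, mul_one] at hs
    rw [inPairs_card h hK.sub] at hs
    rw [hs]
    rfl

end Pool.Agent.H47.Trop
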