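import Pool.Agent.H47.Trop.Facts

set_option autoImplicit false

namespace Pool.Agent.H47.Trop

/-- Number of darts of a triangle-times-edge cell containing a given corner. -/
private lemma card_corner {S T : Finset Mon} {a m : Mon} (ha : a ∈ S) (hm : m ∈ T)
    (hc : (S.card = 3 ∧ T.card = 2) ∨ (S.card = 2 ∧ T.card = 3)) :
    ((darts S T).filter fun E => a ∈ E.1 ∧ m ∈ E.2).card = 2 := by
  classical
  have key : ∀ (U : Finset Mon) (y : Mon), y ∈ U →
      ((U.powersetCard 2).filter fun P => y ∈ P) = (U.erase y).image fun z => {y, z} := by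
    intro U y hy
    ext P
    simp only [Finset.mem_filter, Finset.mem_powersetCard, Finset.mem_image, Finset.mem_erase]
    constructor
    · rintro ⟨⟨hP, hP2⟩, hyP⟩
      obtain ⟨z, hz⟩ := Finset.card_eq_one.1 (by
        rw [Finset.card_erase_of_mem hyP, hP2] : (P.erase y).card = 1)
      have hzP : z ∈ P.erase y := by rw [hz]; exact Finset.mem_singleton_self z
      refine ⟨z, ⟨(Finset.mem_erase.1 hzP).1, hP (Finset.mem_erase.1 hzP).2⟩, ?_⟩
      rw [← Finset.insert_erase hyP, hz]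
    · rintro ⟨z, ⟨hzy, hz⟩, rfl⟩
      refine ⟨⟨?_, ?_⟩, by simp⟩
      · intro t ht
        rcases Finset.mem_insert.1 ht with rfl | ht
        · exact hy
        · rw [Finset.mem_singleton.1 ht]; exact hz
      · exact Finset.card_pair (fun h => hzy h.symm)
  have key2 : ∀ (U : Finset Mon) (y : Mon), y ∈ U →
      ((U.powersetCard 2).filter fun P => y ∈ P).card = U.card - 1 := by
    intro U y hy
    rw [key U y hy, Finset.card_image_of_injOn, Finset.card_erase_of_mem hy]
    intro z hz z' hz' h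
    simp only [Finset.coe_erase, Set.mem_sdiff, Set.mem_singleton_iff] at hz hz'
    have : z ∈ ({y, z'} : Finset Mon) := by
      have h' : ({y, z} : Finset Mon) = {y, z'} := h
      rw [← h']; simp
    rcases Finset.mem_insert.1 this with h1 | h1
    · exact absurd h1 hz.2
    · exact Finset.mem_singleton.1 h1
  have hprod : ((darts S T).filter fun E => a ∈ E.1 ∧ m ∈ E.2) =
      ((S.powersetCard 2).filter fun P => a ∈ P) ×ˢ ((T.powersetCard 2).filter fun P => m ∈ P) := by
    ext E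
    simp only [darts, Finset.mem_filter, Finset.mem_product]
    tauto
  rw [hprod, Finset.card_product, key2 S a ha, key2 T m hm]
  rcases hc with ⟨h1, h2⟩ | ⟨h1, h2⟩ <;> rw [h1, h2]

private lemma card_darts {S T : Finset Mon}
    (hc : (S.card = 3 ∧ T.card = 2) ∨ (S.card = 2 ∧ T.card = 3)) : (darts S T).card = 3 := by
  unfold darts
  rw [Finset.card_product, Finset.card_powersetCard, Finset.card_powersetCard]
  rcases hc with ⟨h1, h2⟩ | ⟨h1, h2⟩ <;> rw [h1, h2] <;> rfl

/-- If three pairwise disjoint sides are attached to `v` by three different edges, then no corner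
`a + m` of the cell of `v` is an interior lattice point of the simplex of size 5. -/
theorem count2 {V : Finset Pt} {A B : Pt → Finset Mon} {δ : Pt → Cell → (Fin 3 → ℤ)}
    (h : CurveFacts V A B δ) {K : Fin 3 → Finset Pt} {v : Pt} {x : Fin 3 → Pt} {E : Fin 3 → Cell}
    (hK : ∀ j, IsSide V A B (K j) v (x j) (E j)) (hE : Function.Injective E)
    {a m : Mon} (ha : a ∈ A v) (hm : m ∈ B v) (h1 : ∀ i, 1 ≤ a i + m i)
    (h4 : ∑ i, (a i + m i) ≤ 4) : False := by
  classical
  have hv : v ∈ V := (hK 0).vmem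
  -- the darts of `v`
  have himg : Finset.univ.image E = darts (A v) (B v) := by
    apply Finset.eq_of_subset_of_card_le
    · intro F hF
      obtain ⟨j, -, rfl⟩ := Finset.mem_image.1 hF
      exact (hK j).dv
    · rw [card_darts (h.card v hv), Finset.card_image_of_injective _ hE]
      simp
  obtain ⟨j, hja, hjm⟩ : ∃ j, a ∈ (E j).1 ∧ m ∈ (E j).2 := by
    have h2 := card_corner ha hm (h.card v hv)
    obtain ⟨F, hF⟩ := Finset.card_pos.1 (by rw [h2]; norm_num :
      0 < ((darts (A v) (B v)).filter fun E => a ∈ E.1 ∧ m ∈ E.2).card)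
    obtain ⟨hF1, hF2⟩ := Finset.mem_filter.1 hF
    rw [← himg] at hF1
    obtain ⟨j, -, rfl⟩ := Finset.mem_image.1 hF1
    exact ⟨j, hF2⟩
  have hS := hK j
  generalize K j = L at hS
  generalize x j = y at hS
  generalize E j = E₀ at hS hja hjm
  -- membership in darts
  have hmem : ∀ w F, F ∈ darts (A w) (B w) → a ∈ F.1 → m ∈ F.2 → a ∈ A w ∧ m ∈ B w := by
    intro w F hF h1 h2
    simp only [darts, Finset.mem_product, Finset.mem_powersetCard] at hF
    exact ⟨hF.1.1 h1, hF.2.1 h2⟩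
  set N := L.filter fun w => a ∈ A w ∧ m ∈ B w with hN
  set D : Finset ((_ : Pt) × Cell) :=
    N.sigma fun w => (darts (A w) (B w)).filter fun F => a ∈ F.1 ∧ m ∈ F.2 with hD
  have hDcard : D.card = 2 * N.card := by
    rw [hD, Finset.card_sigma, Finset.sum_congr rfl (g := fun _ => 2)]
    · simp [mul_comm]
    · intro w hw
      obtain ⟨hwL, hw1, hw2⟩ := Finset.mem_filter.1 hw
      exact card_corner hw1 hw2 (h.card w (hS.sub hwL))
  have hDmem : ∀ w F, (⟨w, F⟩ : (_ : Pt) × Cell) ∈ D ↔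
      w ∈ L ∧ F ∈ darts (A w) (B w) ∧ a ∈ F.1 ∧ m ∈ F.2 := by
    intro w F
    rw [hD, Finset.mem_sigma]
    simp only [hN, Finset.mem_filter]
    constructor
    · rintro ⟨⟨h1, -⟩, h2, h3⟩
      exact ⟨h1, h2, h3⟩
    · rintro ⟨h1, h2, h3, h4⟩
      exact ⟨⟨h1, hmem w F h2 h3 h4⟩, h2, h3, h4⟩
  have hx0 : (⟨y, E₀⟩ : (_ : Pt) × Cell) ∈ D := (hDmem _ _).2 ⟨hS.xmem, hS.dx, hja, hjm⟩
  -- partners
  have hpart : ∀ p ∈ D.erase ⟨y, E₀⟩, ∃ u, u ∈ L ∧ u ≠ p.1 ∧ p.2 ∈ darts (A u) (B u) := by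
    rintro ⟨w, F⟩ hp
    obtain ⟨hne, hp⟩ := Finset.mem_erase.1 hp
    obtain ⟨hwL, hF, hFa, hFm⟩ := (hDmem w F).1 hp
    have hray : ∃ u ∈ V, u ≠ w ∧ F ∈ darts (A u) (B u) := by
      by_contra hcon
      push Not at hcon
      obtain ⟨k, -, hk2, hk3⟩ := h.ray w (hS.sub hwL) F hF hcon
      have e2 := hk2 a hFa
      have e3 := hk3 m hFm
      rw [Fin.sum_univ_three] at h4
      have i0 := h1 0
      have i1 := h1 1
      have i2 := h1 2
      fin_cases k
      · simp only [pair, rdir, topv, Fin.sum_univ_three] at e2 e3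
        simp at e2 e3
        omega
      all_goals
        simp only [pair, rdir, topv, Fin.sum_univ_three] at e2 e3
        simp at e2 e3
        first
          | (rw [e2, e3] at i0; omega)
          | (rw [e2, e3] at i1; omega)
          | (rw [e2, e3] at i2; omega)
    obtain ⟨u, huV, huw, hFu⟩ := hray
    by_cases huL : u ∈ L
    · exact ⟨u, huL, huw, hFu⟩
    · exfalso
      have hFE := hS.out w hwL u huV huL F hF hFu
      subst hFE
      rcases h.two w (hS.sub hwL) y (hS.sub hS.xmem) v hS.vmem F hF hS.dx hS.dv with h5 | h5 | h5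
      · exact hne (by rw [h5])
      · exact hS.vnot (h5 ▸ hwL)
      · exact hS.vnot (h5 ▸ hS.xmem)
  choose! g hg using hpart
  have heven : ∑ p ∈ D.erase ⟨y, E₀⟩, (1 : ZMod 2) = 0 := by
    apply Finset.sum_involution (fun p _ => (⟨g p, p.2⟩ : (_ : Pt) × Cell))
    · intro p hp
      decide
    · rintro ⟨w, F⟩ hp _ hcon
      have := congrArg Sigma.fst hcon
      exact (hg _ hp).2.1 this
    · rintro ⟨w, F⟩ hp
      obtain ⟨hu1, hu2, hu3⟩ := hg _ hp
      obtain ⟨hne, hp'⟩ := Finset.mem_erase.1 hp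
      obtain ⟨hwL, hF, hFa, hFm⟩ := (hDmem w F).1 hp'
      refine Finset.mem_erase.2 ⟨?_, (hDmem _ _).2 ⟨hu1, hu3, hFa, hFm⟩⟩
      intro hcon
      simp only [Sigma.mk.injEq, heq_eq_eq] at hcon
      obtain ⟨hc1, hc2⟩ := hcon
      subst hc2
      rcases h.two w (hS.sub hwL) y (hS.sub hS.xmem) v hS.vmem F hF hS.dx hS.dv with h5 | h5 | h5
      · exact hne (by rw [h5])
      · exact hS.vnot (h5 ▸ hwL)
      · exact hS.vnot (h5 ▸ hS.xmem)
    · rintro ⟨w, F⟩ hp
      obtain ⟨hu1, hu2, hu3⟩ := hg _ hp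
      obtain ⟨hne, hp'⟩ := Finset.mem_erase.1 hp
      obtain ⟨hwL, hF, hFa, hFm⟩ := (hDmem w F).1 hp'
      have hq : (⟨g ⟨w, F⟩, F⟩ : (_ : Pt) × Cell) ∈ D.erase ⟨y, E₀⟩ := by
        refine Finset.mem_erase.2 ⟨?_, (hDmem _ _).2 ⟨hu1, hu3, hFa, hFm⟩⟩
        intro hcon
        simp only [Sigma.mk.injEq, heq_eq_eq] at hcon
        obtain ⟨hc1, hc2⟩ := hcon
        subst hc2
        rcases h.two w (hS.sub hwL) y (hS.sub hS.xmem) v hS.vmem F hF hS.dx hS.dv with h5 | h5 | h5
        · exact hne (by rw [h5])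
        · exact hS.vnot (h5 ▸ hwL)
        · exact hS.vnot (h5 ▸ hS.xmem)
      obtain ⟨hz1, hz2, hz3⟩ := hg _ hq
      simp only [Sigma.mk.injEq, heq_eq_eq, and_true]
      rcases h.two w (hS.sub hwL) _ (hS.sub hu1) _ (hS.sub hz1) F hF hu3 hz3 with h5 | h5 | h5
      · exact absurd h5.symm hu2
      · exact h5.symm
      · exact absurd h5.symm hz2
  have hcast : ((D.erase ⟨y, E₀⟩).card : ZMod 2) = 0 := by
    rw [← heven]; simp
  have hd : 2 ∣ (D.erase ⟨y, E₀⟩).card := (ZMod.natCast_eq_zero_iff _ _).1 hcast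
  rw [Finset.card_erase_of_mem hx0, hDcard] at hd
  have hpos : 0 < D.card := Finset.card_pos.2 ⟨_, hx0⟩
  rw [hDcard] at hpos
  omega

end Pool.Agent.H47.Trop
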