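import Pool.Agent.H47.Trop.Facts

set_option autoImplicit false

/-!
# Forest bound for the sides

Job TS-3 (helper77).  If at most one direction `k₀` has two or more rays on a side `K`, then every
nonempty subset `K'` of `K` has fewer inner edges than vertices, by induction: an edge on which one
of the functionals `φ j k` (`j, k ≠ k₀`) does not vanish is the only edge crossing a level set of
`φ j k`; if there is no such edge in `K'`, then all edges in `K'` are parallel to `rdir k₀`, so they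
form a matching.
-/

namespace Pool.Agent.H47.Trop

/-- integral functional on integer vectors -/
def fz (c d : Fin 3 → ℤ) : ℤ := ∑ i, c i * d i

/-- integral functional on points -/
def fr (c : Fin 3 → ℤ) (w : Pt) : ℝ := ∑ i, (c i : ℝ) * w i

theorem fz_zero (c : Fin 3 → ℤ) : fz c 0 = 0 := by
  simp [fz]

theorem fz_neg (c d : Fin 3 → ℤ) : fz c (-d) = - fz c d := by
  simp [fz, Finset.sum_neg_distrib]

theorem fz_sum {ι : Type*} (c : Fin 3 → ℤ) (s : Finset ι) (d : ι → Fin 3 → ℤ) :
    fz c (∑ i ∈ s, d i) = ∑ i ∈ s, fz c (d i) := by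
  unfold fz
  rw [Finset.sum_comm]
  apply Finset.sum_congr rfl
  intro i _
  rw [Finset.sum_apply, Finset.mul_sum]

theorem fr_move (c : Fin 3 → ℤ) {v w : Pt} {s : ℝ} {d : Fin 3 → ℤ}
    (h : ∀ i, w i = v i + s * (d i : ℝ)) : fr c w = fr c v + s * (fz c d : ℝ) := by
  unfold fr fz
  push_cast
  rw [Finset.mul_sum, ← Finset.sum_add_distrib]
  apply Finset.sum_congr rfl
  intro i _
  rw [h i]
  ring

/-- the functionals used in the argument -/
def cmu : Fin 4 → (Fin 3 → ℤ) := ![![0, 0, 0], ![1, 0, 0], ![0, 1, 0], ![0, 0, 1]]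

/-- the functional with the values `-1` at `rdir j`, `1` at `rdir k`, `0` at the others -/
def cvec (j k : Fin 4) : Fin 3 → ℤ := fun i => cmu j i - cmu k i

theorem fz_cvec_rdir : ∀ j k l : Fin 4, j ≠ k →
    fz (cvec j k) (rdir l) = (if l = k then 1 else 0) - (if l = j then 1 else 0) := by
  decide

theorem rdir_inj : ∀ k l : Fin 4, rdir k = rdir l → k = l := by
  decide

/-- common kernel of the functionals -/
theorem ker_cvec (k₀ : Fin 4) (d : Fin 3 → ℤ)
    (h : ∀ j k : Fin 4, j ≠ k₀ → k ≠ k₀ → j ≠ k → fz (cvec j k) d = 0) :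
    ∃ a : ℤ, d = a • rdir k₀ := by
  have e : ∀ j k : Fin 4, fz (cvec j k) d
      = (cmu j 0 - cmu k 0) * d 0 + (cmu j 1 - cmu k 1) * d 1 + (cmu j 2 - cmu k 2) * d 2 := by
    intro j k
    unfold fz cvec
    rw [Fin.sum_univ_three]
  have c0 : cmu 0 = ![0, 0, 0] := rfl
  have c1 : cmu 1 = ![1, 0, 0] := rfl
  have c2 : cmu 2 = ![0, 1, 0] := rfl
  have c3 : cmu 3 = ![0, 0, 1] := rfl
  fin_cases k₀
  · have h1 := h 1 2 (by decide) (by decide) (by decide)
    have h2 := h 1 3 (by decide) (by decide) (by decide)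
    rw [e] at h1 h2
    simp [c1, c2, c3] at h1 h2
    refine ⟨d 0, ?_⟩
    ext i
    fin_cases i
    · simp [rdir]
    · simp [rdir]; omega
    · simp [rdir]; omega
  · have h1 := h 2 0 (by decide) (by decide) (by decide)
    have h2 := h 3 0 (by decide) (by decide) (by decide)
    rw [e] at h1 h2
    simp [c0, c2, c3] at h1 h2
    refine ⟨- d 0, ?_⟩
    ext i
    fin_cases i
    · simp [rdir]
    · simp [rdir]; omega
    · simp [rdir]; omega
  · have h1 := h 1 0 (by decide) (by decide) (by decide)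
    have h2 := h 3 0 (by decide) (by decide) (by decide)
    rw [e] at h1 h2
    simp [c0, c1, c3] at h1 h2
    refine ⟨- d 1, ?_⟩
    ext i
    fin_cases i
    · simp [rdir]; omega
    · simp [rdir]
    · simp [rdir]; omega
  · have h1 := h 1 0 (by decide) (by decide) (by decide)
    have h2 := h 2 0 (by decide) (by decide) (by decide)
    rw [e] at h1 h2
    simp [c0, c1, c2] at h1 h2
    refine ⟨- d 2, ?_⟩
    ext i
    fin_cases i
    · simp [rdir]; omega
    · simp [rdir]; omega
    · simp [rdir]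

section

variable {V : Finset Pt} {A B : Pt → Finset Mon} {δ : Pt → Cell → (Fin 3 → ℤ)}

open Classical in
/-- the pairs (vertex of `S`, dart) without another end point in `S` -/
noncomputable def remS (A B : Pt → Finset Mon) (S : Finset Pt) : Finset ((_ : Pt) × Cell) :=
  (S.sigma fun w => darts (A w) (B w)).filter fun p =>
    ∀ u ∈ S, u ≠ p.1 → p.2 ∉ darts (A u) (B u)

open Classical in
/-- cancellation of the inner edges -/
theorem sum_cancel (h : CurveFacts V A B δ) {S : Finset Pt} (hS : S ⊆ V) (F : Pt → Cell → ℤ)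
    (hF : ∀ v ∈ V, ∀ w ∈ V, v ≠ w → ∀ E, E ∈ darts (A v) (B v) → E ∈ darts (A w) (B w) →
      F w E = - F v E) :
    ∑ w ∈ S, ∑ E ∈ darts (A w) (B w), F w E = ∑ p ∈ remS A B S, F p.1 p.2 := by
  rw [Finset.sum_sigma' S (fun w => darts (A w) (B w)) (fun w E => F w E),
    ← Finset.sum_filter_add_sum_filter_not _
      (fun p : (_ : Pt) × Cell => ∀ u ∈ S, u ≠ p.1 → p.2 ∉ darts (A u) (B u))]
  unfold remS
  have hz : ∑ p ∈ (S.sigma fun w => darts (A w) (B w)).filter (fun p : (_ : Pt) × Cell =>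
      ¬ ∀ u ∈ S, u ≠ p.1 → p.2 ∉ darts (A u) (B u)), F p.1 p.2 = 0 := by
    have hex : ∀ p ∈ (S.sigma fun w => darts (A w) (B w)).filter (fun p : (_ : Pt) × Cell =>
        ¬ ∀ u ∈ S, u ≠ p.1 → p.2 ∉ darts (A u) (B u)),
        ∃ u, u ∈ S ∧ u ≠ p.1 ∧ p.2 ∈ darts (A u) (B u) := by
      intro p hp
      have h1 := (Finset.mem_filter.1 hp).2
      push Not at h1
      exact h1
    refine Finset.sum_involution (fun p hp => ⟨(hex p hp).choose, p.2⟩) ?_ ?_ ?_ ?_
    · intro p hp
      obtain ⟨h1, h2, h3⟩ := (hex p hp).choose_spec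
      obtain ⟨hp1, hp2⟩ := Finset.mem_sigma.1 (Finset.mem_filter.1 hp).1
      have := hF p.1 (hS hp1) _ (hS h1) h2.symm p.2 hp2 h3
      simp only
      rw [this]
      ring
    · intro p hp _ he
      obtain ⟨h1, h2, h3⟩ := (hex p hp).choose_spec
      exact h2 (congrArg Sigma.fst he)
    · intro p hp
      obtain ⟨h1, h2, h3⟩ := (hex p hp).choose_spec
      obtain ⟨hp1, hp2⟩ := Finset.mem_sigma.1 (Finset.mem_filter.1 hp).1
      refine Finset.mem_filter.2 ⟨Finset.mem_sigma.2 ⟨h1, h3⟩, ?_⟩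
      intro hall
      exact hall p.1 hp1 (Ne.symm h2) hp2
    · intro p hp
      obtain ⟨h1, h2, h3⟩ := (hex p hp).choose_spec
      obtain ⟨hp1, hp2⟩ := Finset.mem_sigma.1 (Finset.mem_filter.1 hp).1
      have hp' : (⟨(hex p hp).choose, p.2⟩ : (_ : Pt) × Cell) ∈
          (S.sigma fun w => darts (A w) (B w)).filter (fun p : (_ : Pt) × Cell =>
            ¬ ∀ u ∈ S, u ≠ p.1 → p.2 ∉ darts (A u) (B u)) := by
        refine Finset.mem_filter.2 ⟨Finset.mem_sigma.2 ⟨h1, h3⟩, ?_⟩
        intro hall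
        exact hall p.1 hp1 (Ne.symm h2) hp2
      obtain ⟨g1, g2, g3⟩ := (hex _ hp').choose_spec
      have ht := h.two _ (hS h1) _ (hS hp1) _ (hS g1) p.2 h3 hp2 g3
      rcases ht with ht | ht | ht
      · exact absurd ht h2
      · exact absurd ht.symm g2
      · obtain ⟨w, E⟩ := p
        exact congrArg (fun z => (⟨z, E⟩ : (_ : Pt) × Cell)) ht.symm
  rw [hz, add_zero]

/-- the other end point of `E₀` is outside -/
theorem IsSide.uniq (h : CurveFacts V A B δ) {K : Finset Pt} {v x : Pt} {E₀ : Cell}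
    (hK : IsSide V A B K v x E₀) {w : Pt} (hw : w ∈ K) (hd : E₀ ∈ darts (A w) (B w)) : w = x := by
  rcases h.two w (hK.sub hw) v hK.vmem x (hK.sub hK.xmem) E₀ hd hK.dv hK.dx with h1 | h1 | h1
  · exact absurd (h1 ▸ hw) hK.vnot
  · exact h1
  · exact absurd (h1.symm ▸ hK.xmem) hK.vnot

open Classical in
/-- the balance of a subset of a side with respect to a functional -/
theorem balance (h : CurveFacts V A B δ) {K : Finset Pt} {v x : Pt} {E₀ : Cell}
    (hK : IsSide V A B K v x E₀) {S : Finset Pt} (hS : S ⊆ K) {j k : Fin 4} (hjk : j ≠ k) :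
    0 = ∑ p ∈ (remS A B S).filter (fun p => ∃ u ∈ K, u ∉ S ∧ p.2 ∈ darts (A u) (B u)),
        fz (cvec j k) (δ p.1 p.2)
      + ((nray V A B δ S k : ℤ) - nray V A B δ S j)
      + (if x ∈ S then fz (cvec j k) (δ x E₀) else 0) := by
  have hSV : S ⊆ V := hS.trans hK.sub
  have h0 : ∑ w ∈ S, ∑ E ∈ darts (A w) (B w), fz (cvec j k) (δ w E) = 0 := by
    apply Finset.sum_eq_zero
    intro w hw
    rw [← fz_sum, h.bal w (hSV hw), fz_zero]
  rw [sum_cancel h hSV (fun w E => fz (cvec j k) (δ w E)) (by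
    intro v hv w hw hvw E h1 h2
    rw [h.opp v hv w hw hvw E h1 h2, fz_neg])] at h0
  refine h0.symm.trans ?_
  -- pointwise decomposition
  have hpt : ∀ p ∈ remS A B S, fz (cvec j k) (δ p.1 p.2) =
      (if ∃ u ∈ K, u ∉ S ∧ p.2 ∈ darts (A u) (B u) then fz (cvec j k) (δ p.1 p.2) else 0)
      + ((if p ∈ raySet V A B δ S k then 1 else 0) - (if p ∈ raySet V A B δ S j then 1 else 0))
      + (if p = ⟨x, E₀⟩ then fz (cvec j k) (δ x E₀) else 0) := by
    intro p hp
    obtain ⟨w, E⟩ := p
    unfold remS at hp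
    rw [Finset.mem_filter, Finset.mem_sigma] at hp
    obtain ⟨⟨hwS, hE⟩, hno⟩ := hp
    simp only at hwS hE hno ⊢
    have hwV := hSV hwS
    by_cases hc : ∃ u ∈ K, u ∉ S ∧ E ∈ darts (A u) (B u)
    · obtain ⟨u, huK, huS, hEu⟩ := hc
      have huw : u ≠ w := fun e => huS (e ▸ hwS)
      rw [if_pos ⟨u, huK, huS, hEu⟩]
      have hr : ∀ l, (⟨w, E⟩ : (_ : Pt) × Cell) ∉ raySet V A B δ S l := by
        intro l hl
        unfold raySet at hl
        rw [Finset.mem_filter] at hl
        exact hl.2.1 u (hK.sub huK) huw hEu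
      rw [if_neg (hr k), if_neg (hr j), if_neg]
      · ring
      · intro he
        have h1 : w = x := congrArg Sigma.fst he
        have h2 : E = E₀ := by
          have := (Sigma.mk.injEq _ _ _ _).mp he
          exact eq_of_heq this.2
        apply huw
        rw [h1]
        exact hK.uniq h huK (h2 ▸ hEu)
    · rw [if_neg hc]
      by_cases hv : ∃ u ∈ V, u ≠ w ∧ E ∈ darts (A u) (B u)
      · obtain ⟨u, huV, huw, hEu⟩ := hv
        have huK : u ∉ K := by
          intro huK
          by_cases huS : u ∈ S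
          · exact hno u huS huw hEu
          · exact hc ⟨u, huK, huS, hEu⟩
        have hE0 : E = E₀ := hK.out w (hS hwS) u huV huK E hE hEu
        subst hE0
        have hwx : w = x := hK.uniq h (hS hwS) hE
        subst hwx
        have hr : ∀ l, (⟨w, E⟩ : (_ : Pt) × Cell) ∉ raySet V A B δ S l := by
          intro l hl
          unfold raySet at hl
          rw [Finset.mem_filter] at hl
          exact hl.2.1 u huV huw hEu
        rw [if_neg (hr k), if_neg (hr j), if_pos rfl]
        ring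
      · push Not at hv
        obtain ⟨l, hl, _, _⟩ := h.ray w hwV E hE (fun u hu huw => hv u hu huw)
        have hr : ∀ m, (⟨w, E⟩ : (_ : Pt) × Cell) ∈ raySet V A B δ S m ↔ l = m := by
          intro m
          unfold raySet
          rw [Finset.mem_filter, Finset.mem_sigma]
          constructor
          · intro hm
            apply rdir_inj
            rw [← hl]
            exact hm.2.2
          · rintro rfl
            exact ⟨⟨hwS, hE⟩, fun u hu huw => hv u hu huw, hl⟩
        have hne : (⟨w, E⟩ : (_ : Pt) × Cell) ≠ ⟨x, E₀⟩ := by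
          intro he
          have h1 : w = x := congrArg Sigma.fst he
          have h2 : E = E₀ := by
            have := (Sigma.mk.injEq _ _ _ _).mp he
            exact eq_of_heq this.2
          subst h1
          subst h2
          refine hv v hK.vmem ?_ hK.dv
          intro e
          exact hK.vnot (e ▸ hK.xmem)
        rw [if_neg hne, hl, fz_cvec_rdir j k l hjk]
        simp only [hr]
        ring
  rw [Finset.sum_congr rfl hpt, Finset.sum_add_distrib, Finset.sum_add_distrib,
    Finset.sum_sub_distrib, Finset.sum_filter]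
  have hray : ∀ l, (nray V A B δ S l : ℤ)
      = ∑ p ∈ remS A B S, if p ∈ raySet V A B δ S l then 1 else 0 := by
    intro l
    have hsub : raySet V A B δ S l ⊆ remS A B S := by
      intro p hp
      unfold raySet at hp
      rw [Finset.mem_filter] at hp
      unfold remS
      rw [Finset.mem_filter]
      exact ⟨hp.1, fun u hu hup => hp.2.1 u (hSV hu) hup⟩
    rw [Finset.sum_ite_mem, Finset.inter_eq_right.2 hsub, Finset.sum_const]
    simp [nray]
  rw [hray k, hray j, Finset.sum_ite_eq' (remS A B S) (⟨x, E₀⟩ : (_ : Pt) × Cell)]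
  congr 1
  by_cases hx : x ∈ S
  · have hmem : (⟨x, E₀⟩ : (_ : Pt) × Cell) ∈ remS A B S := by
      unfold remS
      rw [Finset.mem_filter, Finset.mem_sigma]
      refine ⟨⟨hx, hK.dx⟩, fun u hu hux hE => hux ?_⟩
      exact hK.uniq h (hS hu) hE
    rw [if_pos hx, if_pos hmem]
  · have hmem : (⟨x, E₀⟩ : (_ : Pt) × Cell) ∉ remS A B S := by
      unfold remS
      rw [Finset.mem_filter, Finset.mem_sigma]
      exact fun hm => hx hm.1.1
    rw [if_neg hx, if_neg hmem]

open Classical in
theorem nray_mono {S K : Finset Pt} (hS : S ⊆ K) (k : Fin 4) :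
    nray V A B δ S k ≤ nray V A B δ K k := by
  unfold nray
  apply Finset.card_le_card
  intro p hp
  unfold raySet at hp ⊢
  rw [Finset.mem_filter, Finset.mem_sigma] at hp ⊢
  exact ⟨⟨hS hp.1.1, hp.1.2⟩, hp.2⟩

open Classical in
/-- at most one edge crosses a level set -/
theorem cut_unique (h : CurveFacts V A B δ) {K : Finset Pt} {v x : Pt} {E₀ : Cell}
    (hK : IsSide V A B K v x E₀) {j k : Fin 4} (hjk : j ≠ k) (hj : nray V A B δ K j ≤ 1)
    (hk : nray V A B δ K k ≤ 1) (t : ℝ) {w w' u u' : Pt} {E E' : Cell} (hw : w ∈ K) (hw' : w' ∈ K)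
    (hu : u ∈ K) (hu' : u' ∈ K) (tw : t < fr (cvec j k) w) (tw' : t < fr (cvec j k) w')
    (tu : fr (cvec j k) u ≤ t) (tu' : fr (cvec j k) u' ≤ t) (hwE : E ∈ darts (A w) (B w))
    (huE : E ∈ darts (A u) (B u)) (hwE' : E' ∈ darts (A w') (B w'))
    (huE' : E' ∈ darts (A u') (B u')) : E = E' := by
  by_contra hne
  let S : Finset Pt := K.filter fun w => t < fr (cvec j k) w
  have hS : S ⊆ K := Finset.filter_subset _ _
  have memS : ∀ {w}, w ∈ S ↔ w ∈ K ∧ t < fr (cvec j k) w := fun {w} => Finset.mem_filter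
  have hb := balance h hK hS hjk
  have hbK := balance h hK (Finset.Subset.refl K) hjk
  have hKe : (remS A B K).filter (fun p => ∃ u ∈ K, u ∉ K ∧ p.2 ∈ darts (A u) (B u)) = ∅ := by
    rw [Finset.filter_eq_empty_iff]
    rintro p _ ⟨u, h1, h2, _⟩
    exact h2 h1
  rw [hKe, Finset.sum_empty, if_pos hK.xmem] at hbK
  -- each crossing pair contributes at most -1
  have hle : ∀ p ∈ (remS A B S).filter (fun p => ∃ u ∈ K, u ∉ S ∧ p.2 ∈ darts (A u) (B u)),
      fz (cvec j k) (δ p.1 p.2) ≤ -1 := by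
    intro p hp
    rw [Finset.mem_filter] at hp
    obtain ⟨hp1, z, hzK, hzS, hz⟩ := hp
    unfold remS at hp1
    rw [Finset.mem_filter, Finset.mem_sigma] at hp1
    obtain ⟨⟨hpS, hpE⟩, _⟩ := hp1
    have hpz : p.1 ≠ z := fun e => hzS (e ▸ hpS)
    obtain ⟨s, hs, hs2⟩ := h.pos p.1 (hK.sub (hS hpS)) z (hK.sub hzK) hpz p.2 hpE hz
    have h1 := fr_move (cvec j k) hs2
    have h2 : t < fr (cvec j k) p.1 := (memS.1 hpS).2
    have h3 : fr (cvec j k) z ≤ t := by
      by_contra hcon
      push Not at hcon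
      exact hzS (memS.2 ⟨hzK, hcon⟩)
    have h4 : s * (fz (cvec j k) (δ p.1 p.2) : ℝ) < 0 := by linarith
    have h5 : (fz (cvec j k) (δ p.1 p.2) : ℝ) < 0 := by
      by_contra hcon
      push Not at hcon
      have := mul_nonneg hs.le hcon
      linarith
    have h6 : fz (cvec j k) (δ p.1 p.2) < 0 := by exact_mod_cast h5
    omega
  -- there are at least two of them
  have hmem : ∀ {w u : Pt} {E : Cell}, w ∈ K → u ∈ K → t < fr (cvec j k) w →
      fr (cvec j k) u ≤ t → E ∈ darts (A w) (B w) → E ∈ darts (A u) (B u) →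
      (⟨w, E⟩ : (_ : Pt) × Cell) ∈
        (remS A B S).filter (fun p => ∃ u ∈ K, u ∉ S ∧ p.2 ∈ darts (A u) (B u)) := by
    intro w u E hw hu tw tu hwE huE
    have huS : u ∉ S := fun e => absurd (memS.1 e).2 (not_lt.2 tu)
    rw [Finset.mem_filter]
    refine ⟨?_, u, hu, huS, huE⟩
    unfold remS
    rw [Finset.mem_filter, Finset.mem_sigma]
    refine ⟨⟨memS.2 ⟨hw, tw⟩, hwE⟩, ?_⟩
    intro z hz hzw hzE
    rcases h.two w (hK.sub hw) u (hK.sub hu) z (hK.sub (hS hz)) E hwE huE hzE with h1 | h1 | h1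
    · exact huS (h1 ▸ memS.2 ⟨hw, tw⟩)
    · exact hzw h1.symm
    · exact huS (h1 ▸ hz)
  have h1 := hmem hw hu tw tu hwE huE
  have h2 := hmem hw' hu' tw' tu' hwE' huE'
  have hne2 : (⟨w, E⟩ : (_ : Pt) × Cell) ≠ ⟨w', E'⟩ := by
    intro he
    apply hne
    have := (Sigma.mk.injEq _ _ _ _).mp he
    exact eq_of_heq this.2
  have hsum : ∑ p ∈ (remS A B S).filter (fun p => ∃ u ∈ K, u ∉ S ∧ p.2 ∈ darts (A u) (B u)),
      fz (cvec j k) (δ p.1 p.2) ≤ -2 := by
    have hsub : ({⟨w, E⟩, ⟨w', E'⟩} : Finset ((_ : Pt) × Cell)) ⊆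
        (remS A B S).filter (fun p => ∃ u ∈ K, u ∉ S ∧ p.2 ∈ darts (A u) (B u)) := by
      intro p hp
      rw [Finset.mem_insert, Finset.mem_singleton] at hp
      rcases hp with rfl | rfl
      · exact h1
      · exact h2
    have hc : 2 ≤ ((remS A B S).filter
        (fun p => ∃ u ∈ K, u ∉ S ∧ p.2 ∈ darts (A u) (B u))).card := by
      rw [← Finset.card_pair hne2]
      exact Finset.card_le_card hsub
    have h3 := Finset.sum_le_card_nsmul _ _ (-1 : ℤ) hle
    rw [nsmul_eq_mul] at h3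
    have h4 : (2 : ℤ) ≤ (((remS A B S).filter
        (fun p => ∃ u ∈ K, u ∉ S ∧ p.2 ∈ darts (A u) (B u))).card : ℤ) := by exact_mod_cast hc
    linarith
  have m1 := nray_mono (V := V) (A := A) (B := B) (δ := δ) hS k
  have m2 := nray_mono (V := V) (A := A) (B := B) (δ := δ) hS j
  split_ifs at hb with hx
  · omega
  · omega

open Classical in
theorem mem_innerSet {K : Finset Pt} {E : Cell} : E ∈ innerSet A B K ↔
    ∃ v ∈ K, ∃ w ∈ K, v ≠ w ∧ E ∈ darts (A v) (B v) ∧ E ∈ darts (A w) (B w) := by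
  unfold innerSet
  rw [Finset.mem_filter]
  constructor
  · exact fun h => h.2
  · intro h
    obtain ⟨v, hv, w, hw, hvw, h1, h2⟩ := h
    exact ⟨Finset.mem_biUnion.2 ⟨v, hv, h1⟩, v, hv, w, hw, hvw, h1, h2⟩

open Classical in
/-- forest bound -/
theorem forest (h : CurveFacts V A B δ) {K : Finset Pt} {v x : Pt} {E₀ : Cell}
    (hK : IsSide V A B K v x E₀) (k₀ : Fin 4) (hk₀ : ∀ k, k ≠ k₀ → nray V A B δ K k ≤ 1) :
    ∀ (n : ℕ) (K' : Finset Pt), K'.card = n → K' ⊆ K → K'.Nonempty →
      (innerSet A B K').card < K'.card := by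
  intro n
  induction n using Nat.strong_induction_on with
  | _ n ih =>
  intro K' hn hsub hne
  have hV := hsub.trans hK.sub
  by_cases hcase : ∃ j k : Fin 4, j ≠ k₀ ∧ k ≠ k₀ ∧ j ≠ k ∧ ∃ u ∈ K', ∃ w ∈ K', ∃ E,
      u ≠ w ∧ E ∈ darts (A u) (B u) ∧ E ∈ darts (A w) (B w) ∧ 0 < fz (cvec j k) (δ u E)
  · obtain ⟨j, k, hj, hk, hjk, u, hu, w, hw, E, huw, huE, hwE, hpos⟩ := hcase
    obtain ⟨s, hs, hs2⟩ := h.pos u (hV hu) w (hV hw) huw E huE hwE
    have hmove := fr_move (cvec j k) hs2
    have hposR : (0 : ℝ) < (fz (cvec j k) (δ u E) : ℝ) := by exact_mod_cast hpos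
    have hlt : fr (cvec j k) u < fr (cvec j k) w := by
      have := mul_pos hs hposR
      linarith
    set t := fr (cvec j k) u with ht
    let K1 : Finset Pt := K'.filter fun z => t < fr (cvec j k) z
    let K2 : Finset Pt := K'.filter fun z => ¬ t < fr (cvec j k) z
    have hw1 : w ∈ K1 := Finset.mem_filter.2 ⟨hw, hlt⟩
    have hu2 : u ∈ K2 := Finset.mem_filter.2 ⟨hu, lt_irrefl _⟩
    have hcard : K1.card + K2.card = K'.card :=
      Finset.card_filter_add_card_filter_not (s := K') (fun z => t < fr (cvec j k) z)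
    have hp1 : 0 < K1.card := Finset.card_pos.2 ⟨w, hw1⟩
    have hp2 : 0 < K2.card := Finset.card_pos.2 ⟨u, hu2⟩
    have i1 := ih K1.card (by omega) K1 rfl ((Finset.filter_subset _ _).trans hsub) ⟨w, hw1⟩
    have i2 := ih K2.card (by omega) K2 rfl ((Finset.filter_subset _ _).trans hsub) ⟨u, hu2⟩
    have hcover : innerSet A B K' ⊆ insert E (innerSet A B K1 ∪ innerSet A B K2) := by
      intro F hF
      obtain ⟨a, ha, b, hb, hab, haF, hbF⟩ := mem_innerSet.1 hF
      rw [Finset.mem_insert, Finset.mem_union]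
      by_cases ta : t < fr (cvec j k) a
      · by_cases tb : t < fr (cvec j k) b
        · exact Or.inr (Or.inl (mem_innerSet.2 ⟨a, Finset.mem_filter.2 ⟨ha, ta⟩, b,
            Finset.mem_filter.2 ⟨hb, tb⟩, hab, haF, hbF⟩))
        · left
          exact cut_unique h hK hjk (hk₀ j hj) (hk₀ k hk) t (hsub ha) (hsub hw) (hsub hb)
            (hsub hu) ta hlt (not_lt.1 tb) le_rfl haF hbF hwE huE
      · by_cases tb : t < fr (cvec j k) b
        · left
          exact cut_unique h hK hjk (hk₀ j hj) (hk₀ k hk) t (hsub hb) (hsub hw) (hsub ha)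
            (hsub hu) tb hlt (not_lt.1 ta) le_rfl hbF haF hwE huE
        · exact Or.inr (Or.inr (mem_innerSet.2 ⟨a, Finset.mem_filter.2 ⟨ha, ta⟩, b,
            Finset.mem_filter.2 ⟨hb, tb⟩, hab, haF, hbF⟩))
    have hc1 := Finset.card_le_card hcover
    have hc2 := Finset.card_insert_le E (innerSet A B K1 ∪ innerSet A B K2)
    have hc3 := Finset.card_union_le (innerSet A B K1) (innerSet A B K2)
    omega
  · -- all edges are parallel to `rdir k₀`
    have hz : ∀ u ∈ K', ∀ w ∈ K', ∀ E, u ≠ w → E ∈ darts (A u) (B u) → E ∈ darts (A w) (B w) →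
        ∃ a : ℤ, δ u E = a • rdir k₀ := by
      intro u hu w hw E huw huE hwE
      apply ker_cvec
      intro j k hj hk hjk
      have h1 : ¬ 0 < fz (cvec j k) (δ u E) := fun hp =>
        hcase ⟨j, k, hj, hk, hjk, u, hu, w, hw, E, huw, huE, hwE, hp⟩
      have h2 : ¬ 0 < fz (cvec j k) (δ w E) := fun hp =>
        hcase ⟨j, k, hj, hk, hjk, w, hw, u, hu, E, huw.symm, hwE, huE, hp⟩
      rw [h.opp u (hV hu) w (hV hw) huw E huE hwE, fz_neg] at h2
      omega
    have hdc := Finset.card_mul_le_card_mul (s := innerSet A B K') (t := K')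
      (fun (E : Cell) (w : Pt) => E ∈ darts (A w) (B w)) (m := 2) (n := 1)
      (by
        intro E hE
        obtain ⟨a, ha, b, hb, hab, haE, hbE⟩ := mem_innerSet.1 hE
        rw [← Finset.card_pair hab]
        apply Finset.card_le_card
        intro z hz
        rw [Finset.mem_insert, Finset.mem_singleton] at hz
        rw [Finset.mem_bipartiteAbove]
        rcases hz with rfl | rfl
        · exact ⟨ha, haE⟩
        · exact ⟨hb, hbE⟩)
      (by
        intro w hw
        rw [Finset.card_le_one]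
        intro E hE F hF
        rw [Finset.mem_bipartiteBelow] at hE hF
        by_contra hEF
        have other : ∀ G, G ∈ innerSet A B K' → G ∈ darts (A w) (B w) →
            ∃ a : ℤ, δ w G = a • rdir k₀ := by
          intro G hG hwG
          obtain ⟨a, ha, b, hb, hab, haG, hbG⟩ := mem_innerSet.1 hG
          by_cases haw : a = w
          · exact hz w hw b hb G (haw ▸ hab) hwG hbG
          · exact hz w hw a ha G (Ne.symm haw) hwG haG
        obtain ⟨a, ha⟩ := other E hE.1 hE.2
        obtain ⟨b, hb⟩ := other F hF.1 hF.2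
        have hi := h.indep w (hV hw) E hE.2 F hF.2 hEF b (-a) (by
          rw [ha, hb, smul_smul, smul_smul, ← add_smul]
          rw [show b * a + -a * b = 0 by ring, zero_smul])
        have ha0 : a = 0 := by omega
        have hi2 := h.indep w (hV hw) E hE.2 F hF.2 hEF 1 0 (by
          rw [ha, ha0, zero_smul, smul_zero, zero_smul, add_zero])
        omega)
    have hpos : 0 < K'.card := Finset.card_pos.2 hne
    omega

end

/-- A side that is not a forest has at least two rays in each of at least two directions. -/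
theorem count3 {V : Finset Pt} {A B : Pt → Finset Mon} {δ : Pt → Cell → (Fin 3 → ℤ)}
    (h : CurveFacts V A B δ) {K : Finset Pt} {v x : Pt} {E₀ : Cell} (hK : IsSide V A B K v x E₀)
    (hg : K.card ≤ (innerSet A B K).card) :
    ∃ k l : Fin 4, k ≠ l ∧ 2 ≤ nray V A B δ K k ∧ 2 ≤ nray V A B δ K l := by
  by_contra hcon
  push Not at hcon
  have hk₀ : ∃ k₀, ∀ k, k ≠ k₀ → nray V A B δ K k ≤ 1 := by
    by_cases hex : ∃ k, 2 ≤ nray V A B δ K k
    · obtain ⟨k₀, h0⟩ := hex
      refine ⟨k₀, fun k hk => ?_⟩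
      have := hcon k₀ k (Ne.symm hk) h0
      omega
    · push Not at hex
      refine ⟨0, fun k _ => ?_⟩
      have := hex k
      omega
  obtain ⟨k₀, h0⟩ := hk₀
  have := forest h hK k₀ h0 K.card K rfl (Finset.Subset.refl K) ⟨x, hK.xmem⟩
  omega

end Pool.Agent.H47.Trop
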