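import Pool.Agent.H47.Trop.Graphs

set_option autoImplicit false

/-!
# Data: the coefficients of the 14 examples

The monomials are numbered `0..9` (those of degree at most 2, for `p`) and `10..29` (those of degree
at most 3, for `q`), in the order of the lists `monP`, `monQ`.
-/

namespace Pool.Agent.H47.Trop

/-- Exponents of the monomials of `p`. -/
def monP : List (ℕ × ℕ × ℕ) :=
  [(0, 0, 0), (0, 0, 1), (0, 0, 2), (0, 1, 0), (0, 1, 1), (0, 2, 0), (1, 0, 0), (1, 0, 1), (1, 1, 0), (2, 0, 0)]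

/-- Exponents of the monomials of `q`. -/
def monQ : List (ℕ × ℕ × ℕ) :=
  [(0, 0, 0), (0, 0, 1), (0, 0, 2), (0, 0, 3), (0, 1, 0), (0, 1, 1), (0, 1, 2), (0, 2, 0),
   (0, 2, 1), (0, 3, 0), (1, 0, 0), (1, 0, 1), (1, 0, 2), (1, 1, 0), (1, 1, 1), (1, 2, 0),
   (2, 0, 0), (2, 0, 1), (2, 1, 0), (3, 0, 0)]

/-- One example: `coeffs` are the 30 coefficients (10 of `p`, 20 of `q`); `mixed` lists the 30
vertices of the curve with the numbers of the five dominating monomials, `other` the 35 other points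
with five dominating monomials; `edges` lists the 33 bounded edges of the curve as pairs
of positions in `mixed`, and `corner` the positions of the vertices `0..5` of the skeleton. -/
structure Ex where
  coeffs : List ℤ
  mixed : List ((ℤ × ℤ × ℤ) × List ℕ)
  other : List ((ℤ × ℤ × ℤ) × List ℕ)
  edges : List (ℕ × ℕ)
  corner : List ℕ

def ex0 : Ex where
  coeffs := [(-1), 3, (-2), 0, 3, (-1), 0, 0, 3, (-1), (-2), 3, 1, (-5), 2, 2, (-3), 0, (-3), (-6), 0, 6, (-1), 6, 3, 2, 0, 2, 0, (-3)]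
  mixed := [(((-4), (-3), (-4)), [0, 1, 11, 14, 23]), (((-4), (-1), (-4)), [0, 1, 3, 14, 23]),
    (((-4), 0, (-3)), [1, 3, 4, 14, 23]), (((-4), 0, (-1)), [1, 4, 11, 14, 23]),
    (((-4), 1, (-3)), [3, 4, 5, 14, 23]), (((-4), 2, (-2)), [4, 5, 14, 17, 23]),
    (((-3), (-4), (-4)), [0, 1, 11, 21, 23]), (((-3), 0, 0), [1, 4, 11, 21, 23]),
    (((-3), 0, 2), [1, 4, 11, 12, 21]), (((-2), 4, 0), [4, 5, 17, 23, 25]),
    (((-2), 6, 2), [4, 5, 17, 19, 25]), (((-1), (-6), (-6)), [0, 6, 20, 21, 23]),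
    (((-1), (-4), (-4)), [0, 1, 6, 21, 23]), ((0, (-3), (-3)), [1, 6, 8, 21, 23]),
    ((0, 0, 0), [1, 4, 8, 21, 23]), ((0, 0, 5), [1, 2, 4, 12, 21]),
    ((0, 4, 0), [4, 5, 8, 23, 25]), ((1, (-5), (-5)), [6, 9, 21, 23, 26]),
    ((1, (-3), (-3)), [6, 8, 9, 21, 23]), ((1, 1, 6), [2, 4, 12, 13, 21]),
    ((3, 2, 7), [2, 4, 13, 21, 22]), ((3, 3, 3), [4, 8, 21, 23, 24]),
    ((3, 4, 3), [4, 8, 23, 24, 25]), ((4, 0, 0), [8, 9, 21, 23, 27]),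
    ((4, 0, 3), [7, 8, 9, 21, 27]), ((4, 1, 4), [4, 7, 8, 21, 27]),
    ((4, 1, 6), [2, 4, 7, 21, 27]), ((4, 2, 7), [2, 4, 21, 22, 27]),
    ((4, 3, 4), [4, 8, 21, 24, 27]), ((5, 1, 0), [8, 9, 23, 27, 29])]
  other := [(((-4), (-4), (-5)), [0, 10, 11, 14, 23]), (((-4), 1, 0), [4, 11, 14, 15, 23]),
    (((-4), 2, 0), [4, 14, 15, 17, 23]), (((-3), (-5), (-5)), [0, 10, 11, 21, 23]),
    (((-3), (-1), (-4)), [0, 1, 3, 8, 23]), (((-3), 0, (-3)), [1, 3, 4, 8, 23]),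
    (((-3), 1, (-3)), [3, 4, 5, 8, 23]), (((-3), 1, 1), [4, 11, 15, 21, 23]),
    (((-3), 1, 2), [4, 11, 12, 15, 21]), (((-2), (-6), (-6)), [0, 10, 20, 21, 23]),
    (((-2), 4, 2), [4, 15, 17, 23, 25]), (((-2), 5, 3), [4, 15, 17, 18, 25]),
    (((-2), 6, 3), [4, 17, 18, 19, 25]), (((-1), (-3), (-4)), [0, 1, 6, 8, 23]),
    (((-1), 3, 3), [4, 15, 21, 23, 24]), (((-1), 3, 4), [4, 12, 15, 21, 24]),
    (((-1), 4, 3), [4, 15, 23, 24, 25]), (((-1), 4, 5), [4, 12, 15, 16, 24]),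
    (((-1), 5, 4), [4, 15, 18, 24, 25]), (((-1), 5, 5), [4, 15, 16, 18, 24]),
    ((0, (-6), (-6)), [6, 20, 21, 23, 26]), ((0, 4, 6), [4, 12, 13, 16, 24]),
    ((1, (-3), (-2)), [1, 6, 8, 9, 21]), ((1, 3, 6), [4, 12, 13, 21, 24]),
    ((3, (-3), (-3)), [9, 21, 23, 26, 29]), ((3, (-1), 2), [1, 7, 8, 9, 21]),
    ((3, 0, 3), [1, 4, 7, 8, 21]), ((3, 0, 5), [1, 2, 4, 7, 21]),
    ((3, 3, 7), [4, 13, 21, 22, 24]), ((4, (-1), (-1)), [9, 21, 23, 27, 29]),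
    ((4, 3, 3), [8, 21, 23, 24, 27]), ((4, 3, 7), [4, 21, 22, 24, 27]),
    ((5, 4, 3), [8, 23, 24, 25, 27]), ((6, 3, 1), [8, 23, 27, 28, 29]),
    ((6, 4, 2), [8, 23, 25, 27, 28])]
  edges := [(0, 1), (0, 6), (1, 2), (2, 3), (2, 4), (3, 7), (4, 5), (5, 9), (6, 12),
    (7, 8), (7, 14), (8, 15), (9, 10), (9, 16), (11, 12), (12, 13), (13, 14), (13, 18),
    (14, 21), (15, 19), (16, 22), (17, 18), (18, 23), (19, 20), (20, 27), (21, 22), (21, 28),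
    (23, 24), (23, 29), (24, 25), (25, 26), (25, 28), (26, 27)]
  corner := [2, 7, 13, 21, 14, 25]

def ex1 : Ex where
  coeffs := [(-4), 2, 1, (-2), 0, (-3), 0, 3, 1, (-1), (-3), 0, 1, (-1), 0, 4, 0, (-2), 0, (-5), 0, 2, (-1), 7, 1, 0, 0, (-2), (-1), (-5)]
  mixed := [(((-7), (-3), (-6)), [0, 1, 10, 14, 23]), (((-7), (-2), (-6)), [0, 1, 3, 14, 23]),
    (((-7), 0, (-4)), [1, 3, 14, 15, 23]), (((-7), 1, (-4)), [3, 5, 14, 15, 23]),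
    (((-6), 1, (-3)), [1, 3, 5, 15, 23]), (((-4), (-6), (-6)), [0, 1, 6, 10, 23]),
    (((-4), 2, (-1)), [1, 4, 5, 15, 23]), (((-3), (-7), (-5)), [1, 6, 10, 20, 23]),
    (((-2), (-2), 1), [1, 2, 12, 15, 23]), (((-2), 2, 1), [1, 2, 4, 15, 23]),
    (((-2), 4, 1), [4, 5, 15, 18, 23]), (((-1), (-7), (-3)), [1, 6, 7, 20, 23]),
    (((-1), (-7), (-2)), [1, 7, 20, 21, 23]), (((-1), (-5), 0), [1, 7, 12, 21, 23]),
    (((-1), (-3), 1), [1, 2, 7, 12, 23]), ((0, (-7), (-3)), [6, 7, 20, 23, 26]),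
    ((0, (-2), 2), [2, 7, 12, 13, 23]), ((0, 4, 3), [2, 4, 15, 18, 23]),
    ((1, (-6), (-3)), [6, 7, 9, 23, 26]), ((2, 5, 4), [2, 4, 7, 18, 23]),
    ((2, 6, 3), [4, 5, 8, 18, 23]), ((3, 4, 5), [2, 7, 13, 16, 23]),
    ((3, 5, 5), [2, 7, 16, 18, 23]), ((3, 6, 4), [4, 7, 8, 18, 23]),
    ((3, 7, 3), [5, 8, 18, 23, 25]), ((5, (-2), 1), [7, 9, 23, 26, 29]),
    ((5, 7, 5), [7, 8, 18, 23, 25]), ((8, 4, 4), [7, 9, 23, 28, 29]),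
    ((8, 6, 4), [7, 8, 9, 23, 28]), ((8, 7, 5), [7, 8, 23, 25, 28])]
  other := [(((-7), (-3), (-4)), [1, 10, 14, 15, 23]), (((-7), 2, (-4)), [5, 14, 15, 17, 23]),
    (((-6), (-4), (-3)), [1, 10, 11, 15, 23]), (((-6), 3, (-3)), [5, 15, 17, 19, 23]),
    (((-4), (-4), (-1)), [1, 11, 12, 15, 23]), (((-4), (-2), (-6)), [0, 1, 3, 6, 23]),
    (((-4), 4, (-1)), [5, 15, 18, 19, 23]), (((-3), (-7), (-3)), [1, 10, 11, 20, 23]),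
    (((-3), (-1), (-5)), [1, 3, 6, 8, 23]), (((-3), 1, (-3)), [1, 3, 5, 8, 23]),
    (((-2), (-7), (-2)), [1, 11, 20, 21, 23]), (((-2), (-6), (-1)), [1, 11, 12, 21, 23]),
    (((-2), 2, (-1)), [1, 4, 5, 8, 23]), (((-1), (-1), (-3)), [1, 6, 7, 8, 23]),
    (((-1), (-1), 2), [2, 12, 13, 15, 23]), (((-1), 2, 0), [1, 4, 7, 8, 23]),
    (((-1), 2, 1), [1, 2, 4, 7, 23]), ((0, (-7), (-2)), [7, 20, 21, 23, 26]),
    ((1, (-3), 2), [7, 12, 13, 21, 23]), ((1, (-1), (-3)), [6, 7, 8, 9, 23]),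
    ((1, 3, 4), [2, 13, 15, 16, 23]), ((1, 4, 4), [2, 15, 16, 18, 23]),
    ((2, 7, 2), [5, 18, 19, 23, 25]), ((3, (-2), 3), [7, 13, 21, 22, 23]),
    ((4, (-3), 2), [7, 21, 23, 26, 27]), ((4, (-2), 3), [7, 21, 22, 23, 27]),
    ((5, (-2), 2), [7, 23, 26, 27, 29]), ((5, 5, 6), [7, 13, 16, 23, 24]),
    ((5, 6, 6), [7, 16, 18, 23, 24]), ((6, 4, 6), [7, 13, 22, 23, 24]),
    ((6, 7, 6), [7, 18, 23, 24, 25]), ((7, 4, 6), [7, 22, 23, 24, 27]),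
    ((8, 4, 5), [7, 23, 27, 28, 29]), ((8, 5, 6), [7, 23, 24, 27, 28]),
    ((8, 7, 6), [7, 23, 24, 25, 28])]
  edges := [(0, 1), (0, 5), (1, 2), (2, 4), (3, 4), (4, 6), (5, 7), (6, 9), (6, 10),
    (7, 11), (8, 9), (8, 14), (9, 17), (10, 20), (11, 12), (11, 15), (12, 13), (13, 14),
    (14, 16), (15, 18), (16, 21), (17, 19), (18, 25), (19, 22), (19, 23), (20, 23), (20, 24),
    (21, 22), (23, 26), (25, 27), (26, 29), (27, 28), (28, 29)]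
  corner := [6, 11, 23, 9, 14, 19]

def ex2 : Ex where
  coeffs := [(-4), 2, 0, (-1), 8, 0, (-2), 5, 0, (-2), (-4), 3, 2, (-5), 0, 2, 0, 0, (-1), (-6), 1, 5, (-1), 8, 0, (-3), 0, 0, (-1), (-2)]
  mixed := [(((-8), (-4), (-8)), [0, 4, 10, 14, 23]), (((-8), (-3), (-9)), [0, 3, 4, 14, 23]),
    (((-8), (-1), (-9)), [3, 4, 5, 14, 23]), (((-8), 0, (-8)), [4, 5, 14, 17, 23]),
    (((-7), (-5), (-7)), [0, 4, 10, 11, 23]), (((-5), (-6), (-6)), [0, 1, 4, 11, 23]),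
    (((-4), (-7), (-6)), [0, 1, 11, 20, 23]), (((-3), (-7), (-6)), [0, 1, 7, 20, 23]),
    (((-3), (-7), (-5)), [1, 7, 11, 20, 23]), (((-3), (-6), (-4)), [1, 4, 7, 11, 23]),
    (((-3), (-6), 1), [1, 4, 7, 11, 12]), (((-2), (-7), (-7)), [0, 6, 7, 20, 23]),
    (((-2), (-5), (-2)), [4, 7, 11, 21, 23]), (((-2), (-5), 1), [4, 7, 11, 12, 21]),
    (((-2), 6, (-2)), [4, 5, 17, 19, 23]), ((0, (-7), (-7)), [6, 7, 9, 20, 23]),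
    ((1, (-7), (-6)), [7, 9, 20, 23, 26]), ((2, (-6), (-5)), [7, 9, 23, 26, 29]),
    ((2, (-1), 7), [2, 4, 7, 12, 13]), ((3, 0, 6), [4, 7, 12, 21, 22]),
    ((3, 0, 7), [4, 7, 12, 13, 22]), ((5, 2, 5), [4, 7, 21, 23, 27]),
    ((5, 2, 6), [4, 7, 21, 22, 27]), ((7, 4, 0), [4, 7, 9, 23, 29]),
    ((7, 4, 5), [4, 7, 23, 27, 29]), ((8, 6, 0), [4, 8, 9, 23, 29]),
    ((8, 11, 3), [4, 5, 19, 23, 25]), ((9, 8, 1), [4, 8, 23, 28, 29]),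
    ((9, 9, 1), [4, 5, 8, 23, 28]), ((9, 11, 3), [4, 5, 23, 25, 28])]
  other := [(((-8), (-4), (-7)), [4, 10, 11, 14, 23]), (((-8), 0, (-3)), [4, 11, 14, 17, 23]),
    (((-7), 1, (-1)), [4, 11, 15, 17, 23]), (((-5), (-7), (-7)), [0, 10, 11, 20, 23]),
    (((-5), 1, 1), [4, 11, 12, 15, 23]), (((-5), 3, 1), [4, 15, 17, 18, 23]),
    (((-4), 2, 2), [4, 12, 15, 16, 23]), (((-4), 3, 2), [4, 15, 16, 18, 23]),
    (((-3), (-6), (-6)), [0, 1, 4, 7, 23]), (((-3), (-6), 2), [1, 2, 4, 7, 12]),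
    (((-2), (-7), (-4)), [7, 11, 20, 21, 23]), (((-2), (-5), (-7)), [0, 4, 6, 7, 23]),
    (((-2), (-3), (-9)), [0, 3, 4, 6, 23]), (((-2), (-2), 1), [4, 11, 12, 21, 23]),
    (((-2), 6, 1), [4, 17, 18, 19, 23]), (((-1), (-2), (-9)), [3, 4, 6, 8, 23]),
    (((-1), (-1), (-9)), [3, 4, 5, 8, 23]), ((0, (-3), (-7)), [4, 6, 7, 9, 23]),
    ((0, (-2), (-8)), [4, 6, 8, 9, 23]), ((1, (-7), (-4)), [7, 20, 21, 23, 26]),
    ((2, (-6), (-3)), [7, 21, 23, 26, 29]), ((2, 2, 5), [4, 12, 16, 21, 23]),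
    ((3, 2, 6), [4, 12, 16, 21, 22]), ((3, 2, 7), [4, 12, 13, 16, 22]),
    ((4, 3, 6), [4, 16, 21, 22, 23]), ((5, 0, 3), [7, 21, 23, 27, 29]),
    ((5, 3, 6), [4, 21, 22, 23, 27]), ((6, 5, 7), [4, 16, 22, 23, 27]),
    ((8, 8, 8), [4, 16, 23, 24, 27]), ((8, 9, 8), [4, 16, 18, 23, 24]),
    ((8, 11, 6), [4, 18, 19, 23, 25]), ((9, 8, 7), [4, 23, 27, 28, 29]),
    ((9, 9, 8), [4, 23, 24, 27, 28]), ((9, 10, 8), [4, 18, 23, 24, 28]),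
    ((9, 11, 7), [4, 18, 23, 25, 28])]
  edges := [(0, 1), (0, 4), (1, 2), (2, 3), (3, 14), (4, 5), (5, 6), (5, 9), (6, 7),
    (7, 8), (7, 11), (8, 9), (9, 12), (10, 13), (11, 15), (12, 13), (12, 21), (13, 19),
    (14, 26), (15, 16), (16, 17), (17, 23), (18, 20), (19, 20), (19, 22), (21, 22), (21, 24),
    (23, 24), (23, 25), (25, 27), (26, 29), (27, 28), (28, 29)]
  corner := [12, 21, 9, 23, 5, 7]

def ex3 : Ex where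
  coeffs := [(-1), 0, (-5), 2, 0, (-3), 0, 0, 6, (-1), 0, 6, 2, (-6), 2, 3, (-3), 0, (-1), (-6), 2, 3, (-3), 3, 6, 0, 0, (-3), 0, (-5)]
  mixed := [(((-4), (-3), (-6)), [0, 3, 8, 10, 11]), (((-4), (-2), (-6)), [3, 8, 10, 11, 14]),
    (((-4), 2, (-2)), [3, 8, 11, 14, 17]), (((-4), 3, 0), [3, 8, 11, 15, 17]),
    (((-4), 3, 2), [3, 4, 8, 11, 15]), (((-4), 4, 1), [3, 8, 15, 17, 18]),
    (((-4), 4, 2), [3, 4, 8, 15, 18]), (((-4), 5, 1), [3, 5, 8, 17, 18]),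
    (((-3), 3, 3), [4, 8, 11, 15, 24]), (((-3), 4, 3), [4, 8, 15, 18, 24]),
    (((-3), 6, 1), [5, 8, 17, 18, 19]), (((-2), (-5), (-6)), [0, 8, 10, 11, 20]),
    (((-2), 0, 4), [1, 4, 8, 11, 12]), (((-2), 2, 4), [4, 8, 11, 12, 24]),
    (((-1), (-6), (-5)), [0, 6, 8, 11, 20]), ((0, (-2), 4), [1, 7, 8, 11, 12]),
    ((1, (-6), (-3)), [6, 8, 9, 11, 20]), ((1, 2, 7), [2, 4, 8, 12, 24]),
    ((1, 3, 8), [2, 4, 12, 13, 24]), ((2, (-5), (-2)), [8, 9, 11, 20, 26]),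
    ((2, (-2), 4), [7, 8, 11, 12, 24]), ((2, 1, 7), [2, 7, 8, 12, 24]),
    ((3, (-4), 0), [8, 9, 11, 21, 26]), ((3, (-4), 2), [7, 8, 9, 11, 21]),
    ((3, (-3), 3), [7, 8, 11, 21, 24]), ((3, 1, 8), [2, 7, 12, 13, 24]),
    ((4, (-3), 1), [8, 9, 21, 24, 26]), ((4, (-3), 3), [7, 8, 9, 21, 24]),
    ((5, (-2), 1), [8, 9, 24, 26, 29]), ((6, (-3), 5), [7, 9, 21, 24, 27])]
  other := [(((-4), (-3), (-1)), [0, 1, 3, 8, 11]), (((-4), 0, 2), [1, 3, 4, 8, 11]),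
    (((-4), 5, 2), [3, 4, 5, 8, 18]), (((-3), 3, 0), [8, 11, 15, 17, 24]),
    (((-3), 3, 4), [4, 11, 12, 15, 24]), (((-3), 4, 1), [8, 15, 17, 18, 24]),
    (((-3), 4, 5), [4, 12, 15, 18, 24]), (((-2), (-2), (-6)), [8, 10, 11, 14, 20]),
    (((-2), 2, (-2)), [8, 11, 14, 17, 24]), (((-2), 5, 7), [4, 12, 16, 18, 24]),
    (((-1), (-6), (-1)), [0, 1, 6, 8, 11]), (((-1), (-1), (-5)), [8, 11, 14, 20, 23]),
    (((-1), 0, 5), [1, 2, 4, 8, 12]), (((-1), 1, (-3)), [8, 11, 14, 23, 24]),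
    (((-1), 2, (-3)), [8, 14, 17, 23, 24]), (((-1), 5, 8), [4, 12, 13, 16, 24]),
    (((-1), 6, 1), [8, 17, 18, 19, 24]), ((0, (-6), 0), [1, 6, 7, 8, 11]),
    ((0, (-1), 5), [1, 2, 7, 8, 12]), ((0, 3, (-3)), [8, 17, 23, 24, 25]),
    ((0, 6, 0), [8, 17, 19, 24, 25]), ((1, (-6), 0), [6, 7, 8, 9, 11]),
    ((1, (-1), (-3)), [8, 11, 20, 23, 24]), ((2, (-2), (-2)), [8, 11, 20, 24, 26]),
    ((2, (-1), (-3)), [8, 20, 23, 24, 26]), ((3, (-3), 0), [8, 11, 21, 24, 26]),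
    ((3, (-3), 4), [7, 11, 12, 21, 24]), ((3, 0, (-3)), [8, 23, 24, 26, 28]),
    ((3, 3, (-3)), [8, 23, 24, 25, 28]), ((5, (-3), 2), [9, 21, 24, 26, 29]),
    ((5, (-3), 6), [7, 12, 21, 22, 24]), ((5, (-1), 8), [7, 12, 13, 22, 24]),
    ((5, 0, (-1)), [8, 24, 26, 28, 29]), ((6, (-3), 4), [9, 21, 24, 27, 29]),
    ((6, (-3), 6), [7, 21, 22, 24, 27])]
  edges := [(0, 1), (0, 11), (1, 2), (2, 3), (3, 4), (3, 5), (4, 8), (5, 6), (5, 7),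
    (6, 9), (7, 10), (8, 9), (8, 13), (11, 14), (12, 13), (12, 15), (13, 17), (14, 16),
    (15, 20), (16, 19), (17, 18), (17, 21), (19, 22), (20, 21), (20, 24), (21, 25), (22, 23),
    (22, 26), (23, 24), (24, 27), (26, 27), (26, 28), (27, 29)]
  corner := [3, 8, 22, 13, 24, 20]

def ex4 : Ex where
  coeffs := [0, 1, (-1), 2, 4, (-1), 0, 6, 0, (-3), 0, 0, (-1), (-5), 0, 1, (-1), (-1), (-1), (-5), 4, 2, (-1), 2, 11, (-3), 0, 0, (-3), (-7)]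
  mixed := [(((-9), 0, (-2)), [3, 4, 10, 14, 24]), (((-9), 1, (-2)), [3, 4, 14, 17, 24]),
    (((-8), (-3), 0), [1, 4, 10, 11, 24]), (((-8), (-3), 1), [1, 4, 11, 12, 24]),
    (((-7), (-3), (-1)), [0, 1, 4, 10, 24]), (((-7), (-3), 2), [1, 2, 4, 12, 24]),
    (((-7), (-2), (-2)), [0, 3, 4, 10, 24]), (((-7), (-1), 4), [2, 4, 12, 13, 24]),
    (((-7), 3, (-2)), [3, 4, 5, 17, 24]), (((-7), 4, (-1)), [4, 5, 17, 19, 24]),
    (((-5), (-6), 0), [1, 7, 10, 11, 24]), (((-5), (-6), 1), [1, 7, 11, 12, 24]),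
    (((-5), (-5), (-1)), [0, 1, 7, 10, 24]), (((-5), (-5), 2), [1, 2, 7, 12, 24]),
    (((-4), (-5), (-2)), [0, 7, 10, 20, 24]), (((-4), (-2), (-5)), [0, 3, 10, 20, 24]),
    (((-3), (-5), 4), [2, 7, 12, 13, 24]), (((-1), (-2), (-5)), [0, 3, 7, 20, 24]),
    ((0, 3, (-9)), [3, 5, 17, 23, 24]), ((1, (-1), (-6)), [3, 6, 7, 20, 24]),
    ((2, 0, (-7)), [3, 6, 8, 20, 24]), ((2, 2, (-9)), [3, 8, 20, 23, 24]),
    ((2, 3, (-9)), [3, 5, 8, 23, 24]), ((3, (-1), (-6)), [6, 7, 9, 20, 24]),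
    ((3, 0, (-7)), [6, 8, 9, 20, 24]), ((4, (-2), (-5)), [7, 9, 20, 24, 26]),
    ((4, 1, (-8)), [8, 9, 20, 24, 26]), ((4, 5, (-9)), [5, 8, 23, 24, 25]),
    ((6, 3, (-8)), [8, 9, 24, 26, 28]), ((7, (-2), (-2)), [7, 9, 24, 26, 29])]
  other := [(((-10), (-1), 0), [4, 10, 11, 15, 24]), (((-10), (-1), 1), [4, 11, 12, 15, 24]),
    (((-10), 0, (-1)), [4, 10, 14, 15, 24]), (((-10), 0, 2), [4, 12, 15, 16, 24]),
    (((-10), 1, (-1)), [4, 14, 15, 17, 24]), (((-10), 2, 0), [4, 15, 17, 18, 24]),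
    (((-10), 2, 2), [4, 15, 16, 18, 24]), (((-8), 0, 4), [4, 12, 13, 16, 24]),
    (((-8), 4, 0), [4, 17, 18, 19, 24]), (((-5), (-3), (-1)), [0, 1, 4, 7, 24]),
    (((-5), (-3), 2), [1, 2, 4, 7, 24]), (((-4), (-7), 0), [7, 10, 11, 20, 24]),
    (((-4), (-2), (-2)), [0, 3, 4, 7, 24]), (((-4), 0, (-7)), [3, 10, 14, 20, 24]),
    (((-3), (-8), 1), [7, 11, 12, 20, 24]), (((-3), 1, (-8)), [3, 14, 17, 20, 24]),
    (((-1), (-9), 2), [7, 12, 20, 21, 24]), (((-1), 2, (-9)), [3, 17, 20, 23, 24]),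
    ((0, (-9), 3), [7, 12, 21, 22, 24]), ((0, (-8), 4), [7, 12, 13, 22, 24]),
    ((0, (-2), (-6)), [0, 3, 6, 7, 20]), ((1, 3, (-2)), [3, 4, 5, 7, 24]),
    ((1, 4, (-9)), [5, 17, 19, 23, 24]), ((2, (-9), 2), [7, 20, 21, 24, 27]),
    ((2, (-9), 3), [7, 21, 22, 24, 27]), ((2, 0, (-6)), [3, 6, 7, 8, 24]),
    ((2, 3, (-3)), [3, 5, 7, 8, 24]), ((3, 0, (-6)), [6, 7, 8, 9, 24]),
    ((3, 5, (-9)), [5, 19, 23, 24, 25]), ((4, (-7), 0), [7, 20, 24, 26, 27]),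
    ((4, 2, (-9)), [8, 20, 23, 24, 26]), ((5, 3, (-9)), [8, 23, 24, 26, 28]),
    ((5, 5, (-9)), [8, 23, 24, 25, 28]), ((7, (-4), 0), [7, 24, 26, 27, 29]),
    ((7, 3, (-7)), [9, 24, 26, 28, 29])]
  edges := [(0, 1), (0, 6), (1, 8), (2, 3), (2, 4), (3, 5), (4, 6), (4, 12), (5, 7),
    (5, 13), (6, 15), (8, 9), (8, 18), (10, 11), (10, 12), (11, 13), (12, 14), (13, 16),
    (14, 17), (15, 17), (17, 19), (18, 22), (19, 20), (19, 23), (20, 21), (20, 24), (21, 22),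
    (22, 27), (23, 24), (23, 25), (24, 26), (25, 29), (26, 28)]
  corner := [4, 12, 6, 17, 20, 19]

def ex5 : Ex where
  coeffs := [(-1), 10, (-3), 0, 0, 0, (-1), 5, 1, (-3), (-3), 0, (-2), (-11), 4, 5, (-5), 8, (-3), (-4), (-1), 11, 0, 5, 5, 0, (-2), 7, 0, (-5)]
  mixed := [(((-3), (-7), (-11)), [0, 1, 10, 14, 21]), (((-1), (-5), (-11)), [0, 1, 14, 21, 23]),
    (((-1), (-4), (-11)), [0, 1, 14, 17, 23]), ((0, (-6), (-12)), [0, 6, 20, 21, 23]),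
    ((0, (-5), (-11)), [0, 1, 6, 21, 23]), ((0, (-3), (-11)), [0, 1, 6, 17, 23]),
    ((1, (-2), (-10)), [1, 6, 8, 17, 23]), ((2, (-5), (-11)), [6, 9, 21, 23, 26]),
    ((2, (-3), (-9)), [1, 6, 9, 21, 23]), ((2, 7, 13), [1, 2, 13, 16, 22]),
    ((2, 10, 11), [1, 4, 17, 18, 24]), ((2, 10, 12), [1, 4, 16, 18, 24]),
    ((3, (-1), (-7)), [1, 8, 9, 21, 23]), ((3, 0, (-6)), [1, 8, 17, 21, 23]),
    ((3, 8, 13), [1, 2, 16, 22, 24]), ((3, 10, 10), [1, 4, 5, 17, 24]),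
    ((3, 10, 13), [1, 2, 4, 16, 24]), ((3, 11, 11), [4, 5, 17, 18, 24]),
    ((4, 0, (-6)), [8, 9, 21, 23, 27]), ((4, 0, (-5)), [1, 8, 9, 21, 27]),
    ((4, 2, (-3)), [1, 8, 17, 21, 27]), ((5, 1, (-6)), [8, 9, 23, 27, 28]),
    ((5, 5, 1), [1, 7, 8, 17, 27]), ((5, 7, 5), [1, 7, 17, 24, 27]),
    ((5, 7, 12), [1, 7, 22, 24, 27]), ((5, 8, 6), [1, 5, 7, 17, 24]),
    ((5, 8, 13), [1, 2, 7, 22, 24]), ((6, 7, 3), [5, 7, 8, 17, 27]),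
    ((6, 8, 5), [5, 7, 17, 24, 27]), ((8, 9, 3), [5, 8, 17, 25, 27])]
  other := [(((-11), (-7), (-3)), [1, 10, 11, 14, 21]), (((-11), (-5), (-1)), [1, 11, 14, 15, 21]),
    (((-11), (-5), 2), [1, 11, 12, 15, 21]), (((-10), (-4), (-1)), [1, 14, 15, 17, 21]),
    (((-4), 2, 9), [1, 12, 13, 15, 21]), (((-2), (-7), (-12)), [0, 10, 14, 20, 21]),
    (((-2), 4, 10), [1, 13, 15, 16, 21]), (((-1), (-6), (-12)), [0, 14, 20, 21, 23]),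
    (((-1), (-4), (-10)), [1, 14, 17, 21, 23]), (((-1), (-1), (-11)), [0, 1, 3, 8, 17]),
    (((-1), 0, (-10)), [1, 3, 5, 8, 17]), ((0, (-2), (-11)), [0, 1, 6, 8, 17]),
    ((0, 5, 11), [1, 13, 16, 21, 22]), ((0, 6, 9), [1, 15, 17, 21, 24]),
    ((0, 6, 10), [1, 15, 16, 21, 24]), ((0, 7, 10), [1, 15, 16, 17, 24]),
    ((1, (-6), (-12)), [6, 20, 21, 23, 26]), ((1, 6, 11), [1, 16, 21, 22, 24]),
    ((1, 9, 11), [1, 16, 17, 18, 24]), ((2, (-2), (-9)), [1, 6, 8, 9, 23]),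
    ((3, (-4), (-10)), [9, 21, 23, 26, 29]), ((4, (-2), (-8)), [9, 21, 23, 27, 29]),
    ((4, 1, (-5)), [8, 17, 21, 23, 27]), ((4, 6, 5), [1, 17, 21, 24, 27]),
    ((4, 6, 11), [1, 21, 22, 24, 27]), ((4, 12, 11), [5, 17, 18, 19, 24]),
    ((5, 0, (-7)), [9, 23, 27, 28, 29]), ((5, 1, (-3)), [1, 7, 8, 9, 27]),
    ((5, 2, (-5)), [8, 17, 23, 27, 28]), ((5, 6, 2), [1, 5, 7, 8, 17]),
    ((5, 10, 10), [1, 4, 5, 7, 24]), ((5, 10, 13), [1, 2, 4, 7, 24]),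
    ((8, 8, 1), [8, 17, 25, 27, 28]), ((8, 10, 5), [5, 17, 24, 25, 27]),
    ((8, 12, 7), [5, 17, 19, 24, 25])]
  edges := [(0, 1), (1, 2), (1, 4), (2, 5), (3, 4), (4, 8), (5, 6), (6, 13), (7, 8),
    (8, 12), (9, 14), (10, 11), (10, 15), (11, 16), (12, 13), (12, 18), (13, 20), (14, 16),
    (14, 26), (15, 17), (15, 25), (18, 19), (18, 21), (19, 20), (20, 22), (22, 23), (22, 27),
    (23, 24), (23, 25), (24, 26), (25, 28), (27, 28), (27, 29)]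
  corner := [12, 13, 20, 22, 23, 25]

def ex6 : Ex where
  coeffs := [(-1), 0, (-1), 2, 5, 0, 0, 0, 8, (-1), 0, 0, (-2), (-5), 0, 1, 0, (-1), (-1), (-4), 0, 5, 0, 1, 11, (-1), (-2), 0, 0, (-6)]
  mixed := [(((-8), 0, (-3)), [3, 4, 10, 14, 24]), (((-8), 1, (-3)), [3, 4, 14, 17, 24]),
    (((-7), (-4), 2), [2, 4, 11, 12, 24]), (((-7), (-3), 3), [2, 4, 12, 13, 24]),
    (((-7), 2, (-3)), [3, 4, 5, 17, 24]), (((-7), 3, (-2)), [4, 5, 17, 19, 24]),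
    (((-6), (-5), 0), [1, 4, 10, 11, 24]), (((-6), (-5), 1), [1, 2, 4, 11, 24]),
    (((-6), (-2), (-3)), [3, 4, 8, 10, 24]), (((-6), 0, (-5)), [3, 8, 10, 14, 24]),
    (((-6), 1, (-5)), [3, 8, 14, 17, 24]), (((-6), 2, (-4)), [3, 5, 8, 17, 24]),
    (((-5), (-6), 1), [1, 2, 11, 21, 24]), (((-5), (-5), (-1)), [0, 1, 4, 10, 24]),
    (((-5), (-4), (-2)), [0, 4, 8, 10, 24]), (((-5), 3, (-4)), [5, 8, 17, 19, 24]),
    (((-4), (-6), (-1)), [0, 1, 10, 21, 24]), (((-3), (-6), (-2)), [0, 8, 10, 21, 24]),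
    (((-3), (-6), (-1)), [0, 1, 8, 21, 24]), (((-1), (-8), (-4)), [0, 6, 8, 10, 21]),
    (((-1), (-6), 1), [1, 2, 8, 21, 24]), ((0, (-8), (-5)), [6, 8, 10, 20, 21]),
    ((1, (-8), (-5)), [6, 8, 9, 20, 21]), ((1, (-6), 2), [2, 7, 8, 21, 24]),
    ((2, (-7), (-5)), [8, 9, 20, 21, 26]), ((3, (-6), (-4)), [8, 9, 21, 24, 26]),
    ((3, (-6), 2), [7, 8, 9, 21, 24]), ((4, (-6), 5), [2, 7, 21, 22, 24]),
    ((4, (-5), (-4)), [8, 9, 24, 26, 29]), ((5, (-6), 4), [7, 9, 21, 24, 27])]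
  other := [(((-10), (-1), 0), [4, 10, 11, 15, 24]), (((-10), (-1), 1), [4, 11, 15, 16, 24]),
    (((-10), 0, (-1)), [4, 10, 14, 15, 24]), (((-10), 1, (-1)), [4, 14, 15, 17, 24]),
    (((-10), 2, 0), [4, 15, 17, 18, 24]), (((-10), 2, 1), [4, 15, 16, 18, 24]),
    (((-9), (-2), 2), [4, 11, 12, 16, 24]), (((-9), 3, 0), [4, 17, 18, 19, 24]),
    (((-8), (-2), 3), [4, 12, 13, 16, 24]), (((-6), (-3), (-3)), [0, 3, 4, 8, 10]),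
    (((-6), 2, (-3)), [3, 4, 5, 8, 24]), (((-5), (-6), 0), [1, 10, 11, 21, 24]),
    (((-5), (-6), 2), [2, 11, 12, 21, 24]), (((-4), (-6), 3), [2, 12, 13, 21, 24]),
    (((-4), (-5), (-1)), [0, 1, 4, 8, 24]), (((-2), (-5), 1), [1, 2, 4, 8, 24]),
    (((-1), (-8), (-1)), [0, 1, 6, 8, 21]), (((-1), 0, (-10)), [8, 10, 14, 23, 24]),
    (((-1), 1, (-10)), [8, 14, 17, 23, 24]), ((0, (-8), 0), [1, 6, 7, 8, 21]),
    ((0, (-7), 1), [1, 2, 7, 8, 21]), ((0, (-6), (-5)), [8, 10, 20, 21, 24]),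
    ((0, (-6), 5), [2, 13, 21, 22, 24]), ((0, (-1), (-10)), [8, 10, 20, 23, 24]),
    ((0, 2, (-10)), [8, 17, 23, 24, 25]), ((0, 3, (-9)), [8, 17, 19, 24, 25]),
    ((1, (-8), 0), [6, 7, 8, 9, 21]), ((1, (-1), (-10)), [8, 20, 23, 24, 28]),
    ((1, 2, (-10)), [8, 23, 24, 25, 28]), ((2, (-6), (-5)), [8, 20, 21, 24, 26]),
    ((2, (-2), (-9)), [8, 20, 24, 26, 28]), ((4, (-6), (-3)), [9, 21, 24, 26, 29]),
    ((4, (-2), (-7)), [8, 24, 26, 28, 29]), ((5, (-6), (-1)), [9, 21, 24, 27, 29]),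
    ((5, (-6), 5), [7, 21, 22, 24, 27])]
  edges := [(0, 1), (0, 8), (1, 4), (2, 3), (2, 7), (4, 5), (4, 11), (6, 7), (6, 13),
    (7, 12), (8, 9), (8, 14), (9, 10), (10, 11), (11, 15), (12, 20), (13, 14), (13, 16),
    (14, 17), (16, 18), (17, 18), (17, 19), (18, 20), (19, 21), (20, 23), (21, 22), (22, 24),
    (23, 26), (23, 27), (24, 25), (25, 26), (25, 28), (26, 29)]
  corner := [8, 14, 13, 17, 18, 20]

def ex7 : Ex where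
  coeffs := [(-3), 0, (-2), (-2), 0, (-3), (-2), 12, 0, (-3), 0, 0, (-4), (-9), 2, 1, (-5), 0, (-2), (-4), 0, 1, 0, 5, 12, 8, (-2), 0, 2, (-6)]
  mixed := [(((-12), (-2), (-3)), [0, 1, 7, 10, 14]), (((-12), (-2), 0), [1, 7, 10, 11, 14]),
    (((-12), (-1), 1), [1, 7, 11, 14, 15]), (((-12), (-1), 2), [1, 2, 7, 11, 15]),
    (((-12), 0, 1), [1, 4, 7, 14, 15]), (((-11), (-1), 3), [2, 7, 11, 15, 24]),
    (((-11), 1, 1), [4, 7, 14, 15, 24]), (((-11), 1, 3), [2, 4, 7, 15, 24]),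
    (((-11), 3, 5), [2, 4, 15, 18, 24]), (((-10), (-2), 4), [2, 7, 11, 12, 24]),
    (((-10), 2, (-1)), [4, 5, 7, 14, 17]), (((-10), 2, 0), [4, 7, 14, 17, 24]),
    (((-9), (-2), 5), [2, 7, 12, 13, 24]), (((-9), 3, 0), [4, 5, 7, 17, 24]),
    (((-9), 4, 1), [4, 5, 17, 19, 24]), (((-8), 2, (-3)), [5, 7, 14, 17, 25]),
    (((-8), 3, (-1)), [5, 7, 17, 24, 25]), (((-7), 1, (-6)), [3, 5, 7, 14, 25]),
    (((-5), (-1), (-10)), [0, 3, 7, 14, 25]), (((-4), (-2), (-11)), [0, 7, 10, 14, 25]),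
    (((-2), (-3), (-13)), [0, 7, 10, 23, 25]), (((-1), (-4), (-14)), [0, 6, 7, 10, 23]),
    (((-1), (-3), (-14)), [0, 6, 7, 23, 25]), ((0, (-5), (-14)), [6, 7, 10, 20, 23]),
    ((1, (-5), (-14)), [6, 7, 9, 20, 23]), ((1, (-3), (-14)), [6, 7, 9, 23, 25]),
    ((2, (-5), (-13)), [7, 9, 20, 23, 26]), ((3, (-4), (-12)), [7, 9, 23, 26, 28]),
    ((3, (-3), (-12)), [7, 9, 23, 25, 28]), ((4, (-4), (-11)), [7, 9, 26, 28, 29])]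
  other := [(((-12), (-1), (-3)), [0, 1, 3, 7, 14]), (((-12), 0, (-2)), [1, 3, 4, 7, 14]),
    (((-12), 0, 2), [1, 2, 4, 7, 15]), (((-11), (-1), 1), [7, 11, 14, 15, 24]),
    (((-11), (-1), 4), [2, 11, 12, 15, 24]), (((-11), 0, 5), [2, 12, 13, 15, 24]),
    (((-11), 1, (-2)), [3, 4, 5, 7, 14]), (((-11), 2, 1), [4, 14, 15, 17, 24]),
    (((-11), 2, 6), [2, 13, 15, 16, 24]), (((-11), 3, 2), [4, 15, 17, 18, 24]),
    (((-11), 3, 6), [2, 15, 16, 18, 24]), (((-10), (-2), 0), [7, 10, 11, 14, 24]),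
    (((-10), 4, 2), [4, 17, 18, 19, 24]), (((-8), 2, (-2)), [7, 14, 17, 24, 25]),
    (((-8), 4, 0), [5, 17, 19, 24, 25]), (((-4), (-8), 4), [7, 11, 12, 22, 24]),
    (((-4), (-7), 5), [7, 12, 13, 22, 24]), (((-4), (-2), (-6)), [7, 10, 14, 24, 25]),
    (((-2), (-3), (-7)), [7, 10, 23, 24, 25]), (((-2), (-1), (-13)), [0, 3, 7, 8, 25]),
    (((-2), 1, (-11)), [3, 5, 7, 8, 25]), (((-1), (-11), 0), [7, 10, 11, 21, 24]),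
    (((-1), (-11), 1), [7, 11, 21, 22, 24]), (((-1), (-2), (-14)), [0, 6, 7, 8, 25]),
    ((0, (-11), (-1)), [7, 10, 20, 21, 24]), ((0, (-5), (-7)), [7, 10, 20, 23, 24]),
    ((1, (-11), (-1)), [7, 20, 21, 24, 27]), ((1, (-11), 1), [7, 21, 22, 24, 27]),
    ((1, (-2), (-14)), [6, 7, 8, 9, 25]), ((2, (-10), (-2)), [7, 20, 24, 26, 27]),
    ((2, (-5), (-7)), [7, 20, 23, 24, 26]), ((3, (-4), (-7)), [7, 23, 24, 26, 28]),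
    ((3, (-3), (-7)), [7, 23, 24, 25, 28]), ((4, (-8), (-2)), [7, 24, 26, 27, 29]),
    ((4, (-4), (-6)), [7, 24, 26, 28, 29])]
  edges := [(0, 1), (0, 19), (1, 2), (2, 3), (2, 4), (3, 5), (4, 6), (5, 7), (5, 9),
    (6, 7), (6, 11), (7, 8), (9, 12), (10, 11), (10, 15), (11, 13), (13, 14), (13, 16),
    (15, 16), (15, 17), (17, 18), (18, 19), (19, 20), (20, 21), (20, 22), (21, 23), (22, 25),
    (23, 24), (24, 26), (25, 28), (26, 27), (27, 28), (27, 29)]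
  corner := [20, 19, 2, 15, 6, 11]

def ex8 : Ex where
  coeffs := [(-7), 5, (-2), (-3), 0, (-1), 0, 13, 0, (-2), (-5), 0, 0, (-8), 0, 2, (-3), 1, 0, 1, 5, 11, 0, 4, 2, 1, 0, 0, 0, (-6)]
  mixed := [(((-10), (-5), (-12)), [0, 1, 10, 14, 20]), (((-9), (-4), (-12)), [0, 1, 3, 14, 20]),
    (((-8), (-3), (-11)), [1, 3, 7, 14, 20]), (((-8), (-3), (-6)), [1, 7, 14, 20, 21]),
    (((-8), (-1), (-8)), [1, 5, 7, 14, 17]), (((-8), (-1), (-4)), [1, 7, 14, 17, 21]),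
    (((-8), 0, (-6)), [1, 5, 7, 17, 19]), (((-8), 0, (-2)), [1, 7, 17, 19, 21]),
    (((-8), 1, 1), [1, 7, 15, 19, 21]), (((-8), 1, 3), [1, 7, 12, 15, 21]),
    (((-8), 2, 3), [1, 7, 15, 18, 19]), (((-8), 2, 4), [1, 7, 12, 15, 18]),
    (((-8), 3, 6), [1, 7, 12, 16, 18]), (((-8), 3, 7), [1, 2, 7, 12, 16]),
    (((-8), 4, 7), [1, 2, 7, 16, 18]), (((-8), 5, 6), [1, 4, 7, 18, 19]),
    (((-7), (-2), (-11)), [3, 5, 7, 14, 20]), (((-7), 3, 8), [2, 7, 12, 13, 16]),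
    (((-6), (-1), (-10)), [5, 7, 14, 17, 20]), (((-4), 0, (-10)), [5, 7, 17, 19, 20]),
    (((-1), 1, (-11)), [5, 7, 19, 20, 23]), ((0, 1, (-12)), [5, 7, 8, 20, 23]),
    ((1, 2, (-11)), [5, 7, 8, 19, 23]), ((3, 1, (-12)), [7, 8, 9, 20, 23]),
    ((3, 3, (-10)), [7, 8, 19, 23, 25]), ((4, 1, (-11)), [7, 9, 20, 23, 28]),
    ((4, 2, (-11)), [7, 8, 9, 23, 28]), ((4, 3, (-10)), [7, 8, 23, 25, 28]),
    ((5, 0, (-10)), [7, 9, 20, 26, 28]), ((6, 0, (-9)), [7, 9, 26, 28, 29])]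
  other := [(((-11), (-5), (-5)), [1, 10, 11, 14, 21]), (((-11), (-2), (-2)), [1, 11, 14, 15, 21]),
    (((-11), (-2), 0), [1, 11, 12, 15, 21]), (((-10), (-5), (-6)), [1, 10, 14, 20, 21]),
    (((-10), (-1), (-2)), [1, 14, 15, 17, 21]), (((-9), 0, (-1)), [1, 15, 17, 19, 21]),
    (((-8), (-4), (-12)), [0, 1, 3, 7, 20]), (((-8), (-2), (-10)), [1, 3, 5, 7, 14]),
    (((-8), 5, 4), [1, 4, 5, 7, 19]), (((-8), 5, 7), [1, 2, 4, 7, 18]),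
    (((-7), (-4), (-13)), [0, 3, 6, 7, 20]), (((-7), 2, 3), [7, 15, 18, 19, 21]),
    (((-7), 2, 4), [7, 12, 15, 18, 21]), (((-6), (-1), (-6)), [7, 14, 17, 20, 21]),
    (((-5), (-2), (-13)), [3, 5, 6, 7, 20]), (((-5), 3, 6), [7, 12, 16, 18, 21]),
    (((-4), 0, (-6)), [7, 17, 19, 20, 21]), (((-3), 3, 8), [7, 12, 13, 16, 21]),
    (((-1), 0, (-13)), [5, 6, 7, 8, 20]), (((-1), 1, (-6)), [7, 19, 20, 21, 23]),
    ((2, 0, (-13)), [6, 7, 8, 9, 20]), ((3, 3, (-4)), [7, 19, 21, 23, 25]),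
    ((3, 6, 11), [7, 13, 16, 21, 22]), ((4, 1, (-6)), [7, 20, 21, 23, 28]),
    ((4, 3, (-4)), [7, 21, 23, 25, 28]), ((5, 0, (-6)), [7, 20, 21, 26, 28]),
    ((5, 8, 11), [7, 16, 18, 21, 22]), ((6, 0, (-5)), [7, 21, 26, 28, 29]),
    ((7, 9, 10), [7, 18, 19, 21, 24]), ((7, 9, 11), [7, 18, 21, 22, 24]),
    ((9, 9, 8), [7, 19, 21, 24, 25]), ((10, 9, 8), [7, 21, 24, 25, 28]),
    ((11, 5, 5), [7, 21, 27, 28, 29]), ((11, 9, 9), [7, 21, 24, 27, 28]),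
    ((11, 9, 11), [7, 21, 22, 24, 27])]
  edges := [(0, 1), (1, 2), (2, 3), (2, 16), (3, 5), (4, 5), (4, 18), (5, 7), (6, 7),
    (6, 19), (7, 8), (8, 9), (8, 10), (9, 11), (10, 11), (10, 15), (11, 12), (12, 13),
    (12, 14), (13, 17), (16, 18), (18, 19), (19, 20), (20, 21), (20, 22), (21, 23), (22, 24),
    (23, 25), (24, 27), (25, 26), (25, 28), (26, 27), (28, 29)]
  corner := [8, 7, 5, 19, 18, 20]

def ex9 : Ex where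
  coeffs := [(-3), 3, (-1), (-1), 8, (-4), 1, 6, 0, (-1), (-1), (-1), (-4), (-9), 2, 1, (-1), 0, 0, (-7), 1, 0, (-4), 2, 9, (-2), 0, (-2), (-1), (-4)]
  mixed := [(((-5), (-5), 0), [1, 4, 10, 11, 24]), (((-5), (-5), 3), [1, 4, 11, 12, 24]),
    (((-4), (-5), 4), [1, 2, 4, 12, 24]), (((-4), (-4), 5), [2, 4, 12, 13, 24]),
    (((-4), (-3), (-8)), [0, 4, 6, 10, 14]), (((-3), (-7), 0), [1, 7, 10, 11, 24]),
    (((-3), (-7), 3), [1, 7, 11, 12, 24]), (((-3), (-6), 4), [1, 2, 7, 12, 24]),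
    (((-3), (-5), (-2)), [1, 4, 7, 10, 24]), (((-2), (-6), 5), [2, 7, 12, 13, 24]),
    (((-2), (-4), (-5)), [4, 6, 7, 10, 20]), (((-2), (-4), (-4)), [4, 7, 10, 20, 24]),
    (((-2), (-3), (-6)), [4, 6, 10, 14, 20]), (((-1), (-3), (-5)), [4, 6, 7, 20, 24]),
    (((-1), (-2), (-6)), [4, 6, 14, 20, 24]), (((-1), 2, (-9)), [3, 4, 8, 14, 17]),
    ((0, 0, (-7)), [4, 6, 14, 23, 24]), ((0, 1, (-8)), [4, 6, 8, 14, 23]),
    ((0, 2, (-8)), [4, 8, 14, 17, 23]), ((1, (-3), (-5)), [6, 7, 20, 24, 26]),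
    ((1, 1, (-7)), [4, 6, 8, 23, 24]), ((1, 3, (-7)), [4, 8, 17, 23, 24]),
    ((2, (-2), (-5)), [6, 7, 9, 24, 26]), ((2, 0, (-7)), [6, 9, 23, 24, 26]),
    ((2, 1, (-7)), [6, 8, 9, 23, 24]), ((2, 5, (-6)), [4, 8, 17, 24, 25]),
    ((2, 6, (-6)), [4, 5, 8, 17, 25]), ((2, 7, (-5)), [4, 5, 17, 19, 25]),
    ((3, 2, (-7)), [8, 9, 23, 24, 28]), ((4, (-2), (-3)), [7, 9, 24, 26, 29])]
  other := [(((-8), (-2), 1), [4, 11, 14, 15, 24]), (((-8), (-2), 2), [4, 11, 15, 16, 24]),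
    (((-8), 1, 1), [4, 14, 15, 18, 24]), (((-8), 1, 2), [4, 15, 16, 18, 24]),
    (((-7), (-3), 0), [4, 10, 11, 14, 24]), (((-7), (-3), 3), [4, 11, 12, 16, 24]),
    (((-7), 2, 0), [4, 14, 17, 18, 24]), (((-5), (-3), 5), [4, 12, 13, 16, 24]),
    (((-4), (-5), (-6)), [0, 1, 4, 6, 10]), (((-4), (-2), (-9)), [0, 3, 4, 6, 14]),
    (((-3), (-5), (-5)), [1, 4, 6, 7, 10]), (((-3), (-5), 4), [1, 2, 4, 7, 24]),
    (((-2), (-8), 0), [7, 10, 11, 20, 24]), (((-2), (-3), (-5)), [4, 10, 14, 20, 24]),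
    (((-2), 7, 0), [4, 17, 18, 19, 24]), (((-1), (-9), 1), [7, 11, 20, 21, 24]),
    (((-1), (-9), 3), [7, 11, 12, 21, 24]), (((-1), 1, (-9)), [3, 4, 6, 8, 14]),
    (((-1), 3, (-9)), [3, 4, 5, 8, 17]), ((0, (-9), 4), [7, 12, 21, 22, 24]),
    ((0, (-8), 5), [7, 12, 13, 22, 24]), ((0, (-1), (-7)), [6, 14, 20, 23, 24]),
    ((0, 2, (-7)), [4, 14, 17, 23, 24]), ((1, (-9), 1), [7, 20, 21, 24, 26]),
    ((1, (-1), (-7)), [6, 20, 23, 24, 26]), ((2, (-9), 2), [7, 21, 24, 26, 27]),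
    ((2, (-9), 4), [7, 21, 22, 24, 27]), ((2, 0, (-5)), [4, 6, 7, 9, 24]),
    ((2, 1, (-6)), [4, 6, 8, 9, 24]), ((2, 4, (-7)), [8, 17, 23, 24, 25]),
    ((2, 7, (-4)), [4, 17, 19, 24, 25]), ((3, 1, (-7)), [9, 23, 24, 26, 28]),
    ((3, 4, (-7)), [8, 23, 24, 25, 28]), ((4, (-7), 2), [7, 24, 26, 27, 29]),
    ((4, 1, (-6)), [9, 24, 26, 28, 29])]
  edges := [(0, 1), (0, 8), (1, 2), (2, 3), (2, 7), (4, 12), (5, 6), (5, 8), (6, 7),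
    (7, 9), (8, 11), (10, 11), (10, 12), (11, 13), (12, 14), (13, 14), (13, 19), (14, 16),
    (15, 18), (16, 17), (16, 20), (17, 18), (18, 21), (19, 22), (20, 21), (20, 24), (21, 25),
    (22, 23), (22, 29), (23, 24), (24, 28), (25, 26), (26, 27)]
  corner := [8, 11, 13, 14, 20, 16]

def ex10 : Ex where
  coeffs := [(-7), (-8), (-13), 9, 0, 0, 2, 0, 12, 6, 1, 3, 0, (-6), 0, 8, 13, (-3), 3, (-9), 0, 4, (-1), 0, 4, (-7), (-2), 0, (-7), (-8)]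
  mixed := [(((-9), (-16), (-2)), [0, 3, 6, 10, 11]), (((-8), (-14), 3), [1, 3, 7, 11, 12]),
    (((-8), (-13), 4), [1, 3, 7, 12, 16]), (((-8), (-13), 5), [1, 2, 7, 12, 16]),
    (((-7), (-13), 3), [3, 7, 11, 12, 16]), (((-7), (-13), 6), [2, 7, 12, 13, 16]),
    (((-5), (-12), 2), [3, 6, 7, 11, 16]), (((-4), (-12), 2), [6, 7, 9, 11, 16]),
    (((-4), (-11), (-2)), [3, 6, 9, 10, 11]), (((-4), (-11), 1), [3, 6, 9, 11, 16]),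
    (((-3), (-13), 3), [7, 9, 11, 12, 16]), (((-3), (-9), (-2)), [3, 8, 9, 10, 11]),
    (((-3), (-9), (-1)), [3, 8, 9, 11, 16]), (((-3), (-8), (-2)), [3, 8, 10, 11, 16]),
    (((-3), (-2), (-5)), [3, 8, 10, 15, 16]), (((-3), 1, (-8)), [3, 8, 10, 14, 15]),
    (((-3), 3, (-8)), [3, 8, 14, 15, 17]), (((-3), 5, (-6)), [3, 8, 15, 17, 18]),
    (((-3), 5, (-5)), [3, 8, 15, 16, 18]), (((-3), 6, (-6)), [3, 8, 17, 18, 19]),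
    (((-3), 9, (-3)), [3, 5, 8, 18, 19]), (((-3), 9, (-1)), [3, 5, 8, 16, 18]),
    (((-2), (-8), (-2)), [8, 9, 10, 11, 16]), ((0, (-13), 6), [7, 9, 12, 13, 16]),
    ((0, (-6), (-3)), [8, 9, 10, 16, 21]), ((1, (-5), (-4)), [8, 9, 10, 20, 21]),
    ((2, (-4), (-4)), [8, 9, 20, 21, 26]), ((3, (-3), (-3)), [8, 9, 16, 21, 26]),
    ((5, (-1), (-2)), [8, 9, 16, 26, 27]), ((6, 0, (-2)), [8, 9, 26, 27, 29])]
  other := [(((-9), (-16), 1), [0, 1, 3, 6, 11]), (((-8), (-15), 2), [1, 3, 6, 7, 11]),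
    (((-8), (-12), 5), [1, 2, 3, 7, 16]), (((-4), (-11), 2), [3, 6, 7, 9, 16]),
    (((-4), (-4), 9), [2, 3, 4, 7, 16]), (((-3), (-9), 3), [3, 7, 8, 9, 16]),
    (((-3), (-3), 9), [3, 4, 7, 8, 16]), (((-3), 9, 9), [3, 4, 5, 8, 16]),
    (((-1), (-13), 3), [9, 11, 12, 16, 21]), (((-1), (-8), (-2)), [9, 10, 11, 16, 21]),
    ((0, 1, (-8)), [8, 10, 14, 15, 23]), ((0, 3, (-8)), [8, 14, 15, 17, 23]),
    ((1, (-13), 5), [9, 12, 16, 21, 22]), ((1, (-13), 6), [9, 12, 13, 16, 22]),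
    ((1, (-4), (-4)), [8, 10, 16, 20, 21]), ((1, (-2), (-5)), [8, 10, 15, 16, 20]),
    ((1, 0, (-7)), [8, 10, 15, 20, 23]), ((2, (-3), (-4)), [8, 16, 20, 21, 26]),
    ((2, (-1), (-5)), [8, 15, 16, 20, 26]), ((2, 0, (-6)), [8, 15, 20, 23, 26]),
    ((2, 5, (-6)), [8, 15, 17, 18, 23]), ((3, 1, (-5)), [8, 15, 16, 23, 26]),
    ((3, 5, (-5)), [8, 15, 16, 18, 23]), ((3, 6, (-6)), [8, 17, 18, 19, 23]),
    ((4, (-10), 5), [9, 16, 21, 22, 27]), ((4, (-3), (-2)), [9, 16, 21, 26, 27]),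
    ((5, 3, (-4)), [8, 16, 23, 24, 26]), ((5, 6, (-4)), [8, 16, 18, 23, 24]),
    ((5, 7, (-5)), [8, 18, 19, 23, 25]), ((6, 1, (-2)), [8, 16, 26, 27, 29]),
    ((6, 3, (-3)), [8, 16, 24, 26, 29]), ((6, 4, (-4)), [8, 23, 24, 26, 29]),
    ((6, 7, (-4)), [8, 18, 23, 24, 25]), ((7, 6, (-4)), [8, 23, 24, 28, 29]),
    ((7, 7, (-4)), [8, 23, 24, 25, 28])]
  edges := [(0, 8), (1, 4), (2, 3), (2, 4), (3, 5), (4, 6), (6, 7), (6, 9), (7, 9),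
    (7, 10), (8, 11), (9, 12), (10, 23), (11, 13), (11, 22), (12, 13), (12, 22), (13, 14),
    (14, 15), (14, 18), (15, 16), (16, 17), (17, 18), (17, 19), (18, 21), (19, 20), (22, 24),
    (24, 25), (24, 27), (25, 26), (26, 27), (27, 28), (28, 29)]
  corner := [9, 12, 13, 22, 14, 24]

def ex11 : Ex where
  coeffs := [(-9), (-6), (-9), 2, 0, 0, 0, 2, 9, 0, 0, 1, 1, 0, 1, 4, 6, (-2), 3, (-7), 6, 4, 0, 4, 4, 0, 0, (-1), (-3), (-9)]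
  mixed := [(((-8), (-9), (-1)), [1, 3, 7, 10, 11]), (((-8), (-8), 0), [1, 3, 7, 11, 12]),
    (((-8), (-7), 1), [1, 3, 7, 12, 13]), (((-7), (-8), (-1)), [3, 7, 8, 10, 11]),
    (((-7), (-7), 0), [3, 7, 8, 11, 12]), (((-7), (-6), 1), [3, 7, 8, 12, 13]),
    (((-7), (-5), 0), [3, 8, 11, 12, 16]), (((-7), (-5), 1), [3, 8, 12, 13, 16]),
    (((-7), (-4), (-1)), [3, 8, 10, 11, 16]), (((-7), (-4), 2), [3, 4, 8, 13, 16]),
    (((-7), (-2), (-2)), [3, 8, 10, 15, 16]), (((-7), (-1), (-3)), [3, 8, 10, 14, 15]),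
    (((-7), 1, (-3)), [3, 8, 14, 15, 18]), (((-7), 1, (-2)), [3, 8, 15, 16, 18]),
    (((-7), 2, (-4)), [3, 5, 8, 14, 18]), (((-7), 2, (-1)), [3, 5, 8, 16, 18]),
    (((-6), (-9), (-2)), [6, 7, 8, 10, 20]), (((-6), (-8), (-1)), [7, 8, 10, 11, 20]),
    (((-6), 3, (-5)), [5, 8, 14, 17, 18]), (((-5), (-7), 0), [7, 8, 11, 12, 20]),
    (((-4), 5, (-5)), [5, 8, 17, 18, 19]), (((-3), (-6), 1), [7, 8, 12, 13, 20]),
    ((0, (-5), 2), [7, 8, 13, 20, 21]), ((4, (-5), 2), [7, 8, 9, 20, 21]),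
    ((4, (-3), 4), [7, 8, 13, 21, 22]), ((5, (-4), 2), [8, 9, 20, 21, 27]),
    ((5, (-4), 3), [7, 8, 9, 21, 27]), ((5, (-3), 4), [7, 8, 21, 22, 27]),
    ((6, (-3), 1), [8, 9, 20, 26, 27]), ((9, 0, 1), [8, 9, 26, 27, 29])]
  other := [(((-9), (-11), (-3)), [0, 1, 3, 6, 10]), (((-8), (-10), (-2)), [1, 3, 6, 7, 10]),
    (((-8), (-6), 2), [1, 3, 4, 7, 13]), (((-8), (-6), 3), [1, 2, 4, 7, 13]),
    (((-7), (-9), (-2)), [3, 6, 7, 8, 10]), (((-7), (-5), 2), [3, 4, 7, 8, 13]),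
    (((-7), 2, 2), [3, 4, 5, 8, 16]), (((-6), (-4), (-1)), [8, 10, 11, 16, 20]),
    (((-6), (-2), (-2)), [8, 10, 15, 16, 20]), (((-6), (-1), (-3)), [8, 10, 14, 15, 20]),
    (((-5), (-5), 0), [8, 11, 12, 16, 20]), (((-4), 1, (-3)), [8, 14, 15, 18, 20]),
    (((-3), (-5), 1), [8, 12, 13, 16, 20]), (((-3), 1, (-2)), [8, 15, 16, 18, 20]),
    (((-3), 2, (-4)), [8, 14, 18, 20, 23]), (((-3), 3, (-5)), [8, 14, 17, 18, 23]),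
    (((-2), 4, (-5)), [8, 17, 18, 23, 25]), (((-2), 5, (-5)), [8, 17, 18, 19, 25]),
    ((0, (-9), (-2)), [6, 7, 8, 9, 20]), ((0, (-4), 2), [8, 13, 16, 20, 21]),
    ((0, 2, (-1)), [8, 16, 18, 20, 23]), ((2, 2, 0), [8, 16, 20, 23, 24]),
    ((2, 3, 0), [8, 16, 18, 23, 24]), ((3, 4, 0), [8, 18, 23, 24, 25]),
    ((4, (-2), 4), [8, 13, 16, 21, 22]), ((4, 0, 2), [8, 16, 20, 21, 24]),
    ((5, (-1), 4), [8, 16, 21, 22, 27]), ((5, 0, 2), [8, 20, 21, 24, 27]),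
    ((5, 0, 3), [8, 16, 21, 24, 27]), ((6, 1, 1), [8, 20, 24, 26, 27]),
    ((6, 2, 0), [8, 20, 23, 24, 26]), ((7, 3, 0), [8, 23, 24, 26, 28]),
    ((7, 4, 0), [8, 23, 24, 25, 28]), ((8, 3, 1), [8, 24, 26, 27, 28]),
    ((9, 3, 1), [8, 26, 27, 28, 29])]
  edges := [(0, 3), (1, 4), (2, 5), (3, 8), (3, 17), (4, 6), (4, 19), (5, 7), (5, 21),
    (6, 7), (6, 8), (7, 9), (8, 10), (10, 11), (10, 13), (11, 12), (12, 13), (12, 14),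
    (13, 15), (14, 18), (16, 17), (17, 19), (18, 20), (19, 21), (21, 22), (22, 23), (22, 24),
    (23, 25), (24, 27), (25, 26), (25, 28), (26, 27), (28, 29)]
  corner := [10, 8, 6, 19, 21, 22]

def ex12 : Ex where
  coeffs := [(-2), 13, (-2), 0, 0, (-4), 0, 0, 0, (-1), (-5), (-2), (-5), (-13), 2, 2, (-8), 8, (-5), (-4), (-2), 5, 0, 6, 4, 2, (-1), 11, 3, (-1)]
  mixed := [(((-4), (-7), (-15)), [0, 1, 10, 14, 23]), (((-4), (-6), (-15)), [0, 1, 14, 17, 23]),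
    (((-3), (-8), (-15)), [0, 1, 10, 20, 23]), (((-2), (-8), (-15)), [0, 1, 6, 20, 23]),
    (((-2), (-4), (-15)), [0, 1, 6, 17, 23]), (((-1), (-8), (-14)), [1, 6, 20, 23, 26]),
    ((0, (-7), (-13)), [1, 6, 23, 26, 29]), ((1, (-5), (-12)), [1, 6, 9, 23, 29]),
    ((1, (-1), (-12)), [1, 6, 9, 17, 23]), ((2, (-3), (-10)), [1, 9, 23, 27, 29]),
    ((2, 10, 15), [1, 2, 13, 16, 22]), ((3, 0, (-8)), [1, 9, 23, 27, 28]),
    ((3, 1, (-8)), [1, 9, 17, 23, 28]), ((3, 11, 15), [1, 2, 16, 22, 24]),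
    ((3, 12, 15), [1, 2, 16, 18, 24]), ((4, 3, (-6)), [1, 8, 9, 17, 28]),
    ((4, 11, 15), [1, 2, 22, 24, 27]), ((4, 13, 14), [1, 4, 18, 19, 24]),
    ((4, 13, 15), [1, 2, 4, 18, 24]), ((5, 4, (-4)), [1, 8, 9, 27, 28]),
    ((5, 5, (-3)), [1, 8, 17, 27, 28]), ((6, 8, 1), [1, 8, 17, 25, 27]),
    ((6, 10, 3), [1, 5, 8, 17, 25]), ((6, 12, 7), [1, 5, 17, 19, 25]),
    ((6, 13, 12), [1, 4, 19, 24, 27]), ((6, 13, 15), [1, 2, 4, 24, 27]),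
    ((7, 13, 9), [1, 4, 5, 19, 25]), ((7, 13, 10), [1, 4, 19, 25, 27]),
    ((8, 12, 7), [1, 5, 8, 25, 27]), ((8, 13, 9), [1, 4, 5, 25, 27])]
  other := [(((-7), (-7), (-3)), [1, 10, 11, 14, 21]), (((-7), (-6), (-2)), [1, 11, 14, 17, 21]),
    (((-7), (-4), 2), [1, 11, 15, 17, 21]), (((-7), (-4), 3), [1, 11, 12, 15, 21]),
    (((-6), (-7), (-4)), [1, 10, 14, 21, 27]), (((-6), (-6), (-3)), [1, 14, 17, 21, 27]),
    (((-6), (-3), 3), [1, 15, 17, 21, 27]), (((-6), (-3), 4), [1, 12, 15, 21, 27]),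
    (((-5), (-1), 6), [1, 12, 15, 22, 27]), (((-5), 1, 8), [1, 12, 13, 15, 22]),
    (((-4), (-7), (-8)), [1, 10, 14, 23, 27]), (((-4), (-6), (-7)), [1, 14, 17, 23, 27]),
    (((-4), 1, 7), [1, 15, 17, 22, 27]), (((-4), 3, 9), [1, 13, 15, 17, 22]),
    (((-3), (-8), (-10)), [1, 10, 20, 23, 27]), (((-2), (-2), (-15)), [0, 1, 3, 6, 17]),
    (((-2), 6, 11), [1, 13, 16, 17, 22]), (((-1), (-8), (-12)), [1, 20, 23, 26, 27]),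
    ((0, (-7), (-12)), [1, 23, 26, 27, 29]), ((0, 0, (-13)), [1, 3, 6, 8, 17]),
    ((0, 4, (-9)), [1, 3, 5, 8, 17]), ((0, 7, 11), [1, 17, 22, 24, 27]),
    ((0, 8, 12), [1, 16, 17, 22, 24]), ((1, 0, (-12)), [1, 6, 8, 9, 17]),
    ((1, 10, 13), [1, 16, 17, 18, 24]), ((3, (-1), (-9)), [9, 23, 27, 28, 29]),
    ((3, 1, (-7)), [1, 17, 23, 27, 28]), ((3, 12, 13), [1, 17, 18, 19, 24]),
    ((5, 12, 11), [1, 17, 19, 24, 27]), ((6, 7, (-1)), [8, 17, 25, 27, 28]),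
    ((6, 12, 9), [1, 17, 19, 25, 27]), ((9, 13, 9), [1, 4, 5, 8, 27]),
    ((13, 12, 12), [1, 7, 8, 9, 27]), ((13, 13, 13), [1, 4, 7, 8, 27]),
    ((13, 13, 15), [1, 2, 4, 7, 27])]
  edges := [(0, 1), (0, 2), (1, 4), (2, 3), (3, 5), (4, 8), (5, 6), (6, 7), (7, 9),
    (8, 12), (9, 11), (10, 13), (11, 12), (11, 19), (12, 15), (13, 14), (13, 16), (14, 18),
    (15, 20), (16, 25), (17, 18), (17, 24), (19, 20), (20, 21), (21, 22), (21, 28), (22, 23),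
    (23, 26), (24, 25), (24, 27), (26, 27), (27, 29), (28, 29)]
  corner := [24, 27, 21, 20, 11, 12]

def ex13 : Ex where
  coeffs := [(-7), (-4), (-8), 0, (-5), (-4), 1, 2, 11, (-1), (-1), 1, 0, (-5), 11, 5, (-3), 4, (-3), (-5), 0, 4, 7, 6, 4, 0, (-4), 1, 0, (-11)]
  mixed := [(((-10), 3, 6), [2, 4, 8, 14, 15]), (((-10), 5, 6), [4, 5, 8, 14, 15]),
    (((-9), 2, 6), [2, 8, 13, 14, 15]), (((-9), 4, 7), [2, 4, 8, 13, 15]),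
    (((-8), (-12), (-3)), [0, 1, 6, 10, 14]), (((-8), (-3), 4), [1, 2, 8, 12, 14]),
    (((-8), (-1), 5), [2, 8, 12, 13, 14]), (((-8), 6, 8), [4, 8, 13, 15, 16]),
    (((-8), 7, 6), [5, 8, 14, 15, 17]), (((-8), 7, 8), [4, 5, 8, 15, 16]),
    (((-7), (-12), (-2)), [1, 6, 10, 11, 14]), (((-7), (-5), 3), [1, 8, 12, 14, 22]),
    (((-7), (-4), 4), [1, 2, 8, 12, 22]), (((-7), (-2), 5), [2, 8, 12, 13, 22]),
    (((-7), 8, 7), [5, 8, 15, 17, 18]), (((-7), 8, 8), [5, 8, 15, 16, 18]),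
    (((-6), (-11), (-1)), [1, 6, 7, 11, 14]), (((-6), (-10), 0), [1, 7, 11, 14, 22]),
    (((-6), (-8), 1), [1, 7, 8, 14, 22]), (((-6), 9, 7), [5, 8, 17, 18, 19]),
    (((-5), (-11), (-1)), [6, 7, 11, 14, 22]), (((-4), (-10), (-1)), [6, 7, 8, 14, 22]),
    ((0, (-10), (-3)), [6, 8, 14, 21, 22]), ((1, (-10), (-4)), [6, 8, 14, 20, 21]),
    ((2, (-10), (-4)), [6, 8, 9, 20, 21]), ((2, (-10), (-3)), [6, 8, 9, 21, 22]),
    ((3, (-9), (-4)), [8, 9, 20, 21, 27]), ((3, (-9), (-3)), [8, 9, 21, 22, 27]),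
    ((4, (-8), (-5)), [8, 9, 20, 26, 27]), ((7, (-5), (-5)), [8, 9, 26, 27, 29])]
  other := [(((-11), (-7), (-3)), [0, 1, 3, 8, 14]), (((-11), 0, 4), [1, 2, 3, 8, 14]),
    (((-11), 2, 5), [2, 3, 4, 8, 14]), (((-11), 4, 5), [3, 4, 5, 8, 14]),
    (((-8), (-10), (-3)), [0, 1, 6, 8, 14]), (((-7), (-9), 1), [1, 11, 12, 14, 22]),
    (((-7), (-1), 5), [8, 12, 13, 14, 22]), (((-6), (-10), (-1)), [1, 6, 7, 8, 14]),
    (((-6), (-5), 4), [1, 2, 7, 8, 22]), (((-6), 2, 6), [8, 13, 14, 15, 22]),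
    (((-4), (-12), (-2)), [6, 10, 11, 14, 22]), (((-4), 6, 8), [8, 13, 15, 16, 22]),
    (((-2), (-12), (-3)), [6, 10, 14, 21, 22]), (((-2), 8, 8), [8, 15, 16, 18, 22]),
    (((-1), (-12), (-4)), [6, 10, 14, 20, 21]), (((-1), 7, 6), [8, 14, 15, 17, 22]),
    (((-1), 8, 7), [8, 15, 17, 18, 22]), ((1, 9, 7), [8, 17, 18, 19, 22]),
    ((2, (-10), (-1)), [6, 7, 8, 9, 22]), ((3, (-8), (-4)), [8, 14, 20, 21, 27]),
    ((3, (-7), (-3)), [8, 14, 21, 22, 27]), ((3, 7, 4), [8, 14, 17, 22, 24]),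
    ((3, 9, 6), [8, 17, 19, 22, 24]), ((4, (-7), (-5)), [8, 14, 20, 26, 27]),
    ((4, 7, 3), [8, 14, 17, 24, 25]), ((4, 9, 5), [8, 17, 19, 24, 25]),
    ((5, (-5), (-5)), [8, 14, 23, 26, 27]), ((5, (-1), (-1)), [8, 14, 22, 23, 27]),
    ((5, 5, 2), [8, 14, 22, 23, 24]), ((5, 6, 2), [8, 14, 23, 24, 25]),
    ((6, (-4), (-5)), [8, 23, 26, 27, 28]), ((6, 1, 0), [8, 22, 23, 27, 28]),
    ((6, 5, 2), [8, 22, 23, 24, 28]), ((6, 6, 2), [8, 23, 24, 25, 28]),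
    ((7, (-4), (-5)), [8, 26, 27, 28, 29])]
  edges := [(0, 1), (0, 2), (1, 8), (2, 3), (2, 6), (3, 7), (4, 10), (5, 6), (5, 11),
    (6, 13), (7, 9), (8, 14), (9, 15), (10, 16), (11, 12), (11, 18), (12, 13), (14, 15),
    (14, 19), (16, 17), (16, 20), (17, 18), (18, 21), (20, 21), (21, 22), (22, 23), (22, 25),
    (23, 24), (24, 26), (25, 27), (26, 27), (26, 28), (28, 29)]
  corner := [2, 6, 11, 18, 21, 22]

/-- The 14 examples; the skeleton of example `i` is `graphs i`. -/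
def exs : Fin 14 → Ex := ![ex0, ex1, ex2, ex3, ex4, ex5, ex6, ex7, ex8, ex9, ex10, ex11, ex12, ex13]

end Pool.Agent.H47.Trop
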