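import Mathlib

set_option autoImplicit false

/-!
# Tropical polynomials in three variables, complete intersection curves, skeletons

Definitions for MP_3ce8eb_ag.
-/

namespace Pool.Agent.H47.Trop

open MeasureTheory

/-- Exponent vectors of monomials in the three variables. -/
abbrev Mon := Fin 3 → ℕ

/-- Points of three-space. -/
abbrev Pt := Fin 3 → ℝ

/-- A tropical polynomial in three variables (max convention): a finite set of exponent
vectors and a real coefficient for every exponent vector. -/
structure TPoly where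
  /-- the exponent vectors that occur -/
  supp : Finset Mon
  /-- the coefficients -/
  coeff : Mon → ℝ

/-- The value `c_a + a · w` of one term at the point `w`. -/
def TPoly.term (p : TPoly) (a : Mon) (w : Pt) : ℝ := p.coeff a + ∑ i, (a i : ℝ) * w i

/-- The exponent vectors at which the maximum `p(w)` is attained. -/
noncomputable def TPoly.dom (p : TPoly) (w : Pt) : Finset Mon :=
  open Classical in p.supp.filter fun a => ∀ b ∈ p.supp, p.term b w ≤ p.term a w

/-- The tropical surface: the points where the maximum is attained at least twice. -/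
def TPoly.surface (p : TPoly) : Set Pt := {w | 2 ≤ (p.dom w).card}

/-- `p` has degree `d`: its Newton polytope is the convex hull of `0, d e₁, d e₂, d e₃`. -/
def TPoly.HasDegree (p : TPoly) (d : ℕ) : Prop :=
  convexHull ℝ ((fun (a : Mon) (i : Fin 3) => (a i : ℝ)) '' (p.supp : Set Mon)) =
    convexHull ℝ (insert 0 (Set.range fun i : Fin 3 => (Pi.single i (d : ℝ) : Pt)))

/-- The point `(a, t)` of four-space. -/
def cay (a : Mon) (t : ℝ) : Fin 4 → ℝ := ![(a 0 : ℝ), (a 1 : ℝ), (a 2 : ℝ), t]

/-- The points of the Cayley configuration of `p` and `q` (the points `(a, 0)` and `(b, 1)`, lifted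
to the heights `p.coeff a`, `q.coeff b`) that lie on the upper face of the convex hull of the lifted
points on which `height + w · x + s t` is maximal. -/
def upperCell (p q : TPoly) (w : Pt) (s : ℝ) : Set (Fin 4 → ℝ) :=
  {x | (∃ a ∈ p.supp, x = cay a 0 ∧ (∀ a' ∈ p.supp, p.term a' w ≤ p.term a w) ∧
          ∀ b ∈ q.supp, q.term b w + s ≤ p.term a w) ∨
       (∃ b ∈ q.supp, x = cay b 1 ∧ (∀ a ∈ p.supp, p.term a w ≤ q.term b w + s) ∧
          ∀ b' ∈ q.supp, q.term b' w ≤ q.term b w)}

/-- The curve `T(p) ∩ T(q)` is smooth: every maximal (that is, full-dimensional) cell of the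
subdivision of the Cayley polytope induced by the coefficients has Euclidean volume `1/24`. -/
def Smooth (p q : TPoly) : Prop :=
  ∀ (w : Pt) (s : ℝ), affineSpan ℝ (upperCell p q w s) = ⊤ →
    volume (convexHull ℝ (upperCell p q w s)) = 1 / 24

/-- The intersection of the two tropical surfaces. -/
def curve (p q : TPoly) : Set Pt := p.surface ∩ q.surface

/-- `w` is a vertex of the (one-dimensional) set `C`: no neighbourhood of `w` in `C` is contained
in a line. -/
def IsVertex (C : Set Pt) (w : Pt) : Prop :=
  w ∈ C ∧ ∀ d : Pt, ∀ U ∈ nhds w, ∃ x ∈ U, x ∈ C ∧ ∀ t : ℝ, x ≠ w + t • d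

/-- `v, w` are the end points of a bounded edge of `C`. -/
def IsEdge (C : Set Pt) (v w : Pt) : Prop :=
  IsVertex C v ∧ IsVertex C w ∧ v ≠ w ∧ segment ℝ v w ⊆ C ∧
    ∀ x ∈ openSegment ℝ v w, ¬ IsVertex C x

/-- The bounded edges of `C`, as unordered pairs of vertices (what is left of `C` when all rays are
deleted). -/
def boundedEdges (C : Set Pt) : Set (Sym2 Pt) := {e | ∃ v w, e = s(v, w) ∧ IsEdge C v w}

/-- A finite multigraph without isolated vertices, given by the multiset of its edges. An edge is an
unordered pair of vertices; loops `s(v, v)` and repeated edges are allowed. -/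
abbrev MGraph (V : Type*) := Multiset (Sym2 V)

section graph

variable {V W : Type*}

/-- The vertices of a multigraph. -/
def verts (G : MGraph V) : Set V := {v | ∃ e ∈ G, v ∈ e}

/-- The valence of a vertex; a loop counts twice. -/
noncomputable def valence (G : MGraph V) (v : V) : ℕ :=
  open Classical in (G.bind Sym2.toMultiset).count v

/-- Deletion of a leaf edge: `x` is a vertex of valence `1`, and the edge at `x` is deleted. -/
def PruneStep (M M' : MGraph V) : Prop :=
  ∃ x y, x ≠ y ∧ (∀ e ∈ M', x ∉ e) ∧ M = s(x, y) ::ₘ M'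

/-- Smoothing over a vertex of valence `2`: the two edges `a x`, `x b` at `x` are replaced by one edge
`a b`. -/
def SmoothStep (M M' : MGraph V) : Prop :=
  ∃ (a x b : V) (M₀ : MGraph V), a ≠ x ∧ b ≠ x ∧ (∀ e ∈ M₀, x ∉ e) ∧
    M = s(a, x) ::ₘ s(x, b) ::ₘ M₀ ∧ M' = s(a, b) ::ₘ M₀

/-- `G` is, up to renaming the vertices, obtained from `M` by repeatedly deleting leaf edges as long
as possible, and then smoothing over vertices of valence `2` as long as possible. -/
def ReducesTo (M : MGraph V) (G : MGraph W) : Prop :=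
  ∃ M₁ M₂ : MGraph V, Relation.ReflTransGen PruneStep M M₁ ∧ (∀ M', ¬ PruneStep M₁ M') ∧
    Relation.ReflTransGen SmoothStep M₁ M₂ ∧ (∀ M', ¬ SmoothStep M₂ M') ∧
    ∃ f : W → V, Set.InjOn f (verts G) ∧ M₂ = G.map (Sym2.map f)

/-- `G` is the skeleton of the set `C`: it is obtained from `C` by repeatedly deleting
rays and leaf edges and then smoothing over vertices of valence `2`. -/
def IsSkeleton (C : Set Pt) (G : MGraph W) : Prop :=
  ∃ E : Finset (Sym2 Pt), (E : Set (Sym2 Pt)) = boundedEdges C ∧ ReducesTo E.val G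

/-- Connected multigraphs (with at least one edge). -/
def Connected (G : MGraph V) : Prop :=
  G ≠ 0 ∧ ∀ u ∈ verts G, ∀ v ∈ verts G, Relation.ReflTransGen (fun a b => s(a, b) ∈ G) u v

/-- Every vertex has valence `3`. -/
def Trivalent (G : MGraph V) : Prop := ∀ v ∈ verts G, valence G v = 3

/-- Genus of a connected graph: number of edges minus number of vertices plus one. -/
def HasGenus (G : MGraph V) (g : ℕ) : Prop := Multiset.card G + 1 = (verts G).ncard + g

/-- Sprawling: deleting some vertex `v` leaves exactly three connected components `K 0, K 1, K 2`. -/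
def Sprawling (G : MGraph V) : Prop :=
  ∃ v ∈ verts G, ∃ K : Fin 3 → Set V, (∀ i, (K i).Nonempty) ∧ Pairwise (fun i j => Disjoint (K i) (K j)) ∧
    (⋃ i, K i) = verts G \ {v} ∧ (∀ e ∈ G, v ∉ e → ∃ i, ∀ x ∈ e, x ∈ K i) ∧
    ∀ i, ∀ x ∈ K i, ∀ y ∈ K i, Relation.ReflTransGen (fun a b => s(a, b) ∈ G ∧ a ≠ v ∧ b ≠ v) x y

end graph

end Pool.Agent.H47.Trop
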