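import Pool.Agent.H47.Trop.Facts

set_option autoImplicit false

/-!
# Geometry of smooth tropical complete intersection curves, part 1: basics
-/

namespace Pool.Agent.H47.Trop

/-- Real scalar product of an exponent vector and a vector. -/
def rp (a : Mon) (d : Pt) : ℝ := ∑ i, (a i : ℝ) * d i

theorem term_eq (p : TPoly) (a : Mon) (w : Pt) : p.term a w = p.coeff a + rp a w := rfl

theorem rp_add (a : Mon) (d e : Pt) : rp a (d + e) = rp a d + rp a e := by
  simp only [rp, Pi.add_apply, mul_add, Finset.sum_add_distrib]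

theorem rp_sub (a : Mon) (d e : Pt) : rp a (d - e) = rp a d - rp a e := by
  simp only [rp, Pi.sub_apply, mul_sub, Finset.sum_sub_distrib]

theorem rp_smul (a : Mon) (s : ℝ) (e : Pt) : rp a (s • e) = s * rp a e := by
  simp only [rp, Pi.smul_apply, smul_eq_mul, Finset.mul_sum]
  exact Finset.sum_congr rfl fun i _ => by ring

theorem rp_neg (a : Mon) (e : Pt) : rp a (-e) = - rp a e := by
  simp only [rp, Pi.neg_apply, mul_neg, Finset.sum_neg_distrib]

/-- An integer vector as a real vector. -/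
def zr (d : Fin 3 → ℤ) : Pt := fun i => (d i : ℝ)

theorem rp_zr (a : Mon) (d : Fin 3 → ℤ) : rp a (zr d) = (pair a d : ℝ) := by
  simp only [rp, zr, pair]; push_cast; rfl

theorem zr_inj {d e : Fin 3 → ℤ} (h : zr d = zr e) : d = e := by
  funext i
  have := congrFun h i
  simpa [zr] using this

theorem pair_add (a : Mon) (d e : Fin 3 → ℤ) : pair a (d + e) = pair a d + pair a e := by
  simp only [pair, Pi.add_apply, mul_add, Finset.sum_add_distrib]

theorem pair_neg (a : Mon) (e : Fin 3 → ℤ) : pair a (-e) = - pair a e := by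
  simp only [pair, Pi.neg_apply, mul_neg, Finset.sum_neg_distrib]

theorem pair_zero (a : Mon) : pair a 0 = 0 := by simp [pair]

theorem mem_dom {p : TPoly} {w : Pt} {a : Mon} :
    a ∈ p.dom w ↔ a ∈ p.supp ∧ ∀ b ∈ p.supp, p.term b w ≤ p.term a w := by
  simp [TPoly.dom]

theorem dom_subset (p : TPoly) (w : Pt) : p.dom w ⊆ p.supp := fun _ h => (mem_dom.1 h).1

theorem dom_term_eq {p : TPoly} {w : Pt} {a b : Mon} (ha : a ∈ p.dom w) (hb : b ∈ p.dom w) :
    p.term a w = p.term b w :=
  le_antisymm ((mem_dom.1 hb).2 a (mem_dom.1 ha).1) ((mem_dom.1 ha).2 b (mem_dom.1 hb).1)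

theorem dom_nonempty {p : TPoly} (hp : p.supp.Nonempty) (w : Pt) : (p.dom w).Nonempty := by
  obtain ⟨a, ha, h⟩ := p.supp.exists_max_image (fun a => p.term a w) hp
  exact ⟨a, mem_dom.2 ⟨ha, h⟩⟩

theorem term_lt_of_notMem {p : TPoly} {w : Pt} {a b : Mon} (ha : a ∈ p.dom w) (hb : b ∈ p.supp)
    (hb' : b ∉ p.dom w) : p.term b w < p.term a w := by
  rcases lt_or_ge (p.term b w) (p.term a w) with h | h
  · exact h
  · exact absurd (mem_dom.2 ⟨hb, fun c hc => ((mem_dom.1 ha).2 c hc).trans h⟩) hb'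

theorem mem_dom_of_eq {p : TPoly} {w : Pt} {a b : Mon} (ha : a ∈ p.dom w) (hb : b ∈ p.supp)
    (h : p.term b w = p.term a w) : b ∈ p.dom w :=
  mem_dom.2 ⟨hb, fun c hc => ((mem_dom.1 ha).2 c hc).trans h.ge⟩

theorem term_add (p : TPoly) (a : Mon) (w d : Pt) : p.term a (w + d) = p.term a w + rp a d := by
  rw [term_eq, term_eq, rp_add]; ring

theorem continuous_term (p : TPoly) (a : Mon) : Continuous fun w : Pt => p.term a w := by
  unfold TPoly.term
  fun_prop

/-- Upper semicontinuity of the set of dominating monomials. -/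
theorem eventually_dom_subset (p : TPoly) (w : Pt) : ∀ᶠ u in nhds w, p.dom u ⊆ p.dom w := by
  rcases p.supp.eq_empty_or_nonempty with h0 | h0
  · refine Filter.Eventually.of_forall fun u a ha => ?_
    have := (mem_dom.1 ha).1
    rw [h0] at this; simp at this
  obtain ⟨a, ha⟩ := dom_nonempty h0 w
  have key : ∀ b ∈ p.supp \ p.dom w, ∀ᶠ u in nhds w, p.term b u < p.term a u := by
    intro b hb
    rw [Finset.mem_sdiff] at hb
    exact (continuous_term p b).continuousAt.eventually_lt (continuous_term p a).continuousAt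
      (term_lt_of_notMem ha hb.1 hb.2)
  have key2 := (Filter.eventually_all_finset _).2 key
  filter_upwards [key2] with u hu b hb
  by_contra hcon
  have h1 := hu b (Finset.mem_sdiff.2 ⟨(mem_dom.1 hb).1, hcon⟩)
  exact absurd ((mem_dom.1 hb).2 a (mem_dom.1 ha).1) (not_le.2 h1)

/-- Monomials that dominate at two points dominate on the segment, and on the open segment only
these do. -/
theorem dom_segment {p : TPoly} {u v : Pt} {a : Mon} (hau : a ∈ p.dom u) (hav : a ∈ p.dom v)
    {s : ℝ} (hs0 : 0 < s) (hs1 : s < 1) : p.dom (u + s • (v - u)) = p.dom u ∩ p.dom v := by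
  have hval : ∀ b, p.term b (u + s • (v - u)) = (1 - s) * p.term b u + s * p.term b v := by
    intro b
    rw [term_add, rp_smul, rp_sub, term_eq, term_eq]; ring
  ext b
  rw [Finset.mem_inter]
  constructor
  · intro hb
    have hbs := (mem_dom.1 hb).1
    have h1 := (mem_dom.1 hb).2 a (mem_dom.1 hau).1
    rw [hval, hval] at h1
    have h2 := (mem_dom.1 hau).2 b hbs
    have h3 := (mem_dom.1 hav).2 b hbs
    have e1 : p.term b u = p.term a u := by nlinarith
    have e2 : p.term b v = p.term a v := by nlinarith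
    exact ⟨mem_dom_of_eq hau hbs e1, mem_dom_of_eq hav hbs e2⟩
  · rintro ⟨h1, h2⟩
    refine mem_dom.2 ⟨(mem_dom.1 h1).1, fun c hc => ?_⟩
    rw [hval, hval]
    have := (mem_dom.1 h1).2 c hc
    have := (mem_dom.1 h2).2 c hc
    nlinarith

/-- The unimodularity consequence of smoothness: every full-dimensional cell has five elements, and
integral dual functions. -/
def Uni (p q : TPoly) : Prop :=
  ∀ w : Pt, Spans (p.dom w) (q.dom w) → (p.dom w).Nonempty → (q.dom w).Nonempty →
    (p.dom w).card + (q.dom w).card = 5 ∧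
    (∀ x ∈ p.dom w, ∃ (d : Fin 3 → ℤ) (α β : ℤ),
      (∀ y ∈ p.dom w, pair y d + α = if y = x then 1 else 0) ∧ ∀ y ∈ q.dom w, pair y d + β = 0) ∧
    (∀ x ∈ q.dom w, ∃ (d : Fin 3 → ℤ) (α β : ℤ),
      (∀ y ∈ p.dom w, pair y d + α = 0) ∧ ∀ y ∈ q.dom w, pair y d + β = if y = x then 1 else 0)

theorem Spans.symm {A B : Finset Mon} (h : Spans A B) : Spans B A := fun d h1 h2 => h d h2 h1

theorem Uni.symm {p q : TPoly} (h : Uni p q) : Uni q p := by
  intro w hw h1 h2
  obtain ⟨h5, hA, hB⟩ := h w hw.symm h2 h1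
  refine ⟨by omega, fun x hx => ?_, fun x hx => ?_⟩
  · obtain ⟨d, α, β, e1, e2⟩ := hB x hx
    exact ⟨d, β, α, e2, e1⟩
  · obtain ⟨d, α, β, e1, e2⟩ := hA x hx
    exact ⟨d, β, α, e2, e1⟩

theorem Spans.eq_zero {A B : Finset Mon} (h : Spans A B) {d : Pt}
    (hA : ∀ y ∈ A, ∀ z ∈ A, rp y d = rp z d) (hB : ∀ y ∈ B, ∀ z ∈ B, rp y d = rp z d) : d = 0 := by
  apply h
  · rcases A.eq_empty_or_nonempty with h0 | ⟨a, ha⟩
    · exact ⟨0, by simp [h0]⟩
    · exact ⟨rp a d, fun y hy => hA y hy a ha⟩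
  · rcases B.eq_empty_or_nonempty with h0 | ⟨a, ha⟩
    · exact ⟨0, by simp [h0]⟩
    · exact ⟨rp a d, fun y hy => hB y hy a ha⟩

theorem Spans.eq_of_dom {p q : TPoly} {u v : Pt} (h : Spans (p.dom u) (q.dom u))
    (h1 : p.dom u ⊆ p.dom v) (h2 : q.dom u ⊆ q.dom v) : u = v := by
  have : v - u = 0 := by
    apply h.eq_zero
    · intro y hy z hz
      have e1 := dom_term_eq hy hz
      have e2 := dom_term_eq (h1 hy) (h1 hz)
      rw [term_eq, term_eq] at e1 e2
      rw [rp_sub, rp_sub]; linarith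
    · intro y hy z hz
      have e1 := dom_term_eq hy hz
      have e2 := dom_term_eq (h2 hy) (h2 hz)
      rw [term_eq, term_eq] at e1 e2
      rw [rp_sub, rp_sub]; linarith
  exact (sub_eq_zero.1 this).symm

end Pool.Agent.H47.Trop
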