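import Pool.Agent.H47.Trop.Geom1

set_option autoImplicit false

/-!
# Geometry of smooth tropical complete intersection curves, part 2: vertices and edges
-/

namespace Pool.Agent.H47.Trop

/-- What is used about the pair of polynomials. -/
structure Setup (p q : TPoly) (Dp Dq : ℕ) : Prop where
  uni : Uni p q
  hDp : 1 ≤ Dp
  hDq : 1 ≤ Dq
  pd : ∀ a ∈ p.supp, ∑ i, a i ≤ Dp
  p0 : (0 : Mon) ∈ p.supp
  ps : ∀ i : Fin 3, (Pi.single i Dp : Mon) ∈ p.supp
  qd : ∀ a ∈ q.supp, ∑ i, a i ≤ Dq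
  q0 : (0 : Mon) ∈ q.supp
  qs : ∀ i : Fin 3, (Pi.single i Dq : Mon) ∈ q.supp
  ex : ∀ w : Pt, ∃ w', p.dom w ⊆ p.dom w' ∧ q.dom w ⊆ q.dom w' ∧ Spans (p.dom w') (q.dom w')

theorem Setup.symm {p q : TPoly} {Dp Dq : ℕ} (h : Setup p q Dp Dq) : Setup q p Dq Dp where
  uni := h.uni.symm
  hDp := h.hDq
  hDq := h.hDp
  pd := h.qd
  p0 := h.q0
  ps := h.qs
  qd := h.pd
  q0 := h.p0
  qs := h.ps
  ex := fun w => by
    obtain ⟨w', h1, h2, h3⟩ := h.ex w
    exact ⟨w', h2, h1, h3.symm⟩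

/-- `w` is a vertex of the curve, in terms of dominating monomials. -/
def IsV (p q : TPoly) (w : Pt) : Prop :=
  2 ≤ (p.dom w).card ∧ 2 ≤ (q.dom w).card ∧ 5 ≤ (p.dom w).card + (q.dom w).card

theorem IsV.symm {p q : TPoly} {w : Pt} (h : IsV p q w) : IsV q p w :=
  ⟨h.2.1, h.1, by have := h.2.2; omega⟩

section

variable {p q : TPoly} {Dp Dq : ℕ}

theorem Setup.card_le (h : Setup p q Dp Dq) (w : Pt) : (p.dom w).card + (q.dom w).card ≤ 5 := by
  obtain ⟨w', h1, h2, h3⟩ := h.ex w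
  have h5 := (h.uni w' h3 (dom_nonempty ⟨_, h.p0⟩ _) (dom_nonempty ⟨_, h.q0⟩ _)).1
  have := Finset.card_le_card h1
  have := Finset.card_le_card h2
  omega

theorem Setup.spans (h : Setup p q Dp Dq) {w : Pt} (hw : IsV p q w) :
    Spans (p.dom w) (q.dom w) := by
  obtain ⟨w', h1, h2, h3⟩ := h.ex w
  have h5 := (h.uni w' h3 (dom_nonempty ⟨_, h.p0⟩ _) (dom_nonempty ⟨_, h.q0⟩ _)).1
  have c1 := Finset.card_le_card h1
  have c2 := Finset.card_le_card h2
  have := hw.2.2
  have e1 : p.dom w = p.dom w' := Finset.eq_of_subset_of_card_le h1 (by omega)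
  have e2 : q.dom w = q.dom w' := Finset.eq_of_subset_of_card_le h2 (by omega)
  rw [e1, e2]; exact h3

theorem Setup.card (h : Setup p q Dp Dq) {w : Pt} (hw : IsV p q w) :
    ((p.dom w).card = 3 ∧ (q.dom w).card = 2) ∨ ((p.dom w).card = 2 ∧ (q.dom w).card = 3) := by
  have := h.card_le w
  obtain ⟨h1, h2, h3⟩ := hw
  omega

theorem Setup.finite (h : Setup p q Dp Dq) : {w | IsV p q w}.Finite := by
  apply Set.Finite.of_injOn (f := fun w => (p.dom w, q.dom w))
    (t := ((p.supp.powerset ×ˢ q.supp.powerset : Finset _) : Set (Finset Mon × Finset Mon)))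
  · intro w _
    simp only [Finset.coe_product, Set.mem_prod, Finset.mem_coe, Finset.mem_powerset]
    exact ⟨dom_subset p w, dom_subset q w⟩
  · intro u hu v _ huv
    simp only [Prod.mk.injEq] at huv
    exact (h.spans hu).eq_of_dom huv.1.subset huv.2.subset
  · exact Finset.finite_toSet _

/-- The defining properties of the direction of a dart. -/
def Good (A B : Finset Mon) (E : Cell) (δ : Fin 3 → ℤ) : Prop :=
  (∀ y ∈ E.1, ∀ z ∈ E.1, pair y δ = pair z δ) ∧ (∀ y ∈ E.2, ∀ z ∈ E.2, pair y δ = pair z δ) ∧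
  (∀ x ∈ A, x ∉ E.1 → ∀ y ∈ E.1, pair x δ = pair y δ - 1) ∧
  (∀ x ∈ B, x ∉ E.2 → ∀ y ∈ E.2, pair x δ = pair y δ - 1)

theorem Good.symm {A B : Finset Mon} {E : Cell} {δ : Fin 3 → ℤ} (h : Good A B E δ) :
    Good B A E.swap δ := ⟨h.2.1, h.1, h.2.2.2, h.2.2.1⟩

theorem mem_darts {A B : Finset Mon} {E : Cell} :
    E ∈ darts A B ↔ (E.1 ⊆ A ∧ E.1.card = 2) ∧ (E.2 ⊆ B ∧ E.2.card = 2) := by
  simp [darts, Finset.mem_powersetCard]

theorem swap_mem_darts {A B : Finset Mon} {E : Cell} (h : E ∈ darts A B) : E.swap ∈ darts B A := by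
  rw [mem_darts] at h ⊢; exact ⟨h.2, h.1⟩

theorem Setup.exists_good_aux (h : Setup p q Dp Dq) {w : Pt} (hw : IsV p q w)
    (hc : (p.dom w).card = 3) {E : Cell} (hE : E ∈ darts (p.dom w) (q.dom w)) :
    ∃ δ, Good (p.dom w) (q.dom w) E δ := by
  have hsp := h.spans hw
  obtain ⟨h5, hA, -⟩ := h.uni w hsp (dom_nonempty ⟨_, h.p0⟩ _) (dom_nonempty ⟨_, h.q0⟩ _)
  rw [mem_darts] at hE
  obtain ⟨⟨h1, h1c⟩, h2, h2c⟩ := hE
  have e2 : E.2 = q.dom w := Finset.eq_of_subset_of_card_le h2 (by omega)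
  obtain ⟨x, hx⟩ : (p.dom w \ E.1).Nonempty := by
    rw [← Finset.card_pos, Finset.card_sdiff_of_subset h1]; omega
  rw [Finset.mem_sdiff] at hx
  have huniq : ∀ z ∈ p.dom w, z ∉ E.1 → z = x := by
    intro z hz hz'
    have : (p.dom w \ E.1).card = 1 := by rw [Finset.card_sdiff_of_subset h1]; omega
    rw [Finset.card_eq_one] at this
    obtain ⟨t, ht⟩ := this
    have a1 : z ∈ p.dom w \ E.1 := Finset.mem_sdiff.2 ⟨hz, hz'⟩
    have a2 : x ∈ p.dom w \ E.1 := Finset.mem_sdiff.2 hx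
    rw [ht, Finset.mem_singleton] at a1 a2
    rw [a1, a2]
  obtain ⟨d, α, β, e3, e4⟩ := hA x hx.1
  have hne : ∀ y ∈ E.1, pair y (-d) = α := by
    intro y hy
    have hyx : y ≠ x := fun hh => hx.2 (hh ▸ hy)
    have := e3 y (h1 hy)
    rw [if_neg hyx] at this
    rw [pair_neg]; omega
  have hneB : ∀ y ∈ E.2, pair y (-d) = β := by
    intro y hy
    have := e4 y (h2 hy)
    rw [pair_neg]; omega
  refine ⟨-d, fun y hy z hz => by rw [hne y hy, hne z hz], fun y hy z hz => by
    rw [hneB y hy, hneB z hz], fun z hz hz' y hy => ?_, fun z hz hz' y hy => ?_⟩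
  · have := huniq z hz hz'
    subst this
    have := e3 z hz
    rw [if_pos rfl] at this
    rw [hne y hy, pair_neg]; omega
  · exact absurd (e2 ▸ hz) hz'

theorem Setup.exists_good (h : Setup p q Dp Dq) {w : Pt} (hw : IsV p q w)
    {E : Cell} (hE : E ∈ darts (p.dom w) (q.dom w)) : ∃ δ, Good (p.dom w) (q.dom w) E δ := by
  rcases h.card hw with hc | hc
  · exact h.exists_good_aux hw hc.1 hE
  · obtain ⟨δ, hδ⟩ := h.symm.exists_good_aux hw.symm hc.2 (swap_mem_darts hE)
    exact ⟨δ, by simpa using hδ.symm⟩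

theorem Good.const_sub {A B : Finset Mon} {E : Cell} {δ δ' : Fin 3 → ℤ} (h : Good A B E δ)
    (h' : Good A B E δ') (hE : E ∈ darts A B) : ∀ y ∈ A, ∀ z ∈ A,
      rp y (zr δ - zr δ') = rp z (zr δ - zr δ') := by
  rw [mem_darts] at hE
  obtain ⟨y0, hy0⟩ : E.1.Nonempty := by rw [← Finset.card_pos]; omega
  have key : ∀ y ∈ A, rp y (zr δ - zr δ') = rp y0 (zr δ - zr δ') := by
    intro y hy
    rw [rp_sub, rp_sub, rp_zr, rp_zr, rp_zr, rp_zr]
    by_cases hy1 : y ∈ E.1
    · rw [h.1 y hy1 y0 hy0, h'.1 y hy1 y0 hy0]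
    · rw [h.2.2.1 y hy hy1 y0 hy0, h'.2.2.1 y hy hy1 y0 hy0]; push_cast; ring
  intro y hy z hz
  rw [key y hy, key z hz]

theorem Good.unique {A B : Finset Mon} {E : Cell} {δ δ' : Fin 3 → ℤ} (hs : Spans A B)
    (h : Good A B E δ) (h' : Good A B E δ') (hE : E ∈ darts A B) : δ = δ' := by
  have := hs.eq_zero (h.const_sub h' hE) (h.symm.const_sub h'.symm (swap_mem_darts hE))
  exact zr_inj (sub_eq_zero.1 this)

theorem darts32 {A B : Finset Mon} {a b c : Mon} (hab : a ≠ b) (hac : a ≠ c) (hbc : b ≠ c)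
    (hA : A = {a, b, c}) (hB : B.card = 2) :
    darts A B = {({a, b}, B), ({a, c}, B), ({b, c}, B)} := by
  ext ⟨E1, E2⟩
  rw [mem_darts]
  simp only [Finset.mem_insert, Finset.mem_singleton, Prod.mk.injEq]
  constructor
  · rintro ⟨⟨h1, h1c⟩, h2, h2c⟩
    have e2 : E2 = B := Finset.eq_of_subset_of_card_le h2 (by omega)
    subst hA
    rw [Finset.card_eq_two] at h1c
    obtain ⟨s, t, hst, rfl⟩ := h1c
    have hs : s ∈ ({a, b, c} : Finset Mon) := h1 (by simp)
    have ht : t ∈ ({a, b, c} : Finset Mon) := h1 (by simp)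
    simp only [Finset.mem_insert, Finset.mem_singleton] at hs ht
    rcases hs with rfl | rfl | rfl <;> rcases ht with rfl | rfl | rfl <;>
      simp_all [Finset.pair_comm]
  · have c1 : ({a, b} : Finset Mon).card = 2 := Finset.card_pair hab
    have c2 : ({a, c} : Finset Mon).card = 2 := Finset.card_pair hac
    have c3 : ({b, c} : Finset Mon).card = 2 := Finset.card_pair hbc
    rintro (⟨rfl, rfl⟩ | ⟨rfl, rfl⟩ | ⟨rfl, rfl⟩)
    · exact ⟨⟨by rw [hA]; intro x; simp; tauto, c1⟩, subset_rfl, hB⟩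
    · exact ⟨⟨by rw [hA]; intro x; simp; tauto, c2⟩, subset_rfl, hB⟩
    · exact ⟨⟨by rw [hA]; intro x; simp; tauto, c3⟩, subset_rfl, hB⟩

theorem Good.bal_aux {A B : Finset Mon} (hs : Spans A B) (hA : A.card = 3) (hB : B.card = 2)
    {δ : Cell → (Fin 3 → ℤ)} (h : ∀ E ∈ darts A B, Good A B E (δ E)) :
    ∑ E ∈ darts A B, δ E = 0 := by
  obtain ⟨a, b, c, hab, hac, hbc, rfl⟩ := Finset.card_eq_three.1 hA
  have hd := darts32 hab hac hbc rfl hB
  have n1 : (({a, b} : Finset Mon), B) ≠ ({a, c}, B) := by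
    intro hh
    have h2 := (Prod.mk.inj hh).1
    have : b ∈ ({a, c} : Finset Mon) := by rw [← h2]; simp
    simp only [Finset.mem_insert, Finset.mem_singleton] at this
    rcases this with h | h
    · exact hab h.symm
    · exact hbc h
  have n2 : (({a, b} : Finset Mon), B) ≠ ({b, c}, B) := by
    intro hh
    have h2 := (Prod.mk.inj hh).1
    have : a ∈ ({b, c} : Finset Mon) := by rw [← h2]; simp
    simp only [Finset.mem_insert, Finset.mem_singleton] at this
    rcases this with h | h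
    · exact hab h
    · exact hac h
  have n3 : (({a, c} : Finset Mon), B) ≠ ({b, c}, B) := by
    intro hh
    have h2 := (Prod.mk.inj hh).1
    have : a ∈ ({b, c} : Finset Mon) := by rw [← h2]; simp
    simp only [Finset.mem_insert, Finset.mem_singleton] at this
    rcases this with h | h
    · exact hab h
    · exact hac h
  have hsum : ∑ E ∈ darts {a, b, c} B, δ E = δ ({a, b}, B) + (δ ({a, c}, B) + δ ({b, c}, B)) := by
    rw [hd, Finset.sum_insert (by simp only [Finset.mem_insert, Finset.mem_singleton]; tauto),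
      Finset.sum_insert (by simp only [Finset.mem_singleton]; exact n3), Finset.sum_singleton]
  rw [hsum]
  have g1 := h ({a, b}, B) (by rw [hd]; simp)
  have g2 := h ({a, c}, B) (by rw [hd]; simp)
  have g3 := h ({b, c}, B) (by rw [hd]; simp)
  have e1 := g1.1 a (by simp) b (by simp)
  have e2 := g1.2.2.1 c (by simp) (by simp [hac.symm, hbc.symm]) a (by simp)
  have e3 := g2.1 a (by simp) c (by simp)
  have e4 := g2.2.2.1 b (by simp) (by simp [hab.symm, hbc]) a (by simp)
  have e5 := g3.1 b (by simp) c (by simp)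
  have e6 := g3.2.2.1 a (by simp) (by simp [hab, hac]) b (by simp)
  set d1 := δ ({a, b}, B)
  set d2 := δ ({a, c}, B)
  set d3 := δ ({b, c}, B)
  have key : zr (d1 + (d2 + d3)) = 0 := by
    apply hs.eq_zero
    · have hp : ∀ y ∈ ({a, b, c} : Finset Mon), pair y (d1 + (d2 + d3)) = pair a (d1 + (d2 + d3)) := by
        intro y hy
        simp only [Finset.mem_insert, Finset.mem_singleton] at hy
        simp only [pair_add]
        rcases hy with rfl | rfl | rfl
        · rfl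
        · linarith
        · linarith
      intro y hy z hz
      rw [rp_zr, rp_zr, hp y hy, hp z hz]
    · intro y hy z hz
      rw [rp_zr, rp_zr]
      simp only [pair_add]
      rw [g1.2.1 y hy z hz, g2.2.1 y hy z hz, g3.2.1 y hy z hz]
  apply zr_inj
  rw [key]
  funext i
  simp [zr]

theorem Good.indep_aux {A B : Finset Mon} (hA : A.card = 3)
    {E F : Cell} {δ δ' : Fin 3 → ℤ} (hE : E ∈ darts A B) (hF : F ∈ darts A B)
    (hE1 : E.1 ≠ F.1) (h : Good A B E δ) (h' : Good A B F δ') (s t : ℤ)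
    (hst : s • δ + t • δ' = 0) : s = 0 ∧ t = 0 := by
  rw [mem_darts] at hE hF
  -- x in E.1 not in F.1, y in F.1 not in E.1, z in both
  obtain ⟨x, hx⟩ : (E.1 \ F.1).Nonempty := by
    rw [Finset.sdiff_nonempty]
    intro hsub
    exact hE1 (Finset.eq_of_subset_of_card_le hsub (by omega))
  obtain ⟨y, hy⟩ : (F.1 \ E.1).Nonempty := by
    rw [Finset.sdiff_nonempty]
    intro hsub
    exact hE1 (Finset.eq_of_subset_of_card_le hsub (by omega)).symm
  obtain ⟨z, hz⟩ : (E.1 ∩ F.1).Nonempty := by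
    rw [← Finset.card_pos]
    have h1 := Finset.card_union_add_card_inter E.1 F.1
    have h2 := Finset.card_le_card (Finset.union_subset hE.1.1 hF.1.1)
    omega
  rw [Finset.mem_sdiff] at hx hy
  rw [Finset.mem_inter] at hz
  have a1 := h.1 x hx.1 z hz.1
  have a2 := h.2.2.1 y (hF.1.1 hy.1) hy.2 z hz.1
  have a3 := h'.1 y hy.1 z hz.2
  have a4 := h'.2.2.1 x (hE.1.1 hx.1) hx.2 z hz.2
  have hlin : ∀ m : Mon, s * pair m δ + t * pair m δ' = 0 := by
    intro m
    have : pair m (s • δ + t • δ') = 0 := by rw [hst, pair_zero]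
    rw [pair_add] at this
    have p1 : pair m (s • δ) = s * pair m δ := by
      simp only [pair, Pi.smul_apply, smul_eq_mul, Finset.mul_sum]
      exact Finset.sum_congr rfl fun i _ => by ring
    have p2 : pair m (t • δ') = t * pair m δ' := by
      simp only [pair, Pi.smul_apply, smul_eq_mul, Finset.mul_sum]
      exact Finset.sum_congr rfl fun i _ => by ring
    rw [p1, p2] at this
    exact this
  have l1 := hlin x
  have l2 := hlin y
  have l3 := hlin z
  rw [a1, a4] at l1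
  rw [a2, a3] at l2
  constructor <;> linarith

end

end Pool.Agent.H47.Trop
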