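import Pool.Agent.H47.Trop.Geom2

set_option autoImplicit false

/-!
# Geometry of smooth tropical complete intersection curves, part 3: following an edge
-/

namespace Pool.Agent.H47.Trop

variable {p q : TPoly} {Dp Dq : ℕ}

theorem Setup.line_aux (h : Setup p q Dp Dq) {w u : Pt} (hw : IsV p q w)
    (hc : (p.dom w).card = 3) {E : Cell} (hE : E ∈ darts (p.dom w) (q.dom w)) {δ : Fin 3 → ℤ}
    (hδ : Good (p.dom w) (q.dom w) E δ) (h1 : E.1 ⊆ p.dom u) (h2 : E.2 ⊆ q.dom u) :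
    ∃ s : ℝ, 0 ≤ s ∧ u = w + s • zr δ := by
  have hsp := h.spans hw
  have hE' := mem_darts.1 hE
  have hc2 : (q.dom w).card = 2 := by have := h.card hw; omega
  have e2 : E.2 = q.dom w := Finset.eq_of_subset_of_card_le hE'.2.1 (by omega)
  obtain ⟨x, hx⟩ : (p.dom w \ E.1).Nonempty := by
    rw [← Finset.card_pos, Finset.card_sdiff_of_subset hE'.1.1]; omega
  rw [Finset.mem_sdiff] at hx
  obtain ⟨y, hy⟩ : E.1.Nonempty := by rw [← Finset.card_pos]; omega
  have huniq : ∀ z ∈ p.dom w, z ∉ E.1 → z = x := by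
    intro z hz hz'
    have : (p.dom w \ E.1).card = 1 := by rw [Finset.card_sdiff_of_subset hE'.1.1]; omega
    rw [Finset.card_eq_one] at this
    obtain ⟨t, ht⟩ := this
    have a1 : z ∈ p.dom w \ E.1 := Finset.mem_sdiff.2 ⟨hz, hz'⟩
    have a2 : x ∈ p.dom w \ E.1 := Finset.mem_sdiff.2 hx
    rw [ht, Finset.mem_singleton] at a1 a2
    rw [a1, a2]
  set e := u - w with he
  have hsame : ∀ z ∈ E.1, rp z e = rp y e := by
    intro z hz
    have e1 := dom_term_eq (h1 hz) (h1 hy)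
    have e3 := dom_term_eq (hE'.1.1 hz) (hE'.1.1 hy)
    rw [term_eq, term_eq] at e1 e3
    rw [he, rp_sub, rp_sub]; linarith
  have hsameB : ∀ z ∈ q.dom w, ∀ z' ∈ q.dom w, rp z e = rp z' e := by
    intro z hz z' hz'
    rw [← e2] at hz hz'
    have e1 := dom_term_eq (h2 hz) (h2 hz')
    have e3 := dom_term_eq (hE'.2.1 hz) (hE'.2.1 hz')
    rw [term_eq, term_eq] at e1 e3
    rw [he, rp_sub, rp_sub]; linarith
  set s := rp y e - rp x e with hs
  have hs0 : 0 ≤ s := by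
    have e1 := dom_term_eq (hE'.1.1 hy) hx.1
    have e3 := (mem_dom.1 (h1 hy)).2 x (mem_dom.1 hx.1).1
    rw [term_eq, term_eq] at e1 e3
    rw [hs, he, rp_sub, rp_sub]; linarith
  refine ⟨s, hs0, ?_⟩
  have hd := hδ.2.2.1 x hx.1 hx.2 y hy
  have hes : ∀ z, rp z (e - s • zr δ) = rp z e - s * (pair z δ : ℝ) := by
    intro z; rw [rp_sub z e (s • zr δ), rp_smul, rp_zr]
  have key : e - s • zr δ = 0 := by
    apply hsp.eq_zero
    · have hk : ∀ z ∈ p.dom w, rp z (e - s • zr δ) = rp y (e - s • zr δ) := by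
        intro z hz
        by_cases hz1 : z ∈ E.1
        · rw [hes, hes, hsame z hz1, hδ.1 z hz1 y hy]
        · rw [huniq z hz hz1, hes, hes, hd]
          push_cast
          rw [hs]; ring
      intro z hz z' hz'
      rw [hk z hz, hk z' hz']
    · intro z hz z' hz'
      rw [hes, hes, hsameB z hz z' hz',
        hδ.2.1 z (by rw [e2]; exact hz) z' (by rw [e2]; exact hz')]
  rw [← sub_eq_zero.1 key, he]; abel

/-- The closed edge cell lies on a half-line starting at a vertex. -/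
theorem Setup.line (h : Setup p q Dp Dq) {w u : Pt} (hw : IsV p q w)
    {E : Cell} (hE : E ∈ darts (p.dom w) (q.dom w)) {δ : Fin 3 → ℤ}
    (hδ : Good (p.dom w) (q.dom w) E δ) (h1 : E.1 ⊆ p.dom u) (h2 : E.2 ⊆ q.dom u) :
    ∃ s : ℝ, 0 ≤ s ∧ u = w + s • zr δ := by
  rcases h.card hw with hc | hc
  · exact h.line_aux hw hc.1 hE hδ h1 h2
  · exact h.symm.line_aux hw.symm hc.2 (swap_mem_darts hE) hδ.symm h2 h1

theorem dom_eq_of {p : TPoly} {w u : Pt} {E1 : Finset Mon} (hp : p.supp.Nonempty)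
    (hE1 : E1 ⊆ p.dom w) (hne : E1.Nonempty) (hsub : p.dom u ⊆ p.dom w)
    (heq : ∀ y ∈ E1, ∀ z ∈ E1, p.term y u = p.term z u)
    (hlt : ∀ x ∈ p.dom w, x ∉ E1 → ∀ y ∈ E1, p.term x u < p.term y u) : p.dom u = E1 := by
  obtain ⟨y0, hy0⟩ := hne
  have h1 : p.dom u ⊆ E1 := by
    intro x hx
    by_contra hx1
    have := hlt x (hsub hx) hx1 y0 hy0
    exact absurd ((mem_dom.1 hx).2 y0 (mem_dom.1 (hE1 hy0)).1) (not_le.2 this)
  refine h1.antisymm ?_
  obtain ⟨a, ha⟩ := dom_nonempty hp u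
  intro y hy
  exact mem_dom_of_eq ha (mem_dom.1 (hE1 hy)).1 (heq y hy a (h1 ha))

/-- Slightly along a dart: exactly the monomials of the dart dominate. -/
theorem dom_step {p : TPoly} {w : Pt} {E1 : Finset Mon} {δ : Fin 3 → ℤ} {s : ℝ}
    (hp : p.supp.Nonempty) (hE1 : E1 ⊆ p.dom w) (hne : E1.Nonempty)
    (heq : ∀ y ∈ E1, ∀ z ∈ E1, pair y δ = pair z δ)
    (hdrop : ∀ x ∈ p.dom w, x ∉ E1 → ∀ y ∈ E1, pair x δ = pair y δ - 1)
    (hs : 0 < s ∨ p.dom w = E1) (hsub : p.dom (w + s • zr δ) ⊆ p.dom w) :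
    p.dom (w + s • zr δ) = E1 := by
  have hval : ∀ x, p.term x (w + s • zr δ) = p.term x w + s * pair x δ := by
    intro x; rw [term_add, rp_smul, rp_zr]
  apply dom_eq_of hp hE1 hne hsub
  · intro y hy z hz
    rw [hval, hval, dom_term_eq (hE1 hy) (hE1 hz), heq y hy z hz]
  · intro x hx hx1 y hy
    rcases hs with hs | hs
    · rw [hval, hval, dom_term_eq hx (hE1 hy), hdrop x hx hx1 y hy]
      push_cast
      nlinarith
    · exact absurd (hs ▸ hx) hx1

theorem tendsto_along (w : Pt) (δ : Fin 3 → ℤ) :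
    Filter.Tendsto (fun s : ℝ => w + s • zr δ) (nhds 0) (nhds w) := by
  have : Continuous fun s : ℝ => w + s • zr δ := by fun_prop
  simpa using this.tendsto 0

theorem card_pos_fst {A B : Finset Mon} {E : Cell} (hE : E ∈ darts A B) : E.1.Nonempty := by
  rw [mem_darts] at hE; rw [← Finset.card_pos]; omega

theorem card_pos_snd {A B : Finset Mon} {E : Cell} (hE : E ∈ darts A B) : E.2.Nonempty := by
  rw [mem_darts] at hE; rw [← Finset.card_pos]; omega

/-- Near a vertex along a dart. -/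
theorem Setup.near (h : Setup p q Dp Dq) {w : Pt} {E : Cell}
    (hE : E ∈ darts (p.dom w) (q.dom w)) {δ : Fin 3 → ℤ} (hδ : Good (p.dom w) (q.dom w) E δ) :
    ∀ᶠ s in nhdsWithin (0 : ℝ) (Set.Ioi 0),
      p.dom (w + s • zr δ) = E.1 ∧ q.dom (w + s • zr δ) = E.2 := by
  have h1 := (tendsto_along w δ).eventually (eventually_dom_subset p w)
  have h2 := (tendsto_along w δ).eventually (eventually_dom_subset q w)
  have hE' := mem_darts.1 hE
  filter_upwards [nhdsWithin_le_nhds h1, nhdsWithin_le_nhds h2, self_mem_nhdsWithin] with s a1 a2 a3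
  exact ⟨dom_step ⟨_, h.p0⟩ hE'.1.1 (card_pos_fst hE) hδ.1 hδ.2.2.1 (Or.inl a3) a1,
    dom_step ⟨_, h.q0⟩ hE'.2.1 (card_pos_snd hE) hδ.2.1 hδ.2.2.2 (Or.inl a3) a2⟩

/-- Near an interior point of an edge, in both directions. -/
theorem Setup.near' (h : Setup p q Dp Dq) {u : Pt} {E : Cell} (hE1 : E.1.Nonempty)
    (hE2 : E.2.Nonempty) (h1 : p.dom u = E.1) (h2 : q.dom u = E.2) {δ : Fin 3 → ℤ}
    (hδ1 : ∀ y ∈ E.1, ∀ z ∈ E.1, pair y δ = pair z δ)
    (hδ2 : ∀ y ∈ E.2, ∀ z ∈ E.2, pair y δ = pair z δ) :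
    ∀ᶠ s in nhds (0 : ℝ), p.dom (u + s • zr δ) = E.1 ∧ q.dom (u + s • zr δ) = E.2 := by
  have e1 := (tendsto_along u δ).eventually (eventually_dom_subset p u)
  have e2 := (tendsto_along u δ).eventually (eventually_dom_subset q u)
  filter_upwards [e1, e2] with s a1 a2
  refine ⟨dom_step ⟨_, h.p0⟩ h1.superset hE1 hδ1 ?_ (Or.inr h1) a1,
    dom_step ⟨_, h.q0⟩ h2.superset hE2 hδ2 ?_ (Or.inr h2) a2⟩
  · intro x hx hx1; exact absurd (h1 ▸ hx) hx1
  · intro x hx hx1; exact absurd (h2 ▸ hx) hx1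

theorem isClosed_subset_dom (p : TPoly) (E1 : Finset Mon) : IsClosed {u : Pt | E1 ⊆ p.dom u} := by
  by_cases hE : E1 ⊆ p.supp
  · have : {u : Pt | E1 ⊆ p.dom u} = ⋂ y ∈ E1, ⋂ b ∈ p.supp, {u | p.term b u ≤ p.term y u} := by
      ext u
      simp only [Set.mem_ofPred_eq, Set.mem_iInter]
      constructor
      · intro h y hy b hb
        exact (mem_dom.1 (h hy)).2 b hb
      · intro h y hy
        exact mem_dom.2 ⟨hE hy, fun b hb => h y hy b hb⟩
    rw [this]
    refine isClosed_iInter fun y => isClosed_iInter fun _ => isClosed_iInter fun b =>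
      isClosed_iInter fun _ => isClosed_le (continuous_term p b) (continuous_term p y)
  · have : {u : Pt | E1 ⊆ p.dom u} = ∅ := by
      ext u
      simp only [Set.mem_ofPred_eq, Set.mem_empty_iff_false, iff_false]
      exact fun hh => hE (hh.trans (dom_subset p u))
    rw [this]; exact isClosed_empty

/-- If some monomial grows faster along the dart than the monomials of the dart, there is another
end point. -/
theorem Setup.endpoint (h : Setup p q Dp Dq) {w : Pt} {E : Cell}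
    (hE : E ∈ darts (p.dom w) (q.dom w)) {δ : Fin 3 → ℤ} (hδ : Good (p.dom w) (q.dom w) E δ)
    (hb : (∃ z ∈ p.supp, ∃ y ∈ E.1, pair y δ < pair z δ) ∨
      ∃ z ∈ q.supp, ∃ y ∈ E.2, pair y δ < pair z δ) :
    ∃ v, IsV p q v ∧ v ≠ w ∧ E ∈ darts (p.dom v) (q.dom v) := by
  have hE' := mem_darts.1 hE
  set T : Set ℝ := {s | 0 ≤ s ∧ E.1 ⊆ p.dom (w + s • zr δ) ∧ E.2 ⊆ q.dom (w + s • zr δ)} with hT
  have hcont : Continuous fun s : ℝ => w + s • zr δ := by fun_prop
  have hclosed : IsClosed T := by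
    have : T = Set.Ici 0 ∩ ((fun s : ℝ => w + s • zr δ) ⁻¹' {u | E.1 ⊆ p.dom u} ∩
        (fun s : ℝ => w + s • zr δ) ⁻¹' {u | E.2 ⊆ q.dom u}) := by
      ext s; simp [hT, Set.mem_Ici]
    rw [this]
    exact isClosed_Ici.inter (((isClosed_subset_dom p E.1).preimage hcont).inter
      ((isClosed_subset_dom q E.2).preimage hcont))
  have hbdd : BddAbove T := by
    rcases hb with ⟨z, hz, y, hy, hyz⟩ | ⟨z, hz, y, hy, hyz⟩
    · refine ⟨p.term y w - p.term z w, fun s hs => ?_⟩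
      have h1 := (mem_dom.1 (hs.2.1 hy)).2 z hz
      rw [term_add, term_add, rp_smul, rp_smul, rp_zr, rp_zr] at h1
      have h2 : (pair y δ : ℝ) + 1 ≤ pair z δ := by exact_mod_cast hyz
      have h3 : s * 1 ≤ s * ((pair z δ : ℝ) - pair y δ) :=
        mul_le_mul_of_nonneg_left (by linarith) hs.1
      linarith
    · refine ⟨q.term y w - q.term z w, fun s hs => ?_⟩
      have h1 := (mem_dom.1 (hs.2.2 hy)).2 z hz
      rw [term_add, term_add, rp_smul, rp_smul, rp_zr, rp_zr] at h1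
      have h2 : (pair y δ : ℝ) + 1 ≤ pair z δ := by exact_mod_cast hyz
      have h3 : s * 1 ≤ s * ((pair z δ : ℝ) - pair y δ) :=
        mul_le_mul_of_nonneg_left (by linarith) hs.1
      linarith
  have h0 : (0 : ℝ) ∈ T := ⟨le_rfl, by simpa using hE'.1.1, by simpa using hE'.2.1⟩
  have hne : T.Nonempty := ⟨0, h0⟩
  set s0 := sSup T with hs0
  have hmem : s0 ∈ T := hclosed.csSup_mem hne hbdd
  have hpos : 0 < s0 := by
    have := (h.near hE hδ).and self_mem_nhdsWithin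
    obtain ⟨s, ⟨a1, a2⟩, a3⟩ := this.exists
    exact lt_of_lt_of_le a3 (le_csSup hbdd ⟨le_of_lt a3, a1.superset, a2.superset⟩)
  have hδ0 : zr δ ≠ 0 := by
    intro hz
    have hδz : δ = 0 := zr_inj (by rw [hz]; funext i; simp [zr])
    subst hδz
    simp only [pair_zero, lt_irrefl, and_false, exists_const, or_self] at hb
  refine ⟨w + s0 • zr δ, ?_, ?_, ?_⟩
  · by_contra hcon
    have c1 := Finset.card_le_card hmem.2.1
    have c2 := Finset.card_le_card hmem.2.2
    have hlt : (p.dom (w + s0 • zr δ)).card + (q.dom (w + s0 • zr δ)).card < 5 := by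
      by_contra hge
      exact hcon ⟨by omega, by omega, by omega⟩
    have e1 : E.1 = p.dom (w + s0 • zr δ) := Finset.eq_of_subset_of_card_le hmem.2.1 (by omega)
    have e2 : E.2 = q.dom (w + s0 • zr δ) := Finset.eq_of_subset_of_card_le hmem.2.2 (by omega)
    have hnear := h.near' (card_pos_fst hE) (card_pos_snd hE) e1.symm e2.symm hδ.1 hδ.2.1
    have hn2 : ∀ᶠ s in nhdsWithin (0 : ℝ) (Set.Ioi 0),
        p.dom (w + s0 • zr δ + s • zr δ) = E.1 ∧ q.dom (w + s0 • zr δ + s • zr δ) = E.2 :=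
      nhdsWithin_le_nhds hnear
    obtain ⟨s, ⟨a1, a2⟩, a3⟩ := (hn2.and self_mem_nhdsWithin).exists
    have hs : (0 : ℝ) < s := a3
    have hadd : w + s0 • zr δ + s • zr δ = w + (s0 + s) • zr δ := by rw [add_smul, add_assoc]
    rw [hadd] at a1 a2
    have : s0 + s ∈ T := ⟨by linarith, a1.superset, a2.superset⟩
    have := le_csSup hbdd this
    linarith
  · intro heq
    have : s0 • zr δ = 0 := by simpa using heq
    rcases smul_eq_zero.1 this with h3 | h3
    · exact hpos.ne' h3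
    · exact hδ0 h3
  · exact mem_darts.2 ⟨⟨hmem.2.1, hE'.1.2⟩, hmem.2.2, hE'.2.2⟩

end Pool.Agent.H47.Trop
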