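import Pool.Agent.H47.Trop.Geom3

set_option autoImplicit false

/-!
# Geometry of smooth tropical complete intersection curves, part 4: the curve facts
-/

namespace Pool.Agent.H47.Trop

variable {p q : TPoly} {Dp Dq : ℕ}

theorem Setup.two_aux (h : Setup p q Dp Dq) {w u v : Pt} (hw : IsV p q w) (hu : IsV p q u)
    {E : Cell} (hE : E ∈ darts (p.dom w) (q.dom w))
    (hEu : E ∈ darts (p.dom u) (q.dom u)) (hEv : E ∈ darts (p.dom v) (q.dom v)) (huw : u ≠ w)
    {s t : ℝ} {δ : Fin 3 → ℤ} (hs : 0 ≤ s) (hst : s < t)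
    (es : u = w + s • zr δ) (et : v = w + t • zr δ) : False := by
  have hE' := mem_darts.1 hE
  have hEu' := mem_darts.1 hEu
  have hEv' := mem_darts.1 hEv
  have hs0 : 0 < s := by
    rcases hs.lt_or_eq with h1 | h1
    · exact h1
    · exfalso; apply huw; rw [es, ← h1]; simp
  have ht0 : 0 < t := hs0.trans hst
  have hu2 : u = w + (s / t) • (v - w) := by
    rw [et, es]
    rw [add_sub_cancel_left, smul_smul, div_mul_cancel₀ _ ht0.ne']
  have hr0 : 0 < s / t := by positivity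
  have hr1 : s / t < 1 := (div_lt_one ht0).2 hst
  obtain ⟨y, hy⟩ := card_pos_fst hE
  obtain ⟨z, hz⟩ := card_pos_snd hE
  have e1 := dom_segment (hE'.1.1 hy) (hEv'.1.1 hy) hr0 hr1
  have e2 := dom_segment (hE'.2.1 hz) (hEv'.2.1 hz) hr0 hr1
  rw [← hu2] at e1 e2
  have hc := h.card_le w
  have hcu := hu.2.2
  have s1 : p.dom u ⊆ p.dom w := by rw [e1]; exact Finset.inter_subset_left
  have s2 : q.dom u ⊆ q.dom w := by rw [e2]; exact Finset.inter_subset_left
  exact huw ((h.spans hu).eq_of_dom s1 s2)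

theorem Setup.two (h : Setup p q Dp Dq) {w u v : Pt} (hw : IsV p q w) (hu : IsV p q u)
    (hv : IsV p q v) {E : Cell} (hE : E ∈ darts (p.dom w) (q.dom w))
    (hEu : E ∈ darts (p.dom u) (q.dom u)) (hEv : E ∈ darts (p.dom v) (q.dom v)) (huw : u ≠ w)
    (hvw : v ≠ w) : u = v := by
  obtain ⟨δ, hδ⟩ := h.exists_good hw hE
  have hEu' := mem_darts.1 hEu
  have hEv' := mem_darts.1 hEv
  obtain ⟨s, hs, es⟩ := h.line hw hE hδ hEu'.1.1 hEu'.2.1
  obtain ⟨t, ht, et⟩ := h.line hw hE hδ hEv'.1.1 hEv'.2.1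
  rcases lt_trichotomy s t with hst | hst | hst
  · exact (h.two_aux hw hu hE hEu hEv huw hs hst es et).elim
  · rw [es, et, hst]
  · exact (h.two_aux hw hv hE hEv hEu hvw ht hst et es).elim

theorem Setup.exists_unit (h : Setup p q Dp Dq) {w : Pt} (hw : IsV p q w) {E : Cell}
    (hE : E ∈ darts (p.dom w) (q.dom w)) {δ : Fin 3 → ℤ} (hδ : Good (p.dom w) (q.dom w) E δ) :
    ∃ x y : Mon, pair y δ - pair x δ = 1 := by
  have hE' := mem_darts.1 hE
  have hc := h.card hw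
  obtain ⟨y, hy⟩ := card_pos_fst hE
  obtain ⟨z, hz⟩ := card_pos_snd hE
  rcases hc with hc | hc
  · obtain ⟨x, hx⟩ : (p.dom w \ E.1).Nonempty := by
      rw [← Finset.card_pos, Finset.card_sdiff_of_subset hE'.1.1]; omega
    rw [Finset.mem_sdiff] at hx
    exact ⟨x, y, by rw [hδ.2.2.1 x hx.1 hx.2 y hy]; ring⟩
  · obtain ⟨x, hx⟩ : (q.dom w \ E.2).Nonempty := by
      rw [← Finset.card_pos, Finset.card_sdiff_of_subset hE'.2.1]; omega
    rw [Finset.mem_sdiff] at hx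
    exact ⟨x, z, by rw [hδ.2.2.2 x hx.1 hx.2 z hz]; ring⟩

/-- Length comparison on an edge. -/
theorem Setup.le_aux (h : Setup p q Dp Dq) {v : Pt} (hv : IsV p q v) {E : Cell}
    (hE : E ∈ darts (p.dom v) (q.dom v)) {δ δ' : Fin 3 → ℤ}
    (hδ : Good (p.dom v) (q.dom v) E δ) {s t : ℝ} (hs : 0 < s) (ht : 0 < t)
    (hst : s • zr δ + t • zr δ' = 0) : t ≤ s := by
  obtain ⟨x, y, hxy⟩ := h.exists_unit hv hE hδ
  have h1 : ∀ m : Mon, s * pair m δ + t * pair m δ' = 0 := by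
    intro m
    have : rp m (s • zr δ + t • zr δ') = 0 := by rw [hst]; simp [rp]
    rwa [rp_add, rp_smul, rp_smul, rp_zr, rp_zr] at this
  have h2 := h1 x
  have h3 := h1 y
  have h4 : (pair y δ : ℝ) - pair x δ = 1 := by exact_mod_cast hxy
  have h5 : s + t * ((pair y δ' : ℝ) - pair x δ') = 0 := by nlinarith
  have h6 : ((pair y δ' : ℝ) - pair x δ') < 0 := by
    by_contra hcon
    push Not at hcon
    have := mul_nonneg ht.le hcon
    linarith
  have h7 : pair y δ' - pair x δ' < 0 := by exact_mod_cast h6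
  have h8 : ((pair y δ' : ℝ) - pair x δ') ≤ -1 := by
    have : pair y δ' - pair x δ' ≤ -1 := by omega
    exact_mod_cast this
  nlinarith

theorem Setup.opp (h : Setup p q Dp Dq) {v w : Pt} (hv : IsV p q v) (hw : IsV p q w)
    (hvw : v ≠ w) {E : Cell} (hE : E ∈ darts (p.dom v) (q.dom v))
    (hEw : E ∈ darts (p.dom w) (q.dom w)) {δ δ' : Fin 3 → ℤ}
    (hδ : Good (p.dom v) (q.dom v) E δ) (hδ' : Good (p.dom w) (q.dom w) E δ') :
    δ' = -δ ∧ ∃ s : ℝ, 0 < s ∧ w = v + s • zr δ := by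
  have hE' := mem_darts.1 hE
  have hEw' := mem_darts.1 hEw
  obtain ⟨s, hs, es⟩ := h.line hv hE hδ hEw'.1.1 hEw'.2.1
  obtain ⟨t, ht, et⟩ := h.line hw hEw hδ' hE'.1.1 hE'.2.1
  have hs0 : 0 < s := by
    rcases hs.lt_or_eq with h1 | h1
    · exact h1
    · exfalso; apply hvw; rw [es, ← h1]; simp
  have ht0 : 0 < t := by
    rcases ht.lt_or_eq with h1 | h1
    · exact h1
    · exfalso; apply hvw; rw [et, ← h1]; simp
  have hsum : s • zr δ + t • zr δ' = 0 := by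
    have e1 : s • zr δ = w - v := by rw [es]; abel
    have e2 : t • zr δ' = v - w := by rw [et]; abel
    rw [e1, e2]; abel
  have hsum' : t • zr δ' + s • zr δ = 0 := by rw [add_comm]; exact hsum
  have h1 := h.le_aux hv hE hδ hs0 ht0 hsum
  have h2 := h.le_aux hw hEw hδ' ht0 hs0 hsum'
  have h3 : s = t := le_antisymm h2 h1
  refine ⟨?_, s, hs0, es⟩
  apply zr_inj
  rw [← h3, ← smul_add] at hsum
  have h4 := (smul_eq_zero.1 hsum).resolve_left hs0.ne'
  have h5 : zr δ' = - zr δ := by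
    rw [eq_neg_iff_add_eq_zero, add_comm]; exact h4
  rw [h5]; funext i; simp [zr]

theorem pair_rdir_le {D : ℕ} {x : Mon} (hx : ∑ i, x i ≤ D) (k : Fin 4) :
    pair x (rdir k) ≤ topv D k := by
  rw [Fin.sum_univ_three] at hx
  fin_cases k <;> simp [pair, rdir, topv, Fin.sum_univ_three] <;> omega

theorem Setup.facet_aux (h : Setup p q Dp Dq) {v : Pt} (hv : IsV p q v)
    (hc : (p.dom v).card = 3) {E : Cell}
    (hE : E ∈ darts (p.dom v) (q.dom v)) {δ : Fin 3 → ℤ} (hδ : Good (p.dom v) (q.dom v) E δ)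
    {k : Fin 4} (h1 : OnFacet Dp k E.1) (h2 : OnFacet Dq k E.2) :
    ∃ c : ℝ, 0 ≤ c ∧ zr (rdir k) = c • zr δ := by
  have hsp := h.spans hv
  have hE' := mem_darts.1 hE
  have hc2 : (q.dom v).card = 2 := by have := h.card hv; omega
  have e2 : E.2 = q.dom v := Finset.eq_of_subset_of_card_le hE'.2.1 (by omega)
  obtain ⟨x, hx⟩ : (p.dom v \ E.1).Nonempty := by
    rw [← Finset.card_pos, Finset.card_sdiff_of_subset hE'.1.1]; omega
  rw [Finset.mem_sdiff] at hx
  obtain ⟨y, hy⟩ : E.1.Nonempty := by rw [← Finset.card_pos]; omega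
  have huniq : ∀ z ∈ p.dom v, z ∉ E.1 → z = x := by
    intro z hz hz'
    have : (p.dom v \ E.1).card = 1 := by rw [Finset.card_sdiff_of_subset hE'.1.1]; omega
    rw [Finset.card_eq_one] at this
    obtain ⟨t, ht⟩ := this
    have a1 : z ∈ p.dom v \ E.1 := Finset.mem_sdiff.2 ⟨hz, hz'⟩
    have a2 : x ∈ p.dom v \ E.1 := Finset.mem_sdiff.2 hx
    rw [ht, Finset.mem_singleton] at a1 a2
    rw [a1, a2]
  set c : ℝ := (topv Dp k : ℝ) - pair x (rdir k) with hcdef
  have hc0 : 0 ≤ c := by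
    have := pair_rdir_le (h.pd x (dom_subset p v hx.1)) k
    have : (pair x (rdir k) : ℝ) ≤ topv Dp k := by exact_mod_cast this
    linarith
  refine ⟨c, hc0, ?_⟩
  have hes : ∀ z, rp z (zr (rdir k) - c • zr δ) = pair z (rdir k) - c * (pair z δ : ℝ) := by
    intro z; rw [rp_sub z _ (c • zr δ), rp_smul, rp_zr, rp_zr]
  apply sub_eq_zero.1
  apply hsp.eq_zero
  · have hk : ∀ z ∈ p.dom v, rp z (zr (rdir k) - c • zr δ) = topv Dp k - c * (pair y δ : ℝ) := by
      intro z hz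
      rw [hes]
      by_cases hz1 : z ∈ E.1
      · rw [h1 z hz1, hδ.1 z hz1 y hy]
      · rw [huniq z hz hz1, hδ.2.2.1 x hx.1 hx.2 y hy, hcdef]
        push_cast; ring
    intro z hz z' hz'
    rw [hk z hz, hk z' hz']
  · intro z hz z' hz'
    rw [hes, hes, h2 z (by rw [e2]; exact hz), h2 z' (by rw [e2]; exact hz'),
      hδ.2.1 z (by rw [e2]; exact hz) z' (by rw [e2]; exact hz')]

theorem Setup.facet (h : Setup p q Dp Dq) {v : Pt} (hv : IsV p q v) {E : Cell}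
    (hE : E ∈ darts (p.dom v) (q.dom v)) {δ : Fin 3 → ℤ} (hδ : Good (p.dom v) (q.dom v) E δ)
    {k : Fin 4} (h1 : OnFacet Dp k E.1) (h2 : OnFacet Dq k E.2) :
    ∃ c : ℝ, 0 ≤ c ∧ zr (rdir k) = c • zr δ := by
  rcases h.card hv with hc | hc
  · exact h.facet_aux hv hc.1 hE hδ h1 h2
  · exact h.symm.facet_aux hv.symm hc.2 (swap_mem_darts hE) hδ.symm h2 h1

theorem zr_rdir_ne (k : Fin 4) : zr (rdir k) ≠ 0 := by
  intro h
  fin_cases k
  · have := congrFun h 0; simp [zr, rdir] at this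
  · have := congrFun h 0; simp [zr, rdir] at this
  · have := congrFun h 1; simp [zr, rdir] at this
  · have := congrFun h 2; simp [zr, rdir] at this

theorem Setup.nofacet (h : Setup p q Dp Dq) {v w : Pt} (hv : IsV p q v) (hw : IsV p q w)
    (hvw : v ≠ w) {E : Cell} (hE : E ∈ darts (p.dom v) (q.dom v))
    (hEw : E ∈ darts (p.dom w) (q.dom w)) (k : Fin 4) :
    ¬ (OnFacet Dp k E.1 ∧ OnFacet Dq k E.2) := by
  rintro ⟨h1, h2⟩
  obtain ⟨δ, hδ⟩ := h.exists_good hv hE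
  obtain ⟨δ', hδ'⟩ := h.exists_good hw hEw
  obtain ⟨c, hc, e1⟩ := h.facet hv hE hδ h1 h2
  obtain ⟨c', hc', e2⟩ := h.facet hw hEw hδ' h1 h2
  have e3 := (h.opp hv hw hvw hE hEw hδ hδ').1
  have e4 : zr δ' = - zr δ := by rw [e3]; funext i; simp [zr]
  rw [e4] at e2
  have e5 : (c + c') • zr δ = 0 := by
    rw [add_smul, ← e1, e2]; simp
  rcases smul_eq_zero.1 e5 with h6 | h6
  · have : c = 0 := by linarith
    rw [this, zero_smul] at e1
    exact zr_rdir_ne k e1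
  · rw [h6, smul_zero] at e1
    exact zr_rdir_ne k e1

theorem Spans.no_vanish {A B : Finset Mon} (h : Spans A B) (i : Fin 3) (hA : ∀ y ∈ A, y i = 0)
    (hB : ∀ y ∈ B, y i = 0) : False := by
  have hr : ∀ y : Mon, rp y (Pi.single i (1 : ℝ)) = y i := by
    intro y
    simp [rp, Pi.single_apply]
  have := h.eq_zero (d := Pi.single i (1 : ℝ))
    (fun y hy z hz => by rw [hr, hr, hA y hy, hA z hz])
    (fun y hy z hz => by rw [hr, hr, hB y hy, hB z hz])
  have h2 := congrFun this i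
  simp at h2

theorem Spans.no_full {A B : Finset Mon} (h : Spans A B) {D D' : ℕ}
    (hA : ∀ y ∈ A, ∑ i, y i = D) (hB : ∀ y ∈ B, ∑ i, y i = D') : False := by
  have hr : ∀ y : Mon, rp y (fun _ => (1 : ℝ)) = ((∑ i, y i : ℕ) : ℝ) := by
    intro y
    simp [rp]
  have := h.eq_zero (d := fun _ => (1 : ℝ))
    (fun y hy z hz => by rw [hr, hr, hA y hy, hA z hz])
    (fun y hy z hz => by rw [hr, hr, hB y hy, hB z hz])
  have h2 := congrFun this 0
  simp at h2

/-- Slack decomposition of the pairing with `δ`. -/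
theorem slack_id (D : ℕ) (y : Mon) (δ : Fin 3 → ℤ) (μ : ℤ) :
    D * μ - pair y δ = ((D : ℤ) - (y 0 + y 1 + y 2)) * μ + y 0 * (μ - δ 0) + y 1 * (μ - δ 1) +
      y 2 * (μ - δ 2) := by
  simp only [pair, Fin.sum_univ_three]; ring

theorem pair_single (i : Fin 3) (D : ℕ) (δ : Fin 3 → ℤ) :
    pair (Pi.single i D : Mon) δ = D * δ i := by
  simp [pair, Pi.single_apply]

/-- A maximal dart value equals `D μ`. -/
theorem max_pair {p : TPoly} {D : ℕ} (hd : ∀ a ∈ p.supp, ∑ i, a i ≤ D) (h0 : (0 : Mon) ∈ p.supp)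
    (hs : ∀ i : Fin 3, (Pi.single i D : Mon) ∈ p.supp) {δ : Fin 3 → ℤ} {μ : ℤ} (hμ0 : 0 ≤ μ)
    (hμ : ∀ i, δ i ≤ μ) (hμ' : μ = 0 ∨ ∃ i, μ = δ i) {y : Mon} (hy : y ∈ p.supp)
    (hmax : ∀ z ∈ p.supp, pair z δ ≤ pair y δ) : pair y δ = D * μ := by
  apply le_antisymm
  · have h1 := hd y hy
    rw [Fin.sum_univ_three] at h1
    have h2 : (0 : ℤ) ≤ (D : ℤ) - (y 0 + y 1 + y 2) := by
      have : ((y 0 + y 1 + y 2 : ℕ) : ℤ) ≤ D := by exact_mod_cast h1
      push_cast at this; linarith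
    have := slack_id D y δ μ
    have a0 := mul_nonneg h2 hμ0
    have a1 := mul_nonneg (Int.natCast_nonneg (y 0)) (sub_nonneg.2 (hμ 0))
    have a2 := mul_nonneg (Int.natCast_nonneg (y 1)) (sub_nonneg.2 (hμ 1))
    have a3 := mul_nonneg (Int.natCast_nonneg (y 2)) (sub_nonneg.2 (hμ 2))
    linarith
  · rcases hμ' with h | ⟨i, h⟩
    · have := hmax 0 h0
      rw [h]
      simpa [pair] using this
    · have := hmax _ (hs i)
      rw [pair_single] at this
      rw [h]; exact this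

theorem Setup.ray_aux (h : Setup p q Dp Dq) {w : Pt} (hw : IsV p q w)
    (hc : (p.dom w).card = 3) {E : Cell} (hE : E ∈ darts (p.dom w) (q.dom w)) {δ : Fin 3 → ℤ}
    (hδ : Good (p.dom w) (q.dom w) E δ)
    (h1 : ∀ z ∈ p.supp, ∀ y ∈ E.1, pair z δ ≤ pair y δ)
    (h2 : ∀ z ∈ q.supp, ∀ y ∈ E.2, pair z δ ≤ pair y δ) :
    ∃ k, δ = rdir k ∧ OnFacet Dp k E.1 ∧ OnFacet Dq k E.2 := by
  have hsp := h.spans hw
  have hE' := mem_darts.1 hE
  have hc2 : (q.dom w).card = 2 := by have := h.card hw; omega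
  have e2 : E.2 = q.dom w := Finset.eq_of_subset_of_card_le hE'.2.1 (by omega)
  obtain ⟨x, hx⟩ : (p.dom w \ E.1).Nonempty := by
    rw [← Finset.card_pos, Finset.card_sdiff_of_subset hE'.1.1]; omega
  rw [Finset.mem_sdiff] at hx
  obtain ⟨y, hy⟩ : E.1.Nonempty := by rw [← Finset.card_pos]; omega
  have huniq : ∀ z ∈ p.dom w, z ∉ E.1 → z = x := by
    intro z hz hz'
    have : (p.dom w \ E.1).card = 1 := by rw [Finset.card_sdiff_of_subset hE'.1.1]; omega
    rw [Finset.card_eq_one] at this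
    obtain ⟨t, ht⟩ := this
    have a1 : z ∈ p.dom w \ E.1 := Finset.mem_sdiff.2 ⟨hz, hz'⟩
    have a2 : x ∈ p.dom w \ E.1 := Finset.mem_sdiff.2 hx
    rw [ht, Finset.mem_singleton] at a1 a2
    rw [a1, a2]
  obtain ⟨μ, hμ0, hμ, hμ'⟩ : ∃ μ : ℤ, 0 ≤ μ ∧ (∀ i, δ i ≤ μ) ∧ (μ = 0 ∨ ∃ i, μ = δ i) := by
    refine ⟨max 0 (max (δ 0) (max (δ 1) (δ 2))), le_max_left _ _, ?_, ?_⟩
    · intro i; fin_cases i <;> simp
    · rcases max_choice 0 (max (δ 0) (max (δ 1) (δ 2))) with h | h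
      · left; exact h
      · rw [h]; right
        rcases max_choice (δ 0) (max (δ 1) (δ 2)) with h' | h'
        · exact ⟨0, h'⟩
        · rw [h']
          rcases max_choice (δ 1) (δ 2) with h'' | h''
          · exact ⟨1, h''⟩
          · exact ⟨2, h''⟩
  -- slack facts
  have nonneg : ∀ (D : ℕ) (z : Mon), ∑ i, z i ≤ D → (0 : ℤ) ≤ ((D : ℤ) - (z 0 + z 1 + z 2)) * μ ∧
      (0 : ℤ) ≤ z 0 * (μ - δ 0) ∧ (0 : ℤ) ≤ z 1 * (μ - δ 1) ∧ (0 : ℤ) ≤ z 2 * (μ - δ 2) := by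
    intro D z hz
    rw [Fin.sum_univ_three] at hz
    have hz2 : (0 : ℤ) ≤ (D : ℤ) - (z 0 + z 1 + z 2) := by
      have : ((z 0 + z 1 + z 2 : ℕ) : ℤ) ≤ D := by exact_mod_cast hz
      push_cast at this; linarith
    exact ⟨mul_nonneg hz2 hμ0, mul_nonneg (Int.natCast_nonneg _) (sub_nonneg.2 (hμ 0)),
      mul_nonneg (Int.natCast_nonneg _) (sub_nonneg.2 (hμ 1)),
      mul_nonneg (Int.natCast_nonneg _) (sub_nonneg.2 (hμ 2))⟩
  have hzero : ∀ z ∈ E.1, ((Dp : ℤ) - (z 0 + z 1 + z 2)) * μ = 0 ∧ (z 0 : ℤ) * (μ - δ 0) = 0 ∧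
      (z 1 : ℤ) * (μ - δ 1) = 0 ∧ (z 2 : ℤ) * (μ - δ 2) = 0 := by
    intro z hz
    have hzs := dom_subset p w (hE'.1.1 hz)
    have a1 := max_pair h.pd h.p0 h.ps hμ0 hμ hμ' hzs (fun t ht => h1 t ht z hz)
    have a2 := slack_id Dp z δ μ
    obtain ⟨b0, b1, b2, b3⟩ := nonneg Dp z (h.pd z hzs)
    refine ⟨?_, ?_, ?_, ?_⟩ <;> linarith
  have hzero2 : ∀ z ∈ q.dom w, ((Dq : ℤ) - (z 0 + z 1 + z 2)) * μ = 0 ∧
      (z 0 : ℤ) * (μ - δ 0) = 0 ∧ (z 1 : ℤ) * (μ - δ 1) = 0 ∧ (z 2 : ℤ) * (μ - δ 2) = 0 := by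
    intro z hz
    have hzs := dom_subset q w hz
    have a1 := max_pair h.qd h.q0 h.qs hμ0 hμ hμ' hzs
      (fun t ht => h2 t ht z (by rw [e2]; exact hz))
    have a2 := slack_id Dq z δ μ
    obtain ⟨b0, b1, b2, b3⟩ := nonneg Dq z (h.qd z hzs)
    refine ⟨?_, ?_, ?_, ?_⟩ <;> linarith
  have hxs := dom_subset p w hx.1
  obtain ⟨b0, b1, b2, b3⟩ := nonneg Dp x (h.pd x hxs)
  have hxsum : ((Dp : ℤ) - (x 0 + x 1 + x 2)) * μ + x 0 * (μ - δ 0) + x 1 * (μ - δ 1) +
      x 2 * (μ - δ 2) = 1 := by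
    have a1 := max_pair h.pd h.p0 h.ps hμ0 hμ hμ' (dom_subset p w (hE'.1.1 hy))
      (fun t ht => h1 t ht y hy)
    have a2 := slack_id Dp x δ μ
    have a3 := hδ.2.2.1 x hx.1 hx.2 y hy
    linarith
  -- positive slack forces a positive contribution of x
  have c0 : 0 < μ → 1 ≤ ((Dp : ℤ) - (x 0 + x 1 + x 2)) * μ := by
    intro hpos
    by_contra hcon
    have hx0 : ((Dp : ℤ) - (x 0 + x 1 + x 2)) * μ = 0 := by omega
    have full : ∀ (D : ℕ) (z : Mon), ((D : ℤ) - (z 0 + z 1 + z 2)) * μ = 0 → ∑ i, z i = D := by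
      intro D z hz
      rcases mul_eq_zero.1 hz with h3 | h3
      · rw [Fin.sum_univ_three]; omega
      · omega
    refine hsp.no_full (D := Dp) (D' := Dq) (fun z hz => ?_) (fun z hz => full Dq z (hzero2 z hz).1)
    by_cases hz1 : z ∈ E.1
    · exact full Dp z (hzero z hz1).1
    · rw [huniq z hz hz1]; exact full Dp x hx0
  have ci : ∀ i : Fin 3, (∀ z ∈ E.1, (z i : ℤ) * (μ - δ i) = 0) →
      (∀ z ∈ q.dom w, (z i : ℤ) * (μ - δ i) = 0) → 0 < μ - δ i → 0 ≤ (x i : ℤ) * (μ - δ i) →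
      1 ≤ (x i : ℤ) * (μ - δ i) := by
    intro i hz1 hz2 hpos hnn
    by_contra hcon
    have hx0 : (x i : ℤ) * (μ - δ i) = 0 := by omega
    have van : ∀ z : Mon, (z i : ℤ) * (μ - δ i) = 0 → z i = 0 := by
      intro z hz
      rcases mul_eq_zero.1 hz with h3 | h3
      · exact_mod_cast h3
      · omega
    refine hsp.no_vanish i (fun z hz => ?_) (fun z hz => van z (hz2 z hz))
    by_cases hz3 : z ∈ E.1
    · exact van z (hz1 z hz3)
    · rw [huniq z hz hz3]; exact van x hx0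
  have c1 := fun hp => ci 0 (fun z hz => (hzero z hz).2.1) (fun z hz => (hzero2 z hz).2.1) hp b1
  have c2 := fun hp => ci 1 (fun z hz => (hzero z hz).2.2.1) (fun z hz => (hzero2 z hz).2.2.1) hp b2
  have c3 := fun hp => ci 2 (fun z hz => (hzero z hz).2.2.2) (fun z hz => (hzero2 z hz).2.2.2) hp b3
  have hμi0 := hμ 0
  have hμi1 := hμ 1
  have hμi2 := hμ 2
  by_cases k0 : 0 < μ
  · -- k = 0
    have d0 := c0 k0
    have s0 : ((Dp : ℤ) - (x 0 + x 1 + x 2)) * μ = 1 := by linarith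
    have hμ1 : μ = 1 := by
      rcases Int.mul_eq_one_iff_eq_one_or_neg_one.1 s0 with ⟨_, h4⟩ | ⟨_, h4⟩ <;> omega
    have f0 : ¬ 0 < μ - δ 0 := fun hp => by have := c1 hp; linarith
    have f1 : ¬ 0 < μ - δ 1 := fun hp => by have := c2 hp; linarith
    have f2 : ¬ 0 < μ - δ 2 := fun hp => by have := c3 hp; linarith
    refine ⟨0, ?_, ?_, ?_⟩
    · funext i; fin_cases i <;> simp [rdir] <;> omega
    · intro z hz
      have := (hzero z hz).1
      rw [hμ1] at this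
      simp [pair, rdir, topv, Fin.sum_univ_three]; omega
    · intro z hz
      have := (hzero2 z (hE'.2.1 hz)).1
      rw [hμ1] at this
      simp [pair, rdir, topv, Fin.sum_univ_three]; omega
  · have hμz : μ = 0 := by omega
    by_cases k1 : 0 < μ - δ 0
    · have d0 := c1 k1
      have s0 : (x 0 : ℤ) * (μ - δ 0) = 1 := by linarith
      have hμ1 : μ - δ 0 = 1 := by
        rcases Int.mul_eq_one_iff_eq_one_or_neg_one.1 s0 with ⟨_, h4⟩ | ⟨_, h4⟩ <;> omega
      have f1 : ¬ 0 < μ - δ 1 := fun hp => by have := c2 hp; linarith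
      have f2 : ¬ 0 < μ - δ 2 := fun hp => by have := c3 hp; linarith
      refine ⟨1, ?_, ?_, ?_⟩
      · funext i; fin_cases i <;> simp [rdir] <;> omega
      · intro z hz
        have := (hzero z hz).2.1
        rw [hμ1] at this
        simp [pair, rdir, topv, Fin.sum_univ_three]; omega
      · intro z hz
        have := (hzero2 z (hE'.2.1 hz)).2.1
        rw [hμ1] at this
        simp [pair, rdir, topv, Fin.sum_univ_three]; omega
    · by_cases k2 : 0 < μ - δ 1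
      · have d0 := c2 k2
        have s0 : (x 1 : ℤ) * (μ - δ 1) = 1 := by linarith
        have hμ1 : μ - δ 1 = 1 := by
          rcases Int.mul_eq_one_iff_eq_one_or_neg_one.1 s0 with ⟨_, h4⟩ | ⟨_, h4⟩ <;> omega
        have f2 : ¬ 0 < μ - δ 2 := fun hp => by have := c3 hp; linarith
        refine ⟨2, ?_, ?_, ?_⟩
        · funext i; fin_cases i <;> simp [rdir] <;> omega
        · intro z hz
          have := (hzero z hz).2.2.1
          rw [hμ1] at this
          simp [pair, rdir, topv, Fin.sum_univ_three]; omega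
        · intro z hz
          have := (hzero2 z (hE'.2.1 hz)).2.2.1
          rw [hμ1] at this
          simp [pair, rdir, topv, Fin.sum_univ_three]; omega
      · have k3 : 0 < μ - δ 2 := by
          by_contra hcon
          have a1 : μ - δ 0 = 0 := by omega
          have a2 : μ - δ 1 = 0 := by omega
          have a3 : μ - δ 2 = 0 := by omega
          rw [a1, a2, a3, hμz] at hxsum
          simp at hxsum
        have d0 := c3 k3
        have s0 : (x 2 : ℤ) * (μ - δ 2) = 1 := by linarith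
        have hμ1 : μ - δ 2 = 1 := by
          rcases Int.mul_eq_one_iff_eq_one_or_neg_one.1 s0 with ⟨_, h4⟩ | ⟨_, h4⟩ <;> omega
        refine ⟨3, ?_, ?_, ?_⟩
        · funext i; fin_cases i <;> simp [rdir] <;> omega
        · intro z hz
          have := (hzero z hz).2.2.2
          rw [hμ1] at this
          simp [pair, rdir, topv, Fin.sum_univ_three]; omega
        · intro z hz
          have := (hzero2 z (hE'.2.1 hz)).2.2.2
          rw [hμ1] at this
          simp [pair, rdir, topv, Fin.sum_univ_three]; omega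

theorem Setup.ray (h : Setup p q Dp Dq) {w : Pt} (hw : IsV p q w) {E : Cell}
    (hE : E ∈ darts (p.dom w) (q.dom w)) {δ : Fin 3 → ℤ} (hδ : Good (p.dom w) (q.dom w) E δ)
    (hno : ∀ v, IsV p q v → v ≠ w → E ∉ darts (p.dom v) (q.dom v)) :
    ∃ k, δ = rdir k ∧ OnFacet Dp k E.1 ∧ OnFacet Dq k E.2 := by
  have h1 : (∀ z ∈ p.supp, ∀ y ∈ E.1, pair z δ ≤ pair y δ) ∧
      (∀ z ∈ q.supp, ∀ y ∈ E.2, pair z δ ≤ pair y δ) := by
    by_contra hcon
    rw [not_and_or] at hcon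
    push Not at hcon
    obtain ⟨v, a1, a2, a3⟩ := h.endpoint hE hδ hcon
    exact hno v a1 a2 a3
  rcases h.card hw with hc | hc
  · exact h.ray_aux hw hc.1 hE hδ h1.1 h1.2
  · obtain ⟨k, e1, e2, e3⟩ :=
      h.symm.ray_aux hw.symm hc.2 (swap_mem_darts hE) hδ.symm h1.2 h1.1
    exact ⟨k, e1, e3, e2⟩

end Pool.Agent.H47.Trop
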