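import Pool.Agent.H47.Trop.Geom4
import Pool.Agent.H47.Trop.Max
import Pool.Agent.H47.Trop.Vol

set_option autoImplicit false

/-!
# Geometry of smooth tropical complete intersection curves, part 5: conclusions
-/

namespace Pool.Agent.H47.Trop

open MeasureTheory

/-- Integer version of `cay`. -/
def cz (t : ℤ) (a : Mon) : Fin 4 → ℤ := ![(a 0 : ℤ), (a 1 : ℤ), (a 2 : ℤ), t]

theorem realPt_cz (t : ℤ) (a : Mon) : realPt (cz t a) = cay a t := by
  funext i
  fin_cases i <;> simp [realPt, cz, cay]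

theorem cz_inj {t t' : ℤ} {a b : Mon} (h : cz t a = cz t' b) : t = t' ∧ a = b := by
  have h0 := congrFun h 0
  have h1 := congrFun h 1
  have h2 := congrFun h 2
  have h3 := congrFun h 3
  simp [cz] at h0 h1 h2 h3
  refine ⟨h3, ?_⟩
  funext i
  fin_cases i
  · exact_mod_cast h0
  · exact_mod_cast h1
  · exact_mod_cast h2

open Classical in
/-- The lattice points of the cell at `w`. -/
noncomputable def cellPts (A B : Finset Mon) : Finset (Fin 4 → ℤ) := A.image (cz 0) ∪ B.image (cz 1)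

theorem mem_cellPts {A B : Finset Mon} {x : Fin 4 → ℤ} :
    x ∈ cellPts A B ↔ (∃ a ∈ A, cz 0 a = x) ∨ ∃ b ∈ B, cz 1 b = x := by
  simp [cellPts]

theorem card_cellPts (A B : Finset Mon) : (cellPts A B).card = A.card + B.card := by
  classical
  unfold cellPts
  rw [Finset.card_union_of_disjoint, Finset.card_image_of_injective, Finset.card_image_of_injective]
  · intro a b h; exact (cz_inj h).2
  · intro a b h; exact (cz_inj h).2
  · rw [Finset.disjoint_left]
    intro x hx hx'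
    rw [Finset.mem_image] at hx hx'
    obtain ⟨a, _, rfl⟩ := hx
    obtain ⟨b, _, hb⟩ := hx'
    have := (cz_inj hb).1
    omega

theorem upperCell_eq {p q : TPoly} {w : Pt} {a b : Mon} (ha : a ∈ p.dom w) (hb : b ∈ q.dom w) :
    upperCell p q w (p.term a w - q.term b w) =
      realPt '' (cellPts (p.dom w) (q.dom w) : Set (Fin 4 → ℤ)) := by
  ext x
  simp only [upperCell, Set.mem_image, Finset.mem_coe, mem_cellPts]
  have hq : ∀ b' ∈ q.supp, q.term b' w + (p.term a w - q.term b w) ≤ p.term a w := by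
    intro b' hb'
    have := (mem_dom.1 hb).2 b' hb'
    linarith
  have hp : ∀ a' ∈ p.supp, p.term a' w ≤ q.term b w + (p.term a w - q.term b w) := by
    intro a' ha'
    have := (mem_dom.1 ha).2 a' ha'
    linarith
  constructor
  · rintro (⟨a', ha', rfl, h1, -⟩ | ⟨b', hb', rfl, -, h2⟩)
    · exact ⟨cz 0 a', Or.inl ⟨a', mem_dom.2 ⟨ha', h1⟩, rfl⟩, by rw [realPt_cz]; simp⟩
    · exact ⟨cz 1 b', Or.inr ⟨b', mem_dom.2 ⟨hb', h2⟩, rfl⟩, by rw [realPt_cz]; simp⟩
  · rintro ⟨x, (⟨a', ha', rfl⟩ | ⟨b', hb', rfl⟩), rfl⟩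
    · left
      refine ⟨a', (mem_dom.1 ha').1, by rw [realPt_cz]; simp, (mem_dom.1 ha').2, ?_⟩
      intro b' hb'
      rw [dom_term_eq ha' ha]; exact hq b' hb'
    · right
      refine ⟨b', (mem_dom.1 hb').1, by rw [realPt_cz]; simp, ?_, (mem_dom.1 hb').2⟩
      intro a' ha'
      rw [dom_term_eq hb' hb]; exact hp a' ha'

theorem affineSpan_top_of_spans {A B : Finset Mon} (h : Spans A B) (hA : A.Nonempty)
    (hB : B.Nonempty) : affineSpan ℝ (realPt '' (cellPts A B : Set (Fin 4 → ℤ))) = ⊤ := by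
  obtain ⟨a, ha⟩ := hA
  obtain ⟨b, hb⟩ := hB
  have hne : (realPt '' (cellPts A B : Set (Fin 4 → ℤ))).Nonempty :=
    ⟨_, ⟨cz 0 a, Finset.mem_coe.2 (mem_cellPts.2 (Or.inl ⟨a, ha, rfl⟩)), rfl⟩⟩
  rw [AffineSubspace.affineSpan_eq_top_iff_vectorSpan_eq_top_of_nonempty ℝ _ _ hne]
  by_contra hcon
  obtain ⟨f, hf0, hf⟩ := Submodule.exists_le_ker_of_lt_top _ (lt_top_iff_ne_top.2 hcon)
  have hconst : ∀ x ∈ cellPts A B, ∀ y ∈ cellPts A B, f (realPt x) = f (realPt y) := by
    intro x hx y hy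
    have : realPt x -ᵥ realPt y ∈ vectorSpan ℝ (realPt '' (cellPts A B : Set (Fin 4 → ℤ))) :=
      vsub_mem_vectorSpan ℝ ⟨x, hx, rfl⟩ ⟨y, hy, rfl⟩
    have h2 := hf this
    rw [LinearMap.mem_ker, vsub_eq_sub, map_sub] at h2
    linarith
  have hval : ∀ (t : ℤ) (c : Mon), f (realPt (cz t c)) =
      rp c (fun i => f (Pi.single i.castSucc 1)) + t * f (Pi.single 3 1) := by
    intro t c
    have : realPt (cz t c) = (c 0 : ℝ) • Pi.single 0 1 + (c 1 : ℝ) • Pi.single 1 1 +
        (c 2 : ℝ) • Pi.single 2 1 + (t : ℝ) • (Pi.single 3 1 : Fin 4 → ℝ) := by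
      funext i
      fin_cases i <;> simp [realPt, cz]
    rw [this]
    simp only [map_add, map_smul, smul_eq_mul, rp, Fin.sum_univ_three]
    rfl
  have hd : (fun i : Fin 3 => f (Pi.single i.castSucc 1)) = (0 : Pt) := by
    apply h.eq_zero
    · intro y hy z hz
      have := hconst _ (mem_cellPts.2 (Or.inl ⟨y, hy, rfl⟩)) _ (mem_cellPts.2 (Or.inl ⟨z, hz, rfl⟩))
      rw [hval, hval] at this
      linarith
    · intro y hy z hz
      have := hconst _ (mem_cellPts.2 (Or.inr ⟨y, hy, rfl⟩)) _ (mem_cellPts.2 (Or.inr ⟨z, hz, rfl⟩))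
      rw [hval, hval] at this
      linarith
  have h3 : f (Pi.single 3 1) = 0 := by
    have := hconst _ (mem_cellPts.2 (Or.inl ⟨a, ha, rfl⟩)) _ (mem_cellPts.2 (Or.inr ⟨b, hb, rfl⟩))
    rw [hval, hval, hd] at this
    simp [rp] at this
    exact this.symm
  apply hf0
  apply LinearMap.pi_ext'
  intro i
  apply LinearMap.ext_ring
  simp only [LinearMap.coe_comp, Function.comp_apply, LinearMap.single_apply, LinearMap.zero_apply]
  have h0 := congrFun hd 0
  have h1 := congrFun hd 1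
  have h2 := congrFun hd 2
  fin_cases i
  · exact h0
  · exact h1
  · exact h2
  · exact h3

theorem uni_of_smooth {p q : TPoly} (hs : Smooth p q) : Uni p q := by
  intro w hsp hA hB
  obtain ⟨a, ha⟩ := hA
  obtain ⟨b, hb⟩ := hB
  have e1 := upperCell_eq ha hb
  have e2 := affineSpan_top_of_spans hsp ⟨a, ha⟩ ⟨b, hb⟩
  have e3 := hs w (p.term a w - q.term b w)
  rw [e1] at e3
  obtain ⟨h5, hd⟩ := unimodular_of_volume _ e2 (e3 e2)
  rw [card_cellPts] at h5
  refine ⟨h5, ?_, ?_⟩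
  · intro x hx
    obtain ⟨d, c, hdc⟩ := hd _ (mem_cellPts.2 (Or.inl ⟨x, hx, rfl⟩))
    refine ⟨fun i => d i.castSucc, c, c + d 3, ?_, ?_⟩
    · intro y hy
      have := hdc _ (mem_cellPts.2 (Or.inl ⟨y, hy, rfl⟩))
      have hiff : (cz 0 y = cz 0 x) ↔ y = x := ⟨fun hh => (cz_inj hh).2, fun hh => by rw [hh]⟩
      simp only [hiff] at this
      rw [← this]
      simp [pair, cz, Fin.sum_univ_three, Fin.sum_univ_four]
      ring
    · intro y hy
      have := hdc _ (mem_cellPts.2 (Or.inr ⟨y, hy, rfl⟩))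
      have hiff : ¬ (cz 1 y = cz 0 x) := fun hh => by have := (cz_inj hh).1; omega
      rw [if_neg hiff] at this
      rw [← this]
      simp [pair, cz, Fin.sum_univ_three, Fin.sum_univ_four]
      ring
  · intro x hx
    obtain ⟨d, c, hdc⟩ := hd _ (mem_cellPts.2 (Or.inr ⟨x, hx, rfl⟩))
    refine ⟨fun i => d i.castSucc, c, c + d 3, ?_, ?_⟩
    · intro y hy
      have := hdc _ (mem_cellPts.2 (Or.inl ⟨y, hy, rfl⟩))
      have hiff : ¬ (cz 0 y = cz 1 x) := fun hh => by have := (cz_inj hh).1; omega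
      rw [if_neg hiff] at this
      rw [← this]
      simp [pair, cz, Fin.sum_univ_three, Fin.sum_univ_four]
      ring
    · intro y hy
      have := hdc _ (mem_cellPts.2 (Or.inr ⟨y, hy, rfl⟩))
      have hiff : (cz 1 y = cz 1 x) ↔ y = x := ⟨fun hh => (cz_inj hh).2, fun hh => by rw [hh]⟩
      simp only [hiff] at this
      rw [← this]
      simp [pair, cz, Fin.sum_univ_three, Fin.sum_univ_four]
      ring

theorem setup_of_smooth {p q : TPoly} {Dp Dq : ℕ} (h1 : 1 ≤ Dp) (h2 : 1 ≤ Dq)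
    (hp : p.HasDegree Dp) (hq : q.HasDegree Dq) (hs : Smooth p q) : Setup p q Dp Dq := by
  obtain ⟨a1, a2, a3, a4⟩ := hasDegree_props h1 hp
  obtain ⟨b1, b2, b3, b4⟩ := hasDegree_props h2 hq
  exact ⟨uni_of_smooth hs, h1, h2, a1, a2, a3, b1, b2, b3, exists_spans a4 ⟨_, b2⟩⟩

variable {p q : TPoly} {Dp Dq : ℕ}

theorem Setup.uniA (h : Setup p q Dp Dq) {w : Pt} (hw : IsV p q w) {x : Mon} (hx : x ∈ p.dom w) :
    ∃ e : Fin 3 → ℤ, (∀ y ∈ q.dom w, ∀ z ∈ q.dom w, pair y e = pair z e) ∧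
      ∀ y ∈ p.dom w, y ≠ x → pair x e = pair y e + 1 := by
  obtain ⟨-, hA, -⟩ := h.uni w (h.spans hw) (dom_nonempty ⟨_, h.p0⟩ _) (dom_nonempty ⟨_, h.q0⟩ _)
  obtain ⟨d, α, β, e1, e2⟩ := hA x hx
  refine ⟨d, fun y hy z hz => ?_, fun y hy hyx => ?_⟩
  · have := e2 y hy; have := e2 z hz; omega
  · have a1 := e1 y hy
    have a2 := e1 x hx
    rw [if_neg hyx] at a1
    rw [if_pos rfl] at a2
    omega

open Classical in
/-- The chosen direction of a dart. -/
noncomputable def dirOf (p q : TPoly) (w : Pt) (E : Cell) : Fin 3 → ℤ :=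
  if h : ∃ δ, Good (p.dom w) (q.dom w) E δ then h.choose else 0

theorem Setup.good_dirOf (h : Setup p q Dp Dq) {w : Pt} (hw : IsV p q w) {E : Cell}
    (hE : E ∈ darts (p.dom w) (q.dom w)) : Good (p.dom w) (q.dom w) E (dirOf p q w E) := by
  have hh := h.exists_good hw hE
  unfold dirOf
  rw [dif_pos hh]
  exact hh.choose_spec

theorem Good.indep_real_aux {A B : Finset Mon} (hA : A.card = 3)
    {E F : Cell} {δ δ' : Fin 3 → ℤ} (hE : E ∈ darts A B) (hF : F ∈ darts A B)
    (hE1 : E.1 ≠ F.1) (h : Good A B E δ) (h' : Good A B F δ') (s t : ℝ)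
    (hst : s • zr δ + t • zr δ' = 0) : s = 0 ∧ t = 0 := by
  rw [mem_darts] at hE hF
  obtain ⟨x, hx⟩ : (E.1 \ F.1).Nonempty := by
    rw [Finset.sdiff_nonempty]
    intro hsub
    exact hE1 (Finset.eq_of_subset_of_card_le hsub (by omega))
  obtain ⟨y, hy⟩ : (F.1 \ E.1).Nonempty := by
    rw [Finset.sdiff_nonempty]
    intro hsub
    exact hE1 (Finset.eq_of_subset_of_card_le hsub (by omega)).symm
  obtain ⟨z, hz⟩ : (E.1 ∩ F.1).Nonempty := by
    rw [← Finset.card_pos]
    have h1 := Finset.card_union_add_card_inter E.1 F.1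
    have h2 := Finset.card_le_card (Finset.union_subset hE.1.1 hF.1.1)
    omega
  rw [Finset.mem_sdiff] at hx hy
  rw [Finset.mem_inter] at hz
  have a1 := h.1 x hx.1 z hz.1
  have a2 := h.2.2.1 y (hF.1.1 hy.1) hy.2 z hz.1
  have a3 := h'.1 y hy.1 z hz.2
  have a4 := h'.2.2.1 x (hE.1.1 hx.1) hx.2 z hz.2
  have hlin : ∀ m : Mon, s * pair m δ + t * pair m δ' = 0 := by
    intro m
    have : rp m (s • zr δ + t • zr δ') = 0 := by rw [hst]; simp [rp]
    rwa [rp_add, rp_smul, rp_smul, rp_zr, rp_zr] at this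
  have l1 := hlin x
  have l2 := hlin y
  have l3 := hlin z
  rw [a1, a4] at l1
  rw [a2, a3] at l2
  push_cast at l1 l2
  constructor <;> linarith

theorem darts_ne {A B : Finset Mon} {E F : Cell} (hE : E ∈ darts A B) (hF : F ∈ darts A B)
    (hB : B.card = 2) (h : E ≠ F) : E.1 ≠ F.1 := by
  rw [mem_darts] at hE hF
  intro h1
  apply h
  have e1 : E.2 = B := Finset.eq_of_subset_of_card_le hE.2.1 (by omega)
  have e2 : F.2 = B := Finset.eq_of_subset_of_card_le hF.2.1 (by omega)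
  exact Prod.ext h1 (e1.trans e2.symm)

theorem Setup.indep_real (h : Setup p q Dp Dq) {w : Pt} (hw : IsV p q w) {E F : Cell}
    (hE : E ∈ darts (p.dom w) (q.dom w)) (hF : F ∈ darts (p.dom w) (q.dom w)) (hEF : E ≠ F)
    {δ δ' : Fin 3 → ℤ} (hδ : Good (p.dom w) (q.dom w) E δ) (hδ' : Good (p.dom w) (q.dom w) F δ')
    (s t : ℝ) (hst : s • zr δ + t • zr δ' = 0) : s = 0 ∧ t = 0 := by
  rcases h.card hw with hc | hc
  · exact Good.indep_real_aux hc.1 hE hF (darts_ne hE hF hc.2 hEF) hδ hδ' s t hst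
  · refine Good.indep_real_aux hc.2 (swap_mem_darts hE) (swap_mem_darts hF) ?_ hδ.symm hδ'.symm
      s t hst
    exact darts_ne (swap_mem_darts hE) (swap_mem_darts hF) hc.1
      (fun hh => hEF (Prod.swap_injective hh))

/-- Smooth curves of degrees 2 and 3 satisfy the combinatorial facts. -/
theorem Setup.curveFacts (h : Setup p q 2 3) :
    CurveFacts h.finite.toFinset p.dom q.dom (dirOf p q) := by
  have hmem : ∀ w, w ∈ h.finite.toFinset ↔ IsV p q w := by intro w; simp
  constructor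
  · intro w hw; exact h.card ((hmem w).1 hw)
  · intro w _ a ha; exact h.pd a (dom_subset p w ha)
  · intro w _ a ha; exact h.qd a (dom_subset q w ha)
  · intro v hv w _ e1 e2
    exact (h.spans ((hmem v).1 hv)).eq_of_dom e1.subset e2.subset
  · intro u hu v hv w hw E h1 h2 h3
    by_contra hcon
    push Not at hcon
    exact hcon.2.2 (h.two ((hmem u).1 hu) ((hmem v).1 hv) ((hmem w).1 hw) h1 h2 h3
      hcon.1.symm hcon.2.1.symm)
  · intro w hw E hE y hy z hz
    exact (h.good_dirOf ((hmem w).1 hw) hE).1 y hy z hz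
  · intro w hw E hE y hy z hz
    exact (h.good_dirOf ((hmem w).1 hw) hE).2.1 y hy z hz
  · intro w hw E hE x hx hx1 y hy
    exact (h.good_dirOf ((hmem w).1 hw) hE).2.2.1 x hx hx1 y hy
  · intro w hw E hE x hx hx1 y hy
    exact (h.good_dirOf ((hmem w).1 hw) hE).2.2.2 x hx hx1 y hy
  · intro w hw x hx
    exact h.uniA ((hmem w).1 hw) hx
  · intro w hw x hx
    exact h.symm.uniA ((hmem w).1 hw).symm hx
  · intro w hw
    have hw' := (hmem w).1 hw
    rcases h.card hw' with hc | hc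
    · exact Good.bal_aux (h.spans hw') hc.1 hc.2 (fun E hE => h.good_dirOf hw' hE)
    · have := Good.bal_aux (A := q.dom w) (B := p.dom w) (δ := fun E => dirOf p q w E.swap)
        (h.spans hw').symm hc.2 hc.1
        (fun E hE => by simpa using (h.good_dirOf hw' (swap_mem_darts hE)).symm)
      rw [← this]
      refine Finset.sum_bij (fun E _ => E.swap) (fun E hE => swap_mem_darts hE) ?_ ?_ ?_
      · intro E _ F _ hEF; exact Prod.swap_injective hEF
      · intro E hE; exact ⟨E.swap, swap_mem_darts hE, by simp⟩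
      · intro E _; simp
  · intro w hw E hE F hF hEF s t hst
    have hw' := (hmem w).1 hw
    have := h.indep_real hw' hE hF hEF (h.good_dirOf hw' hE) (h.good_dirOf hw' hF) s t (by
      funext i
      have := congrFun hst i
      simp only [Pi.add_apply, Pi.smul_apply, smul_eq_mul, Pi.zero_apply, zr] at this ⊢
      exact_mod_cast this)
    exact ⟨by exact_mod_cast this.1, by exact_mod_cast this.2⟩
  · intro v hv w hw hvw E hE hEw
    have hv' := (hmem v).1 hv
    have hw' := (hmem w).1 hw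
    exact (h.opp hv' hw' hvw hE hEw (h.good_dirOf hv' hE) (h.good_dirOf hw' hEw)).1
  · intro v hv w hw hvw E hE hEw
    have hv' := (hmem v).1 hv
    have hw' := (hmem w).1 hw
    obtain ⟨s, hs, e⟩ :=
      (h.opp hv' hw' hvw hE hEw (h.good_dirOf hv' hE) (h.good_dirOf hw' hEw)).2
    refine ⟨s, hs, fun i => ?_⟩
    have := congrFun e i
    simpa [zr] using this
  · intro w hw E hE hno
    have hw' := (hmem w).1 hw
    exact h.ray hw' hE (h.good_dirOf hw' hE) (fun v hv hvw => hno v ((hmem v).2 hv) hvw)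
  · intro v hv w hw hvw E hE hEw k
    exact h.nofacet ((hmem v).1 hv) ((hmem w).1 hw) hvw hE hEw k

/-- The vertices of the curve are the points with at least five dominating monomials. -/
theorem Setup.isVertex_iff (h : Setup p q Dp Dq) (w : Pt) :
    IsVertex (curve p q) w ↔ IsV p q w := by
  constructor
  · rintro ⟨⟨h1, h2⟩, h3⟩
    have c1 : 2 ≤ (p.dom w).card := h1
    have c2 : 2 ≤ (q.dom w).card := h2
    by_contra hcon
    have hlt : (p.dom w).card + (q.dom w).card < 5 := by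
      by_contra hge; exact hcon ⟨c1, c2, by omega⟩
    obtain ⟨w', s1, s2, hsp⟩ := h.ex w
    have h5 := (h.uni w' hsp (dom_nonempty ⟨_, h.p0⟩ _) (dom_nonempty ⟨_, h.q0⟩ _)).1
    have k1 := Finset.card_le_card s1
    have k2 := Finset.card_le_card s2
    have hv : IsV p q w' := ⟨by omega, by omega, by omega⟩
    have hE : ((p.dom w, q.dom w) : Cell) ∈ darts (p.dom w') (q.dom w') :=
      mem_darts.2 ⟨⟨s1, by simp; omega⟩, s2, by simp; omega⟩
    obtain ⟨δ, hδ⟩ := h.exists_good hv hE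
    obtain ⟨s, -, es⟩ := h.line hv hE hδ (u := w) subset_rfl subset_rfl
    have hU : {u | p.dom u ⊆ p.dom w ∧ q.dom u ⊆ q.dom w} ∈ nhds w :=
      (eventually_dom_subset p w).and (eventually_dom_subset q w)
    obtain ⟨x, ⟨hx1, hx2⟩, ⟨hx3, hx4⟩, hx5⟩ := h3 (zr δ) _ hU
    have d1 : 2 ≤ (p.dom x).card := hx3
    have d2 : 2 ≤ (q.dom x).card := hx4
    have e1 : p.dom x = p.dom w := Finset.eq_of_subset_of_card_le hx1 (by omega)
    have e2 : q.dom x = q.dom w := Finset.eq_of_subset_of_card_le hx2 (by omega)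
    obtain ⟨t, -, et⟩ := h.line hv hE hδ (u := x) e1.superset e2.superset
    apply hx5 (t - s)
    rw [et, es, sub_smul]; abel
  · intro hw
    refine ⟨⟨hw.1, hw.2.1⟩, ?_⟩
    intro d U hU
    by_contra hcon
    push Not at hcon
    -- two different darts
    have hcard : 2 ≤ (darts (p.dom w) (q.dom w)).card := by
      unfold darts
      rw [Finset.card_product, Finset.card_powersetCard, Finset.card_powersetCard]
      rcases h.card hw with hc | hc <;> rw [hc.1, hc.2] <;> decide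
    obtain ⟨E, hE, F, hF, hEF⟩ := Finset.one_lt_card.1 (lt_of_lt_of_le one_lt_two hcard)
    obtain ⟨δ, hδ⟩ := h.exists_good hw hE
    obtain ⟨δ', hδ'⟩ := h.exists_good hw hF
    have key : ∀ (E : Cell) (δ : Fin 3 → ℤ), E ∈ darts (p.dom w) (q.dom w) →
        Good (p.dom w) (q.dom w) E δ → ∃ s : ℝ, 0 < s ∧ ∃ t : ℝ, s • zr δ = t • d := by
      intro E δ hE hδ
      have hE' := mem_darts.1 hE
      have n1 := h.near hE hδ
      have n2 : ∀ᶠ s in nhdsWithin (0 : ℝ) (Set.Ioi 0), w + s • zr δ ∈ U :=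
        nhdsWithin_le_nhds ((tendsto_along w δ).eventually hU)
      obtain ⟨s, ⟨⟨a1, a2⟩, a3⟩, a4⟩ := ((n1.and n2).and self_mem_nhdsWithin).exists
      obtain ⟨t, ht⟩ := hcon _ a3 ⟨by
        show 2 ≤ (p.dom _).card
        rw [a1]; omega, by
        show 2 ≤ (q.dom _).card
        rw [a2]; omega⟩
      exact ⟨s, a4, t, add_left_cancel ht⟩
    obtain ⟨s1, hs1, t1, e1⟩ := key E δ hE hδ
    obtain ⟨s2, hs2, t2, e2⟩ := key F δ' hF hδ'
    have hrel : (s1 * t2) • zr δ + (-(s2 * t1)) • zr δ' = 0 := by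
      rw [mul_comm s1 t2, mul_comm s2 t1, neg_smul, mul_smul, mul_smul, e1, e2, smul_smul,
        smul_smul, mul_comm t2 t1]
      abel
    have := h.indep_real hw hE hF hEF hδ hδ' _ _ hrel
    have ht1 : t1 = 0 := by
      have := this.2
      rcases mul_eq_zero.1 (neg_eq_zero.1 this) with h1 | h1
      · exact absurd h1 hs2.ne'
      · exact h1
    rw [ht1, zero_smul] at e1
    have h0 := h.indep_real hw hE hF hEF hδ hδ' s1 0 (by rw [e1]; simp)
    exact hs1.ne' h0.1

/-- The bounded edges of the curve. -/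
theorem Setup.isEdge_iff (h : Setup p q Dp Dq) (v w : Pt) :
    IsEdge (curve p q) v w ↔ IsV p q v ∧ IsV p q w ∧ v ≠ w ∧
      ∃ E, E ∈ darts (p.dom v) (q.dom v) ∧ E ∈ darts (p.dom w) (q.dom w) := by
  unfold IsEdge
  rw [h.isVertex_iff, h.isVertex_iff]
  refine ⟨?_, ?_⟩
  · rintro ⟨hv, hw, hvw, hseg, hno⟩
    refine ⟨hv, hw, hvw, ?_⟩
    set γ : ℝ → Pt := fun s => v + s • (w - v) with hγ
    have hcont : Continuous γ := by rw [hγ]; fun_prop
    have hγ0 : γ 0 = v := by simp [hγ]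
    have hγ1 : γ 1 = w := by simp [hγ]
    have hcell : ∀ s : ℝ, 0 < s → s < 1 → (p.dom (γ s)).card = 2 ∧ (q.dom (γ s)).card = 2 := by
      intro s h0 h1
      have m1 : γ s ∈ openSegment ℝ v w := by
        rw [openSegment_eq_image']
        exact ⟨s, ⟨h0, h1⟩, rfl⟩
      have m2 := hseg (openSegment_subset_segment ℝ v w m1)
      have m3 := hno _ m1
      rw [h.isVertex_iff] at m3
      have d1 : 2 ≤ (p.dom (γ s)).card := m2.1
      have d2 : 2 ≤ (q.dom (γ s)).card := m2.2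
      have d3 : (p.dom (γ s)).card + (q.dom (γ s)).card < 5 := by
        by_contra hge; exact m3 ⟨d1, d2, by omega⟩
      omega
    have hn : ∀ᶠ s in nhds (0 : ℝ), p.dom (γ s) ⊆ p.dom v ∧ q.dom (γ s) ⊆ q.dom v := by
      have ht : Filter.Tendsto γ (nhds 0) (nhds v) := by
        have := hcont.tendsto 0; rwa [hγ0] at this
      exact (ht.eventually (eventually_dom_subset p v)).and
        (ht.eventually (eventually_dom_subset q v))
    have hn2 : ∀ᶠ s in nhdsWithin (0 : ℝ) (Set.Ioi 0), s < 1 :=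
      nhdsWithin_le_nhds (Iio_mem_nhds one_pos)
    have hn' : ∀ᶠ s in nhdsWithin (0 : ℝ) (Set.Ioi 0),
        p.dom (γ s) ⊆ p.dom v ∧ q.dom (γ s) ⊆ q.dom v := nhdsWithin_le_nhds hn
    obtain ⟨s1, ⟨⟨a1, a2⟩, a3⟩, a4⟩ := ((hn'.and hn2).and self_mem_nhdsWithin).exists
    have hs1 : (0 : ℝ) < s1 := a4
    obtain ⟨c1, c2⟩ := hcell s1 hs1 a3
    set E : Cell := (p.dom (γ s1), q.dom (γ s1)) with hE
    set T : Set ℝ := {s | E.1 ⊆ p.dom (γ s) ∧ E.2 ⊆ q.dom (γ s)} with hT
    have hTc : IsClosed T := by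
      have : T = γ ⁻¹' {u | E.1 ⊆ p.dom u} ∩ γ ⁻¹' {u | E.2 ⊆ q.dom u} := by
        ext s; simp [hT]
      rw [this]
      exact ((isClosed_subset_dom p E.1).preimage hcont).inter
        ((isClosed_subset_dom q E.2).preimage hcont)
    have hsub : Set.Icc s1 1 ⊆ T := by
      apply IsClosed.Icc_subset_of_forall_exists_gt (hTc.inter isClosed_Icc)
      · exact ⟨subset_rfl, subset_rfl⟩
      · rintro x ⟨⟨hx1, hx2⟩, hx3⟩ y hy
        have hx0 : 0 < x := lt_of_lt_of_le hs1 hx3.1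
        obtain ⟨d1, d2⟩ := hcell x hx0 hx3.2
        have e1 : E.1 = p.dom (γ x) := Finset.eq_of_subset_of_card_le hx1 (by
          rw [d1]; exact c1.ge)
        have e2 : E.2 = q.dom (γ x) := Finset.eq_of_subset_of_card_le hx2 (by
          rw [d2]; exact c2.ge)
        have hev : ∀ᶠ s in nhds x, p.dom (γ s) ⊆ p.dom (γ x) ∧ q.dom (γ s) ⊆ q.dom (γ x) :=
          (hcont.continuousAt.eventually (eventually_dom_subset p (γ x))).and
            (hcont.continuousAt.eventually (eventually_dom_subset q (γ x)))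
        have hev2 : ∀ᶠ s in nhdsWithin x (Set.Ioi x), s < min y 1 :=
          nhdsWithin_le_nhds (Iio_mem_nhds (lt_min hy hx3.2))
        have hev' : ∀ᶠ s in nhdsWithin x (Set.Ioi x),
            p.dom (γ s) ⊆ p.dom (γ x) ∧ q.dom (γ s) ⊆ q.dom (γ x) := nhdsWithin_le_nhds hev
        obtain ⟨s, ⟨⟨b1, b2⟩, b3⟩, b4⟩ := ((hev'.and hev2).and self_mem_nhdsWithin).exists
        have hsx : x < s := b4
        have hs_y : s < y := lt_of_lt_of_le b3 (min_le_left _ _)
        have hs_1 : s < 1 := lt_of_lt_of_le b3 (min_le_right _ _)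
        obtain ⟨f1, f2⟩ := hcell s (hx0.trans hsx) hs_1
        have g1 : p.dom (γ s) = p.dom (γ x) := Finset.eq_of_subset_of_card_le b1 (by omega)
        have g2 : q.dom (γ s) = q.dom (γ x) := Finset.eq_of_subset_of_card_le b2 (by omega)
        refine ⟨s, ⟨?_, ?_⟩, hsx, hs_y.le⟩
        · rw [e1, g1]
        · rw [e2, g2]
    have h1T : (1 : ℝ) ∈ T := hsub ⟨a3.le, le_rfl⟩
    rw [hT, Set.mem_ofPred_eq, hγ1] at h1T
    exact ⟨E, mem_darts.2 ⟨⟨a1, c1⟩, a2, c2⟩, mem_darts.2 ⟨⟨h1T.1, c1⟩, h1T.2, c2⟩⟩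
  · rintro ⟨hv, hw, hvw, E, hE, hEw⟩
    have hE' := mem_darts.1 hE
    have hEw' := mem_darts.1 hEw
    obtain ⟨y, hy⟩ := card_pos_fst hE
    obtain ⟨z, hz⟩ := card_pos_snd hE
    have hopen : ∀ x ∈ openSegment ℝ v w, p.dom x = p.dom v ∩ p.dom w ∧
        q.dom x = q.dom v ∩ q.dom w ∧ x ≠ v := by
      intro x hx
      rw [openSegment_eq_image'] at hx
      obtain ⟨s, ⟨hs0, hs1⟩, rfl⟩ := hx
      refine ⟨dom_segment (hE'.1.1 hy) (hEw'.1.1 hy) hs0 hs1,
        dom_segment (hE'.2.1 hz) (hEw'.2.1 hz) hs0 hs1, ?_⟩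
      intro heq
      have : s • (w - v) = 0 := by simpa using heq
      rcases smul_eq_zero.1 this with h3 | h3
      · exact hs0.ne' h3
      · exact hvw (sub_eq_zero.1 h3).symm
    refine ⟨hv, hw, hvw, ?_, ?_⟩
    · intro x hx
      rw [segment_eq_image'] at hx
      obtain ⟨s, ⟨hs0, hs1⟩, rfl⟩ := hx
      rcases hs0.eq_or_lt with h0 | h0
      · rw [← h0]
        simp only [zero_smul, add_zero]
        exact ⟨hv.1, hv.2.1⟩
      · rcases hs1.eq_or_lt with h1 | h1
        · rw [h1]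
          simp only [one_smul, add_sub_cancel]
          exact ⟨hw.1, hw.2.1⟩
        · have hx : v + s • (w - v) ∈ openSegment ℝ v w := by
            rw [openSegment_eq_image']; exact ⟨s, ⟨h0, h1⟩, rfl⟩
          obtain ⟨e1, e2, -⟩ := hopen _ hx
          refine ⟨?_, ?_⟩
          · show 2 ≤ (p.dom _).card
            rw [e1, ← hE'.1.2]
            exact Finset.card_le_card (Finset.subset_inter hE'.1.1 hEw'.1.1)
          · show 2 ≤ (q.dom _).card
            rw [e2, ← hE'.2.2]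
            exact Finset.card_le_card (Finset.subset_inter hE'.2.1 hEw'.2.1)
    · intro x hx hvx
      rw [h.isVertex_iff] at hvx
      obtain ⟨e1, e2, hne⟩ := hopen x hx
      apply hne
      exact (h.spans hvx).eq_of_dom (by rw [e1]; exact Finset.inter_subset_left)
        (by rw [e2]; exact Finset.inter_subset_left)

end Pool.Agent.H47.Trop
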