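import Pool.Agent.H47.Trop.Defs

set_option autoImplicit false

/-!
# The 14 connected trivalent graphs of genus 4 that are not sprawling

`gr0` is the complete bipartite graph `K(3,3)`, `gr1` the triangular prism.
-/

namespace Pool.Agent.H47.Trop

/-- Graph number 0. -/
def gr0 : MGraph (Fin 6) :=
  {s(0, 1), s(0, 2), s(0, 3), s(1, 4), s(1, 5), s(2, 4), s(2, 5), s(3, 4), s(3, 5)}

/-- Graph number 1. -/
def gr1 : MGraph (Fin 6) :=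
  {s(0, 1), s(0, 2), s(0, 3), s(1, 2), s(1, 4), s(2, 5), s(3, 4), s(3, 5), s(4, 5)}

/-- Graph number 2. -/
def gr2 : MGraph (Fin 6) :=
  {s(0, 1), s(0, 1), s(0, 2), s(1, 3), s(2, 4), s(2, 5), s(3, 4), s(3, 5), s(4, 5)}

/-- Graph number 3. -/
def gr3 : MGraph (Fin 6) :=
  {s(0, 1), s(0, 1), s(0, 2), s(1, 3), s(2, 4), s(2, 4), s(3, 5), s(3, 5), s(4, 5)}

/-- Graph number 4. -/
def gr4 : MGraph (Fin 6) :=
  {s(0, 1), s(0, 1), s(0, 2), s(1, 3), s(2, 3), s(2, 4), s(3, 5), s(4, 5), s(4, 5)}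

/-- Graph number 5. -/
def gr5 : MGraph (Fin 6) :=
  {s(0, 1), s(0, 1), s(0, 2), s(1, 2), s(2, 3), s(3, 4), s(3, 5), s(4, 5), s(4, 5)}

/-- Graph number 6. -/
def gr6 : MGraph (Fin 6) :=
  {s(0, 0), s(0, 1), s(1, 2), s(1, 3), s(2, 4), s(2, 5), s(3, 4), s(3, 5), s(4, 5)}

/-- Graph number 7. -/
def gr7 : MGraph (Fin 6) :=
  {s(0, 0), s(0, 1), s(1, 2), s(1, 3), s(2, 4), s(2, 4), s(3, 5), s(3, 5), s(4, 5)}

/-- Graph number 8. -/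
def gr8 : MGraph (Fin 6) :=
  {s(0, 0), s(0, 1), s(1, 2), s(1, 3), s(2, 4), s(2, 4), s(3, 4), s(3, 5), s(5, 5)}

/-- Graph number 9. -/
def gr9 : MGraph (Fin 6) :=
  {s(0, 0), s(0, 1), s(1, 2), s(1, 3), s(2, 3), s(2, 4), s(3, 5), s(4, 5), s(4, 5)}

/-- Graph number 10. -/
def gr10 : MGraph (Fin 6) :=
  {s(0, 0), s(0, 1), s(1, 2), s(1, 3), s(2, 3), s(2, 4), s(3, 5), s(4, 4), s(5, 5)}

/-- Graph number 11. -/
def gr11 : MGraph (Fin 6) :=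
  {s(0, 0), s(0, 1), s(1, 2), s(1, 3), s(2, 3), s(2, 4), s(3, 4), s(4, 5), s(5, 5)}

/-- Graph number 12. -/
def gr12 : MGraph (Fin 6) :=
  {s(0, 0), s(0, 1), s(1, 2), s(1, 2), s(2, 3), s(3, 4), s(3, 5), s(4, 5), s(4, 5)}

/-- Graph number 13. -/
def gr13 : MGraph (Fin 6) :=
  {s(0, 0), s(0, 1), s(1, 2), s(1, 2), s(2, 3), s(3, 4), s(3, 4), s(4, 5), s(5, 5)}

/-- The 14 connected trivalent graphs of genus 4 that are not sprawling. -/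
def graphs : Fin 14 → MGraph (Fin 6) :=
  ![gr0, gr1, gr2, gr3, gr4, gr5, gr6, gr7, gr8, gr9, gr10, gr11, gr12, gr13]

end Pool.Agent.H47.Trop
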