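import Pool.Agent.H47.Trop.NumCheck

/-!
TS-4 (helper58): soundness of the check.
-/

set_option autoImplicit false

namespace Pool.Agent.H47.Trop

namespace Num

/-- coordinates of a monomial -/
def tr (a : Mon) : N3 := (a 0, a 1, a 2)
/-- coordinates of a vector -/
def tz (d : Fin 3 → ℤ) : Z3 := (d 0, d 1, d 2)

theorem pair_eq (a : Mon) (d : Fin 3 → ℤ) :
    pair a d = (a 0 : ℤ) * d 0 + (a 1 : ℤ) * d 1 + (a 2 : ℤ) * d 2 := by
  unfold pair
  rw [Fin.sum_univ_three]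

/-- the determinant of the cell -/
def dx (x y z u v : Mon) : ℤ := dt (sb (tr x) (tr y)) (cr (sb (tr z) (tr y)) (sb (tr v) (tr u)))

theorem dx_swap (x y z u v : Mon) : dx y x z u v = - dx x y z u v := by
  simp only [dx, dt, sb, cr, tr]
  ring

theorem dx_rot (x y z u v : Mon) : dx z x y u v = dx x y z u v := by
  simp only [dx, dt, sb, cr, tr]
  ring

theorem isu_iff (s : ℤ) : isu s = true ↔ s = 1 ∨ s = -1 := by
  cases s with
  | ofNat n =>
    simp only [isu, Nat.beq_eq, Int.ofNat_eq_natCast]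
    omega
  | negSucc n =>
    simp only [isu, Nat.beq_eq, Int.negSucc_eq]
    omega

theorem dd_eq {x y z u v : Mon} {d : Fin 3 → ℤ} (h1 : pair z d = pair y d)
    (h2 : pair v d = pair u d) (h3 : pair x d = pair y d - 1)
    (hs : dx x y z u v = 1 ∨ dx x y z u v = -1) :
    dd (tr x) (tr y) (tr z) (tr u) (tr v) = tz d := by
  rw [pair_eq, pair_eq] at h1 h2 h3
  have hs2 : dx x y z u v * dx x y z u v = 1 := by
    rcases hs with h | h <;> rw [h] <;> norm_num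
  set s := dx x y z u v with hsdef
  have e : dd (tr x) (tr y) (tr z) (tr u) (tr v) =
      nsm s (cr (sb (tr z) (tr y)) (sb (tr v) (tr u))) := rfl
  have k0 : s * d 0 = -(cr (sb (tr z) (tr y)) (sb (tr v) (tr u))).1 := by
    rw [hsdef]
    simp only [dx, dt, sb, cr, tr]
    linear_combination (((z 1 : ℤ) - y 1) * ((v 2 : ℤ) - u 2) - ((z 2 : ℤ) - y 2) * ((v 1 : ℤ) - u 1)) * h3 +
      (((v 1 : ℤ) - u 1) * ((x 2 : ℤ) - y 2) - ((v 2 : ℤ) - u 2) * ((x 1 : ℤ) - y 1)) * h1 +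
      (((x 1 : ℤ) - y 1) * ((z 2 : ℤ) - y 2) - ((x 2 : ℤ) - y 2) * ((z 1 : ℤ) - y 1)) * h2
  have k1 : s * d 1 = -(cr (sb (tr z) (tr y)) (sb (tr v) (tr u))).2.1 := by
    rw [hsdef]
    simp only [dx, dt, sb, cr, tr]
    linear_combination (((z 2 : ℤ) - y 2) * ((v 0 : ℤ) - u 0) - ((z 0 : ℤ) - y 0) * ((v 2 : ℤ) - u 2)) * h3 +
      (((v 2 : ℤ) - u 2) * ((x 0 : ℤ) - y 0) - ((v 0 : ℤ) - u 0) * ((x 2 : ℤ) - y 2)) * h1 +
      (((x 2 : ℤ) - y 2) * ((z 0 : ℤ) - y 0) - ((x 0 : ℤ) - y 0) * ((z 2 : ℤ) - y 2)) * h2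
  have k2 : s * d 2 = -(cr (sb (tr z) (tr y)) (sb (tr v) (tr u))).2.2 := by
    rw [hsdef]
    simp only [dx, dt, sb, cr, tr]
    linear_combination (((z 0 : ℤ) - y 0) * ((v 1 : ℤ) - u 1) - ((z 1 : ℤ) - y 1) * ((v 0 : ℤ) - u 0)) * h3 +
      (((v 0 : ℤ) - u 0) * ((x 1 : ℤ) - y 1) - ((v 1 : ℤ) - u 1) * ((x 0 : ℤ) - y 0)) * h1 +
      (((x 0 : ℤ) - y 0) * ((z 1 : ℤ) - y 1) - ((x 1 : ℤ) - y 1) * ((z 0 : ℤ) - y 0)) * h2
  rw [e]
  unfold nsm tz
  refine Prod.ext ?_ (Prod.ext ?_ ?_)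
  · show -(s * (cr (sb (tr z) (tr y)) (sb (tr v) (tr u))).1) = d 0
    linear_combination (-s) * k0 + d 0 * hs2
  · show -(s * (cr (sb (tr z) (tr y)) (sb (tr v) (tr u))).2.1) = d 1
    linear_combination (-s) * k1 + d 1 * hs2
  · show -(s * (cr (sb (tr z) (tr y)) (sb (tr v) (tr u))).2.2) = d 2
    linear_combination (-s) * k2 + d 2 * hs2

/-- unimodularity from dual vectors -/
theorem dx_unit {x y z u v : Mon} {p q r : Fin 3 → ℤ}
    (p1 : pair z p = pair y p) (p2 : pair v p = pair u p) (p3 : pair x p = pair y p + 1)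
    (q1 : pair x q = pair y q) (q2 : pair v q = pair u q) (q3 : pair z q = pair y q + 1)
    (r1 : pair x r = pair y r) (r2 : pair z r = pair y r) (r3 : pair v r = pair u r + 1) :
    dx x y z u v = 1 ∨ dx x y z u v = -1 := by
  rw [pair_eq, pair_eq] at p1 p2 p3 q1 q2 q3 r1 r2 r3
  apply Int.isUnit_iff.1
  have h : dx x y z u v * (p 0 * (q 1 * r 2 - q 2 * r 1) + p 1 * (q 2 * r 0 - q 0 * r 2) +
      p 2 * (q 0 * r 1 - q 1 * r 0)) = 1 := by
    have e1 : ((x 0 : ℤ) - y 0) * p 0 + ((x 1 : ℤ) - y 1) * p 1 + ((x 2 : ℤ) - y 2) * p 2 = 1 := by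
      linear_combination p3
    have e2 : ((z 0 : ℤ) - y 0) * p 0 + ((z 1 : ℤ) - y 1) * p 1 + ((z 2 : ℤ) - y 2) * p 2 = 0 := by
      linear_combination p1
    have e3 : ((v 0 : ℤ) - u 0) * p 0 + ((v 1 : ℤ) - u 1) * p 1 + ((v 2 : ℤ) - u 2) * p 2 = 0 := by
      linear_combination p2
    have e4 : ((x 0 : ℤ) - y 0) * q 0 + ((x 1 : ℤ) - y 1) * q 1 + ((x 2 : ℤ) - y 2) * q 2 = 0 := by
      linear_combination q1
    have e5 : ((z 0 : ℤ) - y 0) * q 0 + ((z 1 : ℤ) - y 1) * q 1 + ((z 2 : ℤ) - y 2) * q 2 = 1 := by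
      linear_combination q3
    have e6 : ((v 0 : ℤ) - u 0) * q 0 + ((v 1 : ℤ) - u 1) * q 1 + ((v 2 : ℤ) - u 2) * q 2 = 0 := by
      linear_combination q2
    have e7 : ((x 0 : ℤ) - y 0) * r 0 + ((x 1 : ℤ) - y 1) * r 1 + ((x 2 : ℤ) - y 2) * r 2 = 0 := by
      linear_combination r1
    have e8 : ((z 0 : ℤ) - y 0) * r 0 + ((z 1 : ℤ) - y 1) * r 1 + ((z 2 : ℤ) - y 2) * r 2 = 0 := by
      linear_combination r2
    have e9 : ((v 0 : ℤ) - u 0) * r 0 + ((v 1 : ℤ) - u 1) * r 1 + ((v 2 : ℤ) - u 2) * r 2 = 1 := by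
      linear_combination r3
    have key : ∀ a0 a1 a2 b0 b1 b2 c0 c1 c2 p0 p1 p2 q0 q1 q2 r0 r1 r2 : ℤ,
        a0 * p0 + a1 * p1 + a2 * p2 = 1 → b0 * p0 + b1 * p1 + b2 * p2 = 0 →
        c0 * p0 + c1 * p1 + c2 * p2 = 0 → a0 * q0 + a1 * q1 + a2 * q2 = 0 →
        b0 * q0 + b1 * q1 + b2 * q2 = 1 → c0 * q0 + c1 * q1 + c2 * q2 = 0 →
        a0 * r0 + a1 * r1 + a2 * r2 = 0 → b0 * r0 + b1 * r1 + b2 * r2 = 0 →
        c0 * r0 + c1 * r1 + c2 * r2 = 1 →
        (a0 * (b1 * c2 - b2 * c1) + a1 * (b2 * c0 - b0 * c2) + a2 * (b0 * c1 - b1 * c0)) *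
          (p0 * (q1 * r2 - q2 * r1) + p1 * (q2 * r0 - q0 * r2) + p2 * (q0 * r1 - q1 * r0)) = 1 := by
      intro a0 a1 a2 b0 b1 b2 c0 c1 c2 p0 p1 p2 q0 q1 q2 r0 r1 r2 h1 h2 h3 h4 h5 h6 h7 h8 h9
      have : (a0 * (b1 * c2 - b2 * c1) + a1 * (b2 * c0 - b0 * c2) + a2 * (b0 * c1 - b1 * c0)) *
          (p0 * (q1 * r2 - q2 * r1) + p1 * (q2 * r0 - q0 * r2) + p2 * (q0 * r1 - q1 * r0)) =
          (a0 * p0 + a1 * p1 + a2 * p2) * ((b0 * q0 + b1 * q1 + b2 * q2) *
            (c0 * r0 + c1 * r1 + c2 * r2) - (b0 * r0 + b1 * r1 + b2 * r2) *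
            (c0 * q0 + c1 * q1 + c2 * q2)) -
          (a0 * q0 + a1 * q1 + a2 * q2) * ((b0 * p0 + b1 * p1 + b2 * p2) *
            (c0 * r0 + c1 * r1 + c2 * r2) - (b0 * r0 + b1 * r1 + b2 * r2) *
            (c0 * p0 + c1 * p1 + c2 * p2)) +
          (a0 * r0 + a1 * r1 + a2 * r2) * ((b0 * p0 + b1 * p1 + b2 * p2) *
            (c0 * q0 + c1 * q1 + c2 * q2) - (b0 * q0 + b1 * q1 + b2 * q2) *
            (c0 * p0 + c1 * p1 + c2 * p2)) := by ring
      rw [this, h1, h2, h3, h4, h5, h6, h7, h8, h9]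
      norm_num
    exact key _ _ _ _ _ _ _ _ _ _ _ _ _ _ _ _ _ _ e1 e2 e3 e4 e5 e6 e7 e8 e9
  exact IsUnit.of_mul_eq_one _ h

theorem nn_cast (n : ℕ) : nn (n : ℤ) = true := rfl

theorem ge2_cast (n : ℕ) : ge2 (n : ℤ) = Nat.ble 2 n := rfl

theorem okn_of {n : Fin 4 → ℕ} (hbig : ∃ k l : Fin 4, k ≠ l ∧ 2 ≤ n k ∧ 2 ≤ n l) :
    okn (n 0 : ℤ) (n 1 : ℤ) (n 2 : ℤ) (n 3 : ℤ) = true := by
  obtain ⟨k, l, hkl, hk, hl⟩ := hbig
  simp only [okn, nn_cast, ge2_cast, Bool.true_and]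
  have hk' : Nat.ble 2 (n k) = true := by rw [Nat.ble_eq]; exact hk
  have hl' : Nat.ble 2 (n l) = true := by rw [Nat.ble_eq]; exact hl
  clear hk hl
  unfold two4
  fin_cases k <;> fin_cases l <;> first | exact absurd rfl hkl | skip
  all_goals
    simp only [Fin.mk_one, Fin.zero_eta, Fin.isValue, Fin.reduceFinMk] at hk' hl'
    simp [hk', hl']

/-- what is known about the dart in which `x` is dropped -/
structure DartData (x y z u v : Mon) (d : Fin 3 → ℤ) (g : ℕ) (n : Fin 4 → ℕ) : Prop where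
  e1 : pair z d = pair y d
  e2 : pair v d = pair u d
  e3 : pair x d = pair y d - 1
  hn : ∀ i : Fin 3, (n i.succ : ℤ) = n 0 - d i
  hg : 2 * (g : ℤ) - 1 = n 0 - pair y d - pair u d + ∑ i, d i
  big : ∃ k l : Fin 4, k ≠ l ∧ 2 ≤ n k ∧ 2 ≤ n l

theorem DartData.dok {x y z u v : Mon} {d : Fin 3 → ℤ} {g : ℕ} {n : Fin 4 → ℕ}
    (h : DartData x y z u v d g n) (hs : dx x y z u v = 1 ∨ dx x y z u v = -1) {t : ℤ}
    (ht : 2 * (g : ℤ) - 1 = t) :
    Num.dok t (tr y) (tr u) (dd (tr x) (tr y) (tr z) (tr u) (tr v)) = true := by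
  rw [dd_eq h.e1 h.e2 h.e3 hs]
  have h0 : t + du (tr y) (tr u) (tz d) = n 0 := by
    have h1 := h.hg
    rw [pair_eq, pair_eq, Fin.sum_univ_three] at h1
    simp only [du, tr, tz]
    linarith
  have h1 := h.hn 0
  have h2 := h.hn 1
  have h3 := h.hn 2
  unfold Num.dok okc
  rw [h0]
  show okn (n 0 : ℤ) ((n 0 : ℤ) - d 0) ((n 0 : ℤ) - d 1) ((n 0 : ℤ) - d 2) = true
  rw [← h1, ← h2, ← h3]
  exact okn_of h.big

theorem core {x y z u v : Mon} (hchk : chk (tr x) (tr y) (tr z) (tr u) (tr v) = true)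
    (f0 : fac (tr y) (tr z) (tr u) (tr v) ≠ true) (f1 : fac (tr x) (tr z) (tr u) (tr v) ≠ true)
    (f2 : fac (tr x) (tr y) (tr u) (tr v) ≠ true)
    (hs : dx x y z u v = 1 ∨ dx x y z u v = -1)
    {d0 d1 d2 : Fin 3 → ℤ} {g0 g1 g2 : ℕ} {n0 n1 n2 : Fin 4 → ℕ}
    (D0 : DartData x y z u v d0 g0 n0) (D1 : DartData y x z u v d1 g1 n1)
    (D2 : DartData z x y u v d2 g2 n2) (hg0 : 1 ≤ g0) (hg1 : 1 ≤ g1) (hg2 : 1 ≤ g2)
    (hg : g0 + g1 + g2 = 4) : False := by
  have hs1 : dx y x z u v = 1 ∨ dx y x z u v = -1 := by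
    rw [dx_swap]
    omega
  have hs2 : dx z x y u v = 1 ∨ dx z x y u v = -1 := by
    rw [dx_rot]
    exact hs
  have hu : isu (dt (sb (tr x) (tr y)) (cr (sb (tr z) (tr y)) (sb (tr v) (tr u)))) = true :=
    (isu_iff _).2 hs
  rw [Ne, Bool.not_eq_true] at f0 f1 f2
  unfold chk at hchk
  rw [f0, f1, f2, hu] at hchk
  simp only [Bool.or_self, Bool.not_true, Bool.false_or] at hchk
  unfold fail at hchk
  have hcase : (g0 = 2 ∧ g1 = 1 ∧ g2 = 1) ∨ (g0 = 1 ∧ g1 = 2 ∧ g2 = 1) ∨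
      (g0 = 1 ∧ g1 = 1 ∧ g2 = 2) := by omega
  rcases hcase with ⟨h0, h1, h2⟩ | ⟨h0, h1, h2⟩ | ⟨h0, h1, h2⟩
  · have a0 := D0.dok hs (t := 3) (by rw [h0]; norm_num)
    have a1 := D1.dok hs1 (t := 1) (by rw [h1]; norm_num)
    have a2 := D2.dok hs2 (t := 1) (by rw [h2]; norm_num)
    rw [a0, a1, a2] at hchk
    simp at hchk
  · have a0 := D0.dok hs (t := 1) (by rw [h0]; norm_num)
    have a1 := D1.dok hs1 (t := 3) (by rw [h1]; norm_num)
    have a2 := D2.dok hs2 (t := 1) (by rw [h2]; norm_num)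
    rw [a0, a1, a2] at hchk
    simp at hchk
  · have a0 := D0.dok hs (t := 1) (by rw [h0]; norm_num)
    have a1 := D1.dok hs1 (t := 1) (by rw [h1]; norm_num)
    have a2 := D2.dok hs2 (t := 3) (by rw [h2]; norm_num)
    rw [a0, a1, a2] at hchk
    simp at hchk

theorem fac_onFacet {D D' : ℕ} (hD : D + D' = 5) {y z u v : Mon} (hy : ∑ i, y i ≤ D)
    (hz : ∑ i, z i ≤ D) (hu : ∑ i, u i ≤ D') (hv : ∑ i, v i ≤ D')
    (h : fac (tr y) (tr z) (tr u) (tr v) = true) :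
    ∃ k, OnFacet D k {y, z} ∧ OnFacet D' k {u, v} := by
  rw [Fin.sum_univ_three] at hy hz hu hv
  simp only [fac, tr, Bool.or_eq_true, Nat.beq_eq] at h
  rcases h with ((h | h) | h) | h
  · refine ⟨1, ?_, ?_⟩
    · intro w hw
      rw [Finset.mem_insert, Finset.mem_singleton] at hw
      rw [pair_eq]
      have : w 0 = 0 := by rcases hw with rfl | rfl <;> omega
      simp [rdir, topv, this]
    · intro w hw
      rw [Finset.mem_insert, Finset.mem_singleton] at hw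
      rw [pair_eq]
      have : w 0 = 0 := by rcases hw with rfl | rfl <;> omega
      simp [rdir, topv, this]
  · refine ⟨2, ?_, ?_⟩
    · intro w hw
      rw [Finset.mem_insert, Finset.mem_singleton] at hw
      rw [pair_eq]
      have : w 1 = 0 := by rcases hw with rfl | rfl <;> omega
      simp [rdir, topv, this]
    · intro w hw
      rw [Finset.mem_insert, Finset.mem_singleton] at hw
      rw [pair_eq]
      have : w 1 = 0 := by rcases hw with rfl | rfl <;> omega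
      simp [rdir, topv, this]
  · refine ⟨3, ?_, ?_⟩
    · intro w hw
      rw [Finset.mem_insert, Finset.mem_singleton] at hw
      rw [pair_eq]
      have : w 2 = 0 := by rcases hw with rfl | rfl <;> omega
      simp [rdir, topv, this]
    · intro w hw
      rw [Finset.mem_insert, Finset.mem_singleton] at hw
      rw [pair_eq]
      have : w 2 = 0 := by rcases hw with rfl | rfl <;> omega
      simp [rdir, topv, this]
  · refine ⟨0, ?_, ?_⟩
    · intro w hw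
      rw [Finset.mem_insert, Finset.mem_singleton] at hw
      rw [pair_eq]
      have : w 0 + w 1 + w 2 = D := by rcases hw with rfl | rfl <;> omega
      simp only [rdir, topv, if_true, Matrix.cons_val_zero, Matrix.cons_val_one,
        Matrix.cons_val]
      omega
    · intro w hw
      rw [Finset.mem_insert, Finset.mem_singleton] at hw
      rw [pair_eq]
      have : w 0 + w 1 + w 2 = D' := by rcases hw with rfl | rfl <;> omega
      simp only [rdir, topv, if_true, Matrix.cons_val_zero, Matrix.cons_val_one,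
        Matrix.cons_val]
      omega

theorem mem_P2 {a : Mon} (h : ∑ i, a i ≤ 2) : tr a ∈ P2 := by
  rw [Fin.sum_univ_three] at h
  unfold tr
  have h0 : a 0 ≤ 2 := by omega
  have h1 : a 1 ≤ 2 := by omega
  have h2 : a 2 ≤ 2 := by omega
  generalize a 0 = r at *
  generalize a 1 = s at *
  generalize a 2 = t at *
  interval_cases r <;> interval_cases s <;> interval_cases t <;> first | omega | decide

theorem mem_P3 {a : Mon} (h : ∑ i, a i ≤ 3) : tr a ∈ P3 := by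
  rw [Fin.sum_univ_three] at h
  unfold tr
  have h0 : a 0 ≤ 3 := by omega
  have h1 : a 1 ≤ 3 := by omega
  have h2 : a 2 ≤ 3 := by omega
  generalize a 0 = r at *
  generalize a 1 = s at *
  generalize a 2 = t at *
  interval_cases r <;> interval_cases s <;> interval_cases t <;> first | omega | decide

theorem enc_inj {a b : Mon} (ha : ∑ i, a i ≤ 3) (hb : ∑ i, b i ≤ 3)
    (h : enc (tr a) = enc (tr b)) : a = b := by
  rw [Fin.sum_univ_three] at ha hb
  simp only [enc, tr] at h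
  have a0 : (16 * a 0 + (4 * a 1 + a 2)) / 16 = a 0 := by omega
  have b0 : (16 * b 0 + (4 * b 1 + b 2)) / 16 = b 0 := by omega
  have h0 : a 0 = b 0 := by rw [← a0, h, b0]
  have h' : 4 * a 1 + a 2 = 4 * b 1 + b 2 := by omega
  have a1 : (4 * a 1 + a 2) / 4 = a 1 := by omega
  have b1 : (4 * b 1 + b 2) / 4 = b 1 := by omega
  have h1 : a 1 = b 1 := by rw [← a1, h', b1]
  have h2 : a 2 = b 2 := by omega
  funext i
  fin_cases i
  · exact h0
  · exact h1
  · exact h2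

theorem sorted2 {X : Finset Mon} (hX : X.card = 2) (hd : ∀ a ∈ X, ∑ i, a i ≤ 3) :
    ∃ x y, X = {x, y} ∧ enc (tr x) < enc (tr y) := by
  classical
  obtain ⟨x, y, hxy, rfl⟩ := Finset.card_eq_two.1 hX
  have hx := hd x (by simp)
  have hy := hd y (by simp)
  rcases lt_or_gt_of_ne (fun h => hxy (enc_inj hx hy h)) with h | h
  · exact ⟨x, y, rfl, h⟩
  · exact ⟨y, x, Finset.pair_comm _ _, h⟩

theorem sorted3 {X : Finset Mon} (hX : X.card = 3) (hd : ∀ a ∈ X, ∑ i, a i ≤ 3) :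
    ∃ x y z, X = {x, y, z} ∧ enc (tr x) < enc (tr y) ∧ enc (tr y) < enc (tr z) := by
  classical
  obtain ⟨x, y, z, hxy, hxz, hyz, rfl⟩ := Finset.card_eq_three.1 hX
  have hx := hd x (by simp)
  have hy := hd y (by simp)
  have hz := hd z (by simp)
  have exy : enc (tr x) ≠ enc (tr y) := fun h => hxy (enc_inj hx hy h)
  have exz : enc (tr x) ≠ enc (tr z) := fun h => hxz (enc_inj hx hz h)
  have eyz : enc (tr y) ≠ enc (tr z) := fun h => hyz (enc_inj hy hz h)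
  have hp : ∀ a b c : Mon, (∀ w, (w = x ∨ w = y ∨ w = z) ↔ (w = a ∨ w = b ∨ w = c)) →
      ({x, y, z} : Finset Mon) = {a, b, c} := by
    intro a b c h
    ext w
    simp only [Finset.mem_insert, Finset.mem_singleton]
    exact h w
  rcases lt_or_gt_of_ne exy with h1 | h1 <;> rcases lt_or_gt_of_ne exz with h2 | h2 <;>
    rcases lt_or_gt_of_ne eyz with h3 | h3
  · exact ⟨x, y, z, rfl, h1, h3⟩
  · exact ⟨x, z, y, hp _ _ _ (fun w => by tauto), h2, h3⟩
  · omega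
  · exact ⟨z, x, y, hp _ _ _ (fun w => by tauto), h2, h1⟩
  · exact ⟨y, x, z, hp _ _ _ (fun w => by tauto), h1, h2⟩
  · omega
  · exact ⟨y, z, x, hp _ _ _ (fun w => by tauto), h3, h2⟩
  · exact ⟨z, y, x, hp _ _ _ (fun w => by tauto), h3, h1⟩

theorem all3_sound {L M : List N3} (h : all3 L M = true) {x y z u v : N3} (hx : x ∈ L)
    (hy : y ∈ L) (hz : z ∈ L) (hu : u ∈ M) (hv : v ∈ M) (hxy : enc x < enc y)
    (hyz : enc y < enc z) (huv : enc u < enc v) (cu : cor x u = true ∧ cor y u = true ∧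
      cor z u = true) (cv : cor x v = true ∧ cor y v = true ∧ cor z v = true) :
    chk x y z u v = true := by
  unfold all3 at h
  have h1 := List.all_eq_true.1 (List.all_eq_true.1 h x hx) y hy
  rw [Bool.or_eq_true] at h1
  rcases h1 with h1 | h1
  · rw [Nat.ble_eq] at h1
    omega
  have h2 := List.all_eq_true.1 h1 z hz
  rw [Bool.or_eq_true] at h2
  rcases h2 with h2 | h2
  · rw [Nat.ble_eq] at h2
    omega
  unfold all2 at h2
  have mu : u ∈ M.filter fun u => cor x u && cor y u && cor z u := by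
    rw [List.mem_filter]
    simp [hu, cu.1, cu.2.1, cu.2.2]
  have mv : v ∈ M.filter fun u => cor x u && cor y u && cor z u := by
    rw [List.mem_filter]
    simp [hv, cv.1, cv.2.1, cv.2.2]
  have h3 := List.all_eq_true.1 (List.all_eq_true.1 h2 u mu) v mv
  rw [Bool.or_eq_true] at h3
  rcases h3 with h3 | h3
  · rw [Nat.ble_eq] at h3
    omega
  · exact h3

theorem cor_of {a m : Mon} (h : ¬ ((∀ i, 1 ≤ a i + m i) ∧ ∑ i, (a i + m i) ≤ 4)) :
    cor (tr a) (tr m) = true := by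
  unfold cor
  rw [Bool.not_eq_true']
  by_contra hc
  rw [Bool.not_eq_false] at hc
  simp only [tr, Bool.and_eq_true, Nat.ble_eq] at hc
  apply h
  rw [Fin.sum_univ_three]
  refine ⟨fun i => ?_, hc.2⟩
  fin_cases i
  · exact hc.1.1.1
  · exact hc.1.1.2
  · exact hc.1.2

theorem cor_comm {a m : N3} : cor a m = cor m a := by
  unfold cor
  rw [Nat.add_comm a.1, Nat.add_comm a.2.1, Nat.add_comm a.2.2]

theorem pair_sub {S : Finset Mon} {a b : Mon} (ha : a ∈ S) (hb : b ∈ S) (hab : a ≠ b) :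
    ({a, b} : Finset Mon) ∈ S.powersetCard 2 := by
  classical
  rw [Finset.mem_powersetCard]
  refine ⟨?_, Finset.card_pair hab⟩
  intro w hw
  rw [Finset.mem_insert, Finset.mem_singleton] at hw
  rcases hw with rfl | rfl <;> assumption

theorem darts_surj {A B : Finset Mon} (hc : (A.card = 3 ∧ B.card = 2) ∨ (A.card = 2 ∧ B.card = 3))
    {E : Fin 3 → Cell} (hE : Function.Injective E) (hEm : ∀ j, E j ∈ darts A B) {D : Cell}
    (hD : D ∈ darts A B) : ∃ j, E j = D := by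
  classical
  have hcard : (darts A B).card = 3 := by
    unfold darts
    rw [Finset.card_product, Finset.card_powersetCard, Finset.card_powersetCard]
    rcases hc with ⟨h1, h2⟩ | ⟨h1, h2⟩ <;> rw [h1, h2] <;> rfl
  have himg : Finset.univ.image E = darts A B := by
    apply Finset.eq_of_subset_of_card_le
    · intro x hx
      obtain ⟨j, -, rfl⟩ := Finset.mem_image.1 hx
      exact hEm j
    · rw [hcard, Finset.card_image_of_injective _ hE]
      simp
  rw [← himg] at hD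
  obtain ⟨j, -, hj⟩ := Finset.mem_image.1 hD
  exact ⟨j, hj⟩

theorem sum3 {g : Fin 3 → ℕ} {i j k : Fin 3} (hij : i ≠ j) (hik : i ≠ k) (hjk : j ≠ k) :
    ∑ l, g l = g i + g j + g k := by
  rw [Fin.sum_univ_three]
  fin_cases i <;> fin_cases j <;> fin_cases k <;>
    first | exact absurd rfl hij | exact absurd rfl hik | exact absurd rfl hjk | skip
  all_goals
    simp only [Fin.mk_one, Fin.zero_eta, Fin.isValue, Fin.reduceFinMk] <;> omega

end Num

open Pool.Agent.H47.Trop.Num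

/-- The finite check: no cell of a vertex admits three sides with cycles of total genus four. -/
theorem numeric {A B : Finset Mon} {δ : Cell → (Fin 3 → ℤ)}
    (hc : (A.card = 3 ∧ B.card = 2) ∨ (A.card = 2 ∧ B.card = 3))
    (degA : ∀ a ∈ A, ∑ i, a i ≤ 2) (degB : ∀ b ∈ B, ∑ i, b i ≤ 3)
    (eqA : ∀ E ∈ darts A B, ∀ y ∈ E.1, ∀ z ∈ E.1, pair y (δ E) = pair z (δ E))
    (eqB : ∀ E ∈ darts A B, ∀ y ∈ E.2, ∀ z ∈ E.2, pair y (δ E) = pair z (δ E))
    (dropA : ∀ E ∈ darts A B, ∀ x ∈ A, x ∉ E.1 → ∀ y ∈ E.1, pair x (δ E) = pair y (δ E) - 1)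
    (dropB : ∀ E ∈ darts A B, ∀ x ∈ B, x ∉ E.2 → ∀ y ∈ E.2, pair x (δ E) = pair y (δ E) - 1)
    (uniA : ∀ x ∈ A, ∃ e : Fin 3 → ℤ, (∀ y ∈ B, ∀ z ∈ B, pair y e = pair z e) ∧
      ∀ y ∈ A, y ≠ x → pair x e = pair y e + 1)
    (uniB : ∀ x ∈ B, ∃ e : Fin 3 → ℤ, (∀ y ∈ A, ∀ z ∈ A, pair y e = pair z e) ∧
      ∀ y ∈ B, y ≠ x → pair x e = pair y e + 1)
    (nofacet : ∀ E ∈ darts A B, ∀ k, ¬ (OnFacet 2 k E.1 ∧ OnFacet 3 k E.2))
    (corner : ∀ a ∈ A, ∀ m ∈ B, ¬ ((∀ i, 1 ≤ a i + m i) ∧ ∑ i, (a i + m i) ≤ 4))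
    {E : Fin 3 → Cell} (hE : Function.Injective E) (hEm : ∀ j, E j ∈ darts A B)
    {g : Fin 3 → ℕ} (hg : ∀ j, 1 ≤ g j) (hg4 : ∑ j, g j = 4) {n : Fin 3 → Fin 4 → ℕ}
    (hn : ∀ j, ∀ i : Fin 3, (n j i.succ : ℤ) = n j 0 - δ (E j) i)
    (hgn : ∀ j, ∀ a ∈ (E j).1, ∀ m ∈ (E j).2, 2 * (g j : ℤ) - 1 =
      n j 0 - pair a (δ (E j)) - pair m (δ (E j)) + ∑ i, δ (E j) i)
    (hbig : ∀ j, ∃ k l : Fin 4, k ≠ l ∧ 2 ≤ n j k ∧ 2 ≤ n j l) : False := by
  classical
  have degA3 : ∀ a ∈ A, ∑ i, a i ≤ 3 := fun a ha => (degA a ha).trans (by norm_num)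
  have hcc := hc
  rcases hc with ⟨hA, hB⟩ | ⟨hA, hB⟩
  · obtain ⟨x, y, z, hAe, hxy, hyz⟩ := sorted3 hA degA3
    obtain ⟨u, v, hBe, huv⟩ := sorted2 hB degB
    have nxy : x ≠ y := by rintro rfl; omega
    have nxz : x ≠ z := by rintro rfl; omega
    have nyz : y ≠ z := by rintro rfl; omega
    have nuv : u ≠ v := by rintro rfl; omega
    have hx : x ∈ A := by rw [hAe]; simp
    have hy : y ∈ A := by rw [hAe]; simp
    have hz : z ∈ A := by rw [hAe]; simp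
    have hu : u ∈ B := by rw [hBe]; simp
    have hv : v ∈ B := by rw [hBe]; simp
    have hBB := pair_sub hu hv nuv
    have m0 : (({y, z}, {u, v}) : Cell) ∈ darts A B :=
      Finset.mem_product.2 ⟨pair_sub hy hz nyz, hBB⟩
    have m1 : (({x, z}, {u, v}) : Cell) ∈ darts A B :=
      Finset.mem_product.2 ⟨pair_sub hx hz nxz, hBB⟩
    have m2 : (({x, y}, {u, v}) : Cell) ∈ darts A B :=
      Finset.mem_product.2 ⟨pair_sub hx hy nxy, hBB⟩
    obtain ⟨j0, hj0⟩ := darts_surj hcc hE hEm m0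
    obtain ⟨j1, hj1⟩ := darts_surj hcc hE hEm m1
    obtain ⟨j2, hj2⟩ := darts_surj hcc hE hEm m2
    have x0 : x ∉ (E j0).1 := by rw [hj0]; simp [nxy, nxz]
    have y1 : y ∉ (E j1).1 := by rw [hj1]; simp [nxy.symm, nyz]
    have z2 : z ∉ (E j2).1 := by rw [hj2]; simp [nxz.symm, nyz.symm]
    have y0 : y ∈ (E j0).1 := by rw [hj0]; simp
    have z0 : z ∈ (E j0).1 := by rw [hj0]; simp
    have x1 : x ∈ (E j1).1 := by rw [hj1]; simp
    have z1 : z ∈ (E j1).1 := by rw [hj1]; simp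
    have x2 : x ∈ (E j2).1 := by rw [hj2]; simp
    have y2 : y ∈ (E j2).1 := by rw [hj2]; simp
    have u0 : u ∈ (E j0).2 := by rw [hj0]; simp
    have v0 : v ∈ (E j0).2 := by rw [hj0]; simp
    have u1 : u ∈ (E j1).2 := by rw [hj1]; simp
    have v1 : v ∈ (E j1).2 := by rw [hj1]; simp
    have u2 : u ∈ (E j2).2 := by rw [hj2]; simp
    have v2 : v ∈ (E j2).2 := by rw [hj2]; simp
    have n01 : j0 ≠ j1 := by rintro rfl; exact x0 x1
    have n02 : j0 ≠ j2 := by rintro rfl; exact x0 x2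
    have n12 : j1 ≠ j2 := by rintro rfl; exact y1 y2
    obtain ⟨p, p1, p2⟩ := uniA x hx
    obtain ⟨q, q1, q2⟩ := uniA z hz
    obtain ⟨r, r1, r2⟩ := uniB v hv
    have hs : dx x y z u v = 1 ∨ dx x y z u v = -1 := by
      have e1 := p2 y hy nxy.symm
      have e2 := p2 z hz nxz.symm
      have e3 := q2 y hy nyz
      have e4 := q2 x hx nxz
      exact dx_unit (by omega) (p1 v hv u hu) e1 (by omega) (q1 v hv u hu) e3
        (r1 x hx y hy) (r1 z hz y hy) (r2 u hu nuv)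
    have hchk : chk (tr x) (tr y) (tr z) (tr u) (tr v) = true :=
      all3_sound check23 (mem_P2 (degA x hx)) (mem_P2 (degA y hy)) (mem_P2 (degA z hz))
        (mem_P3 (degB u hu)) (mem_P3 (degB v hv)) hxy hyz huv
        ⟨cor_of (corner x hx u hu), cor_of (corner y hy u hu), cor_of (corner z hz u hu)⟩
        ⟨cor_of (corner x hx v hv), cor_of (corner y hy v hv), cor_of (corner z hz v hv)⟩
    refine core hchk ?_ ?_ ?_ hs
      (d0 := δ (E j0)) (d1 := δ (E j1)) (d2 := δ (E j2)) (g0 := g j0) (g1 := g j1) (g2 := g j2)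
      (n0 := n j0) (n1 := n j1) (n2 := n j2) ?_ ?_ ?_ (hg _) (hg _) (hg _) ?_
    · intro hf
      obtain ⟨k, hk⟩ := fac_onFacet (D := 2) (D' := 3) rfl (degA y hy) (degA z hz) (degB u hu)
        (degB v hv) hf
      exact nofacet _ m0 k hk
    · intro hf
      obtain ⟨k, hk⟩ := fac_onFacet (D := 2) (D' := 3) rfl (degA x hx) (degA z hz) (degB u hu)
        (degB v hv) hf
      exact nofacet _ m1 k hk
    · intro hf
      obtain ⟨k, hk⟩ := fac_onFacet (D := 2) (D' := 3) rfl (degA x hx) (degA y hy) (degB u hu)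
        (degB v hv) hf
      exact nofacet _ m2 k hk
    · exact ⟨eqA _ (hEm j0) z z0 y y0, eqB _ (hEm j0) v v0 u u0, dropA _ (hEm j0) x hx x0 y y0,
        hn j0, hgn j0 y y0 u u0, hbig j0⟩
    · exact ⟨eqA _ (hEm j1) z z1 x x1, eqB _ (hEm j1) v v1 u u1, dropA _ (hEm j1) y hy y1 x x1,
        hn j1, hgn j1 x x1 u u1, hbig j1⟩
    · exact ⟨eqA _ (hEm j2) y y2 x x2, eqB _ (hEm j2) v v2 u u2, dropA _ (hEm j2) z hz z2 x x2,
        hn j2, hgn j2 x x2 u u2, hbig j2⟩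
    · rw [← sum3 n01 n02 n12]
      exact hg4
  · obtain ⟨x, y, z, hBe, hxy, hyz⟩ := sorted3 hB degB
    obtain ⟨u, v, hAe, huv⟩ := sorted2 hA degA3
    have nxy : x ≠ y := by rintro rfl; omega
    have nxz : x ≠ z := by rintro rfl; omega
    have nyz : y ≠ z := by rintro rfl; omega
    have nuv : u ≠ v := by rintro rfl; omega
    have hx : x ∈ B := by rw [hBe]; simp
    have hy : y ∈ B := by rw [hBe]; simp
    have hz : z ∈ B := by rw [hBe]; simp
    have hu : u ∈ A := by rw [hAe]; simp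
    have hv : v ∈ A := by rw [hAe]; simp
    have hAA := pair_sub hu hv nuv
    have m0 : (({u, v}, {y, z}) : Cell) ∈ darts A B :=
      Finset.mem_product.2 ⟨hAA, pair_sub hy hz nyz⟩
    have m1 : (({u, v}, {x, z}) : Cell) ∈ darts A B :=
      Finset.mem_product.2 ⟨hAA, pair_sub hx hz nxz⟩
    have m2 : (({u, v}, {x, y}) : Cell) ∈ darts A B :=
      Finset.mem_product.2 ⟨hAA, pair_sub hx hy nxy⟩
    obtain ⟨j0, hj0⟩ := darts_surj hcc hE hEm m0
    obtain ⟨j1, hj1⟩ := darts_surj hcc hE hEm m1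
    obtain ⟨j2, hj2⟩ := darts_surj hcc hE hEm m2
    have x0 : x ∉ (E j0).2 := by rw [hj0]; simp [nxy, nxz]
    have y1 : y ∉ (E j1).2 := by rw [hj1]; simp [nxy.symm, nyz]
    have z2 : z ∉ (E j2).2 := by rw [hj2]; simp [nxz.symm, nyz.symm]
    have y0 : y ∈ (E j0).2 := by rw [hj0]; simp
    have z0 : z ∈ (E j0).2 := by rw [hj0]; simp
    have x1 : x ∈ (E j1).2 := by rw [hj1]; simp
    have z1 : z ∈ (E j1).2 := by rw [hj1]; simp
    have x2 : x ∈ (E j2).2 := by rw [hj2]; simp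
    have y2 : y ∈ (E j2).2 := by rw [hj2]; simp
    have u0 : u ∈ (E j0).1 := by rw [hj0]; simp
    have v0 : v ∈ (E j0).1 := by rw [hj0]; simp
    have u1 : u ∈ (E j1).1 := by rw [hj1]; simp
    have v1 : v ∈ (E j1).1 := by rw [hj1]; simp
    have u2 : u ∈ (E j2).1 := by rw [hj2]; simp
    have v2 : v ∈ (E j2).1 := by rw [hj2]; simp
    have n01 : j0 ≠ j1 := by rintro rfl; exact x0 x1
    have n02 : j0 ≠ j2 := by rintro rfl; exact x0 x2
    have n12 : j1 ≠ j2 := by rintro rfl; exact y1 y2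
    obtain ⟨p, p1, p2⟩ := uniB x hx
    obtain ⟨q, q1, q2⟩ := uniB z hz
    obtain ⟨r, r1, r2⟩ := uniA v hv
    have hs : dx x y z u v = 1 ∨ dx x y z u v = -1 := by
      have e1 := p2 y hy nxy.symm
      have e2 := p2 z hz nxz.symm
      have e3 := q2 y hy nyz
      have e4 := q2 x hx nxz
      exact dx_unit (by omega) (p1 v hv u hu) e1 (by omega) (q1 v hv u hu) e3
        (r1 x hx y hy) (r1 z hz y hy) (r2 u hu nuv)
    have corn : ∀ a ∈ B, ∀ m ∈ A, cor (tr a) (tr m) = true := fun a ha m hm => by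
      rw [cor_comm]
      exact cor_of (corner m hm a ha)
    have hchk : chk (tr x) (tr y) (tr z) (tr u) (tr v) = true :=
      all3_sound check32 (mem_P3 (degB x hx)) (mem_P3 (degB y hy)) (mem_P3 (degB z hz))
        (mem_P2 (degA u hu)) (mem_P2 (degA v hv)) hxy hyz huv
        ⟨corn x hx u hu, corn y hy u hu, corn z hz u hu⟩
        ⟨corn x hx v hv, corn y hy v hv, corn z hz v hv⟩
    refine core hchk ?_ ?_ ?_ hs
      (d0 := δ (E j0)) (d1 := δ (E j1)) (d2 := δ (E j2)) (g0 := g j0) (g1 := g j1) (g2 := g j2)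
      (n0 := n j0) (n1 := n j1) (n2 := n j2) ?_ ?_ ?_ (hg _) (hg _) (hg _) ?_
    · intro hf
      obtain ⟨k, hk⟩ := fac_onFacet (D := 3) (D' := 2) rfl (degB y hy) (degB z hz) (degA u hu)
        (degA v hv) hf
      exact nofacet _ m0 k ⟨hk.2, hk.1⟩
    · intro hf
      obtain ⟨k, hk⟩ := fac_onFacet (D := 3) (D' := 2) rfl (degB x hx) (degB z hz) (degA u hu)
        (degA v hv) hf
      exact nofacet _ m1 k ⟨hk.2, hk.1⟩
    · intro hf
      obtain ⟨k, hk⟩ := fac_onFacet (D := 3) (D' := 2) rfl (degB x hx) (degB y hy) (degA u hu)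
        (degA v hv) hf
      exact nofacet _ m2 k ⟨hk.2, hk.1⟩
    · refine ⟨eqB _ (hEm j0) z z0 y y0, eqA _ (hEm j0) v v0 u u0, dropB _ (hEm j0) x hx x0 y y0,
        hn j0, ?_, hbig j0⟩
      have := hgn j0 u u0 y y0
      linarith
    · refine ⟨eqB _ (hEm j1) z z1 x x1, eqA _ (hEm j1) v v1 u u1, dropB _ (hEm j1) y hy y1 x x1,
        hn j1, ?_, hbig j1⟩
      have := hgn j1 u u1 x x1
      linarith
    · refine ⟨eqB _ (hEm j2) y y2 x x2, eqA _ (hEm j2) v v2 u u2, dropB _ (hEm j2) z hz z2 x x2,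
        hn j2, ?_, hbig j2⟩
      have := hgn j2 u u2 x x2
      linarith
    · rw [← sum3 n01 n02 n12]
      exact hg4

end Pool.Agent.H47.Trop
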