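import Pool.Agent.H47.Trop.Defs

set_option autoImplicit false

/-!
# Pulling back the sides of a sprawling vertex through the reduction steps
-/

namespace Pool.Agent.H47.Trop

section side

variable {V W : Type*}

/-- Both ends of `e` are in `K`. -/
def Inn (K : Finset V) (e : Sym2 V) : Prop := ∀ y ∈ e, y ∈ K

/-- `e` has an end in `K` and an end outside `K`. -/
def Crs (K : Finset V) (e : Sym2 V) : Prop := (∃ y ∈ e, y ∈ K) ∧ ∃ y ∈ e, y ∉ K

open Classical in
/-- `K` is a side of `v`. -/
structure Side (M : MGraph V) (v : V) (K : Finset V) (x : V) (g : ℕ) : Prop where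
  vn : v ∉ K
  xm : x ∈ K
  sub : ∀ y ∈ K, y ∈ verts M
  cnt : Multiset.card (M.filter (Inn K)) + 1 = K.card + g
  crs : M.filter (Crs K) = {s(x, v)}

theorem inn_mk {K : Finset V} {a b : V} : Inn K s(a, b) ↔ a ∈ K ∧ b ∈ K := by
  unfold Inn
  simp only [Sym2.mem_iff]
  constructor
  · intro h
    exact ⟨h a (Or.inl rfl), h b (Or.inr rfl)⟩
  · rintro ⟨h1, h2⟩ y (rfl | rfl)
    · exact h1
    · exact h2

theorem crs_mk {K : Finset V} {a b : V} :
    Crs K s(a, b) ↔ (a ∈ K ∧ b ∉ K) ∨ (a ∉ K ∧ b ∈ K) := by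
  unfold Crs
  simp only [Sym2.mem_iff]
  constructor
  · rintro ⟨⟨y, rfl | rfl, h1⟩, ⟨z, rfl | rfl, h2⟩⟩
    · exact absurd h1 h2
    · exact Or.inl ⟨h1, h2⟩
    · exact Or.inr ⟨h2, h1⟩
    · exact absurd h1 h2
  · rintro (⟨h1, h2⟩ | ⟨h1, h2⟩)
    · exact ⟨⟨a, Or.inl rfl, h1⟩, ⟨b, Or.inr rfl, h2⟩⟩
    · exact ⟨⟨b, Or.inr rfl, h2⟩, ⟨a, Or.inl rfl, h1⟩⟩

open Classical in
theorem inn_insert {K : Finset V} {z : V} {e : Sym2 V} (h : z ∉ e) :
    Inn (insert z K) e ↔ Inn K e := by
  unfold Inn
  refine forall_congr' fun y => forall_congr' fun hy => ?_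
  rw [Finset.mem_insert, or_iff_right]
  rintro rfl
  exact h hy

open Classical in
theorem crs_insert {K : Finset V} {z : V} {e : Sym2 V} (h : z ∉ e) :
    Crs (insert z K) e ↔ Crs K e := by
  have h1 : ∀ y ∈ e, (y ∈ insert z K ↔ y ∈ K) := by
    intro y hy
    rw [Finset.mem_insert, or_iff_right]
    rintro rfl
    exact h hy
  unfold Crs
  constructor
  · rintro ⟨⟨y, hy, hy'⟩, ⟨w, hw, hw'⟩⟩
    exact ⟨⟨y, hy, (h1 y hy).1 hy'⟩, ⟨w, hw, fun h2 => hw' ((h1 w hw).2 h2)⟩⟩
  · rintro ⟨⟨y, hy, hy'⟩, ⟨w, hw, hw'⟩⟩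
    exact ⟨⟨y, hy, (h1 y hy).2 hy'⟩, ⟨w, hw, fun h2 => hw' ((h1 w hw).1 h2)⟩⟩

theorem Side.v_mem_verts {M : MGraph V} {v : V} {K : Finset V} {x : V} {g : ℕ}
    (h : Side M v K x g) : v ∈ verts M := by
  classical
  have h1 : s(x, v) ∈ M.filter (Crs K) := by
    rw [h.crs]
    exact Multiset.mem_singleton_self _
  exact ⟨_, (Multiset.mem_filter.1 h1).1, by simp⟩

theorem mem_verts_cons {M : MGraph V} {e : Sym2 V} {y : V} :
    y ∈ verts (e ::ₘ M) ↔ y ∈ e ∨ y ∈ verts M := by
  unfold verts
  simp only [Multiset.mem_cons, Set.mem_ofPred_eq]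
  constructor
  · rintro ⟨f, rfl | hf, hy⟩
    · exact Or.inl hy
    · exact Or.inr ⟨f, hf, hy⟩
  · rintro (h | ⟨f, hf, hy⟩)
    · exact ⟨e, Or.inl rfl, h⟩
    · exact ⟨f, Or.inr hf, hy⟩

theorem not_mem_verts {M : MGraph V} {y : V} : y ∉ verts M ↔ ∀ e ∈ M, y ∉ e := by
  unfold verts
  simp only [Set.mem_ofPred_eq, not_exists, not_and]

open Classical in
theorem filter_inn_insert {K : Finset V} {z : V} {M : MGraph V} (h : ∀ e ∈ M, z ∉ e) :
    M.filter (Inn (insert z K)) = M.filter (Inn K) :=
  Multiset.filter_congr fun e he => inn_insert (h e he)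

open Classical in
theorem filter_crs_insert {K : Finset V} {z : V} {M : MGraph V} (h : ∀ e ∈ M, z ∉ e) :
    M.filter (Crs (insert z K)) = M.filter (Crs K) :=
  Multiset.filter_congr fun e he => crs_insert (h e he)

open Classical in
/-- Adding a leaf edge `z y`. -/
theorem Side.prune {M : MGraph V} {z y v x : V} {K : Finset V} {g : ℕ}
    (hM : ∀ e ∈ M, z ∉ e) (h : Side M v K x g) :
    Side (s(z, y) ::ₘ M) v (if y ∈ K then insert z K else K) x g := by
  have hz : z ∉ verts M := not_mem_verts.2 hM
  have hzK : z ∉ K := fun h1 => hz (h.sub z h1)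
  have hzv : z ≠ v := by
    rintro rfl
    exact hz h.v_mem_verts
  by_cases hy : y ∈ K
  · rw [if_pos hy]
    refine ⟨?_, Finset.mem_insert_of_mem h.xm, ?_, ?_, ?_⟩
    · rw [Finset.mem_insert, not_or]
      exact ⟨hzv.symm, h.vn⟩
    · intro w hw
      rw [mem_verts_cons]
      rcases Finset.mem_insert.1 hw with rfl | hw
      · exact Or.inl (by simp)
      · exact Or.inr (h.sub w hw)
    · rw [Multiset.filter_cons_of_pos _ (inn_mk.2 ⟨Finset.mem_insert_self _ _,
        Finset.mem_insert_of_mem hy⟩), filter_inn_insert hM, Multiset.card_cons,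
        Finset.card_insert_of_notMem hzK]
      have := h.cnt
      omega
    · rw [Multiset.filter_cons_of_neg, filter_crs_insert hM]
      · exact h.crs
      · rw [crs_mk]
        rintro (⟨_, h2⟩ | ⟨h2, _⟩)
        · exact h2 (Finset.mem_insert_of_mem hy)
        · exact h2 (Finset.mem_insert_self _ _)
  · rw [if_neg hy]
    refine ⟨h.vn, h.xm, fun w hw => mem_verts_cons.2 (Or.inr (h.sub w hw)), ?_, ?_⟩
    · rw [Multiset.filter_cons_of_neg]
      · exact h.cnt
      · rw [inn_mk]
        exact fun h2 => hy h2.2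
    · rw [Multiset.filter_cons_of_neg]
      · exact h.crs
      · rw [crs_mk]
        rintro (⟨h2, _⟩ | ⟨_, h2⟩)
        · exact hzK h2
        · exact hy h2

open Classical in
/-- Subdividing an edge `a b`, first end in `K`, second outside. -/
theorem Side.smooth_aux {M₀ : MGraph V} {a z b v x : V} {K : Finset V} {g : ℕ}
    (haz : a ≠ z) (hM : ∀ e ∈ M₀, z ∉ e) (hzK : z ∉ K) (hzv : z ≠ v)
    (h : Side (s(a, b) ::ₘ M₀) v K x g) (ha : a ∈ K) (hb : b ∉ K) :
    Side (s(a, z) ::ₘ s(z, b) ::ₘ M₀) v (insert z K) z g := by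
  have hcr := h.crs
  rw [Multiset.filter_cons_of_pos _ (crs_mk.2 (Or.inl ⟨ha, hb⟩))] at hcr
  have hcr0 : M₀.filter (Crs K) = 0 := by
    have h1 := congrArg Multiset.card hcr
    rw [Multiset.card_cons, Multiset.card_singleton] at h1
    exact Multiset.card_eq_zero.1 (by omega)
  rw [hcr0] at hcr
  have hab : s(a, b) = s(x, v) := by
    have h1 : s(a, b) ∈ ({s(x, v)} : Multiset (Sym2 V)) := by
      rw [← hcr]
      exact Multiset.mem_cons_self _ _
    exact Multiset.mem_singleton.1 h1
  have hbv : b = v := by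
    rw [Sym2.eq_iff] at hab
    rcases hab with ⟨_, h2⟩ | ⟨h2, _⟩
    · exact h2
    · rw [h2] at ha
      exact absurd ha h.vn
  subst hbv
  refine ⟨?_, Finset.mem_insert_self _ _, ?_, ?_, ?_⟩
  · rw [Finset.mem_insert, not_or]
    exact ⟨hzv.symm, h.vn⟩
  · intro w hw
    rw [mem_verts_cons, mem_verts_cons]
    rcases Finset.mem_insert.1 hw with rfl | hw
    · exact Or.inl (by simp)
    · have h3 := h.sub w hw
      rw [mem_verts_cons, Sym2.mem_iff] at h3
      rcases h3 with (rfl | rfl) | h3
      · exact Or.inl (by simp)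
      · exact Or.inr (Or.inl (by simp))
      · exact Or.inr (Or.inr h3)
  · have h1 : ¬ Inn (insert z K) s(z, b) := by
      rw [inn_mk, Finset.mem_insert, Finset.mem_insert]
      rintro ⟨_, h2 | h2⟩
      · exact hzv h2.symm
      · exact hb h2
    have h2 := h.cnt
    rw [Multiset.filter_cons_of_neg (p := Inn K) _ (by rw [inn_mk]; exact fun h3 => hb h3.2)] at h2
    rw [Multiset.filter_cons_of_pos _ (inn_mk.2 ⟨Finset.mem_insert_of_mem ha,
      Finset.mem_insert_self _ _⟩), Multiset.filter_cons_of_neg _ h1, filter_inn_insert hM,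
      Multiset.card_cons, Finset.card_insert_of_notMem hzK]
    omega
  · have h1 : ¬ Crs (insert z K) s(a, z) := by
      rw [crs_mk]
      rintro (⟨_, h2⟩ | ⟨h2, _⟩)
      · exact h2 (Finset.mem_insert_self _ _)
      · exact h2 (Finset.mem_insert_of_mem ha)
    have h2 : Crs (insert z K) s(z, b) := by
      rw [crs_mk]
      refine Or.inl ⟨Finset.mem_insert_self _ _, ?_⟩
      rw [Finset.mem_insert, not_or]
      exact ⟨hzv.symm, hb⟩
    rw [Multiset.filter_cons_of_neg _ h1, Multiset.filter_cons_of_pos _ h2, filter_crs_insert hM,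
      hcr0]
    rfl

open Classical in
/-- Subdividing an edge `a b`. -/
theorem Side.smooth {M₀ : MGraph V} {a z b v x : V} {K : Finset V} {g : ℕ}
    (haz : a ≠ z) (hbz : b ≠ z) (hM : ∀ e ∈ M₀, z ∉ e)
    (h : Side (s(a, b) ::ₘ M₀) v K x g) :
    ∃ x', Side (s(a, z) ::ₘ s(z, b) ::ₘ M₀) v (if a ∈ K ∨ b ∈ K then insert z K else K) x' g := by
  have hz : z ∉ verts (s(a, b) ::ₘ M₀) := by
    rw [mem_verts_cons, not_or, Sym2.mem_iff, not_or]
    exact ⟨⟨haz.symm, hbz.symm⟩, not_mem_verts.2 hM⟩
  have hzK : z ∉ K := fun h1 => hz (h.sub z h1)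
  have hzv : z ≠ v := by
    rintro rfl
    exact hz h.v_mem_verts
  by_cases ha : a ∈ K
  · rw [if_pos (Or.inl ha)]
    by_cases hb : b ∈ K
    · refine ⟨x, ?_, Finset.mem_insert_of_mem h.xm, ?_, ?_, ?_⟩
      · rw [Finset.mem_insert, not_or]
        exact ⟨hzv.symm, h.vn⟩
      · intro w hw
        rw [mem_verts_cons, mem_verts_cons]
        rcases Finset.mem_insert.1 hw with rfl | hw
        · exact Or.inl (by simp)
        · have h3 := h.sub w hw
          rw [mem_verts_cons, Sym2.mem_iff] at h3
          rcases h3 with (rfl | rfl) | h3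
          · exact Or.inl (by simp)
          · exact Or.inr (Or.inl (by simp))
          · exact Or.inr (Or.inr h3)
      · have h2 := h.cnt
        rw [Multiset.filter_cons_of_pos (p := Inn K) _ (inn_mk.2 ⟨ha, hb⟩),
          Multiset.card_cons] at h2
        rw [Multiset.filter_cons_of_pos _ (inn_mk.2 ⟨Finset.mem_insert_of_mem ha,
          Finset.mem_insert_self _ _⟩), Multiset.filter_cons_of_pos _ (inn_mk.2
          ⟨Finset.mem_insert_self _ _, Finset.mem_insert_of_mem hb⟩), filter_inn_insert hM,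
          Multiset.card_cons, Multiset.card_cons, Finset.card_insert_of_notMem hzK]
        omega
      · have h1 : ¬ Crs (insert z K) s(a, z) := by
          rw [crs_mk]
          rintro (⟨_, h2⟩ | ⟨h2, _⟩)
          · exact h2 (Finset.mem_insert_self _ _)
          · exact h2 (Finset.mem_insert_of_mem ha)
        have h2 : ¬ Crs (insert z K) s(z, b) := by
          rw [crs_mk]
          rintro (⟨_, h2⟩ | ⟨h2, _⟩)
          · exact h2 (Finset.mem_insert_of_mem hb)
          · exact h2 (Finset.mem_insert_self _ _)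
        have h3 : ¬ Crs K s(a, b) := by
          rw [crs_mk]
          rintro (⟨_, h2⟩ | ⟨h2, _⟩)
          · exact h2 hb
          · exact h2 ha
        have h4 := h.crs
        rw [Multiset.filter_cons_of_neg _ h3] at h4
        rw [Multiset.filter_cons_of_neg _ h1, Multiset.filter_cons_of_neg _ h2,
          filter_crs_insert hM, h4]
    · exact ⟨z, Side.smooth_aux haz hM hzK hzv h ha hb⟩
  · by_cases hb : b ∈ K
    · rw [if_pos (Or.inr hb)]
      have h' : Side (s(b, a) ::ₘ M₀) v K x g := by
        rw [Sym2.eq_swap]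
        exact h
      have h1 := Side.smooth_aux hbz hM hzK hzv h' hb ha
      refine ⟨z, ?_⟩
      rw [Multiset.cons_swap, Sym2.eq_swap (a := z) (b := b), Sym2.eq_swap (a := a) (b := z)]
      exact h1
    · rw [if_neg (not_or.2 ⟨ha, hb⟩)]
      refine ⟨x, h.vn, h.xm, ?_, ?_, ?_⟩
      · intro w hw
        rw [mem_verts_cons, mem_verts_cons]
        have h3 := h.sub w hw
        rw [mem_verts_cons, Sym2.mem_iff] at h3
        rcases h3 with (rfl | rfl) | h3
        · exact Or.inl (by simp)
        · exact Or.inr (Or.inl (by simp))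
        · exact Or.inr (Or.inr h3)
      · have h2 := h.cnt
        rw [Multiset.filter_cons_of_neg (p := Inn K) _ (by rw [inn_mk]; exact fun h3 => ha h3.1)]
          at h2
        rw [Multiset.filter_cons_of_neg (p := Inn K) _ (by rw [inn_mk]; exact fun h3 => ha h3.1),
          Multiset.filter_cons_of_neg (p := Inn K) _ (by rw [inn_mk]; exact fun h3 => hb h3.2)]
        exact h2
      · have h2 := h.crs
        rw [Multiset.filter_cons_of_neg (p := Crs K) _ (by
          rw [crs_mk]; rintro (h3 | h3); exacts [ha h3.1, hb h3.2])] at h2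
        rw [Multiset.filter_cons_of_neg (p := Crs K) _ (by
          rw [crs_mk]; rintro (h3 | h3); exacts [ha h3.1, hzK h3.2]),
          Multiset.filter_cons_of_neg (p := Crs K) _ (by
          rw [crs_mk]; rintro (h3 | h3); exacts [hzK h3.1, hb h3.2])]
        exact h2

/-- There is a vertex with three sides. -/
def GoodM (M : MGraph V) : Prop :=
  ∃ (v : V) (K : Fin 3 → Finset V) (x : Fin 3 → V) (g : Fin 3 → ℕ),
    (∀ j, 1 ≤ g j) ∧ ∑ j, g j = 4 ∧ Pairwise (fun i j => Disjoint (K i) (K j)) ∧
      ∀ j, Side M v (K j) (x j) (g j)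

theorem good_prune {M M' : MGraph V} (h : PruneStep M M') (hg : GoodM M') : GoodM M := by
  classical
  obtain ⟨z, y, hzy, hM, rfl⟩ := h
  obtain ⟨v, K, x, g, h1, h2, h3, h4⟩ := hg
  refine ⟨v, fun j => if y ∈ K j then insert z (K j) else K j, x, g, h1, h2, ?_,
    fun j => (h4 j).prune hM⟩
  have hz : z ∉ verts M' := not_mem_verts.2 hM
  have hzK : ∀ j, z ∉ K j := fun j h5 => hz ((h4 j).sub z h5)
  intro i j hij
  have h5 := h3 hij
  simp only
  by_cases hi : y ∈ K i
  · have hj : y ∉ K j := fun hj => Finset.disjoint_left.1 h5 hi hj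
    rw [if_pos hi, if_neg hj, Finset.disjoint_insert_left]
    exact ⟨hzK j, h5⟩
  · rw [if_neg hi]
    by_cases hj : y ∈ K j
    · rw [if_pos hj, Finset.disjoint_insert_right]
      exact ⟨hzK i, h5⟩
    · rw [if_neg hj]
      exact h5

theorem good_smooth {M M' : MGraph V} (h : SmoothStep M M') (hg : GoodM M') : GoodM M := by
  classical
  obtain ⟨a, z, b, M₀, haz, hbz, hM, rfl, rfl⟩ := h
  obtain ⟨v, K, x, g, h1, h2, h3, h4⟩ := hg
  choose x' hx' using fun j => (h4 j).smooth haz hbz hM
  refine ⟨v, fun j => if a ∈ K j ∨ b ∈ K j then insert z (K j) else K j, x', g, h1, h2, ?_, hx'⟩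
  have hz : z ∉ verts (s(a, b) ::ₘ M₀) := by
    rw [mem_verts_cons, not_or, Sym2.mem_iff, not_or]
    exact ⟨⟨haz.symm, hbz.symm⟩, not_mem_verts.2 hM⟩
  have hzK : ∀ j, z ∉ K j := fun j h5 => hz ((h4 j).sub z h5)
  -- an end in `K i` and the other end in `K j` is impossible
  have key : ∀ i j, i ≠ j → (a ∈ K i ∨ b ∈ K i) → (a ∈ K j ∨ b ∈ K j) → False := by
    have key1 : ∀ i j, i ≠ j → a ∈ K i → b ∈ K j → False := by
      intro i j hij hi hj
      have hbi : b ∉ K i := fun h6 => Finset.disjoint_left.1 (h3 hij) h6 hj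
      have h6 := (h4 i).crs
      have h7 : s(a, b) ∈ Multiset.filter (Crs (K i)) (s(a, b) ::ₘ M₀) :=
        Multiset.mem_filter.2 ⟨Multiset.mem_cons_self _ _, crs_mk.2 (Or.inl ⟨hi, hbi⟩)⟩
      rw [h6, Multiset.mem_singleton, Sym2.eq_iff] at h7
      rcases h7 with ⟨_, h8⟩ | ⟨h8, _⟩
      · rw [h8] at hj
        exact (h4 j).vn hj
      · rw [h8] at hi
        exact (h4 i).vn hi
    rintro i j hij (hi | hi) (hj | hj)
    · exact Finset.disjoint_left.1 (h3 hij) hi hj
    · exact key1 i j hij hi hj
    · exact key1 j i hij.symm hj hi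
    · exact Finset.disjoint_left.1 (h3 hij) hi hj
  intro i j hij
  have h5 := h3 hij
  simp only
  by_cases hi : a ∈ K i ∨ b ∈ K i
  · have hj : ¬ (a ∈ K j ∨ b ∈ K j) := fun hj => key i j hij hi hj
    rw [if_pos hi, if_neg hj, Finset.disjoint_insert_left]
    exact ⟨hzK j, h5⟩
  · rw [if_neg hi]
    by_cases hj : a ∈ K j ∨ b ∈ K j
    · rw [if_pos hj, Finset.disjoint_insert_right]
      exact ⟨hzK i, h5⟩
    · rw [if_neg hj]
      exact h5

/-! ### Renaming -/

open Classical in
theorem Side.map {G : MGraph W} {f : W → V} (hf : Set.InjOn f (verts G)) {v x : W}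
    {K : Finset W} {g : ℕ} (h : Side G v K x g) :
    Side (G.map (Sym2.map f)) (f v) (K.image f) (f x) g := by
  have hmem : ∀ y ∈ verts G, (f y ∈ K.image f ↔ y ∈ K) := by
    intro y hy
    rw [Finset.mem_image]
    constructor
    · rintro ⟨w, hw, hwy⟩
      rw [← hf (h.sub w hw) hy hwy]
      exact hw
    · exact fun hy' => ⟨y, hy', rfl⟩
  have hinn : ∀ e ∈ G, (Inn (K.image f) (Sym2.map f e) ↔ Inn K e) := by
    intro e he
    induction e using Sym2.ind with
    | _ a b =>
      rw [Sym2.map_mk, inn_mk, inn_mk, hmem a ⟨_, he, by simp⟩, hmem b ⟨_, he, by simp⟩]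
  have hcrs : ∀ e ∈ G, (Crs (K.image f) (Sym2.map f e) ↔ Crs K e) := by
    intro e he
    induction e using Sym2.ind with
    | _ a b =>
      rw [Sym2.map_mk, crs_mk, crs_mk, hmem a ⟨_, he, by simp⟩, hmem b ⟨_, he, by simp⟩]
  refine ⟨?_, Finset.mem_image_of_mem f h.xm, ?_, ?_, ?_⟩
  · rw [hmem v h.v_mem_verts]
    exact h.vn
  · intro y hy
    obtain ⟨w, hw, rfl⟩ := Finset.mem_image.1 hy
    obtain ⟨e, he, hwe⟩ := h.sub w hw
    exact ⟨Sym2.map f e, Multiset.mem_map_of_mem _ he, Sym2.mem_map.2 ⟨w, hwe, rfl⟩⟩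
  · rw [Multiset.filter_map, Multiset.card_map, Finset.card_image_of_injOn]
    · rw [← h.cnt]
      congr 2
      exact Multiset.filter_congr hinn
    · exact hf.mono fun y hy => h.sub y hy
  · rw [Multiset.filter_map]
    have h1 : Multiset.filter (Crs (K.image f) ∘ Sym2.map f) G = Multiset.filter (Crs K) G :=
      Multiset.filter_congr hcrs
    rw [h1, h.crs, Multiset.map_singleton, Sym2.map_mk]

theorem good_map {G : MGraph W} {f : W → V} (hf : Set.InjOn f (verts G)) (h : GoodM G) :
    GoodM (G.map (Sym2.map f)) := by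
  classical
  obtain ⟨v, K, x, g, h1, h2, h3, h4⟩ := h
  refine ⟨f v, fun j => (K j).image f, fun j => f (x j), g, h1, h2, ?_, fun j => (h4 j).map hf⟩
  intro i j hij
  rw [Finset.disjoint_left]
  intro y hy hy'
  obtain ⟨a, ha, rfl⟩ := Finset.mem_image.1 hy
  obtain ⟨b, hb, hab⟩ := Finset.mem_image.1 hy'
  have h5 := hf ((h4 j).sub b hb) ((h4 i).sub a ha) hab
  subst h5
  exact Finset.disjoint_left.1 (h3 hij) ha hb

/-! ### The sides of a sprawling vertex -/

open Classical in
theorem count_mk (a b y : W) : (s(a, b).toMultiset).count y =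
    (if y = a then 1 else 0) + (if y = b then 1 else 0) := by
  have h : (s(a, b)).toMultiset = a ::ₘ {b} := by
    simp [Sym2.toMultiset]
    rfl
  rw [h, Multiset.count_cons, Multiset.count_singleton, add_comm]

open Classical in
/-- The number of ends of `e` in `K`. -/
noncomputable def ends (K : Finset W) (e : Sym2 W) : ℕ := ∑ y ∈ K, (e.toMultiset).count y

open Classical in
theorem ends_mk (K : Finset W) (a b : W) :
    ends K s(a, b) = (if a ∈ K then 1 else 0) + (if b ∈ K then 1 else 0) := by
  unfold ends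
  simp only [count_mk, Finset.sum_add_distrib, Finset.sum_ite_eq']

open Classical in
theorem valence_cons (e : Sym2 W) (G : MGraph W) (y : W) :
    valence (e ::ₘ G) y = (e.toMultiset).count y + valence G y := by
  unfold valence
  rw [Multiset.cons_bind, Multiset.count_add]

theorem sum_valence (K : Finset W) (G : MGraph W) :
    ∑ y ∈ K, valence G y = (G.map (ends K)).sum := by
  induction G using Multiset.induction_on with
  | empty => simp [valence]
  | cons e G ih =>
    simp only [valence_cons, Finset.sum_add_distrib, Multiset.map_cons, Multiset.sum_cons, ih]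
    rfl

open Classical in
theorem sum_ends {K : Finset W} {R : MGraph W}
    (h : ∀ e ∈ R, ends K e = if Inn K e then 2 else 0) :
    (R.map (ends K)).sum = 2 * Multiset.card (R.filter (Inn K)) := by
  induction R using Multiset.induction_on with
  | empty => simp
  | cons e R ih =>
    have h1 := h e (Multiset.mem_cons_self _ _)
    have h2 := ih fun f hf => h f (Multiset.mem_cons_of_mem hf)
    rw [Multiset.map_cons, Multiset.sum_cons, h1, h2]
    by_cases h3 : Inn K e
    · rw [if_pos h3, Multiset.filter_cons_of_pos _ h3, Multiset.card_cons]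
      ring
    · rw [if_neg h3, Multiset.filter_cons_of_neg _ h3, zero_add]

open Classical in
theorem card_eq_sum_filter {α : Type*} (R : Multiset α) (p : Fin 3 → α → Prop)
    (h : ∀ e ∈ R, ∃ i, ∀ j, p j e ↔ j = i) :
    Multiset.card R = ∑ i, Multiset.card (R.filter (p i)) := by
  induction R using Multiset.induction_on with
  | empty => simp
  | cons e R ih =>
    obtain ⟨i, hi⟩ := h e (Multiset.mem_cons_self _ _)
    have h2 := ih fun f hf => h f (Multiset.mem_cons_of_mem hf)
    have h3 : ∀ j, Multiset.card ((e ::ₘ R).filter (p j)) =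
        (if j = i then 1 else 0) + Multiset.card (R.filter (p j)) := by
      intro j
      by_cases hj : j = i
      · rw [if_pos hj, Multiset.filter_cons_of_pos _ ((hi j).2 hj), Multiset.card_cons, add_comm]
      · rw [if_neg hj, Multiset.filter_cons_of_neg _ fun h => hj ((hi j).1 h), zero_add]
    simp only [h3, Finset.sum_add_distrib, Finset.sum_ite_eq', Finset.mem_univ, if_true,
      Multiset.card_cons, h2]
    ring

theorem verts_finite (G : MGraph W) : (verts G).Finite := by
  classical
  refine (G.bind Sym2.toMultiset).toFinset.finite_toSet.subset ?_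
  rintro y ⟨e, he, hy⟩
  rw [Finset.mem_coe, Multiset.mem_toFinset, Multiset.mem_bind]
  exact ⟨e, he, Sym2.mem_toMultiset.2 hy⟩

theorem good_of_sprawling {G : MGraph W} (hc : Connected G) (ht : Trivalent G)
    (hg : HasGenus G 4) (hs : Sprawling G) : GoodM G := by
  classical
  obtain ⟨v, hv, K, hne, hdis, hun, hedge, -⟩ := hs
  have hKv : ∀ j, ∀ y ∈ K j, y ∈ verts G ∧ y ≠ v := by
    intro j y hy
    have h1 : y ∈ verts G \ {v} := by
      rw [← hun]
      exact Set.mem_iUnion.2 ⟨j, hy⟩
    exact ⟨h1.1, h1.2⟩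
  have hfin : ∀ j, (K j).Finite := fun j => (verts_finite G).subset fun y hy => (hKv j y hy).1
  have hidx : ∀ i j y, y ∈ K i → y ∈ K j → i = j := by
    intro i j y hi hj
    by_contra h
    exact Set.disjoint_left.1 (hdis h) hi hj
  -- the edges at `v`
  have hb : ∀ j, ∃ b ∈ K j, s(v, b) ∈ G := by
    intro j
    obtain ⟨u, hu⟩ := hne j
    have key : ∀ w, Relation.ReflTransGen (fun a b => s(a, b) ∈ G) v w → w ∈ K j →
        ∃ b ∈ K j, s(v, b) ∈ G := by
      intro w hw
      induction hw with
      | refl => exact fun h => absurd rfl (hKv j v h).2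
      | @tail w' w _ hww ih =>
        intro hwj
        by_cases h1 : w' = v
        · subst h1
          exact ⟨w, hwj, hww⟩
        · obtain ⟨i, hi⟩ := hedge _ hww (by
            rw [Sym2.mem_iff, not_or]
            exact ⟨fun h => h1 h.symm, (hKv j w hwj).2.symm⟩)
          have h2 := hidx i j w (hi w (by simp)) hwj
          subst h2
          exact ih (hi w' (by simp))
    exact key u (hc.2 v hv u (hKv j u hu).1) hu
  choose b hbK hbG using hb
  have hbv : ∀ j, b j ≠ v := fun j => (hKv j _ (hbK j)).2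
  have hbinj : Function.Injective b := fun i j hij => hidx i j (b i) (hbK i) (by
    rw [hij]; exact hbK j)
  set A : Multiset (Sym2 W) := (Finset.univ : Finset (Fin 3)).val.map fun i => s(v, b i) with hA
  have hAG : A ≤ G := by
    have hnd : A.Nodup := by
      refine Multiset.Nodup.map ?_ Finset.univ.nodup
      intro i j hij
      apply hbinj
      simp only [Sym2.eq_iff] at hij
      rcases hij with ⟨_, h⟩ | ⟨h, h'⟩
      · exact h
      · rw [h', ← h]
    refine (Multiset.le_iff_subset hnd).2 ?_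
    intro e he
    obtain ⟨i, _, rfl⟩ := Multiset.mem_map.1 he
    exact hbG i
  obtain ⟨R, hR⟩ := Multiset.le_iff_exists_add.1 hAG
  -- no other edge at `v`
  have hvR : ∀ e ∈ R, v ∉ e := by
    have h1 := ht v hv
    have h2 : valence G v = 3 + valence R v := by
      rw [hR]
      unfold valence
      rw [Multiset.add_bind, Multiset.count_add, hA, Multiset.bind_map, Multiset.count_bind]
      congr 1
      have h3 : (Multiset.map (fun i => Multiset.count v (s(v, b i).toMultiset))
          (Finset.univ : Finset (Fin 3)).val).sum = ∑ i : Fin 3,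
            Multiset.count v (s(v, b i).toMultiset) := rfl
      rw [h3]
      simp only [count_mk, if_true, if_neg (hbv _).symm]
      rfl
    have h3 : valence R v = 0 := by omega
    unfold valence at h3
    rw [Multiset.count_eq_zero] at h3
    intro e he hve
    exact h3 (Multiset.mem_bind.2 ⟨e, he, Sym2.mem_toMultiset.2 hve⟩)
  have hRK : ∀ e ∈ R, ∃ i, ∀ x ∈ e, x ∈ K i := fun e he =>
    hedge e (by rw [hR]; exact Multiset.mem_add.2 (Or.inr he)) (hvR e he)
  -- finsets
  set F : Fin 3 → Finset W := fun j => (hfin j).toFinset with hF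
  have hFm : ∀ j y, y ∈ F j ↔ y ∈ K j := fun j y => (hfin j).mem_toFinset
  have hvF : ∀ j, v ∉ F j := fun j h => (hKv j v ((hFm j v).1 h)).2 rfl
  have hRF : ∀ e ∈ R, ∃ i, ∀ j, Inn (F j) e ↔ j = i := by
    intro e he
    obtain ⟨i, hi⟩ := hRK e he
    refine ⟨i, fun j => ⟨fun h => ?_, ?_⟩⟩
    · induction e using Sym2.ind with
      | _ x y => exact hidx j i x ((hFm j x).1 (h x (by simp))) (hi x (by simp))
    · rintro rfl
      exact fun y hy => (hFm _ y).2 (hi y hy)
  have hRends : ∀ j, ∀ e ∈ R, ends (F j) e = if Inn (F j) e then 2 else 0 := by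
    intro j e he
    obtain ⟨i, hi⟩ := hRK e he
    induction e using Sym2.ind with
    | _ x y =>
      have hx := hi x (by simp)
      have hy := hi y (by simp)
      rw [ends_mk, if_congr inn_mk rfl rfl]
      by_cases hij : i = j
      · subst hij
        have h1 : x ∈ F i := (hFm i x).2 hx
        have h2 : y ∈ F i := (hFm i y).2 hy
        rw [if_pos h1, if_pos h2, if_pos ⟨h1, h2⟩]
      · have h1 : x ∉ F j := fun h => hij (hidx i j x hx ((hFm j x).1 h))
        have h2 : y ∉ F j := fun h => hij (hidx i j y hy ((hFm j y).1 h))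
        rw [if_neg h1, if_neg h2, if_neg fun h => h1 h.1]
  -- degree sums
  have hdeg : ∀ j, 3 * (F j).card = 1 + 2 * Multiset.card (R.filter (Inn (F j))) := by
    intro j
    have h1 : ∑ y ∈ F j, valence G y = 3 * (F j).card := by
      rw [Finset.sum_congr rfl fun y hy => ht y (hKv j y ((hFm j y).1 hy)).1, Finset.sum_const,
        smul_eq_mul, mul_comm]
    rw [← h1, sum_valence, hR, Multiset.map_add, Multiset.sum_add, sum_ends (hRends j)]
    congr 1
    have h2 : (Multiset.map (ends (F j)) A).sum = ∑ i : Fin 3, ends (F j) s(v, b i) := by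
      rw [hA, Multiset.map_map]
      rfl
    rw [h2]
    have h3 : ∀ i, ends (F j) s(v, b i) = if i = j then 1 else 0 := by
      intro i
      rw [ends_mk, if_neg (hvF j), zero_add]
      by_cases hij : i = j
      · subst hij
        rw [if_pos rfl, if_pos ((hFm i _).2 (hbK i))]
      · rw [if_neg hij, if_neg fun h => hij (hidx i j _ (hbK i) ((hFm j _).1 h))]
    simp [h3]
  have hcR := card_eq_sum_filter R (fun j => Inn (F j)) hRF
  have hcG : Multiset.card G = 3 + Multiset.card R := by
    rw [hR, Multiset.card_add, hA, Multiset.card_map]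
    rfl
  have hFdis : Pairwise fun i j => Disjoint (F i) (F j) := by
    intro i j hij
    rw [Finset.disjoint_left]
    intro y hi hj
    exact hij (hidx i j y ((hFm i y).1 hi) ((hFm j y).1 hj))
  have hcV : (verts G).ncard = 1 + ∑ j, (F j).card := by
    have h1 : verts G = ((insert v (Finset.univ.biUnion F) : Finset W) : Set W) := by
      ext y
      rw [Finset.mem_coe, Finset.mem_insert, Finset.mem_biUnion]
      constructor
      · intro hy
        by_cases hyv : y = v
        · exact Or.inl hyv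
        · have h2 : y ∈ ⋃ i, K i := by
            rw [hun]
            exact ⟨hy, hyv⟩
          obtain ⟨i, hi⟩ := Set.mem_iUnion.1 h2
          exact Or.inr ⟨i, Finset.mem_univ _, (hFm i y).2 hi⟩
      · rintro (rfl | ⟨i, _, hi⟩)
        · exact hv
        · exact (hKv i y ((hFm i y).1 hi)).1
    have h2 : v ∉ Finset.univ.biUnion F := by
      rw [Finset.mem_biUnion]
      rintro ⟨i, _, hi⟩
      exact hvF i hi
    rw [h1, Set.ncard_coe_finset, Finset.card_insert_of_notMem h2,
      Finset.card_biUnion fun i _ j _ hij => hFdis hij, add_comm]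
  unfold HasGenus at hg
  rw [hcG, hcV, hcR, Fin.sum_univ_three, Fin.sum_univ_three] at hg
  have d0 := hdeg 0
  have d1 := hdeg 1
  have d2 := hdeg 2
  refine ⟨v, F, b, fun j => ((F j).card + 1) / 2, ?_, ?_, hFdis, ?_⟩
  · intro j
    have := hdeg j
    show 1 ≤ ((F j).card + 1) / 2
    omega
  · rw [Fin.sum_univ_three]
    omega
  · intro j
    refine ⟨hvF j, (hFm j _).2 (hbK j), fun y hy => (hKv j y ((hFm j y).1 hy)).1, ?_, ?_⟩
    · have h1 : Multiset.filter (Inn (F j)) A = 0 := by
        rw [Multiset.filter_eq_nil]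
        intro e he h
        obtain ⟨i, _, rfl⟩ := Multiset.mem_map.1 he
        exact hvF j (inn_mk.1 h).1
      rw [hR, Multiset.filter_add, h1, zero_add]
      have := hdeg j
      show _ = (F j).card + ((F j).card + 1) / 2
      omega
    · have h1 : Multiset.filter (Crs (F j)) R = 0 := by
        rw [Multiset.filter_eq_nil]
        intro e he h
        obtain ⟨i, hi⟩ := hRK e he
        obtain ⟨⟨x, hx, hx'⟩, ⟨y, hy, hy'⟩⟩ := h
        have h2 := hidx i j x (hi x hx) ((hFm j x).1 hx')
        subst h2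
        exact hy' ((hFm _ y).2 (hi y hy))
      have h2 : Multiset.filter (Crs (F j)) A = {s(v, b j)} := by
        rw [hA, Multiset.filter_map]
        have h3 : Multiset.filter (Crs (F j) ∘ fun i => s(v, b i))
            (Finset.univ : Finset (Fin 3)).val = {j} := by
          have h4 : Multiset.filter (Crs (F j) ∘ fun i => s(v, b i))
              (Finset.univ : Finset (Fin 3)).val =
              Multiset.filter (fun i => i = j) (Finset.univ : Finset (Fin 3)).val := by
            refine Multiset.filter_congr fun i _ => ?_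
            simp only [Function.comp_apply]
            rw [crs_mk, hFm, hFm]
            constructor
            · rintro (h | h)
              · exact absurd ((hFm j v).2 h.1) (hvF j)
              · exact hidx i j _ (hbK i) h.2
            · rintro rfl
              exact Or.inr ⟨fun h => hvF _ ((hFm _ v).2 h), hbK _⟩
          rw [h4, Multiset.filter_eq', Multiset.count_eq_one_of_mem Finset.univ.nodup
            (Finset.mem_univ j)]
          rfl
        rw [h3, Multiset.map_singleton]
      rw [hR, Multiset.filter_add, h1, h2, add_zero, Sym2.eq_swap]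

theorem good_of_reducesTo {M : MGraph V} {G : MGraph W} (h : ReducesTo M G) (hG : GoodM G) :
    GoodM M := by
  obtain ⟨M₁, M₂, h1, -, h2, -, f, hf, rfl⟩ := h
  have h3 : GoodM M₁ := by
    clear h1
    have h4 := good_map hf hG
    induction h2 using Relation.ReflTransGen.head_induction_on with
    | refl => exact h4
    | head h5 _ ih => exact good_smooth h5 ih
  induction h1 using Relation.ReflTransGen.head_induction_on with
  | refl => exact h3
  | head h5 _ ih => exact good_prune h5 ih

end side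

open Classical in
/-- A sprawling vertex of the reduced graph gives a vertex and three sides of the original graph. -/
theorem pullback {V W : Type*} {M : MGraph V} {G : MGraph W} (h : ReducesTo M G)
    (hc : Connected G) (ht : Trivalent G) (hg : HasGenus G 4) (hs : Sprawling G) :
    ∃ (v : V) (K : Fin 3 → Finset V) (x : Fin 3 → V) (g : Fin 3 → ℕ),
      (∀ j, 1 ≤ g j) ∧ ∑ j, g j = 4 ∧ (∀ j, v ∉ K j) ∧
      Pairwise (fun i j => Disjoint (K i) (K j)) ∧ (∀ j, x j ∈ K j) ∧
      (∀ j, ∀ y ∈ K j, y ∈ verts M) ∧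
      (∀ j, Multiset.card (M.filter fun e => ∀ y ∈ e, y ∈ K j) + 1 = (K j).card + g j) ∧
      (∀ j, M.filter (fun e => (∃ y ∈ e, y ∈ K j) ∧ ∃ y ∈ e, y ∉ K j) = {s(x j, v)}) := by
  obtain ⟨v, K, x, g, h1, h2, h3, h4⟩ := good_of_reducesTo h (good_of_sprawling hc ht hg hs)
  refine ⟨v, K, x, g, h1, h2, fun j => (h4 j).vn, h3, fun j => (h4 j).xm, fun j => (h4 j).sub,
    fun j => ?_, fun j => ?_⟩
  · exact (h4 j).cnt
  · rw [← (h4 j).crs]
    exact Multiset.filter_congr fun _ _ => Iff.rfl

end Pool.Agent.H47.Trop
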