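import Pool.Agent.H47.Trop.Facts
import Pool.Agent.H47.Trop.Count1
import Pool.Agent.H47.Trop.Count2
import Pool.Agent.H47.Trop.Count3
import Pool.Agent.H47.Trop.Num
import Pool.Agent.H47.Trop.Skel

set_option autoImplicit false

namespace Pool.Agent.H47.Trop

/-- Two different darts of a cell determine the cell. -/
private lemma darts_union {S T : Finset Mon} {E E' : Cell}
    (hc : (S.card = 3 ∧ T.card = 2) ∨ (S.card = 2 ∧ T.card = 3)) (hE : E ∈ darts S T)
    (hE' : E' ∈ darts S T) (hne : E ≠ E') : E.1 ∪ E'.1 = S ∧ E.2 ∪ E'.2 = T := by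
  classical
  obtain ⟨P, Q⟩ := E
  obtain ⟨P', Q'⟩ := E'
  simp only [darts, Finset.mem_product, Finset.mem_powersetCard] at hE hE'
  obtain ⟨⟨p1, p2⟩, q1, q2⟩ := hE
  obtain ⟨⟨p1', p2'⟩, q1', q2'⟩ := hE'
  -- two different 2-subsets of a 3-set
  have key : ∀ {U X X' : Finset Mon}, U.card = 3 → X ⊆ U → X.card = 2 → X' ⊆ U → X'.card = 2 →
      X ≠ X' → X ∪ X' = U := by
    intro U X X' hU hX hX2 hX' hX2' hXX
    apply Finset.eq_of_subset_of_card_le (Finset.union_subset hX hX')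
    have hlt : X.card < (X ∪ X').card := by
      apply Finset.card_lt_card
      refine Finset.ssubset_iff_subset_ne.2 ⟨Finset.subset_union_left, ?_⟩
      intro hcon
      have hsub : X' ⊆ X := by
        intro z hz
        rw [hcon]
        exact Finset.mem_union_right _ hz
      exact hXX (Finset.eq_of_subset_of_card_le hsub (by omega)).symm
    omega
  have key2 : ∀ {U X : Finset Mon}, U.card = 2 → X ⊆ U → X.card = 2 → X = U := by
    intro U X hU hX hX2
    exact Finset.eq_of_subset_of_card_le hX (by omega)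
  rcases hc with ⟨h3, h2⟩ | ⟨h2, h3⟩
  · have e1 := key2 h2 q1 q2
    have e2 := key2 h2 q1' q2'
    dsimp only
    subst e1
    subst e2
    refine ⟨key h3 p1 p2 p1' p2' ?_, Finset.union_self _⟩
    rintro rfl
    exact hne rfl
  · have e1 := key2 h2 p1 p2
    have e2 := key2 h2 p1' p2'
    dsimp only
    subst e1
    subst e2
    refine ⟨Finset.union_self _, key h3 q1 q2 q1' q2' ?_⟩
    rintro rfl
    exact hne rfl

/-- Two different vertices have at most one common dart. -/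
private lemma common_unique {V : Finset Pt} {A B : Pt → Finset Mon} {δ : Pt → Cell → (Fin 3 → ℤ)}
    (h : CurveFacts V A B δ) {u w : Pt} (hu : u ∈ V) (hw : w ∈ V) (huw : u ≠ w) {E E' : Cell}
    (h1 : E ∈ darts (A u) (B u)) (h2 : E ∈ darts (A w) (B w)) (h3 : E' ∈ darts (A u) (B u))
    (h4 : E' ∈ darts (A w) (B w)) : E = E' := by
  by_contra hne
  obtain ⟨a1, b1⟩ := darts_union (h.card u hu) h1 h3 hne
  obtain ⟨a2, b2⟩ := darts_union (h.card w hw) h2 h4 hne
  exact huw (h.inj u hu w hw (a1.symm.trans a2) (b1.symm.trans b2))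

private lemma card_darts' {S T : Finset Mon}
    (hc : (S.card = 3 ∧ T.card = 2) ∨ (S.card = 2 ∧ T.card = 3)) : (darts S T).card = 3 := by
  unfold darts
  rw [Finset.card_product, Finset.card_powersetCard, Finset.card_powersetCard]
  rcases hc with ⟨h1, h2⟩ | ⟨h1, h2⟩ <;> rw [h1, h2] <;> rfl

open Classical in
/-- Inner edges of the graph correspond to inner darts. -/
private lemma inner_card {V : Finset Pt} {A B : Pt → Finset Mon} {δ : Pt → Cell → (Fin 3 → ℤ)}
    (h : CurveFacts V A B δ) {F : Finset (Sym2 Pt)}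
    (hF : ∀ e, e ∈ F ↔ ∃ v ∈ V, ∃ w ∈ V, v ≠ w ∧ e = s(v, w) ∧
      ∃ E, E ∈ darts (A v) (B v) ∧ E ∈ darts (A w) (B w)) {K : Finset Pt} (hK : K ⊆ V) :
    (innerSet A B K).card = (F.filter fun e => ∀ y ∈ e, y ∈ K).card := by
  have hmem : ∀ E, E ∈ innerSet A B K ↔
      ∃ v ∈ K, ∃ w ∈ K, v ≠ w ∧ E ∈ darts (A v) (B v) ∧ E ∈ darts (A w) (B w) := by
    intro E
    unfold innerSet
    rw [Finset.mem_filter, Finset.mem_biUnion]
    constructor
    · rintro ⟨-, h2⟩
      exact h2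
    · rintro ⟨v, hv, w, hw, hvw, h1, h2⟩
      exact ⟨⟨v, hv, h1⟩, v, hv, w, hw, hvw, h1, h2⟩
  have hex : ∀ E : Cell, ∃ p : Pt × Pt, E ∈ innerSet A B K →
      p.1 ∈ K ∧ p.2 ∈ K ∧ p.1 ≠ p.2 ∧ E ∈ darts (A p.1) (B p.1) ∧ E ∈ darts (A p.2) (B p.2) := by
    intro E
    by_cases hE : E ∈ innerSet A B K
    · obtain ⟨v, hv, w, hw, hvw, h1, h2⟩ := (hmem E).1 hE
      exact ⟨(v, w), fun _ => ⟨hv, hw, hvw, h1, h2⟩⟩
    · exact ⟨(0, 0), fun h' => absurd h' hE⟩
  choose f hf using hex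
  apply Finset.card_bij (fun E _ => s((f E).1, (f E).2))
  · intro E hE
    obtain ⟨h1, h2, h3, h4, h5⟩ := hf E hE
    rw [Finset.mem_filter, hF]
    refine ⟨⟨_, hK h1, _, hK h2, h3, rfl, E, h4, h5⟩, ?_⟩
    intro y hy
    rcases Sym2.mem_iff.1 hy with rfl | rfl
    · exact h1
    · exact h2
  · intro E hE E' hE' heq
    obtain ⟨h1, h2, h3, h4, h5⟩ := hf E hE
    obtain ⟨k1, k2, k3, k4, k5⟩ := hf E' hE'
    rcases Sym2.eq_iff.1 heq with ⟨e1, e2⟩ | ⟨e1, e2⟩
    · rw [← e1] at k4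
      rw [← e2] at k5
      exact common_unique h (hK h1) (hK h2) h3 h4 h5 k4 k5
    · rw [← e2] at k4
      rw [← e1] at k5
      exact common_unique h (hK h1) (hK h2) h3 h4 h5 k5 k4
  · intro e he
    rw [Finset.mem_filter, hF] at he
    obtain ⟨⟨u, hu, w, hw, huw, rfl, E, hE1, hE2⟩, hin⟩ := he
    have huK : u ∈ K := hin u (Sym2.mem_mk_left u w)
    have hwK : w ∈ K := hin w (Sym2.mem_mk_right u w)
    have hE : E ∈ innerSet A B K := (hmem E).2 ⟨u, huK, w, hwK, huw, hE1, hE2⟩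
    refine ⟨E, hE, ?_⟩
    obtain ⟨h1, h2, h3, h4, h5⟩ := hf E hE
    rcases h.two _ (hK h1) _ (hK h2) u hu E h4 h5 hE1 with h6 | h6 | h6
    · exact absurd h6 h3
    · rcases h.two _ (hK h1) _ (hK h2) w hw E h4 h5 hE2 with h7 | h7 | h7
      · exact absurd h7 h3
      · exact absurd (h6.symm.trans h7) huw
      · rw [h6, h7]
    · rcases h.two _ (hK h1) _ (hK h2) w hw E h4 h5 hE2 with h7 | h7 | h7
      · exact absurd h7 h3
      · rw [h6, h7]; exact Sym2.eq_swap
      · exact absurd (h6.symm.trans h7) huw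

open Classical in
/-- The curve described by `CurveFacts` has no skeleton that is a sprawling graph of genus 4. -/
theorem no_sprawling_skeleton {V : Finset Pt} {A B : Pt → Finset Mon} {δ : Pt → Cell → (Fin 3 → ℤ)}
    (h : CurveFacts V A B δ) {F : Finset (Sym2 Pt)}
    (hF : ∀ e, e ∈ F ↔ ∃ v ∈ V, ∃ w ∈ V, v ≠ w ∧ e = s(v, w) ∧
      ∃ E, E ∈ darts (A v) (B v) ∧ E ∈ darts (A w) (B w))
    {W : Type*} {G : MGraph W} (hr : ReducesTo F.val G) (hc : Connected G) (ht : Trivalent G)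
    (hg : HasGenus G 4) : ¬ Sprawling G := by
  intro hs
  obtain ⟨v, K, x, g, hg1, hg4, hvK, hdisj, hxK, hKM, hcnt, hcrs⟩ := pullback hr hc ht hg hs
  have hKV : ∀ j, K j ⊆ V := by
    intro j y hy
    obtain ⟨e, he, hye⟩ := hKM j y hy
    obtain ⟨u, hu, w, hw, -, rfl, -⟩ := (hF e).1 he
    rcases Sym2.mem_iff.1 hye with rfl | rfl
    · exact hu
    · exact hw
  have hcross : ∀ j e, (e ∈ F ∧ (∃ y ∈ e, y ∈ K j) ∧ ∃ y ∈ e, y ∉ K j) ↔ e = s(x j, v) := by
    intro j e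
    have h1 := hcrs j
    constructor
    · rintro ⟨h2, h3⟩
      have h4 : e ∈ F.val.filter (fun e => (∃ y ∈ e, y ∈ K j) ∧ ∃ y ∈ e, y ∉ K j) :=
        Multiset.mem_filter.2 ⟨h2, h3⟩
      rw [h1] at h4
      exact Multiset.mem_singleton.1 h4
    · intro h2
      have h4 : e ∈ F.val.filter (fun e => (∃ y ∈ e, y ∈ K j) ∧ ∃ y ∈ e, y ∉ K j) := by
        rw [h1]
        exact Multiset.mem_singleton.2 h2
      exact Multiset.mem_filter.1 h4
  have hxF : ∀ j, s(x j, v) ∈ F := fun j => ((hcross j _).2 rfl).1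
  have hxv : ∀ j, x j ≠ v := by
    intro j hcon
    exact hvK j (hcon ▸ hxK j)
  have hvV : v ∈ V := by
    obtain ⟨u, hu, w, hw, -, heq, -⟩ := (hF _).1 (hxF 0)
    rcases Sym2.eq_iff.1 heq with ⟨-, h2⟩ | ⟨-, h2⟩
    · rw [h2]; exact hw
    · rw [h2]; exact hu
  have hdart : ∀ j, ∃ E, E ∈ darts (A (x j)) (B (x j)) ∧ E ∈ darts (A v) (B v) := by
    intro j
    obtain ⟨u, hu, w, hw, -, heq, E, hE1, hE2⟩ := (hF _).1 (hxF j)
    rcases Sym2.eq_iff.1 heq with ⟨h1, h2⟩ | ⟨h1, h2⟩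
    · rw [h1, h2]; exact ⟨E, hE1, hE2⟩
    · rw [h1, h2]; exact ⟨E, hE2, hE1⟩
  choose E hEx hEv using hdart
  have hS : ∀ j, IsSide V A B (K j) v (x j) (E j) := by
    intro j
    refine ⟨hKV j, hvV, hvK j, hxK j, hEx j, hEv j, ?_⟩
    intro w hw u hu huK E' hE1 hE2
    have hwu : w ≠ u := fun hcon => huK (hcon ▸ hw)
    have he : s(w, u) = s(x j, v) := by
      apply (hcross j _).1
      refine ⟨(hF _).2 ⟨w, hKV j hw, u, hu, hwu, rfl, E', hE1, hE2⟩, ⟨w, Sym2.mem_mk_left w u, hw⟩,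
        ⟨u, Sym2.mem_mk_right w u, huK⟩⟩
    rcases Sym2.eq_iff.1 he with ⟨h1, h2⟩ | ⟨h1, h2⟩
    · subst h2
      rw [h1] at hE1
      exact common_unique h (hKV j (hxK j)) hvV (hxv j) hE1 hE2 (hEx j) (hEv j)
    · exact absurd hw (h1 ▸ hvK j)
  have hEinj : Function.Injective E := by
    intro i j hij
    by_contra hne
    have hd := hdisj hne
    rcases h.two (x i) (hKV i (hxK i)) (x j) (hKV j (hxK j)) v hvV (E i) (hEx i)
      (by rw [hij]; exact hEx j) (hEv i) with h1 | h1 | h1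
    · exact Finset.disjoint_left.1 hd (hxK i) (h1 ▸ hxK j)
    · exact hxv i h1
    · exact hxv j h1
  have himg : Finset.univ.image E = darts (A v) (B v) := by
    apply Finset.eq_of_subset_of_card_le
    · intro F' hF'
      obtain ⟨j, -, rfl⟩ := Finset.mem_image.1 hF'
      exact hEv j
    · rw [card_darts' (h.card v hvV), Finset.card_image_of_injective _ hEinj]
      simp
  have hin : ∀ j, (innerSet A B (K j)).card + 1 = (K j).card + g j := by
    intro j
    rw [inner_card h hF (hKV j), ← hcnt j]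
    rfl
  refine numeric (A := A v) (B := B v) (δ := δ v) (uniA := h.uniA v hvV) (uniB := h.uniB v hvV)
    (h.card v hvV) (h.degA v hvV) (h.degB v hvV)
    (h.eqA v hvV) (h.eqB v hvV) (h.dropA v hvV) (h.dropB v hvV) ?_ ?_ hEinj hEv hg1 hg4
    (n := fun j k => nray V A B δ (K j) k) ?_ ?_ ?_
  · intro E' hE' k hk
    rw [← himg] at hE'
    obtain ⟨j, -, rfl⟩ := Finset.mem_image.1 hE'
    exact h.nofacet v hvV (x j) (hKV j (hxK j)) (hxv j).symm (E j) (hEv j) (hEx j) k hk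
  · rintro a ha m hm ⟨h1, h4⟩
    exact count2 h hS hEinj ha hm h1 h4
  · intro j i
    exact (count1 h (hS j)).1 i
  · intro j a ha m hm
    obtain ⟨c1, c2, c3⟩ := count1 h (hS j)
    have c2' := c2 a ha m hm
    have c10 := c1 0
    have c11 := c1 1
    have c12 := c1 2
    have hinj := hin j
    rw [Fin.sum_univ_four] at c3
    rw [Fin.sum_univ_three]
    have e0 : (Fin.succ 0 : Fin 4) = 1 := rfl
    have e1 : (Fin.succ 1 : Fin 4) = 2 := rfl
    have e2 : (Fin.succ 2 : Fin 4) = 3 := rfl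
    rw [e0] at c10
    rw [e1] at c11
    rw [e2] at c12
    omega
  · intro j
    exact count3 h (hS j) (by have := hin j; have := hg1 j; omega)

end Pool.Agent.H47.Trop
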