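import Pool.Agent.H47.Trop.Data

set_option autoImplicit false

namespace Pool.Agent.H47.Trop

/-- The bounded edges of example `i` as a multigraph on the 30 vertex numbers. -/
def exEdges (i : Fin 14) : MGraph ℕ := ((exs i).edges.map fun e => s(e.1, e.2) : List (Sym2 ℕ))

namespace Red

/-! ### Renaming -/

section Ren

variable {V V' W W' : Type*}

theorem mem_verts_of_mem {M : MGraph V} {e : Sym2 V} {x : V} (he : e ∈ M) (hx : x ∈ e) :
    x ∈ verts M := ⟨e, he, hx⟩

theorem verts_prune {M M' : MGraph V} (h : PruneStep M M') : verts M' ⊆ verts M := by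
  obtain ⟨x, y, -, -, rfl⟩ := h
  rintro v ⟨e, he, hv⟩
  exact ⟨e, Multiset.mem_cons_of_mem he, hv⟩

theorem verts_smooth {M M' : MGraph V} (h : SmoothStep M M') : verts M' ⊆ verts M := by
  obtain ⟨a, x, b, M₀, -, -, -, rfl, rfl⟩ := h
  rintro v ⟨e, he, hv⟩
  rw [Multiset.mem_cons] at he
  rcases he with rfl | he
  · rw [Sym2.mem_iff] at hv
    rcases hv with rfl | rfl
    · exact ⟨s(v, x), by simp, by simp⟩
    · exact ⟨s(x, v), by simp, by simp⟩
  · exact ⟨e, by simp [he], hv⟩

/-- `f x ∈ map f e` implies `x ∈ e`. -/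
theorem mem_of_mem_map {M : MGraph V} {f : V → V'} (hf : Set.InjOn f (verts M)) {e : Sym2 V}
    (he : e ∈ M) {x : V} (hx : x ∈ verts M) (h : f x ∈ Sym2.map f e) : x ∈ e := by
  rw [Sym2.mem_map] at h
  obtain ⟨z, hz, hzx⟩ := h
  have := hf (mem_verts_of_mem he hz) hx hzx
  exact this ▸ hz

theorem prune_map {M M' : MGraph V} {f : V → V'} (hf : Set.InjOn f (verts M))
    (h : PruneStep M M') : PruneStep (M.map (Sym2.map f)) (M'.map (Sym2.map f)) := by
  obtain ⟨x, y, hxy, hx, rfl⟩ := h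
  have hxv : x ∈ verts (s(x, y) ::ₘ M') := ⟨s(x, y), by simp, by simp⟩
  have hyv : y ∈ verts (s(x, y) ::ₘ M') := ⟨s(x, y), by simp, by simp⟩
  refine ⟨f x, f y, fun h => hxy (hf hxv hyv h), ?_, by simp⟩
  intro e he hxe
  rw [Multiset.mem_map] at he
  obtain ⟨e', he', rfl⟩ := he
  exact hx e' he' (mem_of_mem_map hf (Multiset.mem_cons_of_mem he') hxv hxe)

theorem smooth_map {M M' : MGraph V} {f : V → V'} (hf : Set.InjOn f (verts M))
    (h : SmoothStep M M') : SmoothStep (M.map (Sym2.map f)) (M'.map (Sym2.map f)) := by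
  obtain ⟨a, x, b, M₀, hax, hbx, hx, rfl, rfl⟩ := h
  have hav : a ∈ verts (s(a, x) ::ₘ s(x, b) ::ₘ M₀) := ⟨s(a, x), by simp, by simp⟩
  have hxv : x ∈ verts (s(a, x) ::ₘ s(x, b) ::ₘ M₀) := ⟨s(a, x), by simp, by simp⟩
  have hbv : b ∈ verts (s(a, x) ::ₘ s(x, b) ::ₘ M₀) := ⟨s(x, b), by simp, by simp⟩
  refine ⟨f a, f x, f b, M₀.map (Sym2.map f), fun h => hax (hf hav hxv h),
    fun h => hbx (hf hbv hxv h), ?_, by simp, by simp⟩
  intro e he hxe
  rw [Multiset.mem_map] at he
  obtain ⟨e', he', rfl⟩ := he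
  exact hx e' he' (mem_of_mem_map hf (by simp [he']) hxv hxe)

theorem prune_of_map {M : MGraph V} {N : MGraph V'} {f : V → V'}
    (h : PruneStep (M.map (Sym2.map f)) N) : ∃ M', PruneStep M M' := by
  classical
  obtain ⟨x', y', hxy, hx, hM⟩ := h
  have hmem : s(x', y') ∈ M.map (Sym2.map f) := by rw [hM]; simp
  rw [Multiset.mem_map] at hmem
  obtain ⟨e, he, hee⟩ := hmem
  have hx' : x' ∈ Sym2.map f e := by rw [hee]; simp
  rw [Sym2.mem_map] at hx'
  obtain ⟨x, hxe, rfl⟩ := hx'
  obtain ⟨y, rfl⟩ := Sym2.mem_iff_exists.1 hxe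
  obtain ⟨M', rfl⟩ := Multiset.exists_cons_of_mem he
  rw [Multiset.map_cons, hee, Multiset.cons_inj_right] at hM
  refine ⟨M', x, y, ?_, ?_, rfl⟩
  · rintro rfl
    rw [Sym2.map_mk, Sym2.eq_iff] at hee
    rcases hee with ⟨-, h⟩ | ⟨h, -⟩
    · exact hxy h
    · exact hxy h
  · intro e he hxe
    exact hx (Sym2.map f e) (by rw [← hM]; exact Multiset.mem_map_of_mem _ he)
      (Sym2.mem_map.2 ⟨x, hxe, rfl⟩)

theorem smooth_of_map {M : MGraph V} {N : MGraph V'} {f : V → V'}
    (hf : Set.InjOn f (verts M))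
    (h : SmoothStep (M.map (Sym2.map f)) N) : ∃ M', SmoothStep M M' := by
  classical
  obtain ⟨a', x', b', N₀, hax, hbx, hx, hM, -⟩ := h
  have hmem : s(a', x') ∈ M.map (Sym2.map f) := by rw [hM]; simp
  rw [Multiset.mem_map] at hmem
  obtain ⟨e, he, hee⟩ := hmem
  have hx' : x' ∈ Sym2.map f e := by rw [hee]; simp
  rw [Sym2.mem_map] at hx'
  obtain ⟨x, hxe, rfl⟩ := hx'
  obtain ⟨a, rfl⟩ := Sym2.mem_iff_exists.1 hxe
  have hxv : x ∈ verts M := ⟨s(x, a), he, by simp⟩
  obtain ⟨M₁, rfl⟩ := Multiset.exists_cons_of_mem he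
  rw [Multiset.map_cons, hee, Multiset.cons_inj_right] at hM
  have hmem : s(f x, b') ∈ M₁.map (Sym2.map f) := by rw [hM]; simp
  rw [Multiset.mem_map] at hmem
  obtain ⟨e₂, he₂, hee₂⟩ := hmem
  have hxe₂ : x ∈ e₂ := by
    refine mem_of_mem_map hf (Multiset.mem_cons_of_mem he₂) hxv ?_
    rw [hee₂]; simp
  obtain ⟨b, rfl⟩ := Sym2.mem_iff_exists.1 hxe₂
  obtain ⟨M₂, rfl⟩ := Multiset.exists_cons_of_mem he₂
  rw [Multiset.map_cons, hee₂, Multiset.cons_inj_right] at hM
  refine ⟨_, a, x, b, M₂, ?_, ?_, ?_, ?_, rfl⟩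
  · rintro rfl
    rw [Sym2.map_mk, Sym2.eq_iff] at hee
    rcases hee with ⟨h, -⟩ | ⟨-, h⟩
    · exact hax h.symm
    · exact hax h.symm
  · rintro rfl
    rw [Sym2.map_mk, Sym2.eq_iff] at hee₂
    rcases hee₂ with ⟨-, h⟩ | ⟨h, -⟩
    · exact hbx h.symm
    · exact hbx h.symm
  · intro e he hxe
    exact hx (Sym2.map f e) (by rw [← hM]; exact Multiset.mem_map_of_mem _ he)
      (Sym2.mem_map.2 ⟨x, hxe, rfl⟩)
  · rw [Sym2.eq_swap]

theorem rtg_prune_map {M M' : MGraph V} {f : V → V'}
    (h : Relation.ReflTransGen PruneStep M M') (hf : Set.InjOn f (verts M)) :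
    Relation.ReflTransGen PruneStep (M.map (Sym2.map f)) (M'.map (Sym2.map f)) ∧
      verts M' ⊆ verts M := by
  induction h with
  | refl => exact ⟨Relation.ReflTransGen.refl, subset_rfl⟩
  | tail _ hs ih =>
      exact ⟨ih.1.tail (prune_map (hf.mono ih.2) hs), (verts_prune hs).trans ih.2⟩

theorem rtg_smooth_map {M M' : MGraph V} {f : V → V'}
    (h : Relation.ReflTransGen SmoothStep M M') (hf : Set.InjOn f (verts M)) :
    Relation.ReflTransGen SmoothStep (M.map (Sym2.map f)) (M'.map (Sym2.map f)) ∧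
      verts M' ⊆ verts M := by
  induction h with
  | refl => exact ⟨Relation.ReflTransGen.refl, subset_rfl⟩
  | tail _ hs ih =>
      exact ⟨ih.1.tail (smooth_map (hf.mono ih.2) hs), (verts_smooth hs).trans ih.2⟩

theorem verts_map {G : MGraph W} (f : W → V) : verts (G.map (Sym2.map f)) = f '' verts G := by
  ext v
  constructor
  · rintro ⟨e, he, hv⟩
    rw [Multiset.mem_map] at he
    obtain ⟨e', he', rfl⟩ := he
    rw [Sym2.mem_map] at hv
    obtain ⟨w, hw, rfl⟩ := hv
    exact ⟨w, ⟨e', he', hw⟩, rfl⟩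
  · rintro ⟨w, ⟨e, he, hw⟩, rfl⟩
    exact ⟨Sym2.map f e, Multiset.mem_map_of_mem _ he, Sym2.mem_map.2 ⟨w, hw, rfl⟩⟩

end Ren

/-! ### Computation -/

section Comp

/-- The multigraph of a list of pairs. -/
def toM (l : List (ℕ × ℕ)) : MGraph ℕ := (l.map fun e => s(e.1, e.2) : List (Sym2 ℕ))

/-- `e` contains `x`. -/
def inc (x : ℕ) (e : ℕ × ℕ) : Bool := e.1 == x || e.2 == x

theorem mem_toM {l : List (ℕ × ℕ)} {e : Sym2 ℕ} : e ∈ toM l ↔ ∃ p ∈ l, s(p.1, p.2) = e := by
  simp [toM]

theorem inc_iff (x : ℕ) (e : ℕ × ℕ) : inc x e = true ↔ x ∈ s(e.1, e.2) := by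
  simp only [inc, Bool.or_eq_true, beq_iff_eq, Sym2.mem_iff]
  constructor
  · rintro (h | h)
    · exact Or.inl h.symm
    · exact Or.inr h.symm
  · rintro (h | h)
    · exact Or.inl h.symm
    · exact Or.inr h.symm

theorem toM_perm {l l' : List (ℕ × ℕ)} (h : l.Perm l') : toM l = toM l' :=
  Multiset.coe_eq_coe.2 (h.map _)

theorem toM_cons (e : ℕ × ℕ) (l : List (ℕ × ℕ)) : toM (e :: l) = s(e.1, e.2) ::ₘ toM l := rfl

theorem toM_append (l l' : List (ℕ × ℕ)) : toM (l ++ l') = toM l + toM l' := by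
  simp [toM]

theorem toM_split (p : ℕ × ℕ → Bool) (l : List (ℕ × ℕ)) :
    toM l = toM (l.filter p) + toM (l.filter fun e => !p e) := by
  rw [← toM_append]
  exact toM_perm (List.filter_append_perm p l).symm

theorem card_inc (x : ℕ) (l : List (ℕ × ℕ)) :
    (l.filter (inc x)).length = Multiset.countP (fun e => x ∈ e) (toM l) := by
  classical
  induction l with
  | nil => rfl
  | cons e l ih =>
      rw [toM_cons, Multiset.countP_cons, List.filter_cons, ← ih]
      by_cases h : inc x e = true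
      · rw [if_pos h, if_pos ((inc_iff x e).1 h), List.length_cons]
      · rw [if_neg h, if_neg (fun h' => h ((inc_iff x e).2 h'))]
        rfl

/-- One pruning step at the vertex `x`. -/
def pruneAt (l : List (ℕ × ℕ)) (x : ℕ) : List (ℕ × ℕ) :=
  match l.filter (inc x) with
  | [e] => if e.1 == e.2 then l else l.filter fun e => !inc x e
  | _ => l

theorem not_mem_filter (x : ℕ) (l : List (ℕ × ℕ)) :
    ∀ e ∈ toM (l.filter fun e => !inc x e), x ∉ e := by
  intro e he hx
  obtain ⟨p, hp, rfl⟩ := mem_toM.1 he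
  rw [List.mem_filter] at hp
  have := (inc_iff x p).2 hx
  simp [this] at hp

theorem pruneAt_spec (l : List (ℕ × ℕ)) (x : ℕ) :
    Relation.ReflTransGen PruneStep (toM l) (toM (pruneAt l x)) := by
  unfold pruneAt
  split
  · rename_i e he
    split_ifs with h
    · exact Relation.ReflTransGen.refl
    · refine Relation.ReflTransGen.single ?_
      have hsplit := toM_split (inc x) l
      rw [he] at hsplit
      have hx : x ∈ s(e.1, e.2) := by
        rw [← inc_iff]
        have : e ∈ l.filter (inc x) := by rw [he]; simp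
        exact (List.mem_filter.1 this).2
      obtain ⟨y, hy⟩ := Sym2.mem_iff_exists.1 hx
      refine ⟨x, y, ?_, not_mem_filter x l, ?_⟩
      · rintro rfl
        rw [Sym2.eq_iff] at hy
        apply h
        rcases hy with ⟨h1, h2⟩ | ⟨h1, h2⟩ <;> simp [h1, h2]
      · rw [hsplit, toM_cons, hy]
        rfl
  · exact Relation.ReflTransGen.refl

/-- Pruning at all vertices of a list. -/
def pruneL (l : List (ℕ × ℕ)) (xs : List ℕ) : List (ℕ × ℕ) := xs.foldl pruneAt l

theorem pruneL_spec (xs : List ℕ) (l : List (ℕ × ℕ)) :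
    Relation.ReflTransGen PruneStep (toM l) (toM (pruneL l xs)) := by
  induction xs generalizing l with
  | nil => exact Relation.ReflTransGen.refl
  | cons x xs ih => exact (pruneAt_spec l x).trans (ih _)

/-- One smoothing step at the vertex `x`. -/
def other (x : ℕ) (e : ℕ × ℕ) : ℕ := if e.1 == x then e.2 else e.1

def smoothAt (l : List (ℕ × ℕ)) (x : ℕ) : List (ℕ × ℕ) :=
  match l.filter (inc x) with
  | [e, e'] => if (e.1 == e.2 || e'.1 == e'.2) then l
      else (other x e, other x e') :: l.filter fun e => !inc x e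
  | _ => l

theorem eq_other {x : ℕ} {e : ℕ × ℕ} (h : inc x e = true) : s(e.1, e.2) = s(other x e, x) := by
  unfold other
  split_ifs with h1
  · have : e.1 = x := by simpa using h1
    rw [this, Sym2.eq_swap]
  · have : e.2 = x := by
      simp only [inc, Bool.or_eq_true, beq_iff_eq] at h
      rcases h with h | h
      · exact absurd (by simpa using h) h1
      · exact h
    rw [this]

theorem other_ne {x : ℕ} {e : ℕ × ℕ} (h : inc x e = true) (h' : e.1 ≠ e.2) : other x e ≠ x := by
  intro h1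
  have := eq_other h
  rw [h1, Sym2.eq_iff] at this
  apply h'
  rcases this with ⟨h1, h2⟩ | ⟨h1, h2⟩ <;> rw [h1, h2]

theorem smoothAt_spec (l : List (ℕ × ℕ)) (x : ℕ) :
    Relation.ReflTransGen SmoothStep (toM l) (toM (smoothAt l x)) := by
  unfold smoothAt
  split
  · rename_i e e' he
    split_ifs with h
    · exact Relation.ReflTransGen.refl
    · refine Relation.ReflTransGen.single ?_
      have hsplit := toM_split (inc x) l
      rw [he] at hsplit
      have hm : ∀ p ∈ [e, e'], inc x p = true := by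
        intro p hp
        rw [← he] at hp
        exact (List.mem_filter.1 hp).2
      have h1 : inc x e = true := hm e (by simp)
      have h2 : inc x e' = true := hm e' (by simp)
      simp only [Bool.or_eq_true, beq_iff_eq, not_or] at h
      refine ⟨other x e, x, other x e', toM (l.filter fun e => !inc x e), other_ne h1 h.1,
        other_ne h2 h.2, not_mem_filter x l, ?_, rfl⟩
      rw [hsplit, toM_cons, toM_cons, eq_other h1, eq_other h2, Sym2.eq_swap (a := other x e')]
      rfl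
  · exact Relation.ReflTransGen.refl

/-- Smoothing at all vertices of a list. -/
def smoothL (l : List (ℕ × ℕ)) (xs : List ℕ) : List (ℕ × ℕ) := xs.foldl smoothAt l

theorem smoothL_spec (xs : List ℕ) (l : List (ℕ × ℕ)) :
    Relation.ReflTransGen SmoothStep (toM l) (toM (smoothL l xs)) := by
  induction xs generalizing l with
  | nil => exact Relation.ReflTransGen.refl
  | cons x xs ih => exact (smoothAt_spec l x).trans (ih _)

/-- Every vertex is in at least two edges or in a loop. -/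
def pruned (l : List (ℕ × ℕ)) : Bool :=
  l.all fun e => e.1 == e.2 ||
    ((l.filter (inc e.1)).length != 1 && (l.filter (inc e.2)).length != 1)

theorem pruned_spec {l : List (ℕ × ℕ)} (h : pruned l = true) (M' : MGraph ℕ) :
    ¬ PruneStep (toM l) M' := by
  classical
  rintro ⟨x, y, hxy, hx, hM⟩
  have hc : (l.filter (inc x)).length = 1 := by
    rw [card_inc, hM, Multiset.countP_cons, if_pos (by simp),
      Multiset.countP_eq_zero.2 hx]
  have hmem : s(x, y) ∈ toM l := by rw [hM]; simp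
  obtain ⟨p, hp, hpe⟩ := mem_toM.1 hmem
  have := List.all_eq_true.1 h p hp
  simp only [Bool.or_eq_true, Bool.and_eq_true, bne_iff_ne, beq_iff_eq] at this
  rw [Sym2.eq_iff] at hpe
  rcases this with h1 | ⟨h1, h2⟩
  · rcases hpe with ⟨h3, h4⟩ | ⟨h3, h4⟩
    · exact hxy (by rw [← h3, ← h4, h1])
    · exact hxy (by rw [← h3, ← h4, h1])
  · rcases hpe with ⟨h3, h4⟩ | ⟨h3, h4⟩
    · rw [h3] at h1; exact h1 hc
    · rw [h4] at h2; exact h2 hc

/-- No vertex is in exactly two edges, except for vertices with a loop. -/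
def smoothed (l : List (ℕ × ℕ)) : Bool :=
  l.all fun e => ((l.filter (inc e.1)).length != 2 || l.contains (e.1, e.1)) &&
    ((l.filter (inc e.2)).length != 2 || l.contains (e.2, e.2))

theorem smoothed_spec {l : List (ℕ × ℕ)} (h : smoothed l = true) (M' : MGraph ℕ) :
    ¬ SmoothStep (toM l) M' := by
  classical
  rintro ⟨a, x, b, M₀, hax, hbx, hx, hM, -⟩
  have hc : (l.filter (inc x)).length = 2 := by
    rw [card_inc, hM, Multiset.countP_cons, Multiset.countP_cons, if_pos (by simp),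
      if_pos (by simp), Multiset.countP_eq_zero.2 hx]
  have hloop : (x, x) ∉ l := by
    intro hl
    have : s(x, x) ∈ toM l := mem_toM.2 ⟨(x, x), hl, rfl⟩
    rw [hM, Multiset.mem_cons, Multiset.mem_cons] at this
    rcases this with h1 | h1 | h1
    · rw [Sym2.eq_iff] at h1
      rcases h1 with ⟨h1, -⟩ | ⟨-, h1⟩ <;> exact hax h1.symm
    · rw [Sym2.eq_iff] at h1
      rcases h1 with ⟨-, h1⟩ | ⟨h1, -⟩ <;> exact hbx h1.symm
    · exact hx _ h1 (by simp)
  have hmem : s(a, x) ∈ toM l := by rw [hM]; simp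
  obtain ⟨p, hp, hpe⟩ := mem_toM.1 hmem
  have := List.all_eq_true.1 h p hp
  simp only [Bool.or_eq_true, Bool.and_eq_true, bne_iff_ne, List.contains_iff_mem] at this
  rw [Sym2.eq_iff] at hpe
  rcases hpe with ⟨h3, h4⟩ | ⟨h3, h4⟩
  · rw [h4] at this
    rcases this.2 with h5 | h5
    · exact h5 hc
    · exact hloop h5
  · rw [h3] at this
    rcases this.1 with h5 | h5
    · exact h5 hc
    · exact hloop h5

/-- The result of pruning. -/
def prunedEx (i : Fin 14) : List (ℕ × ℕ) :=
  pruneL (pruneL (pruneL (exs i).edges (List.range 30)) (List.range 30)) (List.range 30)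

/-- The result of smoothing. -/
def smoothedEx (i : Fin 14) : List (ℕ × ℕ) := smoothL (prunedEx i) (List.range 30)

/-- The positions of the vertices. -/
def cornerEx (i : Fin 14) (j : Fin 6) : ℕ := (exs i).corner.getD j 0

theorem check1 : ∀ i, pruned (prunedEx i) = true := by decide +kernel

theorem check2 : ∀ i, smoothed (smoothedEx i) = true := by decide +kernel

theorem check3 : ∀ i, Function.Injective (cornerEx i) := by decide +kernel

theorem check4 : ∀ i, toM (smoothedEx i) = (graphs i).map (Sym2.map (cornerEx i)) := by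
  decide +kernel

end Comp

end Red

open Red

/-- The 14 explicit graphs reduce to the 14 skeletons. -/
theorem exEdges_reducesTo (i : Fin 14) : ReducesTo (exEdges i) (graphs i) :=
  ⟨toM (prunedEx i), toM (smoothedEx i),
    ((pruneL_spec _ _).trans (pruneL_spec _ _)).trans (pruneL_spec _ _), pruned_spec (check1 i),
    smoothL_spec _ _, smoothed_spec (check2 i), cornerEx i, (check3 i).injOn, check4 i⟩

/-- Renaming the vertices on the left. -/
theorem ReducesTo.map_left {V V' W : Type*} {M : MGraph V} {G : MGraph W} (h : ReducesTo M G)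
    (f : V → V') (hf : Set.InjOn f (verts M)) : ReducesTo (M.map (Sym2.map f)) G := by
  obtain ⟨M₁, M₂, h₁, h₁', h₂, h₂', g, hg, rfl⟩ := h
  obtain ⟨k₁, v₁⟩ := rtg_prune_map h₁ hf
  obtain ⟨k₂, v₂⟩ := rtg_smooth_map h₂ (hf.mono v₁)
  refine ⟨_, _, k₁, ?_, k₂, ?_, f ∘ g, ?_, ?_⟩
  · intro N hN
    obtain ⟨M', hM'⟩ := prune_of_map hN
    exact h₁' M' hM'
  · intro N hN
    obtain ⟨M', hM'⟩ := smooth_of_map (hf.mono (v₂.trans v₁)) hN
    exact h₂' M' hM'
  · refine Set.InjOn.comp (hf.mono (v₂.trans v₁)) hg ?_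
    intro w hw
    rw [verts_map]
    exact ⟨w, hw, rfl⟩
  · rw [Multiset.map_map]
    congr 1
    ext e
    simp [Sym2.map_map]

/-- Renaming the vertices on the right. -/
theorem ReducesTo.map_right {V W W' : Type*} [Nonempty V] {M : MGraph V} {G : MGraph W}
    (h : ReducesTo M G) (f : W → W') (hf : Set.InjOn f (verts G)) :
    ReducesTo M (G.map (Sym2.map f)) := by
  classical
  obtain ⟨M₁, M₂, h₁, h₁', h₂, h₂', g, hg, rfl⟩ := h
  let g' : W' → V := fun w' => if h : ∃ w ∈ verts G, f w = w' then g h.choose else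
    Classical.arbitrary V
  have hg' : ∀ w ∈ verts G, g' (f w) = g w := by
    intro w hw
    have hex : ∃ w₁ ∈ verts G, f w₁ = f w := ⟨w, hw, rfl⟩
    have h1 : g' (f w) = g hex.choose := by simp only [g']; rw [dif_pos hex]
    rw [h1]
    have h2 := hex.choose_spec
    rw [hf h2.1 hw h2.2]
  refine ⟨_, _, h₁, h₁', h₂, h₂', g', ?_, ?_⟩
  · rw [verts_map]
    rintro _ ⟨w, hw, rfl⟩ _ ⟨w₁, hw₁, rfl⟩ heq
    rw [hg' w hw, hg' w₁ hw₁] at heq
    rw [hg hw hw₁ heq]
  · rw [Multiset.map_map]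
    refine Multiset.map_congr rfl ?_
    intro e he
    induction e with
    | _ a b =>
      have ha : a ∈ verts G := ⟨s(a, b), he, by simp⟩
      have hb : b ∈ verts G := ⟨s(a, b), he, by simp⟩
      simp [hg' a ha, hg' b hb]

end Pool.Agent.H47.Trop
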