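import Pool.Agent.H47.Trop.Geom5
import Pool.Agent.H47.Trop.NoSprawl
import Pool.Agent.H47.Trop.Red
import Pool.Agent.H47.Trop.Class
import Pool.Agent.H47.Trop.Check

set_option autoImplicit false

/-!
# Skeletons of smooth tropical complete intersections of degrees 2 and 3: the classification
-/

namespace Pool.Agent.H47.Trop

/-- No sprawling graph of genus 4 is a skeleton. -/
theorem not_sprawling {W : Type*} {G : MGraph W} (hc : Connected G) (ht : Trivalent G)
    (hg : HasGenus G 4) {p q : TPoly} (hp : p.HasDegree 2) (hq : q.HasDegree 3)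
    (hs : Smooth p q) (hsk : IsSkeleton (curve p q) G) : ¬ Sprawling G := by
  have h := setup_of_smooth (by norm_num) (by norm_num) hp hq hs
  obtain ⟨F, hF, hr⟩ := hsk
  refine no_sprawling_skeleton h.curveFacts (F := F) ?_ hr hc ht hg
  intro e
  have he : e ∈ F ↔ e ∈ boundedEdges (curve p q) := by rw [← hF]; simp
  rw [he]
  have hmem : ∀ w, w ∈ h.finite.toFinset ↔ IsV p q w := by intro w; simp
  constructor
  · rintro ⟨v, w, rfl, hvw⟩
    obtain ⟨h1, h2, h3, E, h4, h5⟩ := (h.isEdge_iff v w).1 hvw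
    exact ⟨v, (hmem v).2 h1, w, (hmem w).2 h2, h3, rfl, E, h4, h5⟩
  · rintro ⟨v, hv, w, hw, hvw, rfl, E, h4, h5⟩
    exact ⟨v, w, rfl, (h.isEdge_iff v w).2 ⟨(hmem v).1 hv, (hmem w).1 hw, hvw, E, h4, h5⟩⟩

/-- Two cells share a dart iff they have two monomials of each polynomial in common. -/
theorem exists_dart_iff {A B A' B' : Finset Mon} :
    (∃ E, E ∈ darts A B ∧ E ∈ darts A' B') ↔ 2 ≤ (A ∩ A').card ∧ 2 ≤ (B ∩ B').card := by
  constructor
  · rintro ⟨E, h1, h2⟩
    rw [mem_darts] at h1 h2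
    refine ⟨?_, ?_⟩
    · rw [← h1.1.2]; exact Finset.card_le_card (Finset.subset_inter h1.1.1 h2.1.1)
    · rw [← h1.2.2]; exact Finset.card_le_card (Finset.subset_inter h1.2.1 h2.2.1)
  · rintro ⟨h1, h2⟩
    obtain ⟨S, hS, hSc⟩ := Finset.exists_subset_card_eq h1
    obtain ⟨T, hT, hTc⟩ := Finset.exists_subset_card_eq h2
    refine ⟨(S, T), mem_darts.2 ⟨⟨?_, hSc⟩, ?_, hTc⟩, mem_darts.2 ⟨⟨?_, hSc⟩, ?_, hTc⟩⟩
    · exact hS.trans Finset.inter_subset_left
    · exact hT.trans Finset.inter_subset_left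
    · exact hS.trans Finset.inter_subset_right
    · exact hT.trans Finset.inter_subset_right

/-- The edge lists of the examples are sane. -/
theorem edges_ok (i : Fin 14) : (∀ e ∈ (exs i).edges, e.1 < 30 ∧ e.2 < 30 ∧ e.1 < e.2) ∧
    (exs i).edges.Nodup := by
  fin_cases i <;> decide

theorem exEdges_nodup (i : Fin 14) : (exEdges i).Nodup := by
  unfold exEdges
  rw [Multiset.coe_nodup]
  apply List.Nodup.map_on _ (edges_ok i).2
  intro x hx y hy hxy
  obtain ⟨-, -, h1⟩ := (edges_ok i).1 x hx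
  obtain ⟨-, -, h2⟩ := (edges_ok i).1 y hy
  rw [Sym2.eq_iff] at hxy
  rcases hxy with ⟨a, b⟩ | ⟨a, b⟩
  · exact Prod.ext a b
  · omega

theorem mem_verts_exEdges {i : Fin 14} {j : ℕ} (h : j ∈ verts (exEdges i)) : j < 30 := by
  obtain ⟨e, he, hj⟩ := h
  unfold exEdges at he
  rw [Multiset.mem_coe, List.mem_map] at he
  obtain ⟨x, hx, rfl⟩ := he
  obtain ⟨h1, h2, -⟩ := (edges_ok i).1 x hx
  rw [Sym2.mem_iff] at hj
  rcases hj with rfl | rfl <;> assumption

/-- Example `i` has skeleton `graphs i`. -/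
theorem example_skeleton (i : Fin 14) {W : Type*} {G : MGraph W} {f : Fin 6 → W}
    (hf : Function.Injective f) (hG : G = (graphs i).map (Sym2.map f)) :
    IsSkeleton (curve (exs i).p (exs i).q) G := by
  classical
  have h := setup_of_smooth (by norm_num) (by norm_num) (ex_degree i).1 (ex_degree i).2
    (ex_smooth i)
  set pos := (exs i).pos with hpos
  have hinj : Set.InjOn pos (verts (exEdges i)) := by
    intro j hj k hk hjk
    exact ex_inj i j (mem_verts_exEdges hj) k (mem_verts_exEdges hk) hjk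
  have hnd : ((exEdges i).map (Sym2.map pos)).Nodup := by
    apply Multiset.Nodup.map_on _ (exEdges_nodup i)
    intro x hx y hy hxy
    induction x using Sym2.ind with | _ a b =>
    induction y using Sym2.ind with | _ c d =>
    have ha : a ∈ verts (exEdges i) := ⟨_, hx, by simp⟩
    have hb : b ∈ verts (exEdges i) := ⟨_, hx, by simp⟩
    have hc : c ∈ verts (exEdges i) := ⟨_, hy, by simp⟩
    have hd : d ∈ verts (exEdges i) := ⟨_, hy, by simp⟩
    simp only [Sym2.map_mk, Sym2.eq_iff] at hxy ⊢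
    rcases hxy with ⟨e1, e2⟩ | ⟨e1, e2⟩
    · exact Or.inl ⟨hinj ha hc e1, hinj hb hd e2⟩
    · exact Or.inr ⟨hinj ha hd e1, hinj hb hc e2⟩
  refine ⟨⟨(exEdges i).map (Sym2.map pos), hnd⟩, ?_, ?_⟩
  · ext e
    simp only [Finset.mem_coe, Finset.mem_mk, Multiset.mem_map]
    have hmemE : ∀ a b : ℕ, s(a, b) ∈ exEdges i ↔
        ((a, b) ∈ (exs i).edges ∨ (b, a) ∈ (exs i).edges) := by
      intro a b
      unfold exEdges
      rw [Multiset.mem_coe, List.mem_map]
      constructor
      · rintro ⟨x, hx, hxe⟩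
        rw [Sym2.eq_iff] at hxe
        rcases hxe with ⟨h1, h2⟩ | ⟨h1, h2⟩
        · left; rw [← h1, ← h2]; exact hx
        · right; rw [← h1, ← h2]; exact hx
      · rintro (h1 | h1)
        · exact ⟨_, h1, rfl⟩
        · exact ⟨_, h1, Sym2.eq_swap⟩
    constructor
    · rintro ⟨x, hx, rfl⟩
      induction x using Sym2.ind with | _ a b =>
      have ha : a < 30 := mem_verts_exEdges ⟨_, hx, by simp⟩
      have hb : b < 30 := mem_verts_exEdges ⟨_, hx, by simp⟩
      have h1 := (ex_edge i a ha b hb).2 ((hmemE a b).1 hx)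
      refine ⟨pos a, pos b, by simp, (h.isEdge_iff _ _).2 ⟨?_, ?_, ?_, ?_⟩⟩
      · exact (ex_vertex i _).2 ⟨a, ha, rfl⟩
      · exact (ex_vertex i _).2 ⟨b, hb, rfl⟩
      · intro hh; exact h1.1 (ex_inj i a ha b hb hh)
      · exact exists_dart_iff.2 h1.2
    · rintro ⟨v, w, rfl, hvw⟩
      obtain ⟨h1, h2, h3, h4⟩ := (h.isEdge_iff v w).1 hvw
      obtain ⟨a, ha, rfl⟩ := (ex_vertex i v).1 h1
      obtain ⟨b, hb, rfl⟩ := (ex_vertex i w).1 h2
      refine ⟨s(a, b), (hmemE a b).2 ((ex_edge i a ha b hb).1 ⟨?_, exists_dart_iff.1 h4⟩), by simp [hpos]⟩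
      rintro rfl; exact h3 rfl
  · have h1 := (exEdges_reducesTo i).map_left pos hinj
    have h2 := h1.map_right f hf.injOn
    rw [hG]
    exact h2

/-- Classification of the skeletons of smooth tropical complete intersections of degrees 2
and 3. -/
theorem classification {W : Type*} {G : MGraph W} (hc : Connected G) (ht : Trivalent G)
    (hg : HasGenus G 4) :
    (∃ p q : TPoly, p.HasDegree 2 ∧ q.HasDegree 3 ∧ Smooth p q ∧ IsSkeleton (curve p q) G) ↔
      ¬ Sprawling G := by
  constructor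
  · rintro ⟨p, q, hp, hq, hs, hsk⟩
    exact not_sprawling hc ht hg hp hq hs hsk
  · intro hns
    rcases classify hc ht hg with h | ⟨i, f, hf, hG⟩
    · exact absurd h hns
    · exact ⟨(exs i).p, (exs i).q, (ex_degree i).1, (ex_degree i).2, ex_smooth i,
        example_skeleton i hf hG⟩

end Pool.Agent.H47.Trop
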