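import Pool.Agent.H47.Trop.Class

set_option autoImplicit false

/-!
# The 14 graphs: they are connected, trivalent, of genus 4 and pairwise not isomorphic
-/

namespace Pool.Agent.H47.Trop

theorem graphs_lower (i : Fin 14) : ∀ v : Fin 6, v ≠ 0 → ∃ u : Fin 6, u < v ∧ s(u, v) ∈ graphs i := by
  fin_cases i <;> decide

theorem verts_graphs (i : Fin 14) : verts (graphs i) = Set.univ := by
  have : ∀ v : Fin 6, ∃ e ∈ graphs i, v ∈ e := by fin_cases i <;> decide
  ext v
  simpa [verts] using this v

theorem graphs_connected (i : Fin 14) : Connected (graphs i) := by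
  have h0 : ∀ v : Fin 6, Relation.ReflTransGen (fun a b => s(a, b) ∈ graphs i) 0 v ∧
      Relation.ReflTransGen (fun a b => s(a, b) ∈ graphs i) v 0 := by
    intro v
    induction v using WellFoundedLT.induction with
    | _ v ih =>
      by_cases hv : v = 0
      · subst hv; exact ⟨.refl, .refl⟩
      · obtain ⟨u, hu, hm⟩ := graphs_lower i v hv
        obtain ⟨h1, h2⟩ := ih u hu
        refine ⟨h1.tail hm, Relation.ReflTransGen.head ?_ h2⟩
        rw [Sym2.eq_swap]; exact hm
  refine ⟨?_, fun u _ v _ => (h0 u).2.trans (h0 v).1⟩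
  obtain ⟨u, -, hm⟩ := graphs_lower i 1 (by decide)
  intro h
  rw [h] at hm
  exact absurd hm (Multiset.notMem_zero _)

theorem graphs_trivalent (i : Fin 14) : Trivalent (graphs i) := by
  intro v _
  rw [ClassAux.valence_eq]
  have : ∀ v : Fin 6, ∑ j, (graphs i).count s(v, j) + (graphs i).count s(v, v) = 3 := by
    fin_cases i <;> decide
  exact this v

theorem graphs_genus (i : Fin 14) : HasGenus (graphs i) 4 := by
  unfold HasGenus
  rw [verts_graphs, Set.ncard_univ, Nat.card_eq_fintype_card, Fintype.card_fin]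
  fin_cases i <;> decide

/-- Adjacency numbers. -/
def adjN (G : MGraph (Fin 6)) (a b : Fin 6) : ℕ := G.count s(a, b)

/-- Numbers of walks of length two. -/
def adj2 (M : Fin 6 → Fin 6 → ℕ) (a b : Fin 6) : ℕ := ∑ c, M a c * M c b

/-- Numbers of closed walks of length three and four. -/
def invN (M : Fin 6 → Fin 6 → ℕ) : ℕ × ℕ :=
  (∑ a, ∑ b, adj2 M a b * M b a, ∑ a, ∑ b, adj2 M a b * adj2 M b a)

theorem invN_congr {M N : Fin 6 → Fin 6 → ℕ} (σ : Equiv.Perm (Fin 6))
    (h : ∀ a b, N (σ a) (σ b) = M a b) : invN N = invN M := by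
  have h2 : ∀ a b, adj2 N (σ a) (σ b) = adj2 M a b := by
    intro a b
    unfold adj2
    rw [← Equiv.sum_comp σ]
    exact Finset.sum_congr rfl fun c _ => by rw [h, h]
  unfold invN
  refine Prod.ext ?_ ?_
  · show ∑ a, ∑ b, adj2 N a b * N b a = ∑ a, ∑ b, adj2 M a b * M b a
    rw [← Equiv.sum_comp σ]
    refine Finset.sum_congr rfl fun a _ => ?_
    rw [← Equiv.sum_comp σ]
    exact Finset.sum_congr rfl fun b _ => by rw [h, h2]
  · show ∑ a, ∑ b, adj2 N a b * adj2 N b a = ∑ a, ∑ b, adj2 M a b * adj2 M b a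
    rw [← Equiv.sum_comp σ]
    refine Finset.sum_congr rfl fun a _ => ?_
    rw [← Equiv.sum_comp σ]
    exact Finset.sum_congr rfl fun b _ => by rw [h2, h2]

/-- The values of the invariant. -/
def invTable : Fin 14 → ℕ × ℕ :=
  ![(0, 162), (12, 114), (12, 134), (0, 198), (0, 194), (24, 162), (16, 105), (4, 153), (8, 124),
    (10, 133), (18, 63), (20, 80), (16, 153), (8, 144)]

theorem invN_graphs (i : Fin 14) : invN (adjN (graphs i)) = invTable i := by
  fin_cases i <;> decide +kernel

/-- The 14 graphs are pairwise not isomorphic. -/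
theorem graphs_noniso {i j : Fin 14} {f : Fin 6 → Fin 6} (hf : Function.Injective f)
    (h : graphs j = (graphs i).map (Sym2.map f)) : i = j := by
  have hb : Function.Bijective f := Finite.injective_iff_bijective.1 hf
  have key : invN (adjN (graphs j)) = invN (adjN (graphs i)) := by
    apply invN_congr (Equiv.ofBijective f hb)
    intro a b
    unfold adjN
    rw [h, Equiv.ofBijective_apply, Equiv.ofBijective_apply,
      ← Multiset.count_map_eq_count' (Sym2.map f) (graphs i) (Sym2.map.injective hf), Sym2.map_mk]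
  rw [invN_graphs, invN_graphs] at key
  have : ∀ i j : Fin 14, invTable j = invTable i → i = j := by decide
  exact this i j key

end Pool.Agent.H47.Trop
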