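import Pool.Agent.H47.Trop.Facts

/-!
TS-4 (helper58): the Boolean check behind `numeric`, evaluated by the kernel.
-/

set_option autoImplicit false

namespace Pool.Agent.H47.Trop

namespace Num

/-- triples of natural numbers -/
abbrev N3 := ℕ × ℕ × ℕ
/-- triples of integers -/
abbrev Z3 := ℤ × ℤ × ℤ

/-- difference of two monomials -/
def sb (a b : N3) : Z3 := ((a.1 : ℤ) - b.1, (a.2.1 : ℤ) - b.2.1, (a.2.2 : ℤ) - b.2.2)
/-- cross product -/
def cr (u v : Z3) : Z3 :=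
  (u.2.1 * v.2.2 - u.2.2 * v.2.1, u.2.2 * v.1 - u.1 * v.2.2, u.1 * v.2.1 - u.2.1 * v.1)
/-- scalar product -/
def dt (u v : Z3) : ℤ := u.1 * v.1 + u.2.1 * v.2.1 + u.2.2 * v.2.2
/-- multiplication by `-s` -/
def nsm (s : ℤ) (u : Z3) : Z3 := (-(s * u.1), -(s * u.2.1), -(s * u.2.2))
/-- direction of the dart in which `x` is dropped -/
def ddw (x y : N3) (w : Z3) : Z3 := nsm (dt (sb x y) w) w
def dd (x y z u v : N3) : Z3 := ddw x y (cr (sb z y) (sb v u))
/-- nonnegative -/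
def nn : ℤ → Bool
  | .ofNat _ => true
  | .negSucc _ => false
/-- at least two -/
def ge2 : ℤ → Bool
  | .ofNat n => Nat.ble 2 n
  | .negSucc _ => false
/-- two of four -/
def two4 (a b c d : Bool) : Bool :=
  (a && (b || c || d)) || (b && (c || d)) || (c && d)
def okn (a b c d : ℤ) : Bool :=
  nn a && nn b && nn c && nn d && two4 (ge2 a) (ge2 b) (ge2 c) (ge2 d)
def okc (c : ℤ) (w : Z3) : Bool := okn c (c - w.1) (c - w.2.1) (c - w.2.2)
/-- `(y + u - (1,1,1)) · w` -/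
def du (y u : N3) (w : Z3) : ℤ :=
  ((y.1 : ℤ) + u.1 - 1) * w.1 + ((y.2.1 : ℤ) + u.2.1 - 1) * w.2.1 +
    ((y.2.2 : ℤ) + u.2.2 - 1) * w.2.2
/-- the dart is possible with genus `g` where `t = 2 g - 1` -/
def dok (t : ℤ) (y u : N3) (w : Z3) : Bool := okc (t + du y u w) w
/-- common facet -/
def fac (y z u v : N3) : Bool :=
  (Nat.beq (y.1 + z.1 + u.1 + v.1) 0) || (Nat.beq (y.2.1 + z.2.1 + u.2.1 + v.2.1) 0) ||
  (Nat.beq (y.2.2 + z.2.2 + u.2.2 + v.2.2) 0) ||
  (Nat.beq (y.1 + y.2.1 + y.2.2 + (z.1 + z.2.1 + z.2.2) + (u.1 + u.2.1 + u.2.2) +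
    (v.1 + v.2.1 + v.2.2)) 10)
/-- is a unit -/
def isu : ℤ → Bool
  | .ofNat n => Nat.beq n 1
  | .negSucc n => Nat.beq n 0
/-- all choices of the genera fail -/
def fail (x y u : N3) (w0 w1 w2 : Z3) : Bool :=
  !(dok 3 y u w0 && dok 1 x u w1 && dok 1 x u w2) &&
  !(dok 1 y u w0 && dok 3 x u w1 && dok 1 x u w2) &&
  !(dok 1 y u w0 && dok 1 x u w1 && dok 3 x u w2)
/-- the check of one cell -/
def chk (x y z u v : N3) : Bool :=
  fac y z u v || fac x z u v || fac x y u v ||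
  (!(isu (dt (sb x y) (cr (sb z y) (sb v u))))) ||
  fail x y u (dd x y z u v) (dd y x z u v) (dd z x y u v)
/-- code of a triple -/
def enc (t : N3) : ℕ := 16 * t.1 + (4 * t.2.1 + t.2.2)
/-- no interior corner -/
def cor (a b : N3) : Bool :=
  !(Nat.ble 1 (a.1 + b.1) && Nat.ble 1 (a.2.1 + b.2.1) && Nat.ble 1 (a.2.2 + b.2.2) &&
    Nat.ble (a.1 + b.1 + (a.2.1 + b.2.1) + (a.2.2 + b.2.2)) 4)

def all2 (x y z : N3) (M : List N3) : Bool :=
  M.all fun u => M.all fun v => Nat.ble (enc v) (enc u) || chk x y z u v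

def all3 (L M : List N3) : Bool :=
  L.all fun x => L.all fun y => Nat.ble (enc y) (enc x) || L.all fun z =>
    Nat.ble (enc z) (enc y) || all2 x y z (M.filter fun u => cor x u && cor y u && cor z u)

/-- monomials of degree at most two -/
def P2 : List N3 := [(0,0,0), (0,0,1), (0,0,2), (0,1,0), (0,1,1), (0,2,0), (1,0,0), (1,0,1),
  (1,1,0), (2,0,0)]
/-- monomials of degree at most three -/
def P3 : List N3 := [(0,0,0), (0,0,1), (0,0,2), (0,0,3), (0,1,0), (0,1,1), (0,1,2), (0,2,0),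
  (0,2,1), (0,3,0), (1,0,0), (1,0,1), (1,0,2), (1,1,0), (1,1,1), (1,2,0), (2,0,0), (2,0,1),
  (2,1,0), (3,0,0)]

theorem check23 : all3 P2 P3 = true := by decide +kernel

theorem check32 : all3 P3 P2 = true := by decide +kernel

end Num

end Pool.Agent.H47.Trop
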